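import Pool.Agent.Work.MP_a8fbd7_nt.PAR.RP.StmtsK
import Pool.Agent.Work.MP_a8fbd7_nt.PAR.EF.Opp

/-!
# Item OpP: Theorem RP in the intervals of Oppermann
-/

set_option autoImplicit false

open Finset

namespace Pool.Agent.Work.MP_a8fbd7_nt.PAR.RP.I_OpP

open Pool.Agent.Work.MP_a8fbd7_nt.PAR Pool.Agent.Work.MP_a8fbd7_nt.PAR.LC Pool.Agent.Work.MP_a8fbd7_nt.PAR.EF

/-- prime to the primorial means no prime factor up to `w` -/
theorem cop_iff (w m : ℕ) (h : m.Coprime (primorial w)) (p : ℕ) (hp : p.Prime) (hpm : p ∣ m) : w < p := by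
  by_contra hc
  push Not at hc
  have h1 : p ∣ primorial w := by
    unfold primorial
    exact Finset.dvd_prod_of_mem (fun p => p) (by
      rw [mem_filter, mem_range]
      exact ⟨by omega, hp⟩)
  exact Nat.Prime.one_lt hp |>.ne' (Nat.eq_one_of_dvd_coprimes h hpm h1)

theorem prf : StOpP := by
  classical
  intro h w
  set P := primorial (max w 3) with hPdef
  have h6 : 6 ∣ P := by
    have h2 : 2 ∣ P := by
      rw [hPdef]; unfold primorial
      exact Finset.dvd_prod_of_mem (fun p => p) (by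
        rw [mem_filter, mem_range]
        exact ⟨by have := le_max_right w 3; omega, Nat.prime_two⟩)
    have h3 : 3 ∣ P := by
      rw [hPdef]; unfold primorial
      exact Finset.dvd_prod_of_mem (fun p => p) (by
        rw [mem_filter, mem_range]
        exact ⟨by have := le_max_right w 3; omega, Nat.prime_three⟩)
    exact Nat.Coprime.mul_dvd_of_dvd_of_dvd (by norm_num) h2 h3
  have hP1 : 1 ≤ P := primorial_pos _
  have hsq : Squarefree P := by
    rw [hPdef]; unfold primorial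
    exact Finset.squarefree_prod_of_pairwise_isCoprime (fun a ha b hb hab => by
      rw [Finset.mem_coe, mem_filter] at ha hb
      exact Nat.coprime_iff_isRelPrime.1 ((Nat.coprime_primes ha.2 hb.2).2 hab))
      (fun a ha => by
        rw [mem_filter] at ha
        exact ha.2.prime.squarefree)
  obtain ⟨x0, hx0⟩ := h P h6 hP1 hsq
  refine ⟨max (⌈x0⌉₊ + 200) ⌈Real.exp 10000⌉₊, fun n a b hn ha hb hab => ?_⟩
  have hn1 : ⌈x0⌉₊ + 200 ≤ n := le_trans (le_max_left _ _) hn
  have hn2 : Real.exp 10000 ≤ n := le_trans (Nat.le_ceil _) (by exact_mod_cast le_trans (le_max_right _ _) hn)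
  have hn4 : 200 ≤ n := by omega
  have hnr : (200 : ℝ) ≤ n := by exact_mod_cast hn4
  have hlog : 10000 ≤ Real.log n := by
    rw [Real.le_log_iff_exp_le (by linarith)]
    exact hn2
  set L := Real.log n with hL
  have hLpos : 0 < L := by linarith
  have hnn : n ≤ n ^ 2 := by nlinarith
  have har : (n : ℝ) ^ 2 - n ≤ a := by
    have : ((n ^ 2 - n : ℕ) : ℝ) ≤ a := by exact_mod_cast ha
    rwa [Nat.cast_sub hnn, Nat.cast_pow] at this
  have hbr : (b : ℝ) ≤ (n : ℝ) ^ 2 + n := by exact_mod_cast hb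
  have hq : 0 < (n : ℝ) / L ^ (1 / 100 : ℝ) := by positivity
  have hapos : (0 : ℝ) < a := by nlinarith
  have hab' : (a : ℝ) ≤ (n : ℝ) ^ 2 + n := by linarith
  have hax0 : x0 ≤ a := by
    have h1 : x0 ≤ ⌈x0⌉₊ := Nat.le_ceil _
    have h2 : ((⌈x0⌉₊ + 200 : ℕ) : ℝ) ≤ n := by exact_mod_cast hn1
    push_cast at h2
    nlinarith
  have hsq1 : Real.sqrt a ≤ n + 1 / 2 := by
    rw [Real.sqrt_le_left (by positivity)]
    nlinarith
  have hsq2 : (n : ℝ) / 2 ≤ Real.sqrt a := by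
    refine Real.le_sqrt_of_sq_le ?_
    nlinarith
  have hloglow : 3 / 2 * L ≤ Real.log a := by
    have h1 : (n : ℝ) ^ (3 / 2 : ℝ) ≤ a := by
      have h2 : (n : ℝ) ^ (3 / 2 : ℝ) = n * Real.sqrt n := by
        rw [Real.sqrt_eq_rpow, ← Real.rpow_one_add' (by positivity) (by norm_num)]
        norm_num
      have h3 : Real.sqrt n ≤ n - 1 := by
        rw [Real.sqrt_le_left (by linarith)]
        nlinarith
      rw [h2]
      nlinarith
    calc 3 / 2 * L = Real.log ((n : ℝ) ^ (3 / 2 : ℝ)) := (Real.log_rpow (by linarith) _).symm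
      _ ≤ _ := Real.log_le_log (by positivity) h1
  have hlogup : Real.log a ≤ 2001 / 1000 * L := by
    have h1 : (a : ℝ) ≤ (n : ℝ) ^ 2 * Real.exp 1 := by
      have h2 : (2 : ℝ) ≤ Real.exp 1 := by
        have := Real.add_one_le_exp 1
        linarith
      nlinarith
    have h3 : Real.log a ≤ Real.log ((n : ℝ) ^ 2 * Real.exp 1) := Real.log_le_log hapos h1
    rw [Real.log_mul (by positivity) (Real.exp_pos _).ne', Real.log_exp, Real.log_pow] at h3
    push_cast at h3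
    linarith
  have hlogapos : 0 < Real.log a := by linarith
  -- the length
  have hlen : Real.sqrt a / Real.log a ^ (1 / 100 : ℝ) ≤ n / L ^ (1 / 100 : ℝ) := by
    have h1 : (1 + 1 / 300) * L ^ (1 / 100 : ℝ) ≤ Real.log a ^ (1 / 100 : ℝ) := by
      calc (1 + 1 / 300) * L ^ (1 / 100 : ℝ) ≤ (3 / 2 : ℝ) ^ (1 / 100 : ℝ) * L ^ (1 / 100 : ℝ) := by
            gcongr
            exact num2
        _ = (3 / 2 * L) ^ (1 / 100 : ℝ) := (Real.mul_rpow (by norm_num) hLpos.le).symm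
        _ ≤ _ := Real.rpow_le_rpow (by positivity) hloglow (by norm_num)
    have h2 : 0 < L ^ (1 / 100 : ℝ) := by positivity
    have h3 : 0 < Real.log a ^ (1 / 100 : ℝ) := by positivity
    rw [div_le_div_iff₀ h3 h2]
    calc Real.sqrt a * L ^ (1 / 100 : ℝ) ≤ (n + 1 / 2) * L ^ (1 / 100 : ℝ) := by gcongr
      _ ≤ (n * (1 + 1 / 300)) * L ^ (1 / 100 : ℝ) := by
        gcongr
        linarith
      _ = n * ((1 + 1 / 300) * L ^ (1 / 100 : ℝ)) := by ring
      _ ≤ _ := by gcongr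
  -- the number
  have hnum : (n : ℝ) * Real.exp (-(2 * L ^ (99 / 100 : ℝ))) ≤ Real.sqrt a * Real.exp (-(Real.log a ^ (99 / 100 : ℝ))) := by
    have h1 : Real.log a ^ (99 / 100 : ℝ) ≤ 199 / 100 * L ^ (99 / 100 : ℝ) := by
      calc Real.log a ^ (99 / 100 : ℝ) ≤ (2001 / 1000 * L) ^ (99 / 100 : ℝ) :=
            Real.rpow_le_rpow hlogapos.le hlogup (by norm_num)
        _ = (2001 / 1000 : ℝ) ^ (99 / 100 : ℝ) * L ^ (99 / 100 : ℝ) := Real.mul_rpow (by norm_num) hLpos.le
        _ ≤ _ := by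
          gcongr
          exact num1
    have h2 : 100 ≤ L ^ (99 / 100 : ℝ) := by
      have h4 : (100 : ℝ) = (10000 : ℝ) ^ (1 / 2 : ℝ) := by
        rw [← Real.sqrt_eq_rpow]
        rw [show (10000 : ℝ) = 100 ^ 2 by norm_num, Real.sqrt_sq (by norm_num)]
      calc (100 : ℝ) = (10000 : ℝ) ^ (1 / 2 : ℝ) := h4
        _ ≤ L ^ (1 / 2 : ℝ) := Real.rpow_le_rpow (by norm_num) hlog (by norm_num)
        _ ≤ _ := Real.rpow_le_rpow_of_exponent_le (by linarith) (by norm_num)
    have h3 : Real.exp (-(2 * L ^ (99 / 100 : ℝ))) ≤ 1 / 2 * Real.exp (-(Real.log a ^ (99 / 100 : ℝ))) := by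
      have h5 : -(2 * L ^ (99 / 100 : ℝ)) ≤ -1 + -(Real.log a ^ (99 / 100 : ℝ)) := by linarith
      have h6 : Real.exp (-1 : ℝ) ≤ 1 / 2 := by
        have := Real.add_one_le_exp (1 : ℝ)
        rw [Real.exp_neg, one_div]
        exact inv_anti₀ (by norm_num) (by linarith)
      calc Real.exp (-(2 * L ^ (99 / 100 : ℝ))) ≤ Real.exp (-1 + -(Real.log a ^ (99 / 100 : ℝ))) := Real.exp_le_exp.mpr h5
        _ = Real.exp (-1) * Real.exp (-(Real.log a ^ (99 / 100 : ℝ))) := Real.exp_add _ _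
        _ ≤ _ := by gcongr
    calc (n : ℝ) * Real.exp (-(2 * L ^ (99 / 100 : ℝ))) ≤ n * (1 / 2 * Real.exp (-(Real.log a ^ (99 / 100 : ℝ)))) := by gcongr
      _ = (n / 2) * Real.exp (-(Real.log a ^ (99 / 100 : ℝ))) := by ring
      _ ≤ _ := by gcongr
  have hsub : Icc ⌈(a : ℝ)⌉₊ ⌊(a : ℝ) + Real.sqrt a / Real.log a ^ (1 / 100 : ℝ)⌋₊ ⊆ Icc a b := by
    rw [Nat.ceil_natCast]
    refine Icc_subset_Icc le_rfl ?_
    refine Nat.floor_le_of_le ?_
    linarith
  have hgen : ∀ s : ℤ, s = 1 ∨ s = -1 → (n : ℝ) * Real.exp (-(2 * L ^ (99 / 100 : ℝ))) ≤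
      (((Icc a b).filter fun m => ArithmeticFunction.liouville m = s ∧ m.Coprime P).card : ℝ) := by
    intro s hs
    refine le_trans hnum (le_trans (hx0 a hax0 s hs) ?_)
    exact_mod_cast card_le_card (filter_subset_filter _ hsub)
  have ha0 : a ≠ 0 := by
    rintro rfl
    simp at hapos
  have hw : ∀ m : ℕ, m.Coprime P → ∀ p : ℕ, p.Prime → p ∣ m → w < p := fun m hm p hp hpm =>
    lt_of_le_of_lt (le_max_left w 3) (cop_iff _ m hm p hp hpm)
  constructor
  · refine (hgen 1 (Or.inl rfl)).trans ?_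
    exact_mod_cast card_le_card (fun m hm => by
      rw [mem_filter] at hm ⊢
      have hm1 := mem_Icc.1 hm.1
      exact ⟨hm.1, hw m hm.2.2, (liouville_one (by omega)).1 hm.2.1⟩)
  · refine (hgen (-1) (Or.inr rfl)).trans ?_
    exact_mod_cast card_le_card (fun m hm => by
      rw [mem_filter] at hm ⊢
      have hm1 := mem_Icc.1 hm.1
      exact ⟨hm.1, hw m hm.2.2, (liouville_neg_one (by omega)).1 hm.2.1⟩)

end Pool.Agent.Work.MP_a8fbd7_nt.PAR.RP.I_OpP
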