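import Pool.Agent.Work.MP_a8fbd7_nt.PAR.RP.AllK
import Pool.Agent.Work.MP_a8fbd7_nt.PAR.RP.I_LkZ
import Pool.Agent.Work.MP_a8fbd7_nt.PAR.RP.I_OpP

set_option autoImplicit false

/-!
MP_a8fbd7_nt, block RP (rough parity below the root): everything together, without hypotheses.
-/

namespace Pool.Agent.Work.MP_a8fbd7_nt.PAR.RP

theorem r_LkZ : StLkZ := I_LkZ.prf r_Lk2

/-- THEOREM RP -/
theorem thmRP (P : ℕ) (h6 : 6 ∣ P) (hP : 1 ≤ P) (hs : Squarefree P) : ThmRP P := r_ThmRP r_LkZ P h6 hP hs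

/-- THEOREM RP in the intervals of Oppermann -/
theorem oppRP : OppRP := I_OpP.prf thmRP

end Pool.Agent.Work.MP_a8fbd7_nt.PAR.RP
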