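import Pool.Agent.Work.MP_a8fbd7_nt.PAR.RP.StmtsM

/-!
# [a8fbd7 RP Cr]: changes between neighbours prime to `P`
-/

set_option autoImplicit false

noncomputable section

namespace Pool.Agent.Work.MP_a8fbd7_nt.PAR.RP.I_Cr

open Pool.Agent.Work.MP_a8fbd7_nt.PAR.LC Pool.Agent.Work.MP_a8fbd7_nt.PAR.RP Finset

theorem nxi_mem {P : ℕ} (hP : 1 ≤ P) (m : ℕ) : 1 ≤ nxi P m ∧ (m + nxi P m).Coprime P := by
  have hne : {i : ℕ | 1 ≤ i ∧ (m + i).Coprime P}.Nonempty := by
    have h1 : m + 1 ≤ P * (m + 1) := Nat.le_mul_of_pos_left _ hP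
    refine ⟨P * (m + 1) + 1 - m, by omega, ?_⟩
    have h2 : m + (P * (m + 1) + 1 - m) = P * (m + 1) + 1 := by omega
    rw [h2]
    simp
  exact Nat.sInf_mem hne

theorem nx_le {P a b : ℕ} (hab : a < b) (hb : b.Coprime P) : nx P a ≤ b := by
  have h1 : nxi P a ≤ b - a := Nat.sInf_le ⟨by omega, by
    have : a + (b - a) = b := by omega
    rw [this]
    exact hb⟩
  unfold nx
  omega

theorem chain {P : ℕ} (hP : 1 ≤ P) (f : ℕ → ℤ) : ∀ k a b : ℕ, b - a ≤ k → a ≤ b → a.Coprime P →
    b.Coprime P → (∀ m, a ≤ m → m < b → m.Coprime P → f m = f (nx P m)) → f a = f b := by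
  intro k
  induction k with
  | zero =>
    intro a b h1 h2 _ _ _
    have : a = b := by omega
    rw [this]
  | succ k ih =>
    intro a b h1 h2 ha hb h
    rcases h2.eq_or_lt with h3 | h3
    · rw [h3]
    · obtain ⟨h4, h5⟩ := nxi_mem hP a
      have h6 : nx P a ≤ b := nx_le h3 hb
      have h7 : a < nx P a := by unfold nx; omega
      rw [h a le_rfl h3 ha]
      exact ih (nx P a) b (by omega) h6 h5 hb fun m hm1 hm2 hm3 => h m (by omega) hm2 hm3

theorem step {P : ℕ} (hP : 1 ≤ P) (f : ℕ → ℤ) (x h a b : ℕ) (ha : a < h) (hb : b < h)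
    (hac : (x + a).Coprime P) (hbc : (x + b).Coprime P) (hne : f (x + a) ≠ f (x + b)) :
    ∃ m, x ≤ m ∧ m < x + h ∧ m.Coprime P ∧ f m ≠ f (nx P m) := by
  by_contra hcon
  push Not at hcon
  rcases le_total a b with h1 | h1
  · exact hne (chain hP f (b - a) (x + a) (x + b) (by omega) (by omega) hac hbc
      fun m hm1 hm2 hm3 => hcon m (by omega) (by omega) hm3)
  · exact hne (chain hP f (a - b) (x + b) (x + a) (by omega) (by omega) hbc hac
      fun m hm1 hm2 hm3 => hcon m (by omega) (by omega) hm3).symm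

theorem prf : StCr := by
  classical
  rintro P hP ⟨h, X0, hh, hX⟩
  have hh0 : (0 : ℝ) < h := by exact_mod_cast hh
  refine ⟨1 / (4 * h), max X0 (4 * h), by positivity, fun X hXX => ?_⟩
  have hG := hX X ((le_max_left _ _).trans hXX)
  have hX4 : (4 * h : ℕ) ≤ X := (le_max_right _ _).trans hXX
  set S := (Ico X (2 * X)).filter fun x => x.Coprime P ∧ lam x ≠ lam (nx P x) with hS
  set G := (Ico X (2 * X)).filter fun x => ∀ a < h, ∀ b < h, (x + a).Coprime P → (x + b).Coprime P →
    lam (x + a) = lam (x + b) with hGd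
  set A' := (Ico X (2 * X)).filter fun x => ¬ ∀ a < h, ∀ b < h, (x + a).Coprime P →
    (x + b).Coprime P → lam (x + a) = lam (x + b) with hA'
  have h1 : G.card + A'.card = X := by
    rw [hGd, hA', Finset.card_filter_add_card_filter_not, Nat.card_Ico]
    omega
  have h2 : A' ⊆ Ico (2 * X - h) (2 * X) ∪ S.biUnion fun y => Ico (y + 1 - h) (y + 1) := by
    intro x hx
    rw [hA', Finset.mem_filter, Finset.mem_Ico] at hx
    obtain ⟨⟨hx1, hx2⟩, hx3⟩ := hx
    rw [Finset.mem_union]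
    rcases lt_or_ge (2 * X) (x + h) with h3 | h3
    · left
      rw [Finset.mem_Ico]
      omega
    · right
      push Not at hx3
      obtain ⟨a, ha, b, hb, hac, hbc, hne⟩ := hx3
      obtain ⟨m, hm1, hm2, hm3, hm4⟩ := step hP lam x h a b ha hb hac hbc hne
      rw [Finset.mem_biUnion]
      refine ⟨m, ?_, ?_⟩
      · rw [hS, Finset.mem_filter, Finset.mem_Ico]
        exact ⟨⟨by omega, by omega⟩, hm3, hm4⟩
      · rw [Finset.mem_Ico]
        omega
  have h3 : A'.card ≤ h + S.card * h := by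
    refine (Finset.card_le_card h2).trans ((Finset.card_union_le _ _).trans ?_)
    refine add_le_add ?_ ?_
    · rw [Nat.card_Ico]
      omega
    · refine Finset.card_biUnion_le_card_mul _ _ _ fun y _ => ?_
      rw [Nat.card_Ico]
      omega
  have h4 : X ≤ 4 * (S.card * h) := by omega
  have h5 : (X : ℝ) ≤ 4 * (S.card * h) := by exact_mod_cast h4
  rw [div_mul_eq_mul_div, one_mul, div_le_iff₀ (by positivity)]
  linarith

end Pool.Agent.Work.MP_a8fbd7_nt.PAR.RP.I_Cr
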