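import Pool.Agent.Work.MP_a8fbd7_nt.PAR.RP.StmtsM

set_option autoImplicit false

/-!
MP_a8fbd7_nt, block RP, item Fr: half of the short intervals contain integers prime to `P` of both signs.
-/

open MeasureTheory Finset

noncomputable section

namespace Pool.Agent.Work.MP_a8fbd7_nt.PAR.RP.I_Fr

open Pool.Agent.Work.MP_a8fbd7_nt.PAR Pool.Agent.Work.MP_a8fbd7_nt.PAR.RP

/-- the values of the Liouville function -/
theorem lam_pm (n : ℕ) (hn : n ≠ 0) : MR.lam n = 1 ∨ MR.lam n = -1 := by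
  unfold MR.lam
  rw [ArithmeticFunction.liouville_apply hn]
  rcases neg_one_pow_eq_or ℤ (ArithmeticFunction.cardFactors n) with h | h
  · left
    rw [h]
    norm_num
  · right
    rw [h]
    norm_num

/-- the sequence -/
def sq (P n : ℕ) : ℝ := if n.Coprime P then MR.lam n else 0

theorem sq_Sr (P : ℕ) (hP : P ≠ 1) : Sr P (sq P) := by
  constructor
  · intro n hn
    have hn0 : n ≠ 0 := by
      rintro rfl
      rw [Nat.coprime_zero_left] at hn
      exact hP hn
    unfold sq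
    rw [if_pos hn]
    exact lam_pm n hn0
  · intro n hn
    unfold sq
    rw [if_neg hn]

theorem sq_lmr (P X : ℕ) : (fun n => if X < n then sq P n else 0) = lmr P X := by
  funext n
  unfold lmr sq
  by_cases h1 : X < n
  · by_cases h2 : n.Coprime P
    · rw [if_pos h1, if_pos h2, if_pos ⟨h1, h2⟩]
    · rw [if_pos h1, if_neg h2, if_neg fun h => h2 h.2]
  · rw [if_neg h1, if_neg fun h => h1 h.1]

theorem prf (h1 : StMa) (h2 : StWr) : StFr := by
  classical
  intro P h6 hsq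
  have hP0 : P ≠ 0 := hsq.ne_zero
  have hP6 : 6 ≤ P := Nat.le_of_dvd (by omega) h6
  have hPr : (6 : ℝ) ≤ (P : ℝ) := by exact_mod_cast hP6
  obtain ⟨ε, hε⟩ : ∃ ε : ℝ, ε = 1 / (200 * (P : ℝ) ^ 2) := ⟨_, rfl⟩
  have hε0 : 0 < ε := by rw [hε]; positivity
  obtain ⟨a1, ha1, hMa⟩ := h1 P ε hsq hε0
  obtain ⟨h, hh⟩ : ∃ h : ℝ, h = max a1 (P : ℝ) := ⟨_, rfl⟩
  have hha : a1 ≤ h := by rw [hh]; exact le_max_left _ _
  have hhP : (P : ℝ) ≤ h := by rw [hh]; exact le_max_right _ _
  have hh0 : 0 < h := by linarith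
  obtain ⟨X1, hX1⟩ := hMa h hha
  obtain ⟨h0, X2, hh01, hX2⟩ := h2 P h (by omega) hhP
  refine ⟨h0, 400 * P + X1 + X2, hh01, ?_⟩
  intro X hX
  by_contra hcon
  push Not at hcon
  obtain ⟨X', hX'⟩ : ∃ X' : ℕ, X' = P * (X / P) := ⟨_, rfl⟩
  have hle : X' ≤ X := by rw [hX']; exact Nat.mul_div_le X P
  have hlt : X < X' + P := by
    rw [hX']
    have h3 := Nat.div_add_mod X P
    have h4 := Nat.mod_lt X (by omega : 0 < P)
    omega
  have hdvd : P ∣ X' := by rw [hX']; exact dvd_mul_right _ _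
  set Q : ℕ → Prop := fun x => ∀ a < h0, ∀ b < h0, (x + a).Coprime P → (x + b).Coprime P →
    LC.lam (x + a) = LC.lam (x + b) with hQ
  set S : ℕ → Prop := fun x => ∀ a < h0, ∀ b < h0, (x + a).Coprime P → (x + b).Coprime P →
    sq P (x + a) = sq P (x + b) with hS
  have hsub : (Ico X (2 * X)).filter Q ⊆ (Ico X' (2 * X')).filter S ∪ Ico (2 * X') (2 * X) := by
    intro x hx
    rw [mem_filter, mem_Ico] at hx
    rw [mem_union, mem_filter, mem_Ico, mem_Ico]
    by_cases h3 : x < 2 * X'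
    · left
      refine ⟨⟨by omega, h3⟩, ?_⟩
      intro a ha b hb hca hcb
      have h4 := hx.2 a ha b hb hca hcb
      unfold sq
      rw [if_pos hca, if_pos hcb]
      unfold MR.lam
      unfold LC.lam at h4
      rw [h4]
    · right
      omega
  have hcard := (card_le_card hsub).trans (card_union_le _ _)
  rw [Nat.card_Ico] at hcard
  have hcon' : X < 2 * ((Ico X (2 * X)).filter Q).card := by
    have h3 : (Ico X (2 * X)).filter Q = (Ico X (2 * X)).filter (fun x => ∀ a < h0, ∀ b < h0,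
        (x + a).Coprime P → (x + b).Coprime P → LC.lam (x + a) = LC.lam (x + b)) := rfl
    rw [h3]
    convert hcon using 2
  have hbig : X < 2 * ((Ico X' (2 * X')).filter S).card + 4 * P := by omega
  have hbig' : 49 / 100 * (X' : ℝ) < (((Ico X' (2 * X')).filter S).card : ℝ) := by
    have h3 : (X : ℝ) < 2 * (((Ico X' (2 * X')).filter S).card : ℝ) + 4 * P := by
      exact_mod_cast hbig
    have h4 : ((400 * P : ℕ) : ℝ) ≤ (X : ℝ) := by exact_mod_cast (by omega : 400 * P ≤ X)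
    push_cast at h4
    have h5 : (X' : ℝ) ≤ (X : ℝ) := by exact_mod_cast hle
    linarith
  have hW := hX2 X' (by omega) (sq P) (sq_Sr P (by omega)) (by
    convert hbig' using 2)
  rw [sq_lmr] at hW
  have hM := hX1 X' (by omega) hdvd
  have h7 : h ^ 2 / (100 * (P : ℝ) ^ 2) ≤ ε * h ^ 2 := hW.trans hM
  have h8 : ε * h ^ 2 = h ^ 2 / (100 * (P : ℝ) ^ 2) / 2 := by
    rw [hε]
    field_simp
    norm_num
  have h9 : 0 < h ^ 2 / (100 * (P : ℝ) ^ 2) := by positivity
  linarith

end Pool.Agent.Work.MP_a8fbd7_nt.PAR.RP.I_Fr
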