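import Pool.Agent.Work.MP_a8fbd7_nt.PAR.RP.StmtsM

set_option autoImplicit false

/-!
MP_a8fbd7_nt, block RP, item Ir: inclusion-exclusion.
-/

open MeasureTheory Finset

noncomputable section

namespace Pool.Agent.Work.MP_a8fbd7_nt.PAR.RP.I_Ir

open Pool.Agent.Work.MP_a8fbd7_nt.PAR Pool.Agent.Work.MP_a8fbd7_nt.PAR.RP

/-- the sum of the Moebius function over the common divisors -/
theorem moebius_sum (P n : ℕ) (hP : P ≠ 0) :
    ∑ d ∈ P.divisors, (if d ∣ n then (ArithmeticFunction.moebius d : ℤ) else 0) =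
      if n.Coprime P then 1 else 0 := by
  have h1 : P.divisors.filter (fun d => d ∣ n) = (Nat.gcd n P).divisors := by
    ext d
    simp only [mem_filter, Nat.mem_divisors]
    constructor
    · rintro ⟨⟨h1, h2⟩, h3⟩
      exact ⟨Nat.dvd_gcd h3 h1, fun h => hP (Nat.gcd_eq_zero_iff.1 h).2⟩
    · rintro ⟨h1, h2⟩
      exact ⟨⟨h1.trans (Nat.gcd_dvd_right _ _), hP⟩, h1.trans (Nat.gcd_dvd_left _ _)⟩
  rw [← Finset.sum_filter, h1]
  have h2 := ArithmeticFunction.coe_mul_zeta_apply (R := ℤ) (f := ArithmeticFunction.moebius)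
    (x := Nat.gcd n P)
  rw [ArithmeticFunction.moebius_mul_coe_zeta] at h2
  rw [← h2, ArithmeticFunction.one_apply]

theorem lam_mul (a b : ℕ) : MR.lam (a * b) = MR.lam a * MR.lam b := by
  unfold MR.lam
  rw [ArithmeticFunction.liouville_apply_mul]
  push_cast
  ring

theorem lam_sqf (d : ℕ) (hd : Squarefree d) : MR.lam d = (ArithmeticFunction.moebius d : ℝ) := by
  unfold MR.lam
  rw [ArithmeticFunction.moebius_apply_of_squarefree hd,
    ArithmeticFunction.liouville_apply hd.ne_zero]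

theorem inner (P X d : ℕ) (T u : ℝ) (hP : Squarefree P) (hX : P ∣ X) (hX1 : 1 ≤ X) (hd : d ∣ P) :
    MR.Kf T (2 * (X / d)) (fun n => if X / d < n then MR.lam n else 0) (u - Real.log d) =
      ∑ n ∈ Icc 1 (2 * X), (if d ∣ n then
        (ArithmeticFunction.moebius d : ℝ) * (if X < n then MR.lam n else 0) *
          Real.exp (-(T ^ 2 * (Real.log n - u) ^ 2 / 2)) else 0) := by
  have hd0 : d ≠ 0 := fun h => hP.ne_zero (Nat.eq_zero_of_zero_dvd (h ▸ hd))
  have hdpos : 0 < d := Nat.pos_of_ne_zero hd0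
  have hdX : d ∣ X := hd.trans hX
  obtain ⟨Y, rfl⟩ := hdX
  have hY : d * Y / d = Y := Nat.mul_div_cancel_left _ hdpos
  rw [hY]
  unfold MR.Kf
  rw [← Finset.sum_filter]
  refine Finset.sum_nbij' (fun m => d * m) (fun n => n / d) ?_ ?_ ?_ ?_ ?_
  · intro m hm
    rw [mem_Icc] at hm
    rw [mem_filter, mem_Icc]
    refine ⟨⟨Nat.mul_pos hdpos hm.1, ?_⟩, Dvd.intro _ rfl⟩
    calc d * m ≤ d * (2 * Y) := Nat.mul_le_mul_left _ hm.2
      _ = 2 * (d * Y) := by ring
  · intro n hn
    rw [mem_filter, mem_Icc] at hn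
    obtain ⟨⟨h1, h2⟩, k, rfl⟩ := hn
    show d * k / d ∈ Icc 1 (2 * Y)
    rw [Nat.mul_div_cancel_left _ hdpos, mem_Icc]
    constructor
    · rcases Nat.eq_zero_or_pos k with h | h
      · rw [h, mul_zero] at h1
        omega
      · exact h
    · have h3 : d * k ≤ d * (2 * Y) := by
        calc d * k ≤ 2 * (d * Y) := h2
          _ = d * (2 * Y) := by ring
      exact Nat.le_of_mul_le_mul_left h3 hdpos
  · intro m hm
    exact Nat.mul_div_cancel_left _ hdpos
  · intro n hn
    rw [mem_filter] at hn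
    exact Nat.mul_div_cancel' hn.2
  · intro m hm
    rw [mem_Icc] at hm
    have hm0 : m ≠ 0 := by omega
    have hlog : Real.log ((d * m : ℕ) : ℝ) = Real.log d + Real.log m := by
      push_cast
      exact Real.log_mul (by exact_mod_cast hd0) (by exact_mod_cast hm0)
    have hexp : Real.log (m : ℝ) - (u - Real.log d) = Real.log ((d * m : ℕ) : ℝ) - u := by
      rw [hlog]
      ring
    show (if Y < m then MR.lam m else 0) *
        Real.exp (-(T ^ 2 * (Real.log m - (u - Real.log d)) ^ 2 / 2)) =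
      (ArithmeticFunction.moebius d : ℝ) * (if d * Y < d * m then MR.lam (d * m) else 0) *
        Real.exp (-(T ^ 2 * (Real.log ((d * m : ℕ) : ℝ) - u) ^ 2 / 2))
    rw [hexp]
    congr 1
    have hiff : (d * Y < d * m) ↔ Y < m := Nat.mul_lt_mul_left hdpos
    have hsq : Squarefree d := Squarefree.squarefree_of_dvd hd hP
    by_cases h : Y < m
    · rw [if_pos h, if_pos (hiff.2 h), lam_mul d m, lam_sqf d hsq, ← mul_assoc]
      have h2 : (ArithmeticFunction.moebius d : ℝ) * (ArithmeticFunction.moebius d : ℝ) = 1 := by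
        have h3 := ArithmeticFunction.moebius_sq_eq_one_of_squarefree hsq
        have h4 : ((ArithmeticFunction.moebius d : ℤ) : ℝ) ^ 2 = 1 := by exact_mod_cast h3
        rw [← h4]
        ring
      rw [h2, one_mul]
    · rw [if_neg h, if_neg (fun h' => h (hiff.1 h')), mul_zero]

theorem prf : StIr := by
  intro P X T u hP hX hX1
  have h1 : ∀ d ∈ P.divisors,
      MR.Kf T (2 * (X / d)) (fun n => if X / d < n then MR.lam n else 0) (u - Real.log d) =
      ∑ n ∈ Icc 1 (2 * X), (if d ∣ n then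
        (ArithmeticFunction.moebius d : ℝ) * (if X < n then MR.lam n else 0) *
          Real.exp (-(T ^ 2 * (Real.log n - u) ^ 2 / 2)) else 0) := fun d hd =>
    inner P X d T u hP hX hX1 (Nat.dvd_of_mem_divisors hd)
  rw [Finset.sum_congr rfl h1, Finset.sum_comm]
  unfold MR.Kf
  refine Finset.sum_congr rfl fun n hn => ?_
  rw [mem_Icc] at hn
  have h2 := moebius_sum P n hP.ne_zero
  have h3 : ∑ d ∈ P.divisors, (if d ∣ n then (ArithmeticFunction.moebius d : ℝ) else 0) =
      if n.Coprime P then 1 else 0 := by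
    have h4 : ((∑ d ∈ P.divisors, (if d ∣ n then (ArithmeticFunction.moebius d : ℤ) else 0) : ℤ) :
        ℝ) = ((if n.Coprime P then 1 else 0 : ℤ) : ℝ) := by rw [h2]
    push_cast at h4
    exact h4
  have h5 : ∀ d ∈ P.divisors, (if d ∣ n then
        (ArithmeticFunction.moebius d : ℝ) * (if X < n then MR.lam n else 0) *
          Real.exp (-(T ^ 2 * (Real.log n - u) ^ 2 / 2)) else 0) =
      (if d ∣ n then (ArithmeticFunction.moebius d : ℝ) else 0) *
        ((if X < n then MR.lam n else 0) * Real.exp (-(T ^ 2 * (Real.log n - u) ^ 2 / 2))) := by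
    intro d _
    split_ifs <;> ring
  rw [Finset.sum_congr rfl h5, ← Finset.sum_mul, h3]
  unfold lmr
  by_cases ha : X < n <;> by_cases hb : n.Coprime P <;> simp [ha, hb]

end Pool.Agent.Work.MP_a8fbd7_nt.PAR.RP.I_Ir
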