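import Pool.Agent.Work.MP_a8fbd7_nt.PAR.RP.StmtsM

set_option autoImplicit false

/-!
MP_a8fbd7_nt, block RP, item Ma: mean square of the short sums of `lam` over the integers prime to `P`.
-/

open MeasureTheory Finset

noncomputable section

namespace Pool.Agent.Work.MP_a8fbd7_nt.PAR.RP.I_Ma

open Pool.Agent.Work.MP_a8fbd7_nt.PAR
open Pool.Agent.Work.MP_56b8f5_nt.UC (Dp Sep)

/-- the coefficients -/
def cf (X : ℕ) (n : ℕ) : ℝ := if X < n then MR.lam n else 0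

lemma Aa_eq (X : ℕ) (t : ℝ) :
    MR.Aa X t = Dp (2 * X) (fun n => ((cf X n : ℝ) : ℂ)) t := by
  unfold MR.Aa Dp cf
  have e1 : ⌊(X : ℝ)⌋₊ = X := Nat.floor_natCast X
  have e2 : ⌊2 * (X : ℝ)⌋₊ = 2 * X := by
    rw [show 2 * (X : ℝ) = ((2 * X : ℕ) : ℝ) by push_cast; rfl, Nat.floor_natCast]
  rw [e1, e2]
  have h1 : Finset.Ioc X (2 * X) = (Finset.Icc 1 (2 * X)).filter fun n => X < n := by
    ext n
    simp only [Finset.mem_Ioc, Finset.mem_filter, Finset.mem_Icc]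
    omega
  rw [h1, Finset.sum_filter]
  refine Finset.sum_congr rfl fun n hn => ?_
  by_cases h : X < n
  · simp only [if_pos h]
  · simp only [if_neg h, Complex.ofReal_zero, zero_mul]

lemma Aa_cont (X : ℕ) : Continuous (fun t : ℝ => MR.Aa X t) := by
  unfold MR.Aa
  refine continuous_finsetSum _ fun n hn => ?_
  rw [Finset.mem_Ioc] at hn
  have hn0 : ((n : ℕ) : ℂ) ≠ 0 := by
    have : n ≠ 0 := by omega
    exact_mod_cast this
  refine Continuous.mul continuous_const ?_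
  refine Continuous.const_cpow (by fun_prop) (Or.inl hn0)

lemma Aa_norm (X : ℕ) (t : ℝ) : ‖MR.Aa X t‖ ≤ 2 * X := by
  unfold MR.Aa
  refine (norm_sum_le _ _).trans ?_
  have e1 : ⌊(X : ℝ)⌋₊ = X := Nat.floor_natCast X
  have e2 : ⌊2 * (X : ℝ)⌋₊ = 2 * X := by
    rw [show 2 * (X : ℝ) = ((2 * X : ℕ) : ℝ) by push_cast; rfl, Nat.floor_natCast]
  rw [e1, e2]
  have h : ∀ n ∈ Finset.Ioc X (2 * X), ‖((MR.lam n : ℝ) : ℂ) * (n : ℂ) ^ (-((t : ℂ) * Complex.I))‖ ≤ 1 := by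
    intro n hn
    rw [Finset.mem_Ioc] at hn
    have hn0 : 0 < n := by omega
    rw [norm_mul, Complex.norm_natCast_cpow_of_pos hn0]
    have h1 : (-((t : ℂ) * Complex.I)).re = 0 := by simp
    rw [h1, Real.rpow_zero, mul_one, Complex.norm_real]
    unfold MR.lam
    rw [ArithmeticFunction.liouville_apply (by omega)]
    rcases neg_one_pow_eq_or ℤ (ArithmeticFunction.cardFactors n) with h1 | h1
    · rw [h1]; norm_num
    · rw [h1]; norm_num
  refine (Finset.sum_le_card_nsmul _ _ _ h).trans ?_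
  rw [Nat.card_Ioc, nsmul_eq_mul, mul_one]
  have : 2 * X - X = X := by omega
  rw [this]
  have : (0 : ℝ) ≤ X := Nat.cast_nonneg X
  linarith

lemma integ (X : ℕ) {T : ℝ} (hT : 0 < T) :
    Integrable (fun t : ℝ => Real.exp (-(t / T) ^ 2) * ‖MR.Aa X t‖ ^ 2) := by
  have hg : Integrable (fun t : ℝ => Real.exp (-(1 / T ^ 2) * t ^ 2) * (2 * X : ℝ) ^ 2) :=
    (integrable_exp_neg_mul_sq (by positivity)).mul_const _
  refine hg.mono' ?_ (Filter.Eventually.of_forall fun t => ?_)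
  · refine Continuous.aestronglyMeasurable ?_
    refine Continuous.mul (by fun_prop) ?_
    exact ((Aa_cont X).norm).pow 2
  · have e : -(1 / T ^ 2) * t ^ 2 = -(t / T) ^ 2 := by
      field_simp
    rw [e]
    rw [Real.norm_of_nonneg (by positivity)]
    refine mul_le_mul_of_nonneg_left ?_ (Real.exp_pos _).le
    exact pow_le_pow_left₀ (norm_nonneg _) (Aa_norm X t) 2

/-- one divisor -/
lemma one (h1 : MR.StWI) {ε' h' : ℝ} (hh' : 1 ≤ h') {X Xd P : ℕ} {h : ℝ}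
    (hX1 : 1 ≤ X) (hXd : 1 ≤ Xd) (hXX : Xd ≤ X) (hP : (X : ℝ) ≤ P * Xd) (hh : (P : ℝ) * h' ≤ h) (hP0 : 0 < P)
    (hε : 0 ≤ ε')
    (hI : ∫ t : ℝ, Real.exp (-(t / ((Xd : ℝ) / h')) ^ 2) * ‖MR.Aa Xd t‖ ^ 2 ≤ ε' * (Xd : ℝ) ^ 2) :
    ∫ u : ℝ, MR.Kf ((X : ℝ) / h) (2 * Xd) (cf Xd) u ^ 2 ≤ ε' * h ^ 2 := by
  have hX0 : (0 : ℝ) < X := by exact_mod_cast hX1
  have hXd0 : (0 : ℝ) < Xd := by exact_mod_cast hXd
  have hP0' : (0 : ℝ) < P := by exact_mod_cast hP0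
  have hh0 : 0 < h := lt_of_lt_of_le (mul_pos hP0' (by linarith)) hh
  have hT : 0 < (X : ℝ) / h := by positivity
  have hT' : 0 < (Xd : ℝ) / h' := by positivity
  have hTT : (X : ℝ) / h ≤ (Xd : ℝ) / h' := by
    rw [div_le_div_iff₀ hh0 (by linarith)]
    calc (X : ℝ) * h' ≤ (P * Xd) * h' := mul_le_mul_of_nonneg_right hP (by linarith)
      _ = Xd * (P * h') := by ring
      _ ≤ Xd * h := mul_le_mul_of_nonneg_left hh hXd0.le
  obtain ⟨_, h5⟩ := h1 ((X : ℝ) / h) (2 * Xd) (cf Xd) hT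
  have h6 : ∫ t : ℝ, Real.exp (-(t / ((X : ℝ) / h)) ^ 2) *
      ‖Dp (2 * Xd) (fun n => ((cf Xd n : ℝ) : ℂ)) t‖ ^ 2 ≤
      ∫ t : ℝ, Real.exp (-(t / ((Xd : ℝ) / h')) ^ 2) * ‖MR.Aa Xd t‖ ^ 2 := by
    refine integral_mono_of_nonneg (Filter.Eventually.of_forall fun t => by positivity) (integ Xd hT')
      (Filter.Eventually.of_forall fun t => ?_)
    simp only
    rw [Aa_eq Xd t]
    refine mul_le_mul_of_nonneg_right ?_ (by positivity)
    refine Real.exp_le_exp.2 (neg_le_neg ?_)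
    rw [div_pow t, div_pow t]
    exact div_le_div_of_nonneg_left (by positivity) (by positivity) (pow_le_pow_left₀ hT.le hTT 2)
  rw [← h5] at h6
  have h7 : ((X : ℝ) / h) ^ 2 * ∫ u : ℝ, MR.Kf ((X : ℝ) / h) (2 * Xd) (cf Xd) u ^ 2 ≤ ε' * (X : ℝ) ^ 2 := by
    refine (h6.trans hI).trans (mul_le_mul_of_nonneg_left ?_ hε)
    have : (Xd : ℝ) ≤ X := by exact_mod_cast hXX
    exact pow_le_pow_left₀ hXd0.le this 2
  have h8 : ((X : ℝ) / h) ^ 2 * (ε' * h ^ 2) = ε' * (X : ℝ) ^ 2 := by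
    field_simp
  rw [← h8] at h7
  exact le_of_mul_le_mul_left h7 (by positivity)

theorem prf (h1 : MR.StL2) (h2 : MR.StWI) (h3 : StIr) : StMa := by
  intro P ε hP hε
  have hP0 : 0 < P := Nat.pos_of_ne_zero hP.ne_zero
  set τ : ℝ := (P.divisors.card : ℝ) with hτ
  have hτ0 : 0 < τ := by
    have : 0 < P.divisors.card := Finset.card_pos.2 ⟨1, Nat.one_mem_divisors.2 hP0.ne'⟩
    rw [hτ]
    exact Nat.cast_pos.2 this
  set ε' : ℝ := ε / τ ^ 2 with hε'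
  have hε'0 : 0 < ε' := by positivity
  obtain ⟨h', X0', hh', hL2⟩ := h1 ε' hε'0
  have hP1 : (1 : ℝ) ≤ P := by exact_mod_cast hP0
  refine ⟨P * h', by nlinarith, fun h hh => ⟨P * max 1 ⌈X0'⌉₊, fun X hX hPX => ?_⟩⟩
  have hX1 : 1 ≤ X := by
    have : 1 * 1 ≤ P * max 1 ⌈X0'⌉₊ := Nat.mul_le_mul hP0 (le_max_left _ _)
    omega
  have hh0 : 0 < h := lt_of_lt_of_le (mul_pos (by linarith) (by linarith)) hh
  have hT : 0 < (X : ℝ) / h := by
    have : (0 : ℝ) < X := by exact_mod_cast hX1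
    positivity
  -- the divisors
  have hD : ∀ d ∈ P.divisors, ∫ u : ℝ, MR.Kf ((X : ℝ) / h) (2 * (X / d)) (cf (X / d)) u ^ 2 ≤ ε' * h ^ 2 := by
    intro d hd
    have hdP : d ∣ P := Nat.dvd_of_mem_divisors hd
    have hd0 : 0 < d := Nat.pos_of_dvd_of_pos hdP hP0
    have hdle : d ≤ P := Nat.le_of_dvd hP0 hdP
    have hge : max 1 ⌈X0'⌉₊ ≤ X / d := by
      rw [Nat.le_div_iff_mul_le hd0]
      calc max 1 ⌈X0'⌉₊ * d ≤ max 1 ⌈X0'⌉₊ * P := Nat.mul_le_mul_left _ hdle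
        _ = P * max 1 ⌈X0'⌉₊ := Nat.mul_comm _ _
        _ ≤ X := hX
    have hdX : d ∣ X := hdP.trans hPX
    have hXd : X / d * d = X := Nat.div_mul_cancel hdX
    refine one h2 hh' hX1 ((le_max_left _ _).trans hge) (Nat.div_le_self _ _) ?_ hh hP0 hε'0.le ?_
    · have h4 : X ≤ P * (X / d) := by
        calc X = X / d * d := hXd.symm
          _ ≤ X / d * P := Nat.mul_le_mul_left _ hdle
          _ = P * (X / d) := Nat.mul_comm _ _
      exact_mod_cast h4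
    · refine hL2 ((X / d : ℕ) : ℝ) ?_
      exact (Nat.le_ceil _).trans (by exact_mod_cast (le_max_right 1 ⌈X0'⌉₊).trans hge)
  have hInt : ∀ d ∈ P.divisors, Integrable
      (fun u : ℝ => MR.Kf ((X : ℝ) / h) (2 * (X / d)) (cf (X / d)) (u - Real.log d) ^ 2) := by
    intro d hd
    exact ((h2 ((X : ℝ) / h) (2 * (X / d)) (cf (X / d)) hT).1).comp_sub_right (Real.log d)
  have hle : ∫ u : ℝ, MR.Kf ((X : ℝ) / h) (2 * X) (lmr P X) u ^ 2 ≤
      ∫ u : ℝ, τ * ∑ d ∈ P.divisors, MR.Kf ((X : ℝ) / h) (2 * (X / d)) (cf (X / d)) (u - Real.log d) ^ 2 := by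
    refine integral_mono_of_nonneg (Filter.Eventually.of_forall fun u => by positivity)
      ((integrable_finsetSum _ hInt).const_mul _) (Filter.Eventually.of_forall fun u => ?_)
    simp only
    rw [h3 P X ((X : ℝ) / h) u hP hPX hX1]
    exact sq_sum_le_card_mul_sum_sq
  refine hle.trans ?_
  rw [integral_const_mul, integral_finsetSum _ hInt]
  have h9 : ∑ d ∈ P.divisors, ∫ u : ℝ, MR.Kf ((X : ℝ) / h) (2 * (X / d)) (cf (X / d)) (u - Real.log d) ^ 2 ≤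
      ∑ d ∈ P.divisors, ε' * h ^ 2 := by
    refine Finset.sum_le_sum fun d hd => ?_
    rw [integral_sub_right_eq_self (fun u : ℝ => MR.Kf ((X : ℝ) / h) (2 * (X / d)) (cf (X / d)) u ^ 2)
      (Real.log d)]
    exact hD d hd
  rw [Finset.sum_const, nsmul_eq_mul, ← hτ] at h9
  calc τ * ∑ d ∈ P.divisors, ∫ u : ℝ, MR.Kf ((X : ℝ) / h) (2 * (X / d)) (cf (X / d)) (u - Real.log d) ^ 2
      ≤ τ * (τ * (ε' * h ^ 2)) := mul_le_mul_of_nonneg_left h9 hτ0.le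
    _ = ε * h ^ 2 := by
      rw [hε']
      field_simp

end Pool.Agent.Work.MP_a8fbd7_nt.PAR.RP.I_Ma
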