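import Pool.Agent.Work.MP_a8fbd7_nt.PAR.RP.StmtsM
import Pool.Agent.Work.MP_a8fbd7_nt.PAR.MR.I_WLp
import Pool.Agent.Work.MP_a8fbd7_nt.PAR.LC.I_Cap

set_option autoImplicit false

/-! MP_a8fbd7_nt, block RP, item Wp: one window (copy of `PAR/MR/I_WLp.lean`, with the distance `10 P h`). -/

open MeasureTheory Set Filter Topology

noncomputable section

namespace Pool.Agent.Work.MP_a8fbd7_nt.PAR.RP.I_Wp

open Pool.Agent.Work.MP_a8fbd7_nt.PAR
open Pool.Agent.Work.MP_a8fbd7_nt.PAR.MR.XWLp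

theorem Kn_up (P h y : ℝ) (X n : ℕ) (hh : 1 ≤ h) (hX : 110 * h ≤ X)
    (hy1 : 12 / 10 * (X : ℝ) ≤ y) (hy2 : y ≤ 18 / 10 * (X : ℝ)) (hn1 : 1 ≤ n) (hn2 : n ≤ 2 * X)
    (hn : 10 * P * h < |(n : ℝ) - y|) :
    Kn (X / h) y n ≤ Real.exp (-(5 / 4 * P / h * |(n : ℝ) - y|)) := by
  have hX0 : 0 < (X : ℝ) := by linarith
  have hn0 : 0 < (n : ℝ) := by exact_mod_cast hn1
  have hn3 : (n : ℝ) ≤ 2 * X := by exact_mod_cast hn2
  have hy0 : 0 < y := by linarith
  have h1 : |(n : ℝ) - y| / (2 * X) ≤ |Real.log n - Real.log y| := by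
    rcases le_total y n with hc | hc
    · rw [abs_of_nonneg (by linarith)]
      refine le_trans ?_ (le_abs_self _)
      have e0 : Real.log n - Real.log y = -(Real.log (y / n)) := by
        rw [Real.log_div hy0.ne' hn0.ne']
        ring
      rw [e0]
      have e1 : Real.log (y / n) ≤ y / n - 1 :=
        Real.log_le_sub_one_of_pos (by positivity)
      have e2 : y / n - 1 = -((n - y) / n) := by
        field_simp
        ring
      have e3 : ((n : ℝ) - y) / (2 * X) ≤ (n - y) / n :=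
        div_le_div_of_nonneg_left (by linarith) hn0 hn3
      linarith
    · rw [abs_of_nonpos (by linarith), abs_sub_comm]
      refine le_trans ?_ (le_abs_self _)
      have e0 : Real.log y - Real.log n = -(Real.log (n / y)) := by
        rw [Real.log_div hn0.ne' hy0.ne']
        ring
      rw [e0]
      have e1 : Real.log ((n : ℝ) / y) ≤ (n : ℝ) / y - 1 :=
        Real.log_le_sub_one_of_pos (by positivity)
      have e2 : (n : ℝ) / y - 1 = -((y - n) / y) := by
        field_simp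
        ring
      have e3 : -((n : ℝ) - y) / (2 * X) ≤ (y - n) / y := by
        rw [neg_sub]
        exact div_le_div_of_nonneg_left (by linarith) hy0 (by linarith)
      linarith
  have h0 : 0 ≤ |(n : ℝ) - y| / (2 * X) := by positivity
  have h2 : (|(n : ℝ) - y| / (2 * X)) ^ 2 ≤ (Real.log n - Real.log y) ^ 2 := by
    rw [← sq_abs (Real.log n - Real.log y)]
    exact pow_le_pow_left₀ h0 h1 2
  unfold Kn
  apply Real.exp_le_exp.2
  have h3 : ((X : ℝ) / h) ^ 2 * (|(n : ℝ) - y| / (2 * X)) ^ 2 ≤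
      ((X : ℝ) / h) ^ 2 * (Real.log n - Real.log y) ^ 2 :=
    mul_le_mul_of_nonneg_left h2 (by positivity)
  have hh0 : 0 < h := by linarith
  have h4 : ((X : ℝ) / h) ^ 2 * (|(n : ℝ) - y| / (2 * X)) ^ 2 =
      |(n : ℝ) - y| / (4 * h ^ 2) * |(n : ℝ) - y| := by
    field_simp
    ring
  rw [h4] at h3
  have h5 : 10 / 4 * P / h ≤ |(n : ℝ) - y| / (4 * h ^ 2) := by
    rw [div_le_div_iff₀ hh0 (by positivity)]
    nlinarith [mul_le_mul_of_nonneg_right hn.le hh0.le]
  have h6 : 10 / 4 * P / h * |(n : ℝ) - y| ≤ |(n : ℝ) - y| / (4 * h ^ 2) * |(n : ℝ) - y| :=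
    mul_le_mul_of_nonneg_right h5 (abs_nonneg _)
  have h7 : 5 / 4 * P / h * |(n : ℝ) - y| = 10 / 4 * P / h * |(n : ℝ) - y| / 2 := by ring
  rw [h7]
  linarith

theorem tail (P h y : ℝ) (X : ℕ) (hP : 1 ≤ P) (hPh : P ≤ h) (hX : 110 * P * h ≤ X)
    (hy1 : 12 / 10 * (X : ℝ) ≤ y) (hy2 : y ≤ 18 / 10 * (X : ℝ)) :
    ∑ n ∈ (Finset.Icc 1 (2 * X)).filter (fun n : ℕ => ¬ |(n : ℝ) - y| ≤ 10 * P * h),
      Kn (X / h) y n ≤ 8 / 100 * (h / P) := by
  have hh : 1 ≤ h := hP.trans hPh
  have hh0 : 0 < h := by linarith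
  have hP0 : 0 < P := by linarith
  have hPh1 : h ≤ P * h := by nlinarith
  have hX' : 110 * h ≤ X := by nlinarith
  have hX0 : 0 < (X : ℝ) := by linarith
  have hPhX : 110 * (P * h) ≤ X := by nlinarith
  have ha : 0 < 5 / 4 * P / h := by positivity
  have hd : 0 ≤ y - 10 * P * h := by nlinarith
  set m1 := ⌈y - 10 * P * h⌉₊ with hm1
  set m2 := ⌊y + 10 * P * h⌋₊ + 1 with hm2
  have hm1' : (m1 : ℝ) < y - 10 * P * h + 1 := Nat.ceil_lt_add_one hd
  have hm2' : y + 10 * P * h < (m2 : ℝ) := by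
    rw [hm2]
    push_cast
    exact Nat.lt_floor_add_one _
  have h1 : ∑ n ∈ (Finset.Icc 1 (2 * X)).filter (fun n : ℕ => ¬ |(n : ℝ) - y| ≤ 10 * P * h),
      Kn (X / h) y n ≤
      ∑ n ∈ Finset.range m1, Real.exp (-(5 / 4 * P / h * (y - n))) +
      ∑ n ∈ Finset.Ico m2 (2 * X + 1), Real.exp (-(5 / 4 * P / h * (n - y))) := by
    rw [← Finset.sum_filter_add_sum_filter_not _ (fun n : ℕ => (n : ℝ) < y)]
    apply add_le_add
    · refine le_trans (Finset.sum_le_sum
        (g := fun n : ℕ => Real.exp (-(5 / 4 * P / h * (y - n)))) ?_)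
        (Finset.sum_le_sum_of_subset_of_nonneg ?_ ?_)
      · intro n hn
        simp only [Finset.mem_filter, Finset.mem_Icc, not_le] at hn
        obtain ⟨⟨⟨a1, a2⟩, a3⟩, a4⟩ := hn
        have := Kn_up P h y X n hh hX' hy1 hy2 a1 a2 a3
        rw [abs_of_neg (by linarith), neg_sub] at this
        exact this
      · intro n hn
        simp only [Finset.mem_filter, Finset.mem_Icc, not_le] at hn
        obtain ⟨⟨⟨a1, a2⟩, a3⟩, a4⟩ := hn
        rw [abs_of_neg (by linarith), neg_sub] at a3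
        rw [Finset.mem_range, hm1, Nat.lt_ceil]
        linarith
      · intro n _ _
        positivity
    · refine le_trans (Finset.sum_le_sum
        (g := fun n : ℕ => Real.exp (-(5 / 4 * P / h * (n - y)))) ?_)
        (Finset.sum_le_sum_of_subset_of_nonneg ?_ ?_)
      · intro n hn
        simp only [Finset.mem_filter, Finset.mem_Icc, not_le, not_lt] at hn
        obtain ⟨⟨⟨a1, a2⟩, a3⟩, a4⟩ := hn
        have := Kn_up P h y X n hh hX' hy1 hy2 a1 a2 a3
        rw [abs_of_nonneg (by linarith)] at this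
        exact this
      · intro n hn
        simp only [Finset.mem_filter, Finset.mem_Icc, not_le, not_lt] at hn
        obtain ⟨⟨⟨a1, a2⟩, a3⟩, a4⟩ := hn
        rw [abs_of_nonneg (by linarith)] at a3
        rw [Finset.mem_Ico]
        refine ⟨?_, by omega⟩
        rw [hm2, Nat.succ_le_iff, Nat.floor_lt (by nlinarith)]
        linarith
      · intro n _ _
        positivity
  have h2 := left_sum (5 / 4 * P / h) y ha m1
  have h3 := right_sum (5 / 4 * P / h) y ha m2 (2 * X + 1)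
  have hinv : 1 / (5 / 4 * P / h) = 4 / 5 * (h / P) := by
    field_simp
  rw [hinv] at h2 h3
  have hb : ∀ z : ℝ, 9 * (P * h) ≤ z → Real.exp (-(5 / 4 * P / h * z)) ≤ Real.exp (-(45 / 4)) := by
    intro z hz
    apply Real.exp_le_exp.2
    apply neg_le_neg
    calc (45 / 4 : ℝ) ≤ 45 / 4 * (P * P) := by nlinarith
      _ = 5 / 4 * P / h * (9 * (P * h)) := by
          field_simp
          norm_num
      _ ≤ 5 / 4 * P / h * z := mul_le_mul_of_nonneg_left hz ha.le
  have b1 : Real.exp (-(5 / 4 * P / h * (y - m1))) ≤ Real.exp (-(45 / 4)) := hb _ (by nlinarith)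
  have b2 : Real.exp (-(5 / 4 * P / h * (m2 - y))) ≤ Real.exp (-(45 / 4)) := hb _ (by nlinarith)
  have b3 : Real.exp (-(45 / 4)) ≤ 1 / 70 := by
    rw [Real.exp_neg, ← one_div]
    apply one_div_le_one_div_of_le (by norm_num)
    have := Real.quadratic_le_exp_of_nonneg (x := 45 / 4) (by norm_num)
    norm_num at this ⊢
    linarith
  have hr : 1 ≤ h / P := (one_le_div hP0).2 hPh
  have b4 : 4 / 5 * (h / P) * Real.exp (-(5 / 4 * P / h * (y - m1))) ≤
      4 / 5 * (h / P) * (1 / 70) :=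
    mul_le_mul_of_nonneg_left (b1.trans b3) (by positivity)
  have b5 : (1 + 4 / 5 * (h / P)) * Real.exp (-(5 / 4 * P / h * (m2 - y))) ≤
      (1 + 4 / 5 * (h / P)) * (1 / 70) :=
    mul_le_mul_of_nonneg_left (b2.trans b3) (by positivity)
  linarith

theorem main_low (P : ℕ) (h y : ℝ) (X : ℕ) (hP : 1 ≤ P) (hPh : (P : ℝ) ≤ h)
    (hX : 110 * (P : ℝ) * h ≤ X) (hy1 : 12 / 10 * (X : ℝ) ≤ y) (hy2 : y ≤ 18 / 10 * (X : ℝ)) :
    58 / 100 * (h / P) ≤ ∑ n ∈ (Finset.Icc 1 (2 * X)).filter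
      (fun n : ℕ => |(n : ℝ) - y| ≤ 10 * P * h ∧ n.Coprime P), Kn (X / h) y n := by
  have hP1 : (1 : ℝ) ≤ P := by exact_mod_cast hP
  have hh : 1 ≤ h := hP1.trans hPh
  have hh0 : 0 < h := by linarith
  have hP0 : (0 : ℝ) < P := by linarith
  have hPh1 : h ≤ P * h := by nlinarith
  have hPhX : 110 * ((P : ℝ) * h) ≤ X := by nlinarith
  have hX' : 110 * h ≤ X := by linarith
  have hX0 : 0 < (X : ℝ) := by linarith
  have hd : 0 ≤ y - h := by linarith
  have hcap := (LC.I_Cap.prf P 1 (y - h) (y + h) (2 * X) hP hd (by linarith)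
    (by push_cast; linarith)).2
  have h1 : ∑ n ∈ (Finset.range (2 * X + 1)).filter
        (fun n : ℕ => y - h ≤ (n : ℝ) ∧ (n : ℝ) ≤ y + h ∧ n ≡ 1 [MOD P]), (58 / 100 : ℝ) ≤
      ∑ n ∈ (Finset.Icc 1 (2 * X)).filter
        (fun n : ℕ => |(n : ℝ) - y| ≤ 10 * P * h ∧ n.Coprime P), Kn (X / h) y n := by
    refine le_trans (Finset.sum_le_sum (g := fun n : ℕ => Kn (X / h) y n) ?_)
      (Finset.sum_le_sum_of_subset_of_nonneg ?_ ?_)
    · intro n hn
      rw [Finset.mem_filter] at hn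
      obtain ⟨_, a1, a2, _⟩ := hn
      apply Kn_low h y X n hh hX' hy1
      rw [abs_le]
      constructor <;> linarith
    · intro n hn
      rw [Finset.mem_filter, Finset.mem_range] at hn
      obtain ⟨a0, a1, a2, a3⟩ := hn
      rw [Finset.mem_filter, Finset.mem_Icc]
      refine ⟨⟨?_, by omega⟩, ?_, ?_⟩
      · have : (0 : ℝ) < n := by linarith
        exact_mod_cast this
      · rw [abs_le]
        constructor <;> nlinarith
      · have a4 : Nat.gcd n P = Nat.gcd 1 P := a3.gcd_eq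
        rw [Nat.gcd_one_left] at a4
        exact a4
    · intro n _ _
      unfold Kn
      positivity
  rw [Finset.sum_const, nsmul_eq_mul] at h1
  have c1 : (y + h - (y - h)) / (P : ℝ) - 1 = 2 * (h / P) - 1 := by
    rw [show y + h - (y - h) = 2 * h by ring, mul_div_assoc]
  rw [c1] at hcap
  have hr : 1 ≤ h / P := (one_le_div hP0).2 hPh
  linarith

theorem prf : StWp := by
  intro P h y X s hP hPh hX hy1 hy2 hs hσ
  obtain ⟨σ, hσ⟩ := hσ
  have hP1 : (1 : ℝ) ≤ P := by exact_mod_cast hP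
  have hh : 1 ≤ h := hP1.trans hPh
  have hh0 : 0 < h := by linarith
  have hP0 : (0 : ℝ) < P := by linarith
  have hPh1 : h ≤ P * h := by nlinarith
  have hPhX : 110 * ((P : ℝ) * h) ≤ X := by nlinarith
  have hX' : 110 * h ≤ X := by linarith
  have hX0 : 0 < (X : ℝ) := by linarith
  have t2 := main_low P h y X hP hPh hX hy1 hy2
  have hr : 1 ≤ h / P := (one_le_div hP0).2 hPh
  have hσ1 : |σ| = 1 := by
    have hne : ((Finset.Icc 1 (2 * X)).filter
        (fun n : ℕ => |(n : ℝ) - y| ≤ 10 * P * h ∧ n.Coprime P)).Nonempty := by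
      rw [Finset.nonempty_iff_ne_empty]
      intro h0
      rw [h0, Finset.sum_empty] at t2
      linarith
    obtain ⟨n, hn⟩ := hne
    rw [Finset.mem_filter] at hn
    rw [← hσ n hn.2.1 hn.2.2]
    rcases hs.1 n hn.2.2 with h2 | h2
    · rw [h2]
      simp
    · rw [h2]
      simp
  have e : MR.Kf (X / h) (2 * X) (fun n => if X < n then s n else 0) (Real.log y) =
      σ * ∑ n ∈ (Finset.Icc 1 (2 * X)).filter
          (fun n : ℕ => |(n : ℝ) - y| ≤ 10 * P * h ∧ n.Coprime P), Kn (X / h) y n +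
      ∑ n ∈ (Finset.Icc 1 (2 * X)).filter (fun n : ℕ => ¬ |(n : ℝ) - y| ≤ 10 * P * h),
        (if X < n then s n else 0) * Kn (X / h) y n := by
    unfold MR.Kf
    rw [← Finset.sum_filter_add_sum_filter_not (Finset.Icc 1 (2 * X))
      (fun n : ℕ => |(n : ℝ) - y| ≤ 10 * P * h)]
    congr 1
    rw [Finset.mul_sum]
    rw [← Finset.sum_filter_add_sum_filter_not
      ((Finset.Icc 1 (2 * X)).filter (fun n : ℕ => |(n : ℝ) - y| ≤ 10 * P * h))
      (fun n : ℕ => n.Coprime P), Finset.filter_filter, Finset.filter_filter]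
    have z : ∑ n ∈ (Finset.Icc 1 (2 * X)).filter
        (fun n : ℕ => |(n : ℝ) - y| ≤ 10 * P * h ∧ ¬ n.Coprime P),
        (fun n => if X < n then s n else 0) n *
          Real.exp (-(((X : ℝ) / h) ^ 2 * (Real.log n - Real.log y) ^ 2 / 2)) = 0 := by
      apply Finset.sum_eq_zero
      intro n hn
      rw [Finset.mem_filter] at hn
      have : s n = 0 := hs.2 n hn.2.2
      simp only [this, ite_self, zero_mul]
    rw [z, add_zero]
    apply Finset.sum_congr rfl
    intro n hn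
    rw [Finset.mem_filter] at hn
    have hn2 := abs_le.1 hn.2.1
    have hn3 : (X : ℝ) < n := by nlinarith [hn2.1]
    have hn4 : X < n := by exact_mod_cast hn3
    change (if X < n then s n else 0) * Kn (X / h) y n = σ * Kn (X / h) y n
    rw [if_pos hn4, hσ n hn.2.1 hn.2.2]
  have t1 : |∑ n ∈ (Finset.Icc 1 (2 * X)).filter (fun n : ℕ => ¬ |(n : ℝ) - y| ≤ 10 * P * h),
        (if X < n then s n else 0) * Kn (X / h) y n| ≤ 8 / 100 * (h / P) := by
    refine le_trans (Finset.abs_sum_le_sum_abs _ _) (le_trans (Finset.sum_le_sum ?_)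
      (tail P h y X hP1 hPh hX hy1 hy2))
    intro n _
    have hK : 0 ≤ Kn (X / h) y n := by
      unfold Kn
      positivity
    rw [abs_mul, abs_of_nonneg hK]
    have : |(if X < n then s n else 0)| ≤ 1 := by
      split_ifs
      · by_cases hc : n.Coprime P
        · rcases hs.1 n hc with h2 | h2
          · rw [h2]
            simp
          · rw [h2]
            simp
        · rw [hs.2 n hc]
          simp
      · simp
    nlinarith
  rw [e]
  set A := ∑ n ∈ (Finset.Icc 1 (2 * X)).filter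
        (fun n : ℕ => |(n : ℝ) - y| ≤ 10 * P * h ∧ n.Coprime P), Kn (X / h) y n with hA
  set B := ∑ n ∈ (Finset.Icc 1 (2 * X)).filter (fun n : ℕ => ¬ |(n : ℝ) - y| ≤ 10 * P * h),
        (if X < n then s n else 0) * Kn (X / h) y n with hB
  have t3 : |σ * A| = A := by
    rw [abs_mul, hσ1, one_mul, abs_of_nonneg (by linarith)]
  have t5 : h / (2 * P) = 1 / 2 * (h / P) := by
    field_simp
  have t4 : h / (2 * P) ≤ |σ * A + B| := by
    have := abs_sub_abs_le_abs_sub (σ * A) (-B)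
    rw [abs_neg, sub_neg_eq_add] at this
    linarith
  rw [← sq_abs (σ * A + B)]
  exact pow_le_pow_left₀ (by positivity) t4 2

end Pool.Agent.Work.MP_a8fbd7_nt.PAR.RP.I_Wp
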