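import Pool.Agent.Work.MP_a8fbd7_nt.PAR.RP.StmtsM
import Pool.Agent.Work.MP_a8fbd7_nt.PAR.MR.I_WL

set_option autoImplicit false

/-! Item Wr of the block RP: from constancy on the integers prime to `P` of windows to the mean square. -/

open MeasureTheory Set Filter Topology

noncomputable section

namespace Pool.Agent.Work.MP_a8fbd7_nt.PAR.RP.I_Wr

open Pool.Agent.Work.MP_a8fbd7_nt.PAR

theorem piece (h1 : StWp) (P : ℕ) (hP : 1 ≤ P) (h : ℝ) (hPh : (P : ℝ) ≤ h) (X h0 x : ℕ)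
    (hX : 110 * P * h ≤ X) (s : ℕ → ℝ) (hs : Sr P s) (hh0 : 20 * (P * h) + 1 ≤ h0)
    (hint : Integrable fun u : ℝ =>
      MR.Kf (X / h) (2 * X) (fun n => if X < n then s n else 0) u ^ 2)
    (hx1 : 12 / 10 * (X : ℝ) ≤ x) (hx2 : (x : ℝ) + 10 * (P * h) + 1 ≤ 18 / 10 * X)
    (hc : ∀ a < h0, ∀ b < h0, (x + a).Coprime P → (x + b).Coprime P → s (x + a) = s (x + b)) :
    h ^ 2 / (8 * X * (P : ℝ) ^ 2) ≤
      ∫ u in MR.XWL.Iv (P * h) x,
        MR.Kf (X / h) (2 * X) (fun n => if X < n then s n else 0) u ^ 2 := by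
  have hx0 : (0 : ℝ) ≤ x := Nat.cast_nonneg x
  have hP1 : (1 : ℝ) ≤ P := by exact_mod_cast hP
  have hh : 1 ≤ h := hP1.trans hPh
  have hH : 1 ≤ (P : ℝ) * h := by nlinarith
  have p : 0 < (x : ℝ) + 10 * (P * h) := by linarith
  have p1 : 0 < (x : ℝ) + 10 * (P * h) + 1 := by linarith
  have hX0 : (0 : ℝ) < X := by nlinarith
  obtain ⟨σ, hσ⟩ : ∃ σ : ℝ, ∀ a < h0, (x + a).Coprime P → s (x + a) = σ := by
    by_cases hb : ∃ b < h0, (x + b).Coprime P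
    · obtain ⟨b, hb1, hb2⟩ := hb
      exact ⟨s (x + b), fun a ha hac => hc a ha b hb1 hac hb2⟩
    · exact ⟨0, fun a ha hac => absurd ⟨a, ha, hac⟩ hb⟩
  have hlow : ∀ u ∈ MR.XWL.Iv (P * h) x, (h / (2 * P)) ^ 2 ≤
      MR.Kf (X / h) (2 * X) (fun n => if X < n then s n else 0) u ^ 2 := by
    intro u hu
    have e1 : x + 10 * (P * h) ≤ Real.exp u := by
      rw [← Real.exp_log p]
      exact Real.exp_le_exp.2 hu.1
    have e2 : Real.exp u < x + 10 * (P * h) + 1 := by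
      rw [← Real.exp_log p1]
      exact Real.exp_lt_exp.2 hu.2
    have h2 := h1 P h (Real.exp u) X s hP hPh hX (by linarith) (by linarith) hs ⟨σ, by
      intro n hn hnc
      obtain ⟨a1, a2⟩ := abs_le.1 hn
      have b1 : (x : ℝ) ≤ n := by linarith
      have b2 : x ≤ n := by exact_mod_cast b1
      have b3 : (n : ℝ) < x + h0 := by linarith
      have b4 : n < x + h0 := by exact_mod_cast b3
      have := hσ (n - x) (by omega)
      rw [Nat.add_sub_cancel' b2] at this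
      exact this hnc⟩
    rwa [Real.log_exp] at h2
  have hle : Real.log (x + 10 * (P * h)) ≤ Real.log (x + 10 * (P * h) + 1) :=
    Real.log_le_log p (by linarith)
  have h3 : ∫ _ in MR.XWL.Iv (P * h) x, (h / (2 * P)) ^ 2 ≤
      ∫ u in MR.XWL.Iv (P * h) x,
        MR.Kf (X / h) (2 * X) (fun n => if X < n then s n else 0) u ^ 2 := by
    refine setIntegral_mono_on ?_ hint.integrableOn measurableSet_Ico hlow
    exact integrableOn_const (by rw [MR.XWL.Iv, Real.volume_Ico]; exact ENNReal.ofReal_ne_top)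
  refine le_trans ?_ h3
  rw [setIntegral_const, MR.XWL.Iv, Real.volume_real_Ico_of_le hle, smul_eq_mul]
  have h4 := MR.XWL.length (P * h) hH x X (by linarith)
  have h5 : h ^ 2 / (8 * X * (P : ℝ) ^ 2) = 1 / (2 * (X : ℝ)) * (h / (2 * P)) ^ 2 := by
    have : (P : ℝ) ≠ 0 := by linarith
    field_simp
    ring
  rw [h5]
  exact mul_le_mul_of_nonneg_right h4 (by positivity)

theorem count (X : ℕ) (h : ℝ) (hh : 1 ≤ h) (hX : 2000 * h ≤ X) (Q : ℕ → Prop) [DecidablePred Q]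
    (hG : 49 / 100 * (X : ℝ) < ((Finset.Ico X (2 * X)).filter Q).card) :
    8 / 100 * (X : ℝ) ≤ (((Finset.Ico X (2 * X)).filter Q).filter
      (fun x : ℕ => 12 / 10 * (X : ℝ) ≤ x ∧ (x : ℝ) + 10 * h + 1 ≤ 18 / 10 * X)).card := by
  have hX0 : (0 : ℝ) < X := by linarith
  set G := (Finset.Ico X (2 * X)).filter Q with hGdef
  have hsub : G ⊆ (G.filter
      (fun x : ℕ => 12 / 10 * (X : ℝ) ≤ x ∧ (x : ℝ) + 10 * h + 1 ≤ 18 / 10 * X)) ∪
      (Finset.Ico X ⌈12 / 10 * (X : ℝ)⌉₊ ∪ Finset.Ioo ⌊18 / 10 * (X : ℝ) - 10 * h - 1⌋₊ (2 * X)) := by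
    intro x hx
    rw [Finset.mem_union, Finset.mem_union]
    by_cases h1 : 12 / 10 * (X : ℝ) ≤ x
    · by_cases h2 : (x : ℝ) + 10 * h + 1 ≤ 18 / 10 * X
      · exact Or.inl (Finset.mem_filter.2 ⟨hx, h1, h2⟩)
      · refine Or.inr (Or.inr (Finset.mem_Ioo.2 ⟨?_, (Finset.mem_Ico.1 (Finset.mem_filter.1 hx).1).2⟩))
        rw [Nat.floor_lt (by linarith)]
        linarith
    · refine Or.inr (Or.inl (Finset.mem_Ico.2 ⟨(Finset.mem_Ico.1 (Finset.mem_filter.1 hx).1).1, ?_⟩))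
      rw [Nat.lt_ceil]
      exact not_le.1 h1
  have h1 := Finset.card_le_card hsub
  have h2 := h1.trans (Finset.card_union_le _ _)
  have h3 := Finset.card_union_le (Finset.Ico X ⌈12 / 10 * (X : ℝ)⌉₊)
    (Finset.Ioo ⌊18 / 10 * (X : ℝ) - 10 * h - 1⌋₊ (2 * X))
  rw [Nat.card_Ico, Nat.card_Ioo] at h3
  have h4 : ((⌈12 / 10 * (X : ℝ)⌉₊ - X : ℕ) : ℝ) ≤ 2 / 10 * X + 1 := by
    have a1 : (⌈12 / 10 * (X : ℝ)⌉₊ : ℝ) < 12 / 10 * X + 1 := Nat.ceil_lt_add_one (by positivity)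
    have a2 : X ≤ ⌈12 / 10 * (X : ℝ)⌉₊ := by
      have : (X : ℝ) ≤ ⌈12 / 10 * (X : ℝ)⌉₊ := by
        refine le_trans ?_ (Nat.le_ceil _)
        linarith
      exact_mod_cast this
    rw [Nat.cast_sub a2]
    linarith
  have h5 : ((2 * X - ⌊18 / 10 * (X : ℝ) - 10 * h - 1⌋₊ - 1 : ℕ) : ℝ) ≤ 2 / 10 * X + 10 * h + 2 := by
    have a1 : 18 / 10 * (X : ℝ) - 10 * h - 1 < (⌊18 / 10 * (X : ℝ) - 10 * h - 1⌋₊ : ℝ) + 1 :=
      Nat.lt_floor_add_one _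
    have a2 : ((2 * X - ⌊18 / 10 * (X : ℝ) - 10 * h - 1⌋₊ - 1 : ℕ) : ℝ) ≤
        ((2 * X - ⌊18 / 10 * (X : ℝ) - 10 * h - 1⌋₊ : ℕ) : ℝ) := by
      exact_mod_cast Nat.sub_le _ _
    refine a2.trans ?_
    have a3 : ⌊18 / 10 * (X : ℝ) - 10 * h - 1⌋₊ ≤ 2 * X := by
      have : (⌊18 / 10 * (X : ℝ) - 10 * h - 1⌋₊ : ℝ) ≤ 2 * X := by
        refine le_trans (Nat.floor_le (by linarith)) ?_
        linarith
      exact_mod_cast this
    rw [Nat.cast_sub a3]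
    push_cast
    linarith
  have h6 : (G.card : ℝ) ≤ ((G.filter
      (fun x : ℕ => 12 / 10 * (X : ℝ) ≤ x ∧ (x : ℝ) + 10 * h + 1 ≤ 18 / 10 * X)).card : ℝ) +
      (((⌈12 / 10 * (X : ℝ)⌉₊ - X : ℕ) : ℝ) +
        ((2 * X - ⌊18 / 10 * (X : ℝ) - 10 * h - 1⌋₊ - 1 : ℕ) : ℝ)) := by
    exact_mod_cast h2.trans (Nat.add_le_add_left h3 _)
  linarith

theorem prf (h1 : StWp) (h2 : MR.StWI) : StWr := by
  intro P h hP hPh
  have hP1 : (1 : ℝ) ≤ P := by exact_mod_cast hP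
  have hh : 1 ≤ h := hP1.trans hPh
  have hH : 1 ≤ (P : ℝ) * h := by nlinarith
  refine ⟨⌈20 * (P * h)⌉₊ + 3, ⌈2000 * (P * h)⌉₊, by omega, ?_⟩
  intro X hX s hs hG
  have hX1 : 2000 * (P * h) ≤ X := (Nat.le_ceil _).trans (by exact_mod_cast hX)
  have hX0 : (0 : ℝ) < X := by linarith
  have hint := (h2 (X / h) (2 * X) (fun n => if X < n then s n else 0) (by positivity)).1
  set f : ℝ → ℝ := fun u => MR.Kf (X / h) (2 * X) (fun n => if X < n then s n else 0) u ^ 2 with hf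
  classical
  set Q : ℕ → Prop := fun x => ∀ a < ⌈20 * (P * h)⌉₊ + 3, ∀ b < ⌈20 * (P * h)⌉₊ + 3,
    (x + a).Coprime P → (x + b).Coprime P → s (x + a) = s (x + b) with hQ
  have hG' : 49 / 100 * (X : ℝ) < ((Finset.Ico X (2 * X)).filter Q).card := by
    convert hG
  have hc := count X (P * h) hH hX1 Q hG'
  set G' := ((Finset.Ico X (2 * X)).filter Q).filter
      (fun x : ℕ => 12 / 10 * (X : ℝ) ≤ x ∧ (x : ℝ) + 10 * (P * h) + 1 ≤ 18 / 10 * X) with hG'd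
  have hh0 : 20 * (P * h) + 1 ≤ ((⌈20 * (P * h)⌉₊ + 3 : ℕ) : ℝ) := by
    have := Nat.le_ceil (20 * (P * h))
    push_cast
    linarith
  have h3 : ∫ u in ⋃ x ∈ G', MR.XWL.Iv (P * h) x, f u =
      ∑ x ∈ G', ∫ u in MR.XWL.Iv (P * h) x, f u :=
    integral_biUnion_finset G' (fun x _ => measurableSet_Ico)
      (fun x _ y _ hxy => MR.XWL.disj (P * h) hH hxy) (fun x _ => hint.integrableOn)
  have h4 : ∫ u in ⋃ x ∈ G', MR.XWL.Iv (P * h) x, f u ≤ ∫ u, f u :=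
    setIntegral_le_integral hint (Filter.Eventually.of_forall fun u => by
      simp only [hf, Pi.zero_apply]
      positivity)
  have h5 : ∑ _x ∈ G', h ^ 2 / (8 * X * (P : ℝ) ^ 2) ≤
      ∑ x ∈ G', ∫ u in MR.XWL.Iv (P * h) x, f u := by
    refine Finset.sum_le_sum fun x hx => ?_
    obtain ⟨a1, a2, a3⟩ := Finset.mem_filter.1 hx
    obtain ⟨_, a4⟩ := Finset.mem_filter.1 a1
    exact piece h1 P hP h hPh X _ x (by nlinarith) s hs hh0 hint a2 a3 a4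
  rw [Finset.sum_const, nsmul_eq_mul] at h5
  have h6 : 8 / 100 * (X : ℝ) * (h ^ 2 / (8 * X * (P : ℝ) ^ 2)) ≤
      (G'.card : ℝ) * (h ^ 2 / (8 * X * (P : ℝ) ^ 2)) :=
    mul_le_mul_of_nonneg_right hc (by positivity)
  have h7 : 8 / 100 * (X : ℝ) * (h ^ 2 / (8 * X * (P : ℝ) ^ 2)) = h ^ 2 / (100 * (P : ℝ) ^ 2) := by
    have : (P : ℝ) ≠ 0 := by linarith
    field_simp
  rw [h7] at h6
  linarith

end Pool.Agent.Work.MP_a8fbd7_nt.PAR.RP.I_Wr
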