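import Pool.Agent.Work.MP_a8fbd7_nt.PAR.MR.All
import Pool.Agent.Work.MP_a8fbd7_nt.PAR.RP.I_Ir
import Pool.Agent.Work.MP_a8fbd7_nt.PAR.RP.I_Ma
import Pool.Agent.Work.MP_a8fbd7_nt.PAR.RP.I_Wp
import Pool.Agent.Work.MP_a8fbd7_nt.PAR.RP.I_Wr
import Pool.Agent.Work.MP_a8fbd7_nt.PAR.RP.I_Fr
import Pool.Agent.Work.MP_a8fbd7_nt.PAR.RP.I_Cr

set_option autoImplicit false

/-!
MP_a8fbd7_nt, block RP, module M: assembly.  The theorem of Matomäki and Radziwiłł (weak form) for the Liouville function on the integers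
prime to `P`, without hypotheses.
-/

namespace Pool.Agent.Work.MP_a8fbd7_nt.PAR.RP

theorem m_Ma : StMa := I_Ma.prf MR.all_L2 MR.all_WI I_Ir.prf

theorem m_Wr : StWr := I_Wr.prf I_Wp.prf MR.all_WI

theorem m_Fr : StFr := I_Fr.prf m_Ma m_Wr

/-- A positive proportion of changes of sign between neighbouring integers prime to `P`. -/
theorem m_Chg (P : ℕ) (h6 : 6 ∣ P) (hsq : Squarefree P) : ChgR P :=
  I_Cr.prf P (Nat.pos_of_ne_zero hsq.ne_zero) (m_Fr P h6 hsq)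

end Pool.Agent.Work.MP_a8fbd7_nt.PAR.RP
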