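import Pool.Agent.Work.MP_a8fbd7_nt.PAR.RP.StmtsK

set_option autoImplicit false

/-! Block RP, item Bd3 (copy of `EF/I_Bd2.lean`). -/

open Finset

noncomputable section

namespace Pool.Agent.Work.MP_a8fbd7_nt.PAR.RP.I_Bd3

open Pool.Agent.Work.MP_a8fbd7_nt.PAR.RP Pool.Agent.Work.MP_a8fbd7_nt.PAR.LC
  Pool.Agent.Work.MP_a8fbd7_nt.PAR.EF

lemma chain (x : ℕ → ℝ) (g : ℝ) : ∀ N : ℕ, x 0 ≤ g → g ≤ x (N + 1) →
    ∃ i ≤ N, x i ≤ g ∧ g ≤ x (i + 1) := by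
  intro N
  induction N with
  | zero => exact fun h0 h1 => ⟨0, le_rfl, h0, h1⟩
  | succ N ih =>
    intro h0 h1
    rcases le_total g (x (N + 1)) with h | h
    · obtain ⟨i, hi, h2⟩ := ih h0 h
      exact ⟨i, hi.trans (Nat.le_succ N), h2⟩
    · exact ⟨N + 1, le_rfl, h, h1⟩

lemma card_cover (A S1 I : Finset ℕ) (S2 T S4 : ℕ → Finset ℕ) (a b : ℕ)
    (Cc : ℕ → ℕ → ℕ → ℕ → Finset ℕ)
    (h : A ⊆ S1 ∪ I.biUnion fun i => (S2 i ∪ (T i).biUnion fun g0 => (range a).biUnion fun e =>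
      (range b).biUnion fun k => Cc i g0 e k) ∪ S4 i) :
    (A.card : ℝ) ≤ (S1.card : ℝ) + ∑ i ∈ I, (((S2 i).card : ℝ) +
      ∑ g0 ∈ T i, ∑ e ∈ range a, ∑ k ∈ range b, ((Cc i g0 e k).card : ℝ) + ((S4 i).card : ℝ)) := by
  have h1 : A.card ≤ S1.card + ∑ i ∈ I, ((S2 i).card +
      ∑ g0 ∈ T i, ∑ e ∈ range a, ∑ k ∈ range b, (Cc i g0 e k).card + (S4 i).card) :=
    (card_le_card h).trans ((card_union_le _ _).trans (Nat.add_le_add_left
      (card_biUnion_le.trans (sum_le_sum fun i _ => (card_union_le _ _).trans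
        (Nat.add_le_add_right ((card_union_le _ _).trans (Nat.add_le_add_left
          (card_biUnion_le.trans (sum_le_sum fun g0 _ => card_biUnion_le.trans
            (sum_le_sum fun e _ => card_biUnion_le))) _)) _))) _))
  exact_mod_cast h1

theorem prf (hLk : StLkZ) (hAt : StAt2) : StBd3 := by
  classical
  intro f F n c P J B W K0 K1 K2 K3 m hP hf
  have hc : 0 < c := hP.pa.c0
  have hn : 0 < n := lt_of_lt_of_le one_pos hP.pa.hn
  have hJ : (0 : ℝ) < J := lt_of_lt_of_le (by positivity) hP.pa.J1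
  have hB : (0 : ℝ) < B := lt_of_lt_of_le (by positivity) hP.pa.B1
  have hR : 0 < 200 * (J : ℝ) / c := by positivity
  have hJn : 0 < J := by exact_mod_cast hJ
  have hPn : 0 < P := hP.P0
  have hPr : (0 : ℝ) < P := by exact_mod_cast hPn
  -- the part of the attached integers
  have hExpos : ∀ m' ∈ ExR P f F n c, 1 ≤ m' := by
    intro m' hm'
    unfold ExR Ex at hm'
    rw [mem_filter, mem_filter, mem_Icc] at hm'
    have h1 : 0 < ⌈n ^ 2⌉₊ := Nat.ceil_pos.2 (by positivity)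
    omega
  have hS4 := fun i => hAt (K1 ^ m * K3) (⌊9 * (200 * (J : ℝ) / c) * n⌋₊ + 1) i (ExR P f F n c)
    hExpos
  have hsub : BdR P f n (200 * J / c) J ⊆
      ((Icc 1 ⌊1800 * J / c * n⌋₊).filter (fun g => om K0 K1 g < m)) ∪
      (Icc 1 P).biUnion fun i =>
        (((Icc 1 ⌊1800 * J / c * n⌋₊).filter (fun g => ∀ p ∈ Pr K2 K3, ¬ p ∣ g + 2 * i)) ∪
        ((range P).filter (fun g0 => g0.Coprime P ∧ (g0 + 2 * i).Coprime P)).biUnion fun g0 =>
        (range 46).biUnion fun e => (range (B / (2 * P * J) + 1)).biUnion fun k =>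
          ((c3 n ⌈200 * J / c * (21 / 20 : ℝ) ^ e * n⌉₊
            ⌊21 / 20 * (200 * J / c * (21 / 20 : ℝ) ^ e) * n⌋₊ B k P g0).filter
          (fun g => m ≤ om K0 K1 g ∧ (∃ t ∈ Pr K2 K3, t ∣ g + 2 * i) ∧
            ¬ LkR n c (200 * J / c * (21 / 20 : ℝ) ^ e) (K1 ^ m * K3) B k P i g))) ∪
      ((range (⌊9 * (200 * (J : ℝ) / c) * n⌋₊ + 1)).filter
        (fun g => AtR (K1 ^ m * K3) (ExR P f F n c) i g)) := by
    intro g hg
    unfold BdR at hg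
    rw [mem_filter, mem_Icc] at hg
    obtain ⟨⟨hg1, hg2⟩, hgP, hfl, hfr, i, hi1, hi2, hgi, hne⟩ := hg
    have hRn : 0 < 200 * (J : ℝ) / c * n := mul_pos hR hn
    have hg0 : 1 ≤ g := by
      have h1 : 0 < ⌈200 * (J : ℝ) / c * n⌉₊ := Nat.ceil_pos.2 hRn
      omega
    have hgR : 200 * (J : ℝ) / c * n ≤ g := (Nat.le_ceil _).trans (by exact_mod_cast hg1)
    have hg9 : (g : ℝ) ≤ 9 * (200 * (J : ℝ) / c) * n :=
      (by exact_mod_cast hg2 : (g : ℝ) ≤ (⌊9 * (200 * (J : ℝ) / c) * n⌋₊ : ℝ)).trans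
        (Nat.floor_le (by positivity))
    have hgI : g ∈ Icc 1 ⌊1800 * (J : ℝ) / c * n⌋₊ := by
      rw [mem_Icc]
      refine ⟨hg0, ?_⟩
      have h1 : 1800 * (J : ℝ) / c * n = 9 * (200 * (J : ℝ) / c) * n := by ring
      rw [h1]
      exact hg2
    rw [mem_union]
    by_cases h1 : om K0 K1 g < m
    · exact Or.inl (mem_filter.2 ⟨hgI, h1⟩)
    right
    rw [mem_biUnion]
    refine ⟨i, mem_Icc.2 ⟨hi1, by omega⟩, ?_⟩
    rw [mem_union, mem_union]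
    by_cases h2 : ∀ p ∈ Pr K2 K3, ¬ p ∣ g + 2 * i
    · exact Or.inl (Or.inl (mem_filter.2 ⟨hgI, h2⟩))
    push Not at h2
    -- the block
    obtain ⟨e, he, he1, he2⟩ := chain (fun e => 200 * (J : ℝ) / c * (21 / 20 : ℝ) ^ e * n) g 45
      (by simpa using hgR) (by
        refine hg9.trans ?_
        have h3 : (9 : ℝ) ≤ (21 / 20 : ℝ) ^ (45 + 1) := by norm_num
        calc 9 * (200 * (J : ℝ) / c) * n = 200 * (J : ℝ) / c * 9 * n := by ring
          _ ≤ 200 * (J : ℝ) / c * (21 / 20 : ℝ) ^ (45 + 1) * n := by gcongr)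
    have hp1 : (1 : ℝ) ≤ (21 / 20 : ℝ) ^ e := one_le_pow₀ (by norm_num)
    have hp2 : (21 / 20 : ℝ) ^ e ≤ 19 / 2 :=
      (pow_le_pow_right₀ (by norm_num) he).trans (by norm_num)
    have hr1 : 200 * (J : ℝ) / c ≤ 200 * J / c * (21 / 20 : ℝ) ^ e :=
      le_mul_of_one_le_right hR.le hp1
    have hr2 : 200 * J / c * (21 / 20 : ℝ) ^ e ≤ 1900 * J / c := by
      calc 200 * J / c * (21 / 20 : ℝ) ^ e ≤ 200 * J / c * (19 / 2) := by gcongr
        _ = 1900 * J / c := by ring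
    -- the cell
    set fr : ℝ := n ^ 2 / (g : ℝ) - ⌊n ^ 2 / (g : ℝ)⌋₊ with hfrd
    have hfr0 : 0 ≤ fr := by
      have := Nat.floor_le (a := n ^ 2 / (g : ℝ)) (by positivity)
      linarith
    have hk1 : ((⌊(B : ℝ) * fr⌋₊ : ℕ) : ℝ) ≤ B * fr := Nat.floor_le (by positivity)
    have hk2 : (B : ℝ) * fr < ((⌊(B : ℝ) * fr⌋₊ : ℕ) : ℝ) + 1 := Nat.lt_floor_add_one _
    have hkJ : ⌊(B : ℝ) * fr⌋₊ ≤ B / (2 * P * J) := by
      rw [Nat.le_div_iff_mul_le (by positivity)]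
      have h3 : (B : ℝ) * fr ≤ B * (1 / (2 * (P : ℝ) * J)) := by gcongr
      have h4 : (B : ℝ) * (1 / (2 * (P : ℝ) * J)) * (2 * P * J) = B := by field_simp
      have h5 : ((⌊(B : ℝ) * fr⌋₊ * (2 * P * J) : ℕ) : ℝ) ≤ B := by
        push_cast
        calc ((⌊(B : ℝ) * fr⌋₊ : ℕ) : ℝ) * (2 * P * J) ≤
            B * (1 / (2 * (P : ℝ) * J)) * (2 * P * J) := by
              gcongr
              exact hk1.trans h3
          _ = B := h4
      exact_mod_cast h5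
    have hgce : g ∈ c3 n ⌈200 * J / c * (21 / 20 : ℝ) ^ e * n⌉₊
        ⌊21 / 20 * (200 * J / c * (21 / 20 : ℝ) ^ e) * n⌋₊ B ⌊(B : ℝ) * fr⌋₊ P (g % P) := by
      unfold c3 cel2
      rw [mem_filter, mem_Icc]
      refine ⟨⟨Nat.ceil_le.2 he1, Nat.le_floor ?_⟩, (Nat.mod_modEq g P).symm, hfl, ?_, ?_⟩
      · refine he2.trans (le_of_eq ?_)
        simp only [pow_succ]
        ring
      · rw [div_le_iff₀ hB]
        calc ((⌊(B : ℝ) * fr⌋₊ : ℕ) : ℝ) ≤ B * fr := hk1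
          _ = fr * B := mul_comm _ _
      · rw [lt_div_iff₀ hB]
        calc fr * B = B * fr := mul_comm _ _
          _ < _ := hk2
    have hc1 : (g % P).Coprime P := by
      rw [Nat.Coprime, (Nat.mod_modEq g P).gcd_eq]
      exact hgP
    have hc2 : (g % P + 2 * i).Coprime P := by
      rw [Nat.Coprime, ((Nat.mod_modEq g P).add_right (2 * i)).gcd_eq]
      exact hgi
    by_cases h3 : LkR n c (200 * J / c * (21 / 20 : ℝ) ^ e) (K1 ^ m * K3) B ⌊(B : ℝ) * fr⌋₊ P i g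
    · right
      rw [mem_filter, mem_range]
      refine ⟨by omega, ?_⟩
      rcases hLk f F n c _ P J B W K0 K1 K2 K3 m _ g (g % P) i _ hP hf hr1 hr2 hkJ hi1 hi2 hgce
        hgP hgi h3 with h4 | h4
      · exact absurd h4 hne
      · exact h4
    · left
      right
      rw [mem_biUnion]
      refine ⟨g % P, mem_filter.2 ⟨mem_range.2 (Nat.mod_lt _ hPn), hc1, hc2⟩, ?_⟩
      rw [mem_biUnion]
      refine ⟨e, mem_range.2 (by omega), ?_⟩
      rw [mem_biUnion]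
      refine ⟨⌊(B : ℝ) * fr⌋₊, mem_range.2 (by omega), ?_⟩
      rw [mem_filter]
      exact ⟨hgce, not_lt.1 h1, h2, h3⟩
  refine (card_cover _ _ _ _ _ _ _ _ _ hsub).trans ?_
  refine add_le_add (le_refl _) (sum_le_sum fun i _ => add_le_add (le_refl _) ?_)
  refine (hS4 i).trans (le_of_eq ?_)
  rw [Nat.cast_mul, Nat.cast_pow]
  rfl

end Pool.Agent.Work.MP_a8fbd7_nt.PAR.RP.I_Bd3
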