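import Pool.Agent.Work.MP_a8fbd7_nt.PAR.RP.StmtsK

set_option autoImplicit false

/-!
MP_a8fbd7_nt, block RP, item C1R: the chain for one prime.
-/

open Finset

noncomputable section

namespace Pool.Agent.Work.MP_a8fbd7_nt.PAR.RP.I_C1R

open Pool.Agent.Work.MP_a8fbd7_nt.PAR Pool.Agent.Work.MP_a8fbd7_nt.PAR.LC
open Pool.Agent.Work.MP_a8fbd7_nt.PAR.EF Pool.Agent.Work.MP_a8fbd7_nt.PAR.RP

/-- the next member is at most the end -/
theorem nx_le (hNx : StNx) (P g y : ℕ) (hP2 : 2 ∣ P) (hP : 1 ≤ P) (hg : g.Coprime P)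
    (hy : y.Coprime P) (hgy : g < y) : nx P g ≤ y := by
  obtain ⟨n1, n2, n3, n4, n5⟩ := hNx P g hP2 hP hg
  unfold nx
  by_contra hcon
  refine n5 (y - g) (by omega) (by omega) ?_
  rwa [Nat.add_sub_cancel' hgy.le]

theorem chain (hNx : StNx) (f : ℕ → ℤ) (P x y : ℕ) (hP2 : 2 ∣ P) (hP : 1 ≤ P) (hy : y.Coprime P)
    (h : ∀ g, x ≤ g → g < y → g.Coprime P → f g = f (nx P g)) :
    ∀ d g, y - g = d → x ≤ g → g ≤ y → g.Coprime P → f g = f y := by
  intro d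
  induction d using Nat.strong_induction_on with
  | _ d ih =>
    intro g hd hxg hgy hc
    rcases Nat.eq_or_lt_of_le hgy with he | hlt
    · rw [he]
    · have hle := nx_le hNx P g y hP2 hP hc hy hlt
      obtain ⟨n1, n2, n3, n4, n5⟩ := hNx P g hP2 hP hc
      have hlt' : g < nx P g := by
        unfold nx
        omega
      rw [h g hxg hlt hc]
      exact ih (y - nx P g) (by omega) (nx P g) rfl (by omega) hle n4

theorem floor_g (n c : ℝ) (P J p m g y : ℕ) (hP : 1 ≤ P) (hc0 : 0 < c) (hJ1 : 8 / c ^ 2 ≤ J)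
    (hJ2 : (J : ℝ) ≤ 9 / c ^ 2) (hn : 1 ≤ n) (hy : 0 < y) (hp : y < p)
    (hPy : (P : ℝ) ^ 2 * y ≤ (J : ℝ) ^ 2)
    (hm : 200 * J / c * n / y ≤ m) (hA : AlR n P (2 * P * J) p m) (hg1 : p * m ≤ g)
    (hg2 : g ≤ p * (m + P)) :
    ⌊n ^ 2 / (g : ℝ)⌋₊ ≡ 1 [MOD P] ∧
      n ^ 2 / (g : ℝ) - ⌊n ^ 2 / (g : ℝ)⌋₊ < 1 / (2 * (P : ℝ) * J) := by
  have hJ0 : (0 : ℝ) < J := lt_of_lt_of_le (by positivity) hJ1
  have hy0 : (0 : ℝ) < y := by exact_mod_cast hy
  have hpr : (y : ℝ) < p := by exact_mod_cast hp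
  have hp0 : (0 : ℝ) < p := lt_trans hy0 hpr
  have hm0 : (0 : ℝ) < m := lt_of_lt_of_le (by positivity) hm
  have hPr : (1 : ℝ) ≤ P := by exact_mod_cast hP
  have hP0 : (0 : ℝ) < P := by linarith
  have hg1r : (p : ℝ) * m ≤ g := by exact_mod_cast hg1
  have hg2r : (g : ℝ) ≤ p * (m + P) := by exact_mod_cast hg2
  have hg0 : (0 : ℝ) < g := lt_of_lt_of_le (by positivity) hg1r
  obtain ⟨v, hv⟩ : ∃ v, v = n ^ 2 / (m : ℝ) := ⟨_, rfl⟩
  obtain ⟨M, hM⟩ : ∃ M, M = ⌊v⌋₊ := ⟨_, rfl⟩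
  obtain ⟨A1, A2, A3⟩ := hA
  rw [← hv, ← hM] at A1 A2 A3
  obtain ⟨t, ht⟩ : ∃ t : ℝ, t = 2 * (P : ℝ) * J := ⟨_, rfl⟩
  have htn : ((2 * P * J : ℕ) : ℝ) = t := by
    rw [ht]
    push_cast
    ring
  rw [htn] at A1 A2
  have ht0 : 0 < t := by
    rw [ht]
    positivity
  have hJ1' : (1 : ℝ) ≤ J := by
    have h8 : (1 : ℕ) ≤ J := by exact_mod_cast hJ0
    exact_mod_cast h8
  have ht1 : 1 ≤ t := by
    rw [ht]
    nlinarith
  have hv0 : 0 ≤ v := by rw [hv]; positivity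
  have hM1 : (M : ℝ) ≤ v := by rw [hM]; exact Nat.floor_le hv0
  have hM2 : v < M + 1 := by rw [hM]; exact Nat.lt_floor_add_one v
  have hMd : (M : ℝ) = p * ((M / p : ℕ) : ℝ) + ((M % p : ℕ) : ℝ) := by
    exact_mod_cast (Nat.div_add_mod M p).symm
  obtain ⟨Q, hQ⟩ : ∃ Q : ℕ, Q = M / p := ⟨_, rfl⟩
  obtain ⟨b, hb⟩ : ∃ b : ℕ, b = M % p := ⟨_, rfl⟩
  rw [← hQ, ← hb] at hMd
  rw [← hb] at A1 A2
  rw [← hQ] at A3
  -- the value at `p m`
  have e1 : n ^ 2 / ((p : ℝ) * m) = v / p := by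
    rw [hv]; field_simp
  have u1 : v / p < Q + 1 / t := by
    rw [div_lt_iff₀ hp0]
    have : ((Q : ℝ) + 1 / t) * p = p * Q + p / t := by ring
    rw [this]
    linarith
  have u2 : (Q : ℝ) + 1 / (2 * t) ≤ v / p := by
    rw [le_div_iff₀ hp0]
    have : ((Q : ℝ) + 1 / (2 * t)) * p = p * Q + p / (2 * t) := by ring
    rw [this]
    linarith
  have v1 : n ^ 2 / (g : ℝ) ≤ v / p := by
    rw [← e1]
    exact div_le_div_of_nonneg_left (by positivity) (by positivity) hg1r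
  have v2 : v / p - 1 / (2 * t) ≤ n ^ 2 / (g : ℝ) := by
    have w1 : n ^ 2 / ((p : ℝ) * (m + P)) ≤ n ^ 2 / (g : ℝ) :=
      div_le_div_of_nonneg_left (by positivity) hg0 hg2r
    have w2 : n ^ 2 / ((p : ℝ) * m) - n ^ 2 / ((p : ℝ) * (m + P)) =
        n ^ 2 * P / ((p : ℝ) * m * (m + P)) := by
      field_simp
      ring
    have w3 : n ^ 2 * P / ((p : ℝ) * m * (m + P)) ≤ 1 / (2 * t) := by
      rw [div_le_div_iff₀ (by positivity) (by positivity), one_mul]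
      have z1 : 200 * J * n ≤ c * y * m := by
        rw [div_le_iff₀ hy0] at hm
        have : 200 * (J : ℝ) / c * n = 200 * J * n / c := by ring
        rw [this, div_le_iff₀ hc0] at hm
        linarith
      have z3 : (200 * J * n) ^ 2 ≤ (c * y * m) ^ 2 :=
        pow_le_pow_left₀ (by positivity) z1 2
      have z4 : (J : ℝ) * c ^ 2 ≤ 9 := by
        rw [le_div_iff₀ (by positivity)] at hJ2
        linarith
      have z5 : 10000 * (J : ℝ) * (4 * P ^ 2 * J * n ^ 2) ≤ 10000 * (J : ℝ) * (y * m ^ 2) := by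
        calc 10000 * (J : ℝ) * (4 * P ^ 2 * J * n ^ 2) = P ^ 2 * (200 * J * n) ^ 2 := by ring
          _ ≤ P ^ 2 * (c * y * m) ^ 2 := mul_le_mul_of_nonneg_left z3 (by positivity)
          _ = (P ^ 2 * y) * (c ^ 2 * y * m ^ 2) := by ring
          _ ≤ J ^ 2 * (c ^ 2 * y * m ^ 2) := mul_le_mul_of_nonneg_right hPy (by positivity)
          _ = (J * c ^ 2) * (J * (y * m ^ 2)) := by ring
          _ ≤ 9 * (J * (y * m ^ 2)) := mul_le_mul_of_nonneg_right z4 (by positivity)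
          _ ≤ 10000 * (J : ℝ) * (y * m ^ 2) := by
            have : 0 ≤ (J : ℝ) * (y * m ^ 2) := by positivity
            linarith
      have z6 : 4 * (P : ℝ) ^ 2 * J * n ^ 2 ≤ y * m ^ 2 := le_of_mul_le_mul_left z5 (by positivity)
      calc n ^ 2 * (P : ℝ) * (2 * t) = 4 * (P : ℝ) ^ 2 * J * n ^ 2 := by
            rw [ht]
            ring
        _ ≤ (y : ℝ) * (m : ℝ) ^ 2 := z6
        _ ≤ (p : ℝ) * (m : ℝ) ^ 2 := mul_le_mul_of_nonneg_right hpr.le (by positivity)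
        _ = (p : ℝ) * m * m := by ring
        _ ≤ (p : ℝ) * m * (m + P) := mul_le_mul_of_nonneg_left (by linarith) (by positivity)
    rw [e1] at w2
    linarith
  have hfl : ⌊n ^ 2 / (g : ℝ)⌋₊ = Q := by
    rw [Nat.floor_eq_iff (by positivity)]
    refine ⟨by linarith, ?_⟩
    have : 1 / t ≤ 1 := by
      rw [div_le_one ht0]
      exact ht1
    linarith
  rw [hfl, ← ht]
  exact ⟨A3, by linarith⟩

open Classical in
theorem prf (hNx : StNx) : StC1R := by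
  intro f n c P J p hf hP6 hP hc0 hc1 hJ1 hJ2 hJP hJn hn hp
  have hP2 : 2 ∣ P := (by norm_num : 2 ∣ 6).trans hP6
  have hJ0 : (0 : ℝ) < J := lt_of_lt_of_le (by positivity) hJ1
  have hJ1' : (1 : ℝ) ≤ J := by
    have h8 : (1 : ℕ) ≤ J := by exact_mod_cast hJ0
    exact_mod_cast h8
  have hPr : (1 : ℝ) ≤ P := by exact_mod_cast hP
  -- the size of `y`
  obtain ⟨y, hy⟩ : ∃ y, y = yJ J := ⟨_, rfl⟩
  have hJy : J ≤ y := by
    rw [hy]
    unfold yJ
    refine Nat.le_floor ?_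
    calc (J : ℝ) = (J : ℝ) ^ (1 : ℝ) := (Real.rpow_one _).symm
      _ ≤ (J : ℝ) ^ (7 / 4 : ℝ) := Real.rpow_le_rpow_of_exponent_le hJ1' (by norm_num)
  have hy4 : (y : ℝ) ^ 4 ≤ (J : ℝ) ^ 7 := by
    have h1 : (y : ℝ) ≤ (J : ℝ) ^ (7 / 4 : ℝ) := by
      rw [hy]
      exact Nat.floor_le (by positivity)
    calc (y : ℝ) ^ 4 ≤ ((J : ℝ) ^ (7 / 4 : ℝ)) ^ 4 := pow_le_pow_left₀ (Nat.cast_nonneg _) h1 4
      _ = (J : ℝ) ^ 7 := by
        rw [← Real.rpow_natCast, ← Real.rpow_mul hJ0.le, ← Real.rpow_natCast]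
        norm_num
  have hPy : (P : ℝ) ^ 2 * y ≤ (J : ℝ) ^ 2 := by
    by_contra hcon
    push Not at hcon
    have h1 : ((J : ℝ) ^ 2) ^ 4 < ((P : ℝ) ^ 2 * y) ^ 4 :=
      pow_lt_pow_left₀ hcon (by positivity) (by norm_num)
    have h2 : ((P : ℝ) ^ 2 * y) ^ 4 = (P : ℝ) ^ 8 * (y : ℝ) ^ 4 := by ring
    have h3 : (P : ℝ) ^ 8 ≤ J := by
      have : 24 * (P : ℝ) ^ 8 ≤ J := by exact_mod_cast hJP
      have h0 : 0 ≤ (P : ℝ) ^ 8 := by positivity
      linarith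
    have h4 : (P : ℝ) ^ 8 * (y : ℝ) ^ 4 ≤ J * (J : ℝ) ^ 7 :=
      mul_le_mul h3 hy4 (by positivity) hJ0.le
    have h5 : (J : ℝ) * (J : ℝ) ^ 7 = ((J : ℝ) ^ 2) ^ 4 := by ring
    rw [h2] at h1
    linarith
  rw [← hy] at hp hJn ⊢
  have hyp : 0 < y := by
    have : (0 : ℕ) < J := by exact_mod_cast hJ0
    omega
  have hy0 : (0 : ℝ) < y := by exact_mod_cast hyp
  obtain ⟨X, hX⟩ : ∃ X, X = ⌈200 * J / c * n / y⌉₊ := ⟨_, rfl⟩
  rw [← hX]
  unfold Pr at hp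
  rw [mem_filter, mem_Ioc] at hp
  obtain ⟨⟨hp1, hp2⟩, hpp⟩ := hp
  have hp2r : (p : ℝ) ≤ 4 * y := by exact_mod_cast hp2
  have hp1r : (y : ℝ) < p := by exact_mod_cast hp1
  have hPJ : P ≤ J := by
    have h1 : P ≤ P ^ 8 := Nat.le_self_pow (by norm_num) P
    omega
  have hpP : p.Coprime P := by
    rw [hpp.coprime_iff_not_dvd]
    intro hd
    have := Nat.le_of_dvd (by omega) hd
    omega
  have hX1 : 200 * J / c * n / y ≤ (X : ℝ) := by rw [hX]; exact Nat.le_ceil _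
  have hX2 : (X : ℝ) < 200 * J / c * n / y + 1 := by
    rw [hX]; exact Nat.ceil_lt_add_one (by positivity)
  have hRX : 200 * J / c * n ≤ (y : ℝ) * X := by
    rw [div_le_iff₀ hy0] at hX1
    linarith
  have hRX2 : (y : ℝ) * X ≤ 200 * J / c * n + y := by
    have h1 : (X : ℝ) * y ≤ (200 * J / c * n / y + 1) * y :=
      mul_le_mul_of_nonneg_right hX2.le (by positivity)
    have h2 : (200 * (J : ℝ) / c * n / y + 1) * y = 200 * J / c * n + y := by
      field_simp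
    linarith
  have key : ∀ m ∈ (Ico X (2 * X)).filter
      (fun m => m.Coprime P ∧ AlR n P (2 * P * J) p m ∧ f m ≠ f (nx P m)),
      ∃ g ∈ BdR P f n (200 * J / c) J, p * m ≤ g ∧ g < p * nx P m := by
    intro m hm
    rw [mem_filter, mem_Ico] at hm
    obtain ⟨⟨hm1, hm2⟩, hmP, hA, hne⟩ := hm
    obtain ⟨n1, n2, n3, n4, n5⟩ := hNx P m hP2 hP hmP
    have hm1r : (X : ℝ) ≤ m := by exact_mod_cast hm1
    have hm2r : (m : ℝ) + 1 ≤ 2 * X := by exact_mod_cast hm2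
    have hm0r : (0 : ℝ) < m := by
      have : 0 < 200 * J / c * n / (y : ℝ) := by positivity
      linarith
    have hm0 : 0 < m := by exact_mod_cast hm0r
    have hnx : nx P m ≤ m + P := by
      unfold nx
      omega
    have hmnx : m < nx P m := by
      unfold nx
      omega
    have hcp : (p * nx P m).Coprime P := Nat.Coprime.mul_left hpP n4
    have hcp0 : (p * m).Coprime P := Nat.Coprime.mul_left hpP hmP
    obtain ⟨g, hg1, hg2, hgP, hfg⟩ : ∃ g, p * m ≤ g ∧ g < p * nx P m ∧ g.Coprime P ∧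
        f g ≠ f (nx P g) := by
      by_contra hcon
      push Not at hcon
      have h1 := chain hNx f P (p * m) (p * nx P m) hP2 hP hcp
        (fun g h1 h2 h3 => hcon g h1 h2 h3) _ (p * m) rfl le_rfl
        (Nat.mul_le_mul_left p hmnx.le) hcp0
      rw [hf.mul p m hpp.pos hm0, hf.mul p (nx P m) hpp.pos (by omega)] at h1
      exact hne (mul_left_cancel₀ (hf.ne hpp.pos) h1)
    obtain ⟨k1, k2, ⟨i, hi⟩, k4, k5⟩ := hNx P g hP2 hP hgP
    have hg3 : g ≤ p * (m + P) := hg2.le.trans (Nat.mul_le_mul_left p hnx)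
    have hfl := floor_g n c P J p m g y hP hc0 hJ1 hJ2 hn hyp hp1 hPy (hX1.trans hm1r) hA hg1 hg3
    have hnxg : nx P g = g + 2 * i := by
      unfold nx
      rw [hi]
    refine ⟨g, ?_, hg1, hg2⟩
    unfold BdR
    rw [mem_filter, mem_Icc]
    have hg1r : (p : ℝ) * m ≤ g := by exact_mod_cast hg1
    have hg3r : (g : ℝ) ≤ p * (m + P) := by exact_mod_cast hg3
    refine ⟨⟨?_, ?_⟩, hgP, hfl.1, hfl.2, i, by omega, by omega, ?_, ?_⟩
    · refine Nat.ceil_le.2 (le_trans ?_ hg1r)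
      refine hRX.trans ?_
      exact mul_le_mul hp1r.le hm1r (Nat.cast_nonneg _) (Nat.cast_nonneg _)
    · refine Nat.le_floor (hg3r.trans ?_)
      have h1 : (p : ℝ) * (m + P) ≤ 4 * y * (2 * X - 1 + P) :=
        mul_le_mul hp2r (by linarith) (by positivity) (by positivity)
      have h2 : (y : ℝ) ≤ y * P := le_mul_of_one_le_right hy0.le hPr
      nlinarith
    · rw [← hnxg]
      exact k4
    · rw [← hnxg]
      exact hfg
  choose! G hG1 hG2 hG3 using key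
  have hinj : Set.InjOn G (((Ico X (2 * X)).filter
      (fun m => m.Coprime P ∧ AlR n P (2 * P * J) p m ∧ f m ≠ f (nx P m)) : Finset ℕ) : Set ℕ) := by
    have aux : ∀ a ∈ (Ico X (2 * X)).filter
        (fun m => m.Coprime P ∧ AlR n P (2 * P * J) p m ∧ f m ≠ f (nx P m)),
        ∀ b ∈ (Ico X (2 * X)).filter
        (fun m => m.Coprime P ∧ AlR n P (2 * P * J) p m ∧ f m ≠ f (nx P m)),
        a < b → G a ≠ G b := by
      intro a ha b hb hab he
      have h1 := hG3 a ha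
      have h2 := hG2 b hb
      have h3 := nx_le hNx P a b hP2 hP (mem_filter.1 ha).2.1 (mem_filter.1 hb).2.1 hab
      have h4 := Nat.mul_le_mul_left p h3
      omega
    intro a ha b hb he
    rcases lt_trichotomy a b with h | h | h
    · exact absurd he (aux a ha b hb h)
    · exact h
    · exact absurd he.symm (aux b hb a ha h)
  have h := Finset.card_le_card_of_injOn G (fun m hm => hG1 m hm) hinj
  exact_mod_cast h

end Pool.Agent.Work.MP_a8fbd7_nt.PAR.RP.I_C1R
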