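import Pool.Agent.Work.MP_a8fbd7_nt.PAR.RP.StmtsK

set_option autoImplicit false

open Finset

noncomputable section

namespace Pool.Agent.Work.MP_a8fbd7_nt.PAR.RP.I_C4R

open Pool.Agent.Work.MP_a8fbd7_nt.PAR Pool.Agent.Work.MP_a8fbd7_nt.PAR.LC
open Pool.Agent.Work.MP_a8fbd7_nt.PAR.EF Pool.Agent.Work.MP_a8fbd7_nt.PAR.RP

/-- Cauchy-Schwarz for the first moment over a set. -/
theorem cs {ι : Type*} (S : Finset ι) (g : ι → ℝ) (T : ℝ) (hT : ∑ i ∈ S, g i ^ 2 ≤ T)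
    (X : ℝ) (hX : (S.card : ℝ) ≤ X) (_ : 0 ≤ T) : ∑ i ∈ S, g i ≤ Real.sqrt (X * T) := by
  have h1 : (∑ i ∈ S, g i) ^ 2 ≤ (S.card : ℝ) * ∑ i ∈ S, g i ^ 2 := sq_sum_le_card_mul_sum_sq
  have h2 : (S.card : ℝ) * ∑ i ∈ S, g i ^ 2 ≤ X * T :=
    mul_le_mul hX hT (Finset.sum_nonneg fun i _ => sq_nonneg _) (le_trans (Nat.cast_nonneg _) hX)
  exact Real.le_sqrt_of_sq_le (h1.trans h2)

/-- the multipliers are at most `J²` -/
theorem yJ_le (J : ℕ) (hJ : 1 ≤ J) : (yJ J : ℝ) ≤ (J : ℝ) ^ 2 := by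
  have hJ1 : (1 : ℝ) ≤ J := by exact_mod_cast hJ
  unfold yJ
  refine (Nat.floor_le (Real.rpow_nonneg (by linarith) _)).trans ?_
  calc (J : ℝ) ^ (7 / 4 : ℝ) ≤ (J : ℝ) ^ (2 : ℝ) :=
        Real.rpow_le_rpow_of_exponent_le hJ1 (by norm_num)
    _ = (J : ℝ) ^ 2 := by
        rw [← Real.rpow_natCast]
        norm_num

open Classical in
theorem prf (h1 : StC1R) (h2 : StMoR) (h3 : StMuR) : StC4R := by
  intro Q hQ6 hQ1
  obtain ⟨n1, hMo⟩ := h2 Q hQ1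
  obtain ⟨J0, hMu⟩ := h3 Q hQ1
  refine ⟨max n1 1, max J0 (24 * Q ^ 8), ?_⟩
  intro f n c J hn hJ hf hc0 hc1 hJ1 hJ2 hJn
  have hn1 : n1 ≤ n := (le_max_left _ _).trans hn
  have hn0 : (1 : ℝ) ≤ n := (le_max_right _ _).trans hn
  have hJ0 : J0 ≤ J := (le_max_left _ _).trans hJ
  have hJQ : 24 * Q ^ 8 ≤ J := (le_max_right _ _).trans hJ
  have hJ800 : (800 : ℝ) ≤ J := by
    refine le_trans ?_ hJ1
    rw [le_div_iff₀ (by positivity)]
    nlinarith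
  have hJpos : (0 : ℝ) < J := by linarith
  have hJge1 : (1 : ℝ) ≤ J := by linarith
  have hJnat : 1 ≤ J := by exact_mod_cast hJge1
  obtain ⟨hPμ, hμ⟩ := hMu J hJ0
  have hM := hMo n c J hn1 hc0 hc1 hJ1 hJ2 hJn hJQ
  set X : ℕ := ⌈200 * J / c * n / yJ J⌉₊ with hX
  set P : Finset ℕ := Pr (yJ J) (4 * yJ J) with hP
  set μ : ℝ := muR Q (2 * Q * J) (yJ J) with hμdef
  set N : ℕ → ℝ := fun m => ((P.filter (fun p => AlR n Q (2 * Q * J) p m)).card : ℝ) with hN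
  set S : Finset ℕ := (Ico X (2 * X)).filter (fun m => m.Coprime Q ∧ f m ≠ f (nx Q m)) with hS
  have hcond : 12 * (Q : ℝ) * yJ J ≤ 200 * J / c * n := by
    have hy : (yJ J : ℝ) ≤ (J : ℝ) ^ 2 := yJ_le J hJnat
    have hQJ : (Q : ℝ) ≤ J := by
      have hq : Q ≤ 24 * Q ^ 8 := by
        calc Q = 1 * Q ^ 1 := by ring
          _ ≤ 24 * Q ^ 8 := Nat.mul_le_mul (by norm_num) (Nat.pow_le_pow_right hQ1 (by norm_num))
      exact_mod_cast hq.trans hJQ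
    have h5 : (J : ℝ) ≤ J / c := by
      rw [le_div_iff₀ hc0]
      nlinarith
    have hJ4 : (J : ℝ) ≤ n ^ (1 / 400 : ℝ) := h5.trans hJn
    have hJsq : (J : ℝ) ^ 2 ≤ n := by
      calc (J : ℝ) ^ 2 ≤ (n ^ (1 / 400 : ℝ)) ^ 2 := pow_le_pow_left₀ hJpos.le hJ4 2
        _ = n ^ (1 / 200 : ℝ) := by
            rw [← Real.rpow_natCast, ← Real.rpow_mul (by linarith)]
            norm_num
        _ ≤ n ^ (1 : ℝ) := Real.rpow_le_rpow_of_exponent_le hn0 (by norm_num)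
        _ = n := Real.rpow_one n
    have h6 : 12 * (Q : ℝ) * yJ J ≤ 12 * (J / c) * n := by
      have h7 : (Q : ℝ) * yJ J ≤ (J / c) * n := by
        calc (Q : ℝ) * yJ J ≤ J * (J : ℝ) ^ 2 :=
              mul_le_mul hQJ hy (Nat.cast_nonneg _) hJpos.le
          _ ≤ (J / c) * n := mul_le_mul h5 hJsq (by positivity) (by positivity)
      calc 12 * (Q : ℝ) * yJ J = 12 * ((Q : ℝ) * yJ J) := by ring
        _ ≤ 12 * ((J / c) * n) := by linarith
        _ = 12 * (J / c) * n := by ring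
    have h8 : 200 * (J : ℝ) / c * n = 200 * (J / c) * n := by ring
    rw [h8]
    have h9 : 0 ≤ (J : ℝ) / c * n := by positivity
    have h10 : 200 * ((J : ℝ) / c) * n = 12 * ((J : ℝ) / c) * n + 188 * ((J : ℝ) / c * n) := by ring
    rw [h10]
    linarith
  -- the first moment
  have hfirst : ∑ m ∈ S, N m ≤ (P.card : ℝ) * ((BdR Q f n (200 * J / c) J).card : ℝ) := by
    have h8 : ∑ m ∈ S, N m = ∑ p ∈ P,
        (((Ico X (2 * X)).filter (fun m => m.Coprime Q ∧ AlR n Q (2 * Q * J) p m ∧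
          f m ≠ f (nx Q m))).card : ℝ) := by
      have h9 : ∀ m, N m = ∑ p ∈ P, (if AlR n Q (2 * Q * J) p m then (1 : ℝ) else 0) := by
        intro m
        simp only [hN]
        rw [Finset.sum_boole]
      rw [Finset.sum_congr rfl fun m _ => h9 m, Finset.sum_comm]
      refine Finset.sum_congr rfl fun p _ => ?_
      rw [Finset.sum_boole, hS, Finset.filter_filter]
      congr 2
      ext m
      simp only [Finset.mem_filter]
      tauto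
    rw [h8]
    calc ∑ p ∈ P, (((Ico X (2 * X)).filter (fun m => m.Coprime Q ∧ AlR n Q (2 * Q * J) p m ∧
          f m ≠ f (nx Q m))).card : ℝ)
        ≤ ∑ p ∈ P, ((BdR Q f n (200 * J / c) J).card : ℝ) :=
          Finset.sum_le_sum fun p hp =>
            h1 f n c Q J p hf hQ6 hQ1 hc0 hc1 hJ1 hJ2 hJQ hcond hn0 hp
      _ = (P.card : ℝ) * ((BdR Q f n (200 * J / c) J).card : ℝ) := by
          rw [Finset.sum_const, nsmul_eq_mul]
  -- positivity of the mean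
  have hr1 : (1 : ℝ) ≤ (J : ℝ) ^ (1 / 4 : ℝ) := Real.one_le_rpow hJge1 (by norm_num)
  have hμ1 : (1 : ℝ) ≤ μ := by linarith
  have hμ0 : (0 : ℝ) < μ := by linarith
  set t : ℝ := (J : ℝ) ^ (-(1 / 8) : ℝ) with ht
  have ht0 : 0 < t := Real.rpow_pos_of_pos hJpos _
  have ht2 : t ^ 2 * (J : ℝ) ^ (1 / 4 : ℝ) = 1 := by
    rw [ht, ← Real.rpow_natCast, ← Real.rpow_mul hJpos.le, ← Real.rpow_add hJpos]
    norm_num
  -- the second moment
  have hcardS : (S.card : ℝ) ≤ X := by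
    have : S.card ≤ (Ico X (2 * X)).card := Finset.card_filter_le _ _
    rw [Nat.card_Ico] at this
    exact_mod_cast this.trans (by omega)
  have hsecond : ∑ m ∈ S, (μ - N m) ≤ Real.sqrt ((X : ℝ) * ((X : ℝ) * (4 * μ + 1))) := by
    refine cs S _ _ ?_ _ hcardS (by positivity)
    refine le_trans ?_ hM
    calc ∑ m ∈ S, (μ - N m) ^ 2 ≤ ∑ m ∈ Ico X (2 * X), (μ - N m) ^ 2 :=
          Finset.sum_le_sum_of_subset_of_nonneg (Finset.filter_subset _ _)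
            (fun _ _ _ => sq_nonneg _)
      _ = ∑ m ∈ Ico X (2 * X), (N m - μ) ^ 2 := Finset.sum_congr rfl fun m _ => by ring
  have hsq : Real.sqrt ((X : ℝ) * ((X : ℝ) * (4 * μ + 1))) ≤ μ * (3 * t * X) := by
    rw [Real.sqrt_le_iff]
    refine ⟨by positivity, ?_⟩
    have h10 : 4 * μ + 1 ≤ 9 * μ ^ 2 * t ^ 2 := by
      have h11 : 1 ≤ μ * t ^ 2 := by
        have : (J : ℝ) ^ (1 / 4 : ℝ) * t ^ 2 ≤ μ * t ^ 2 :=
          mul_le_mul_of_nonneg_right hμ (by positivity)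
        linarith [ht2, mul_comm ((J : ℝ) ^ (1 / 4 : ℝ)) (t ^ 2)]
      have h12 : 9 * μ ^ 2 * t ^ 2 = 9 * μ * (μ * t ^ 2) := by ring
      rw [h12]
      nlinarith
    have hX0 : (0 : ℝ) ≤ (X : ℝ) ^ 2 := sq_nonneg _
    calc (X : ℝ) * ((X : ℝ) * (4 * μ + 1)) = (X : ℝ) ^ 2 * (4 * μ + 1) := by ring
      _ ≤ (X : ℝ) ^ 2 * (9 * μ ^ 2 * t ^ 2) := mul_le_mul_of_nonneg_left h10 hX0
      _ = (μ * (3 * t * X)) ^ 2 := by ring
  have hPle : (P.card : ℝ) ≤ 6 * (Q : ℝ) ^ 2 * J * μ := by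
    have hQ0 : (0 : ℝ) < Q := by exact_mod_cast hQ1
    rw [div_le_iff₀ (by positivity)] at hPμ
    linarith
  have hmain : μ * (S.card : ℝ) ≤
      μ * (6 * (Q : ℝ) ^ 2 * J * ((BdR Q f n (200 * J / c) J).card : ℝ) + 3 * t * (X : ℝ)) := by
    have h13 : μ * (S.card : ℝ) = ∑ m ∈ S, N m + ∑ m ∈ S, (μ - N m) := by
      rw [← Finset.sum_add_distrib]
      have : ∀ m ∈ S, N m + (μ - N m) = μ := fun m _ => by ring
      rw [Finset.sum_congr rfl this, Finset.sum_const, nsmul_eq_mul]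
      ring
    have h14 : (P.card : ℝ) * ((BdR Q f n (200 * J / c) J).card : ℝ) ≤
        6 * (Q : ℝ) ^ 2 * J * μ * ((BdR Q f n (200 * J / c) J).card : ℝ) :=
      mul_le_mul_of_nonneg_right hPle (Nat.cast_nonneg _)
    rw [h13]
    linarith [hfirst, hsecond, hsq, h14]
  exact le_of_mul_le_mul_left hmain hμ0

end Pool.Agent.Work.MP_a8fbd7_nt.PAR.RP.I_C4R
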