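import Pool.Agent.Work.MP_a8fbd7_nt.PAR.RP.StmtsK

set_option autoImplicit false

namespace Pool.Agent.Work.MP_a8fbd7_nt.PAR.RP.I_Co2

open Pool.Agent.Work.MP_a8fbd7_nt.PAR Pool.Agent.Work.MP_a8fbd7_nt.PAR.RP
open Pool.Agent.Work.MP_a8fbd7_nt.PAR.LC Pool.Agent.Work.MP_a8fbd7_nt.PAR.EF

/-- Item Co2: all factors are prime to `P`. -/
theorem prf : StCo2 := by
  intro P g i q t z ρ M U V a1 a2 W hq ht hz hg hg2 hA hV hW cg cg2 hUn
  obtain ⟨u1, u2, u3, u4⟩ := hUn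
  have hgZ : (g : ℤ) = q * a1 := by exact_mod_cast hg
  have hAZ : (q : ℤ) * M + ρ = z * U := by exact_mod_cast hA
  have hVZ : (t : ℤ) * U = q * V + 2 := by exact_mod_cast hV
  have eV : (t : ℤ) * ((q : ℤ) * M + ρ) - 2 * z = (q * z) * V := by
    rw [hAZ]
    linear_combination (z : ℤ) * hVZ
  have eW : (z : ℤ) * ((g : ℤ) + 2 * i) - (t : ℤ) * i * ρ = (q * t) * W := by
    linear_combination (z : ℤ) * hgZ - (q : ℤ) * hW - (i : ℤ) * z * hVZ - (t : ℤ) * i * hAZ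
  rw [eV] at u3
  rw [eW] at u4
  refine ⟨Nat.Coprime.coprime_dvd_left ⟨a1, hg⟩ cg, Nat.Coprime.coprime_dvd_left ⟨a2, hg2⟩ cg2, u1,
    Nat.Coprime.coprime_dvd_left ⟨q, by rw [hg, mul_comm]⟩ cg,
    Nat.Coprime.coprime_dvd_left ⟨t, by rw [hg2, mul_comm]⟩ cg2,
    Nat.Coprime.coprime_dvd_left ⟨z, by rw [hA, mul_comm]⟩ u2, ?_, ?_⟩
  · have h := IsCoprime.of_mul_left_right u3
    exact Nat.isCoprime_iff_coprime.mp h
  · exact IsCoprime.of_mul_left_right u4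

end Pool.Agent.Work.MP_a8fbd7_nt.PAR.RP.I_Co2
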