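import Pool.Agent.Work.MP_a8fbd7_nt.PAR.RP.StmtsK

set_option autoImplicit false

/-!
MP_a8fbd7_nt, block RP, item Lk2 (the link with exceptions).
-/

open Finset

noncomputable section

namespace Pool.Agent.Work.MP_a8fbd7_nt.PAR.RP.I_Lk2

open Pool.Agent.Work.MP_a8fbd7_nt.PAR Pool.Agent.Work.MP_a8fbd7_nt.PAR.RP
open Pool.Agent.Work.MP_a8fbd7_nt.PAR.LC Pool.Agent.Work.MP_a8fbd7_nt.PAR.EF

theorem prf (hA : StAlg) (hI : StIn2) (hC : StCo2) (hT : StTau) (hP : StPos) : StLk2 := by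
  intro f F c r n J B P k g i q t z ρ hf hc0 hc1 hJ hr hB hn hi1 hiJ hg1 hg2 hk0 hth1 hth2 hL hqg htg
    hzM hgP hgiP hUn
  obtain ⟨hq1, ht2, hz1, hqt, hzq, he1, he2, hρ1, hρ2, hcong⟩ := hL
  have ht1 : 1 ≤ t := by omega
  -- basic positivity
  have hc2 : c ^ 2 ≤ 1 := pow_le_one₀ hc0.le hc1
  have hJ8 : (8 : ℝ) ≤ J := by
    have : (8 : ℝ) ≤ 8 / c ^ 2 := by
      rw [le_div_iff₀ (by positivity)]
      linarith
    linarith
  have hr1 : (1600 : ℝ) ≤ r := by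
    have : (1600 : ℝ) ≤ 200 * J / c := by
      rw [le_div_iff₀ hc0]
      linarith
    linarith
  have hr0 : 0 < r := by linarith
  have hB0 : (0 : ℝ) < B := by
    have : 0 < 200 * r / c := by positivity
    linarith
  have hn1 : (1000 : ℝ) ≤ n := by
    have : (1000 : ℝ) ≤ 1000 * J * r / c ^ 2 := by
      rw [le_div_iff₀ (by positivity)]
      have h2 : (1 : ℝ) ≤ J * r := one_le_mul_of_one_le_of_one_le (by linarith) (by linarith)
      linarith
    linarith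
  have hn0 : 0 < n := by linarith
  have hg0 : (0 : ℝ) < g := lt_of_lt_of_le (by positivity) hg1
  set y : ℝ := n ^ 2 / (g : ℝ) with hy
  set M : ℕ := ⌊y⌋₊ with hM
  have hy0 : 0 ≤ y := by positivity
  set θ : ℝ := y - M with hθ
  have hqR : (0 : ℝ) < q := by exact_mod_cast hq1
  have htR : (0 : ℝ) < t := by exact_mod_cast ht1
  have hzR : (0 : ℝ) < z := by exact_mod_cast hz1
  set u : ℝ := (ρ : ℝ) / q - θ with hu
  set e : ℝ := 2 * (z : ℝ) / (q * t) with he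
  have he0 : 0 < e := by positivity
  -- bounds on e
  have heL : 2 * c / (5 * r) ≤ e := by
    rw [he, le_div_iff₀ (by positivity)]
    calc 2 * c / (5 * r) * (q * t) = 2 * (c / (5 * r) * q * t) := by ring
      _ ≤ 2 * z := by linarith
  have heU : e ≤ 21 * c / (50 * r) := by
    rw [he, div_le_iff₀ (by positivity)]
    calc 2 * (z : ℝ) ≤ 2 * (21 * c / (100 * r) * q * t) := by linarith
      _ = 21 * c / (50 * r) * (q * t) := by
        field_simp
        ring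
  -- bounds on u
  have hρq1 : ((k : ℝ) + 1) / B + 17 / 20 * c / r ≤ (ρ : ℝ) / q := by
    rw [le_div_iff₀ hqR]; exact hρ1
  have hρq2 : (ρ : ℝ) / q ≤ ((k : ℝ) + 1) / B + 17 / 20 * c / r + c / (25 * r) := by
    rw [div_le_iff₀ hqR]; exact hρ2
  have h1B : 1 / (B : ℝ) ≤ c / (200 * r) := by
    rw [div_le_div_iff₀ hB0 (by positivity)]
    rw [div_le_iff₀ hc0] at hB
    linarith
  have hkB : ((k : ℝ) + 1) / B = k / B + 1 / B := by ring
  have huL : 17 / 20 * c / r ≤ u := by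
    have : θ ≤ ((k : ℝ) + 1) / B := hth2.le
    rw [hu]; linarith
  have huU : u ≤ (17 / 20 + 9 / 200) * c / r := by
    have h1 : (k : ℝ) / B ≤ θ := hth1
    have h2 : (17 / 20 + 9 / 200) * c / r = 17 / 20 * c / r + c / (25 * r) + c / (200 * r) := by
      field_simp
      ring
    rw [hu, h2]
    linarith
  have hu0 : 0 ≤ u := le_trans (by positivity) huL
  have hcr : 0 < c / r := by positivity
  have hu1 : u ≤ c / r := by
    refine le_trans huU ?_
    rw [mul_div_assoc]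
    exact mul_le_of_le_one_left hcr.le (by norm_num)
  have hec : e ≤ c / r := by
    refine le_trans heU ?_
    rw [div_le_div_iff₀ (by positivity) hr0]
    have := mul_pos hc0 hr0
    linarith
  -- tau
  have hj1 : 1 ≤ 2 * i := by omega
  have hcast : ((2 * i : ℕ) : ℝ) = 2 * (i : ℝ) := by push_cast; ring
  have hk0' : 0 ≤ 2 * (i : ℝ) * ((k : ℝ) / B) := by positivity
  have habs : |(((0 : ℤ) : ℝ)) - ((2 * i : ℕ) : ℝ) * ((k : ℝ) / B)| ≤ 1 / J := by
    rw [hcast, Int.cast_zero, zero_sub, abs_neg, abs_of_nonneg hk0']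
    exact hk0
  obtain ⟨hτ1, hτ2⟩ := hT c r θ u e J B (2 * i) k 0 hc0 hc1 hJ hr hB hj1 hiJ habs hth1 hth2.le hu0
    hu1 he0.le hec
  set τ : ℝ := (((0 : ℤ) : ℝ)) - ((2 * i : ℕ) : ℝ) * θ - ((2 * i : ℕ) : ℝ) * u +
    ((2 * i : ℕ) : ℝ) * e with hτ
  have hτcase : (((17 / 20 : ℝ) = 1 / 2 ∧ -(c ^ 2 / 100) ≤ τ ∧ τ ≤ 27 * c ^ 2 / 200) ∨
      ((17 / 20 : ℝ) = 17 / 20 ∧ -(27 * c ^ 2 / 200) ≤ τ ∧ τ ≤ c ^ 2 / 100)) := by
    have h1 := abs_le.1 hτ1
    have h2 := abs_le.1 hτ2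
    refine Or.inr ⟨rfl, h2.1, ?_⟩
    have h3 := h1.2
    rw [hcast, Int.cast_zero] at h3
    linarith
  obtain ⟨hW0, hv0, ⟨p1, p2⟩, ⟨p3, p4⟩, ⟨p5, p6⟩, ⟨p7, p8⟩⟩ :=
    hP c r n g u e τ (17 / 20) J (2 * i) hc0 hc1 hJ hr hn hj1 hiJ hg1 hg2 heL heU huL huU hτcase
  rw [← hy] at hv0 p1 p2 p3 p4 p5 p6 p7 p8
  -- integers
  have hM10 : 1 ≤ M := by
    rw [hM, Nat.one_le_floor_iff]
    rw [hy, le_div_iff₀ hg0]
    have h3 : 21 / 20 * r * n ≤ n ^ 2 := by
      have h4 : 21 / 20 * r ≤ n := by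
        have h5 : 21 / 20 * r ≤ 1000 * J * r / c ^ 2 := by
          rw [le_div_iff₀ (by positivity)]
          have h7 : r * c ^ 2 ≤ r * 1 := mul_le_mul_of_nonneg_left hc2 hr0.le
          have h8 : 8 * r ≤ J * r := mul_le_mul_of_nonneg_right hJ8 hr0.le
          linarith
        linarith
      rw [sq]
      exact mul_le_mul_of_nonneg_right h4 hn0.le
    linarith
  have hA1 : 1 ≤ q * M + ρ := le_trans (Nat.mul_pos hq1 hM10) (Nat.le_add_right _ _)
  obtain ⟨U, V, a1, a2, W, hga, hgj, hAU, htU, htW⟩ :=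
    hI g i q t z ρ M hq1 ht2 hz1 hqt hzq hcong hqg htg hzM hA1
  obtain ⟨cq, ct, cz, ca1, ca2, cU, cV, cW⟩ :=
    hC P g i q t z ρ M U V a1 a2 W hq1 ht1 hz1 hga hgj hAU htU htW hgP hgiP hUn
  -- real forms
  have hgaR : (g : ℝ) = q * a1 := by exact_mod_cast hga
  have hgjR : (g : ℝ) + 2 * i = t * a2 := by exact_mod_cast hgj
  have hAUR : (q : ℝ) * M + ρ = z * U := by exact_mod_cast hAU
  have htUR : (t : ℝ) * U = q * V + 2 := by exact_mod_cast htU
  have htWR : (t : ℝ) * W = z * ((a1 : ℝ) - i * V) + t * ((i : ℝ) * M) := by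
    have := congrArg (fun x : ℤ => (x : ℝ)) htW
    push_cast at this
    exact this
  have hyu : y + u = (z : ℝ) * U / q := by
    rw [← hAUR, hu, hθ]
    field_simp
    ring
  have hv : y + u - e = (z : ℝ) * V / t := by
    rw [hyu, he]
    have : (U : ℝ) = (q * V + 2) / t := by
      rw [← htUR]; field_simp
    rw [this]
    field_simp
    ring
  have hWR : 2 * (W : ℝ) = g * e + τ := by
    have h1 : (W : ℝ) = (z * ((a1 : ℝ) - i * V) + t * ((i : ℝ) * M)) / t := by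
      rw [← htWR]; field_simp
    have h2 : τ = 2 * (i * M - i * (y + u - e)) := by
      rw [hτ, hθ, hcast, Int.cast_zero]; ring
    rw [h1, h2, hv, he, hgaR]
    field_simp
    ring
  have hW1 : 1 ≤ W := by
    have : (0 : ℝ) < 2 * W := by rw [hWR]; exact hW0
    have h2 : (0 : ℝ) < W := by linarith
    exact_mod_cast h2
  obtain ⟨W', hW'⟩ : ∃ W' : ℕ, W = W' := ⟨W.toNat, by omega⟩
  have hW'1 : 1 ≤ W' := by omega
  have cW' : W'.Coprime P := by
    rw [hW'] at cW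
    exact Nat.isCoprime_iff_coprime.mp cW
  have hW'R : 2 * (W' : ℝ) = g * e + τ := by
    rw [← hWR, hW']; simp
  have hU1 : 1 ≤ U := by
    rcases Nat.eq_zero_or_pos U with h | h
    · rw [h, Nat.mul_zero] at hAU; omega
    · exact h
  have hV1 : 1 ≤ V := by
    rcases Nat.eq_zero_or_pos V with h | h
    · exfalso
      rw [h] at hv
      simp at hv
      linarith
    · exact h
  have hgN : 1 ≤ g := by
    have : (0 : ℝ) < (g : ℝ) := hg0
    exact_mod_cast this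
  have ha1 : 1 ≤ a1 := by
    rcases Nat.eq_zero_or_pos a1 with h | h
    · rw [h, Nat.mul_zero] at hga; omega
    · exact h
  have ha2 : 1 ≤ a2 := by
    rcases Nat.eq_zero_or_pos a2 with h | h
    · rw [h, Nat.mul_zero] at hgj; omega
    · exact h
  -- the four products
  have e1 : ((a1 * z * U : ℕ) : ℝ) = g * (y + u) := by
    rw [hyu, hgaR]; push_cast; field_simp
  have e2 : ((t * U * W' : ℕ) : ℝ) = (y + u) * (g * e + τ) / e := by
    rw [hyu, ← hW'R, he]; push_cast; field_simp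
  have e3 : ((q * V * W' : ℕ) : ℝ) = (y + u - e) * (g * e + τ) / e := by
    rw [hv, ← hW'R, he]; push_cast; field_simp
  have e4 : ((a2 * z * V : ℕ) : ℝ) = (g + ((2 * i : ℕ) : ℝ)) * (y + u - e) := by
    rw [hv, hcast, hgjR]; push_cast; field_simp
  have hmem : ∀ m : ℕ, n ^ 2 ≤ (m : ℝ) → (m : ℝ) ≤ n ^ 2 + c * n → m.Coprime P →
      f m = F ∨ m ∈ ExR P f F n c := by
    intro m h1 h2 h3
    by_cases h : f m = F
    · exact Or.inl h
    · right
      unfold ExR Ex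
      rw [Finset.mem_filter, Finset.mem_filter, Finset.mem_Icc]
      exact ⟨⟨⟨Nat.ceil_le.2 h1, Nat.le_floor h2⟩, h⟩, h3⟩
  have hτabs : |(g : ℝ) * z / (q * t) - W'| ≤ 1 := by
    have h1 : (g : ℝ) * z / (q * t) = g * e / 2 := by rw [he]; ring
    have h2 : (g : ℝ) * z / (q * t) - W' = -(τ / 2) := by rw [h1]; linarith
    rw [h2, abs_neg, abs_div, abs_of_pos (by norm_num : (0 : ℝ) < 2)]
    have h3 : |τ| ≤ 27 * c ^ 2 / 200 := hτ2
    linarith
  rcases hmem _ (e1 ▸ p1) (e1 ▸ p2) (Nat.Coprime.mul_left (Nat.Coprime.mul_left ca1 cz) cU) with f1 | f1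
  · rcases hmem _ (e2 ▸ p5) (e2 ▸ p6) (Nat.Coprime.mul_left (Nat.Coprime.mul_left ct cU) cW') with
      f2 | f2
    · rcases hmem _ (e3 ▸ p7) (e3 ▸ p8) (Nat.Coprime.mul_left (Nat.Coprime.mul_left cq cV) cW') with
        f3 | f3
      · rcases hmem _ (e4 ▸ p3) (e4 ▸ p4) (Nat.Coprime.mul_left (Nat.Coprime.mul_left ca2 cz) cV)
          with f4 | f4
        · left
          exact hA f F hf g (2 * i) q t z U V W' a1 a2 hq1 ht1 hz1 hU1 hV1 hW'1 ha1 ha2 hga hgj f1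
            f2 f3 f4
        · right
          exact ⟨_, f4, Or.inr (Or.inl ⟨a2, hgj, ⟨z * V, by ring⟩⟩)⟩
      · right
        exact ⟨_, f3, Or.inr (Or.inr ⟨W', ⟨q * V, by ring⟩, hτabs⟩)⟩
    · right
      exact ⟨_, f2, Or.inr (Or.inr ⟨W', ⟨t * U, by ring⟩, hτabs⟩)⟩
  · right
    exact ⟨_, f1, Or.inl ⟨a1, hga, ⟨z * U, by ring⟩⟩⟩

end Pool.Agent.Work.MP_a8fbd7_nt.PAR.RP.I_Lk2
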