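import Pool.Agent.Work.MP_a8fbd7_nt.PAR.RP.StmtsK
import Pool.Agent.Work.MP_a8fbd7_nt.PAR.EF.I_Mo

set_option autoImplicit false

/-!
MP_a8fbd7_nt, block RP, item MoR: the second moment of the number of aligned primes.
-/

open Finset

noncomputable section

namespace Pool.Agent.Work.MP_a8fbd7_nt.PAR.RP.I_MoR

open Pool.Agent.Work.MP_a8fbd7_nt.PAR.LC Pool.Agent.Work.MP_a8fbd7_nt.PAR.EF
open Pool.Agent.Work.MP_a8fbd7_nt.PAR.RP
open Pool.Agent.Work.MP_a8fbd7_nt.PAR.EF.I_Mo (Ar Ar_card Ar_card_le cel_eq cl cl_sum)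

/-- indicator of the aligned classes -/
def ch (M : ℕ → ℕ) (A : ℕ → Finset ℕ) (P p m : ℕ) : ℝ :=
  if M m % p ∈ A p ∧ M m / p ≡ 1 [MOD P] then 1 else 0

theorem cl_one (M : ℕ → ℕ) (Z b m : ℕ) (h : M m ≡ b [MOD Z]) : cl M Z b m = 1 := by
  unfold cl
  exact if_pos h

theorem cl_zero (M : ℕ → ℕ) (Z b m : ℕ) (h : ¬ M m ≡ b [MOD Z]) : cl M Z b m = 0 := by
  unfold cl
  exact if_neg h

theorem mod_iff (P p b M : ℕ) (hb : b < p) :
    M ≡ p + b [MOD p * P] ↔ M % p = b ∧ M / p ≡ 1 [MOD P] := by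
  have hp : 0 < p := by omega
  constructor
  · intro h
    have h1 : M % p = b := by
      have h2 : M ≡ p + b [MOD p] := h.of_mul_right P
      have h3 : p + b ≡ b [MOD p] := by
        rw [Nat.ModEq, Nat.add_mod_left]
      have h4 : M % p = b % p := h2.trans h3
      rw [h4, Nat.mod_eq_of_lt hb]
    refine ⟨h1, ?_⟩
    have h5 : p * (M / p) + b ≡ p * 1 + b [MOD p * P] := by
      have h6 : p * (M / p) + b = M := by
        rw [← h1]
        exact Nat.div_add_mod M p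
      rw [h6, mul_one]
      exact h
    have h7 : p * (M / p) ≡ p * 1 [MOD p * P] := Nat.ModEq.add_right_cancel' b h5
    exact Nat.ModEq.mul_left_cancel' hp.ne' h7
  · rintro ⟨h1, h2⟩
    have h3 : p * (M / p) ≡ p * 1 [MOD p * P] := Nat.ModEq.mul_left' p h2
    have h5 : p * (M / p) + b ≡ p * 1 + b [MOD p * P] := h3.add_right b
    have h6 : p * (M / p) + b = M := by
      rw [← h1]
      exact Nat.div_add_mod M p
    rw [h6, mul_one] at h5
    exact h5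

theorem ch_eq (M : ℕ → ℕ) (A : ℕ → Finset ℕ) (P p m : ℕ) (hA : A p ⊆ range p) :
    ch M A P p m = ∑ b ∈ A p, cl M (p * P) (p + b) m := by
  have h1 : ∀ b ∈ A p, cl M (p * P) (p + b) m =
      if M m % p = b then (if M m / p ≡ 1 [MOD P] then (1 : ℝ) else 0) else 0 := by
    intro b hb
    have h2 := mod_iff P p b (M m) (mem_range.mp (hA hb))
    by_cases h3 : M m ≡ p + b [MOD p * P]
    · have h4 := h2.mp h3
      rw [cl_one M _ _ m h3, if_pos h4.1, if_pos h4.2]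
    · rw [cl_zero M _ _ m h3]
      by_cases h4 : M m % p = b
      · rw [if_pos h4, if_neg (fun h5 => h3 (h2.mpr ⟨h4, h5⟩))]
      · rw [if_neg h4]
  rw [Finset.sum_congr rfl h1, Finset.sum_ite_eq]
  unfold ch
  by_cases h4 : M m % p ∈ A p
  · rw [if_pos h4]
    by_cases h5 : M m / p ≡ 1 [MOD P]
    · rw [if_pos ⟨h4, h5⟩, if_pos h5]
    · rw [if_neg (fun h => h5 h.2), if_neg h5]
  · rw [if_neg h4, if_neg (fun h => h4 h.1)]

theorem ch_sq (M : ℕ → ℕ) (A : ℕ → Finset ℕ) (P p m : ℕ) :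
    ch M A P p m * ch M A P p m = ch M A P p m := by
  unfold ch
  split_ifs <;> norm_num

open Classical in
theorem cl_mul_sum (S : Finset ℕ) (M : ℕ → ℕ) (P p p' b b' : ℕ) (Y E : ℝ) (hP : 1 ≤ P) (hp : 1 ≤ p) (hp' : 1 ≤ p')
    (h : p.Coprime p') (hY : 0 ≤ Y) (hE : 0 ≤ E)
    (h2 : ∀ b : ℕ, |((S.filter (fun m => M m ≡ b [MOD (p * p' * P)])).card : ℝ) - Y / ((p * p' * P : ℕ) : ℝ)| ≤ E) :
    ∑ m ∈ S, cl M (p * P) (p + b) m * cl M (p' * P) (p' + b') m ≤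
      if p + b ≡ p' + b' [MOD P] then Y / (p * p' * P) + E else 0 := by
  have hD0 : (0 : ℝ) ≤ Y / (p * p' * P) + E := by positivity
  have hsum : ∑ m ∈ S, cl M (p * P) (p + b) m * cl M (p' * P) (p' + b') m =
      ((S.filter (fun m => M m ≡ p + b [MOD (p * P)] ∧ M m ≡ p' + b' [MOD (p' * P)])).card : ℝ) := by
    rw [Finset.card_filter]
    push_cast
    refine Finset.sum_congr rfl fun m _ => ?_
    by_cases h3 : M m ≡ p + b [MOD (p * P)]
    · by_cases h4 : M m ≡ p' + b' [MOD (p' * P)]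
      · rw [if_pos ⟨h3, h4⟩, cl_one M _ _ m h3, cl_one M _ _ m h4, one_mul]
      · rw [if_neg (fun h => h4 h.2), cl_zero M _ _ m h4, mul_zero]
    · rw [if_neg (fun h => h3 h.1), cl_zero M _ _ m h3, zero_mul]
  rw [hsum]
  rcases Finset.eq_empty_or_nonempty (S.filter (fun m => M m ≡ p + b [MOD (p * P)] ∧ M m ≡ p' + b' [MOD (p' * P)])) with h3 | h3
  · rw [h3, card_empty, Nat.cast_zero]
    split_ifs
    · exact hD0
    · exact le_rfl
  · obtain ⟨m0, hm0⟩ := h3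
    have hm1 := (mem_filter.mp hm0).2
    have hcomp : p + b ≡ p' + b' [MOD P] :=
      (hm1.1.of_mul_left p).symm.trans (hm1.2.of_mul_left p')
    rw [if_pos hcomp]
    have h4 : (S.filter (fun m => M m ≡ p + b [MOD (p * P)] ∧ M m ≡ p' + b' [MOD (p' * P)])) ⊆
        (S.filter (fun m => M m ≡ M m0 [MOD (p * p' * P)])) := by
      intro m hm
      rw [mem_filter] at hm ⊢
      refine ⟨hm.1, ?_⟩
      have h5 : M m ≡ M m0 [MOD (p * P)] := hm.2.1.trans hm1.1.symm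
      have h6 : M m ≡ M m0 [MOD (p' * P)] := hm.2.2.trans hm1.2.symm
      rw [Nat.modEq_iff_dvd] at h5 h6 ⊢
      have h7 : ((p : ℤ) * P) ∣ ((M m0 : ℤ) - M m) := by exact_mod_cast h5
      have h8 : ((p' : ℤ) * P) ∣ ((M m0 : ℤ) - M m) := by exact_mod_cast h6
      obtain ⟨a, ha⟩ := h7
      obtain ⟨a', ha'⟩ := h8
      have hP0 : (P : ℤ) ≠ 0 := by
        have : P ≠ 0 := by omega
        exact_mod_cast this
      have h9 : (p : ℤ) * a = p' * a' := by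
        apply mul_left_cancel₀ hP0
        calc (P : ℤ) * (p * a) = p * P * a := by ring
          _ = p' * P * a' := by rw [← ha, ha']
          _ = P * (p' * a') := by ring
      have h10 : IsCoprime (p : ℤ) (p' : ℤ) := Nat.isCoprime_iff_coprime.mpr h
      have h11 : (p' : ℤ) ∣ a := by
        apply h10.symm.dvd_of_dvd_mul_left
        exact ⟨a', h9⟩
      obtain ⟨d, hd⟩ := h11
      refine ⟨d, ?_⟩
      rw [ha, hd]
      push_cast
      ring
    have h5 : ((S.filter (fun m => M m ≡ p + b [MOD (p * P)] ∧ M m ≡ p' + b' [MOD (p' * P)])).card : ℝ) ≤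
        ((S.filter (fun m => M m ≡ M m0 [MOD (p * p' * P)])).card : ℝ) := by
      exact_mod_cast card_le_card h4
    have h6 := (abs_le.mp (h2 (M m0))).2
    push_cast at h6
    refine h5.trans ?_
    linarith

open Classical in
/-- the abstract second moment bound -/
theorem mom (S Q : Finset ℕ) (M : ℕ → ℕ) (A : ℕ → Finset ℕ) (P : ℕ) (Y E μ T : ℝ) (hP1 : 1 ≤ P)
    (hP : ∀ p ∈ Q, p.Prime) (hA : ∀ p ∈ Q, A p ⊆ range p) (hE : 0 ≤ E) (hY : 0 ≤ Y)
    (hμ : μ = ∑ p ∈ Q, ((A p).card : ℝ) / ((p : ℝ) * P)) (hT : T = ∑ p ∈ Q, ((A p).card : ℝ))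
    (h1 : ∀ p ∈ Q, ∀ b : ℕ, |((S.filter (fun m => M m ≡ b [MOD (p * P)])).card : ℝ) - Y / ((p * P : ℕ) : ℝ)| ≤ E)
    (h2 : ∀ p ∈ Q, ∀ p' ∈ Q, p ≠ p' → ∀ b : ℕ,
      |((S.filter (fun m => M m ≡ b [MOD (p * p' * P)])).card : ℝ) - Y / ((p * p' * P : ℕ) : ℝ)| ≤ E)
    (h3 : ∀ p ∈ Q, ∀ s : ℕ, (((A p).filter (fun b => s ≡ p + b [MOD P])).card : ℝ) ≤ ((A p).card : ℝ) / P + 1)
    (h4 : ∑ p ∈ Q, 1 / (p : ℝ) ≤ 3) :
    ∑ m ∈ S, (∑ p ∈ Q, ch M A P p m - μ) ^ 2 ≤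
      4 * Y * μ + μ ^ 2 * (S.card - Y) + E * (T + T ^ 2 + 2 * μ * T) := by
  have hPR : (1 : ℝ) ≤ P := by exact_mod_cast hP1
  have hPR0 : (P : ℝ) ≠ 0 := by positivity
  have hμ0 : 0 ≤ μ := by
    rw [hμ]
    exact Finset.sum_nonneg fun p _ => by positivity
  -- one prime
  have hone : ∀ p ∈ Q, |∑ m ∈ S, ch M A P p m - Y * ((A p).card / ((p : ℝ) * P))| ≤ E * (A p).card := by
    intro p hp
    have h3 : ∑ m ∈ S, ch M A P p m - Y * ((A p).card / ((p : ℝ) * P)) =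
        ∑ b ∈ A p, (((S.filter (fun m => M m ≡ p + b [MOD (p * P)])).card : ℝ) - Y / ((p * P : ℕ) : ℝ)) := by
      rw [Finset.sum_sub_distrib, Finset.sum_const, nsmul_eq_mul]
      have h4 : ∑ m ∈ S, ch M A P p m = ∑ b ∈ A p, ∑ m ∈ S, cl M (p * P) (p + b) m := by
        rw [Finset.sum_comm]
        exact Finset.sum_congr rfl fun m _ => ch_eq M A P p m (hA p hp)
      rw [h4]
      congr 1
      · refine Finset.sum_congr rfl fun b _ => ?_
        rw [cl_sum S M (p * P) (p + b)]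
      · push_cast
        ring
    rw [h3]
    refine (Finset.abs_sum_le_sum_abs _ _).trans ?_
    refine (Finset.sum_le_sum fun b _ => h1 p hp (p + b)).trans (le_of_eq ?_)
    rw [Finset.sum_const, nsmul_eq_mul, mul_comm]
  -- two primes
  have htwo : ∀ p ∈ Q, ∀ p' ∈ Q, p ≠ p' → ∑ m ∈ S, ch M A P p m * ch M A P p' m ≤
      (A p).card * ((((A p').card : ℝ) / P + 1) * (Y / (p * p' * P)) + (A p').card * E) := by
    intro p hp p' hp' hne
    have hco : p.Coprime p' := (Nat.coprime_primes (hP p hp) (hP p' hp')).mpr hne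
    have h5 : ∑ m ∈ S, ch M A P p m * ch M A P p' m =
        ∑ b ∈ A p, ∑ b' ∈ A p', ∑ m ∈ S, cl M (p * P) (p + b) m * cl M (p' * P) (p' + b') m := by
      have h6 : ∀ m ∈ S, ch M A P p m * ch M A P p' m =
          ∑ b ∈ A p, ∑ b' ∈ A p', cl M (p * P) (p + b) m * cl M (p' * P) (p' + b') m := by
        intro m _
        rw [ch_eq M A P p m (hA p hp), ch_eq M A P p' m (hA p' hp'), Finset.sum_mul_sum]
      rw [Finset.sum_congr rfl h6, Finset.sum_comm]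
      refine Finset.sum_congr rfl fun b _ => ?_
      rw [Finset.sum_comm]
    rw [h5]
    have h6 : ∀ b ∈ A p, ∑ b' ∈ A p', ∑ m ∈ S, cl M (p * P) (p + b) m * cl M (p' * P) (p' + b') m ≤
        (((A p').card : ℝ) / P + 1) * (Y / (p * p' * P)) + (A p').card * E := by
      intro b _
      have h7 : ∑ b' ∈ A p', ∑ m ∈ S, cl M (p * P) (p + b) m * cl M (p' * P) (p' + b') m ≤
          ∑ b' ∈ A p', (if p + b ≡ p' + b' [MOD P] then Y / (p * p' * P) + E else 0) :=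
        Finset.sum_le_sum fun b' _ => cl_mul_sum S M P p p' b b' Y E hP1 (hP p hp).one_lt.le (hP p' hp').one_lt.le
          hco hY hE (h2 p hp p' hp' hne)
      refine h7.trans ?_
      rw [← Finset.sum_filter, Finset.sum_const, nsmul_eq_mul, mul_add]
      have h8 := h3 p' hp' (p + b)
      have h9 : (((A p').filter (fun b' => p + b ≡ p' + b' [MOD P])).card : ℝ) ≤ (A p').card := by
        exact_mod_cast card_filter_le _ _
      have h10 : (0 : ℝ) ≤ Y / (p * p' * P) := by positivity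
      exact add_le_add (mul_le_mul_of_nonneg_right h8 h10) (mul_le_mul_of_nonneg_right h9 hE)
    refine (Finset.sum_le_sum h6).trans (le_of_eq ?_)
    rw [Finset.sum_const, nsmul_eq_mul]
  -- all pairs
  have hpair : ∀ p ∈ Q, ∀ p' ∈ Q, ∑ m ∈ S, ch M A P p m * ch M A P p' m ≤
      (if p = p' then Y * ((A p).card / ((p : ℝ) * P)) + E * (A p).card else 0) +
        (A p).card * ((((A p').card : ℝ) / P + 1) * (Y / (p * p' * P)) + (A p').card * E) := by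
    intro p hp p' hp'
    by_cases hpp : p = p'
    · subst hpp
      rw [if_pos rfl]
      have h5 : ∑ m ∈ S, ch M A P p m * ch M A P p m = ∑ m ∈ S, ch M A P p m :=
        Finset.sum_congr rfl fun m _ => ch_sq M A P p m
      rw [h5]
      have h6 := (abs_le.mp (hone p hp)).2
      have h7 : (0 : ℝ) ≤ (A p).card * ((((A p).card : ℝ) / P + 1) * (Y / (p * p * P)) + (A p).card * E) := by
        positivity
      linarith
    · rw [if_neg hpp, zero_add]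
      exact htwo p hp p' hp' hpp
  -- first moment
  have hfirst : Y * μ - E * T ≤ ∑ p ∈ Q, ∑ m ∈ S, ch M A P p m := by
    rw [hμ, hT, Finset.mul_sum, Finset.mul_sum, ← Finset.sum_sub_distrib]
    refine Finset.sum_le_sum fun p hp => ?_
    have h4 := (abs_le.mp (hone p hp)).1
    linarith
  -- second moment
  have hsecond : ∑ p ∈ Q, ∑ p' ∈ Q, ∑ m ∈ S, ch M A P p m * ch M A P p' m ≤
      Y * μ + E * T + (Y * μ ^ 2 + 3 * Y * μ + E * T ^ 2) := by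
    have h5 : ∀ p ∈ Q, ∑ p' ∈ Q, ∑ m ∈ S, ch M A P p m * ch M A P p' m ≤
        (Y * (((A p).card : ℝ) / ((p : ℝ) * P)) + E * (A p).card) +
          (Y * (((A p).card : ℝ) / ((p : ℝ) * P)) * μ + Y * (((A p).card : ℝ) / ((p : ℝ) * P)) * 3 +
            E * (A p).card * T) := by
      intro p hp
      refine (Finset.sum_le_sum fun p' hp' => hpair p hp p' hp').trans ?_
      rw [Finset.sum_add_distrib, Finset.sum_ite_eq, if_pos hp]
      refine add_le_add le_rfl ?_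
      have h6 : ∑ p' ∈ Q, ((A p).card : ℝ) * ((((A p').card : ℝ) / P + 1) * (Y / (p * p' * P)) + (A p').card * E) =
          Y * (((A p).card : ℝ) / ((p : ℝ) * P)) * ∑ p' ∈ Q, ((A p').card : ℝ) / ((p' : ℝ) * P) +
          Y * (((A p).card : ℝ) / ((p : ℝ) * P)) * ∑ p' ∈ Q, 1 / (p' : ℝ) +
          E * (A p).card * ∑ p' ∈ Q, ((A p').card : ℝ) := by
        rw [Finset.mul_sum, Finset.mul_sum, Finset.mul_sum, ← Finset.sum_add_distrib, ← Finset.sum_add_distrib]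
        refine Finset.sum_congr rfl fun p' hp' => ?_
        have h7 : (p : ℝ) ≠ 0 := by exact_mod_cast (hP p hp).ne_zero
        have h8 : (p' : ℝ) ≠ 0 := by exact_mod_cast (hP p' hp').ne_zero
        field_simp
      rw [h6, ← hμ, ← hT]
      have h9 : (0 : ℝ) ≤ Y * (((A p).card : ℝ) / ((p : ℝ) * P)) := by positivity
      have h10 := mul_le_mul_of_nonneg_left h4 h9
      linarith
    refine (Finset.sum_le_sum h5).trans (le_of_eq ?_)
    rw [Finset.sum_add_distrib, Finset.sum_add_distrib, Finset.sum_add_distrib,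
      Finset.sum_add_distrib, ← Finset.mul_sum, ← Finset.mul_sum, ← Finset.sum_mul,
      ← Finset.mul_sum, ← Finset.sum_mul, ← Finset.mul_sum, ← Finset.sum_mul, ← Finset.mul_sum, ← hμ, ← hT]
    ring
  -- expansion
  have hexp : ∑ m ∈ S, (∑ p ∈ Q, ch M A P p m - μ) ^ 2 =
      ∑ p ∈ Q, ∑ p' ∈ Q, ∑ m ∈ S, ch M A P p m * ch M A P p' m -
        2 * μ * ∑ p ∈ Q, ∑ m ∈ S, ch M A P p m + μ ^ 2 * S.card := by
    have h3 : ∀ m ∈ S, (∑ p ∈ Q, ch M A P p m - μ) ^ 2 =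
        ∑ p ∈ Q, ∑ p' ∈ Q, ch M A P p m * ch M A P p' m - 2 * μ * ∑ p ∈ Q, ch M A P p m + μ ^ 2 := by
      intro m _
      rw [← Finset.sum_mul_sum]
      ring
    rw [Finset.sum_congr rfl h3, Finset.sum_add_distrib, Finset.sum_sub_distrib, Finset.sum_const,
      nsmul_eq_mul, ← Finset.mul_sum]
    rw [Finset.sum_comm (s := S) (t := Q), Finset.sum_comm (s := S) (t := Q)]
    have h4 : ∀ p ∈ Q, ∑ m ∈ S, ∑ p' ∈ Q, ch M A P p m * ch M A P p' m =
        ∑ p' ∈ Q, ∑ m ∈ S, ch M A P p m * ch M A P p' m := fun p _ => Finset.sum_comm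
    rw [Finset.sum_congr rfl h4]
    ring
  rw [hexp]
  have h7 : 2 * μ * (Y * μ - E * T) ≤ 2 * μ * ∑ p ∈ Q, ∑ m ∈ S, ch M A P p m :=
    mul_le_mul_of_nonneg_left hfirst (by positivity)
  nlinarith [hsecond, h7]

theorem Ar_eq (J p : ℕ) (hJ : 1 ≤ J) : Ar J p = Ico ⌈(p : ℝ) / (2 * J)⌉₊ ⌊(p : ℝ) / J⌋₊ := by
  ext b
  unfold Ar
  rw [mem_filter, mem_range, mem_Ico, Nat.ceil_le]
  have hJR : (1 : ℝ) ≤ J := by exact_mod_cast hJ
  constructor
  · rintro ⟨_, h1, h2⟩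
    refine ⟨h1, ?_⟩
    have h3 : b + 1 ≤ ⌊(p : ℝ) / J⌋₊ := Nat.le_floor (by push_cast; exact h2)
    omega
  · rintro ⟨h1, h2⟩
    have h3 : ((b + 1 : ℕ) : ℝ) ≤ (p : ℝ) / J :=
      (Nat.le_floor_iff (by positivity)).mp (by omega)
    push_cast at h3
    refine ⟨?_, h1, h3⟩
    have h4 : (p : ℝ) / J ≤ p := div_le_self (Nat.cast_nonneg _) hJR
    have h5 : ((b + 1 : ℕ) : ℝ) ≤ p := by
      push_cast
      linarith
    have h6 : b + 1 ≤ p := by exact_mod_cast h5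
    omega

theorem cls_card (a d P p s : ℕ) :
    (((Ico a d).filter (fun b => s ≡ p + b [MOD P])).card : ℝ) ≤ ((Ico a d).card : ℝ) / P + 1 := by
  have h1 : ((Ico a d).filter (fun b => s ≡ p + b [MOD P])).card ≤ (range ((d - a) / P + 1)).card := by
    apply Finset.card_le_card_of_injOn (fun b => (b - a) / P)
    · intro b hb
      rw [Finset.mem_coe, mem_filter, mem_Ico] at hb
      rw [Finset.mem_coe, mem_range]
      have h2 : (b - a) / P ≤ (d - a) / P := Nat.div_le_div_right (by omega)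
      show (b - a) / P < (d - a) / P + 1
      omega
    · intro b hb b' hb' h
      rw [Finset.mem_coe, mem_filter, mem_Ico] at hb hb'
      have h2 : p + b ≡ p + b' [MOD P] := hb.2.symm.trans hb'.2
      have h3 : b ≡ b' [MOD P] := Nat.ModEq.add_left_cancel' p h2
      have h4 : (b - a) + a ≡ (b' - a) + a [MOD P] := by
        rw [Nat.sub_add_cancel hb.1.1, Nat.sub_add_cancel hb'.1.1]
        exact h3
      have h5 : (b - a) ≡ (b' - a) [MOD P] := Nat.ModEq.add_right_cancel' a h4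
      have h6 : b - a = b' - a := by
        rw [← Nat.div_add_mod (b - a) P, ← Nat.div_add_mod (b' - a) P]
        have h7 : (b - a) / P = (b' - a) / P := h
        rw [h7, h5]
      omega
  rw [card_range] at h1
  have h2 : (((Ico a d).filter (fun b => s ≡ p + b [MOD P])).card : ℝ) ≤ (((d - a) / P + 1 : ℕ) : ℝ) := by
    exact_mod_cast h1
  refine h2.trans ?_
  rw [Nat.card_Ico]
  push_cast
  have h3 : (((d - a) / P : ℕ) : ℝ) ≤ ((d - a : ℕ) : ℝ) / (P : ℝ) := Nat.cast_div_le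
  linarith

open Classical in
theorem filter_Al (n : ℝ) (P J m : ℕ) (Q : Finset ℕ) (hQ : ∀ p ∈ Q, 0 < p) :
    ((Q.filter (fun p => AlR n P J p m)).card : ℝ) =
      ∑ p ∈ Q, ch (fun m : ℕ => ⌊n ^ 2 / (m : ℝ)⌋₊) (Ar J) P p m := by
  rw [Finset.card_filter]
  push_cast
  refine Finset.sum_congr rfl fun p hp => ?_
  unfold ch
  have h1 : AlR n P J p m ↔ (⌊n ^ 2 / (m : ℝ)⌋₊ % p ∈ Ar J p ∧ ⌊n ^ 2 / (m : ℝ)⌋₊ / p ≡ 1 [MOD P]) := by
    unfold AlR Ar
    rw [mem_filter, mem_range]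
    exact ⟨fun h => ⟨⟨Nat.mod_lt _ (hQ p hp), h.1, h.2.1⟩, h.2.2⟩, fun h => ⟨h.1.2.1, h.1.2.2, h.2⟩⟩
  by_cases h2 : AlR n P J p m
  · rw [if_pos h2, if_pos (h1.mp h2)]
  · rw [if_neg h2, if_neg (fun h => h2 (h1.mpr h))]

open Classical in
theorem prf (h : StEQE) : StMoR := by
  intro P hP1
  obtain ⟨C, hC, hE⟩ := h
  refine ⟨(100 * C) ^ 50, ?_⟩
  intro n c J hn hc0 hc1 hJ1 hJ2 hJc hPJ
  have hn1 : 1 ≤ n := le_trans (one_le_pow₀ (by linarith)) hn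
  have hn0 : 0 < n := by linarith
  have hPR : (1 : ℝ) ≤ P := by exact_mod_cast hP1
  have hJ800 : (800 : ℝ) ≤ J := by
    refine le_trans ?_ hJ1
    rw [le_div_iff₀ (by positivity)]
    have h1 : c ^ 2 ≤ (1 / 10) ^ 2 := pow_le_pow_left₀ hc0.le hc1 2
    linarith
  have hJ0 : (0 : ℝ) < J := by linarith
  have hJne : (J : ℝ) ≠ 0 := hJ0.ne'
  have hcne : c ≠ 0 := hc0.ne'
  have hPleJ : (P : ℝ) ≤ J := by
    have h1 : P ≤ P ^ 8 := Nat.le_self_pow (by norm_num) P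
    have h2 : P ≤ J := by omega
    exact_mod_cast h2
  -- powers of n
  have h50 : 100 * C ≤ n ^ (1 / 50 : ℝ) := by
    have h1 : ((100 * C) ^ 50) ^ (1 / 50 : ℝ) ≤ n ^ (1 / 50 : ℝ) :=
      Real.rpow_le_rpow (by positivity) hn (by norm_num)
    rw [← Real.rpow_natCast, ← Real.rpow_mul (by positivity)] at h1
    norm_num at h1 ⊢
    exact h1
  clear hn
  obtain ⟨u, hu⟩ : ∃ u : ℝ, u = J / c := ⟨_, rfl⟩
  rw [← hu] at hJc
  have hJu : (J : ℝ) = c * u := by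
    rw [hu]
    field_simp
  have hu0 : 0 < u := by rw [hu]; positivity
  have hu1 : 1 / c ≤ u := by
    rw [hu]
    exact div_le_div_of_nonneg_right (by linarith) hc0.le
  have hJu10 : (J : ℝ) ≤ u / 10 := by
    have h3 : c * u ≤ 1 / 10 * u := mul_le_mul_of_nonneg_right hc1 hu0.le
    linarith
  have hcn : n ^ (-(1 / 50) : ℝ) ≤ c := by
    have h1 : 1 / c ≤ n ^ (1 / 50 : ℝ) := hu1.trans (hJc.trans
      (Real.rpow_le_rpow_of_exponent_le hn1 (by norm_num)))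
    rw [Real.rpow_neg hn0.le]
    have h2 : 0 < n ^ (1 / 50 : ℝ) := Real.rpow_pos_of_pos hn0 _
    rw [inv_le_comm₀ h2 hc0, ← one_div]
    exact h1
  -- the size y
  obtain ⟨y, hy⟩ : ∃ y : ℕ, y = yJ J := ⟨_, rfl⟩
  rw [← hy]
  have hyu : (y : ℝ) ≤ (J : ℝ) ^ 2 := by
    rw [hy]
    unfold yJ
    refine (Nat.floor_le (by positivity)).trans ?_
    rw [← Real.rpow_natCast]
    exact Real.rpow_le_rpow_of_exponent_le (by linarith) (by norm_num)
  have hyl : J ≤ y := by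
    rw [hy]
    unfold yJ
    apply Nat.le_floor
    calc (J : ℝ) = (J : ℝ) ^ (1 : ℝ) := (Real.rpow_one _).symm
      _ ≤ (J : ℝ) ^ (7 / 4 : ℝ) := Real.rpow_le_rpow_of_exponent_le (by linarith) (by norm_num)
  have hylR : (J : ℝ) ≤ y := by exact_mod_cast hyl
  have hy0 : (0 : ℝ) < y := by linarith
  have hy1 : (1 : ℝ) ≤ y := by linarith
  -- the length
  obtain ⟨x, hx⟩ : ∃ x : ℝ, x = 200 * J / c * n / y := ⟨_, rfl⟩
  rw [← hx]
  have hx2 : x = 200 * J * n / (c * y) := by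
    rw [hx]
    field_simp
  have hx0 : 0 < x := by rw [hx2]; positivity
  have hxl : 22 * c * n ≤ x := by
    have h0 : 200 * n / (c * J) ≤ x := by
      rw [hx2, div_le_div_iff₀ (by positivity) (by positivity)]
      have h1 : 200 * n * (c * y) ≤ 200 * n * (c * (J : ℝ) ^ 2) := by
        apply mul_le_mul_of_nonneg_left _ (by positivity)
        exact mul_le_mul_of_nonneg_left hyu hc0.le
      refine h1.trans (le_of_eq ?_)
      ring
    refine le_trans ?_ h0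
    rw [le_div_iff₀ (by positivity)]
    have h1 : (J : ℝ) * c ^ 2 ≤ 9 := by
      rw [le_div_iff₀ (by positivity)] at hJ2
      exact hJ2
    have h2 : 22 * c * n * (c * J) = 22 * n * (J * c ^ 2) := by ring
    rw [h2]
    have h3 : 22 * n * (J * c ^ 2) ≤ 22 * n * 9 := mul_le_mul_of_nonneg_left h1 (by positivity)
    linarith
  have hxu : x ≤ n * n ^ (1 / 400 : ℝ) / 4 := by
    have h0 : x ≤ 200 * n / c := by
      rw [hx2, div_le_div_iff₀ (by positivity) (by positivity)]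
      have h1 : 200 * (J : ℝ) * n * c ≤ 200 * y * n * c := by
        apply mul_le_mul_of_nonneg_right _ hc0.le
        apply mul_le_mul_of_nonneg_right _ hn0.le
        linarith
      refine h1.trans (le_of_eq ?_)
      ring
    refine h0.trans ?_
    have h1 : 800 * (1 / c) ≤ u := by
      rw [hu]
      have h2 : 800 * (1 / c) = 800 / c := by ring
      rw [h2]
      exact div_le_div_of_nonneg_right hJ800 hc0.le
    have h2 : 200 * n / c = 200 * n * (1 / c) := by ring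
    rw [h2]
    have h3 : 800 * (1 / c) ≤ n ^ (1 / 400 : ℝ) := h1.trans hJc
    have h4 : n * (800 * (1 / c)) ≤ n * n ^ (1 / 400 : ℝ) := mul_le_mul_of_nonneg_left h3 hn0.le
    linarith
  obtain ⟨X, hX⟩ : ∃ X : ℕ, X = ⌈x⌉₊ := ⟨_, rfl⟩
  rw [← hX]
  have hX1 : 1 ≤ X := by
    rw [hX]
    exact Nat.one_le_ceil_iff.mpr hx0
  have hXx : x ≤ X := by
    rw [hX]
    exact Nat.le_ceil x
  have hXu : (X : ℝ) < x + 1 := by
    rw [hX]
    exact Nat.ceil_lt_add_one hx0.le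
  have hXR : (1 : ℝ) ≤ X := by exact_mod_cast hX1
  -- equidistribution
  have heq : ∀ Z M0 : ℕ, 1 ≤ Z → (Z : ℝ) ≤ 16 * (J : ℝ) ^ 5 →
      |(((Ico X (2 * X)).filter (fun m : ℕ => ⌊n ^ 2 / (m : ℝ)⌋₊ ≡ M0 [MOD Z])).card : ℝ) -
        ((X : ℝ) - 1) / Z| ≤ C * n ^ (19 / 20 : ℝ) := by
    intro Z M0 hZ1 hZ
    have h1 : 16 * (J : ℝ) ^ 5 ≤ n ^ (1 / 50 : ℝ) := by
      have h3 : (J : ℝ) ^ 5 ≤ (u / 10) ^ 5 := pow_le_pow_left₀ hJ0.le hJu10 5
      have h4 : u ^ 5 ≤ (n ^ (1 / 400 : ℝ)) ^ 5 := pow_le_pow_left₀ hu0.le hJc 5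
      rw [← Real.rpow_natCast (n ^ (1 / 400 : ℝ)), ← Real.rpow_mul hn0.le] at h4
      have h5 : n ^ (1 / 400 * ((5 : ℕ) : ℝ) : ℝ) ≤ n ^ (1 / 50 : ℝ) :=
        Real.rpow_le_rpow_of_exponent_le hn1 (by norm_num)
      have h6 : 0 < u ^ 5 := by positivity
      have h7 : (u / 10) ^ 5 = u ^ 5 / 100000 := by ring
      rw [h7] at h3
      linarith
    have h2 := hE n (X / n) X (2 * X - 1) 1 0 Z M0 1 0 hn1
      (by
        rw [le_div_iff₀ hn0]
        have h3 : n ^ (-(1 / 50) : ℝ) * n ≤ c * n := mul_le_mul_of_nonneg_right hcn hn0.le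
        have h4 : 0 < c * n := mul_pos hc0 hn0
        linarith)
      (by
        rw [div_le_iff₀ hn0]
        have h4 : n ^ (1 / 400 : ℝ) ≤ n ^ (1 / 50 : ℝ) :=
          Real.rpow_le_rpow_of_exponent_le hn1 (by norm_num)
        have h5 : n * n ^ (1 / 400 : ℝ) ≤ n * n ^ (1 / 50 : ℝ) := mul_le_mul_of_nonneg_left h4 hn0.le
        have h6 : n * 100 ≤ n * n ^ (1 / 50 : ℝ) := mul_le_mul_of_nonneg_left (by linarith) hn0.le
        linarith)
      (by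
        rw [div_mul_cancel₀ _ hn0.ne'])
      (by omega)
      (by
        rw [mul_assoc, div_mul_cancel₀ _ hn0.ne', Nat.cast_sub (by omega)]
        push_cast
        linarith)
      le_rfl (by push_cast; linarith) hZ1 (hZ.trans h1) le_rfl (by push_cast; linarith) one_pos
    rw [cel_eq n X Z M0 hX1] at h2
    rw [Nat.cast_sub (by omega)] at h2
    have h3 : (((2 * X : ℕ) : ℝ) - ((1 : ℕ) : ℝ) - (X : ℝ)) / (((1 : ℕ) : ℝ) * Z * ((1 : ℕ) : ℝ)) =
        ((X : ℝ) - 1) / Z := by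
      push_cast
      ring
    rw [h3] at h2
    exact h2
  -- the primes
  obtain ⟨J1, hJ1d⟩ : ∃ J1 : ℕ, J1 = 2 * P * J := ⟨_, rfl⟩
  rw [← hJ1d]
  have hJpos : 1 ≤ J := by exact_mod_cast (by linarith : (1 : ℝ) ≤ J)
  have hJ11 : 1 ≤ J1 := by
    rw [hJ1d]
    exact Nat.mul_pos (by omega) hJpos
  obtain ⟨Q, hQ⟩ : ∃ Q : Finset ℕ, Q = Pr y (4 * y) := ⟨_, rfl⟩
  have hQm : ∀ p ∈ Q, p.Prime ∧ (p : ℝ) ≤ 4 * (y : ℝ) ∧ (y : ℝ) ≤ p := by
    intro p hp
    rw [hQ] at hp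
    unfold Pr at hp
    have h1 := mem_Ioc.mp (mem_filter.mp hp).1
    refine ⟨(mem_filter.mp hp).2, by exact_mod_cast h1.2, by exact_mod_cast h1.1.le⟩
  have hQc : (Q.card : ℝ) ≤ 3 * y := by
    have h3 : Q.card ≤ 4 * y - y := by
      rw [hQ]
      unfold Pr
      refine (card_filter_le _ _).trans ?_
      rw [Nat.card_Ioc]
    have h4 : Q.card ≤ 3 * y := by omega
    exact_mod_cast h4
  have hQs : ∑ p ∈ Q, 1 / (p : ℝ) ≤ 3 := by
    have h1 : ∀ p ∈ Q, 1 / (p : ℝ) ≤ 1 / y := fun p hp =>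
      one_div_le_one_div_of_le hy0 (hQm p hp).2.2
    refine (Finset.sum_le_sum h1).trans ?_
    rw [Finset.sum_const, nsmul_eq_mul, mul_one_div, div_le_iff₀ hy0]
    exact hQc
  obtain ⟨T, hT⟩ : ∃ T : ℝ, T = ∑ p ∈ Q, ((Ar J1 p).card : ℝ) := ⟨_, rfl⟩
  obtain ⟨μ, hμd⟩ : ∃ μ : ℝ, μ = muR P J1 y := ⟨_, rfl⟩
  rw [← hμd]
  have hμ : μ = ∑ p ∈ Q, ((Ar J1 p).card : ℝ) / ((p : ℝ) * P) := by
    rw [hμd]
    unfold muR
    rw [hQ]
    exact Finset.sum_congr rfl fun p _ => by rw [Ar_card]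
  have hμ0 : 0 ≤ μ := by
    rw [hμ]
    exact Finset.sum_nonneg fun p _ => div_nonneg (Nat.cast_nonneg _)
      (mul_nonneg (Nat.cast_nonneg _) (Nat.cast_nonneg _))
  have hμT : μ ≤ T := by
    rw [hμ, hT]
    refine Finset.sum_le_sum fun p hp => ?_
    have h1 : (1 : ℝ) ≤ p := by exact_mod_cast (hQm p hp).1.one_lt.le
    have h2 : (1 : ℝ) ≤ (p : ℝ) * P := one_le_mul_of_one_le_of_one_le h1 hPR
    exact div_le_self (Nat.cast_nonneg _) h2
  have hT16 : T ≤ 16 * (J : ℝ) ^ 4 := by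
    rw [hT]
    have h1 : ∀ p ∈ Q, ((Ar J1 p).card : ℝ) ≤ 4 * y := by
      intro p hp
      refine (Ar_card_le J1 p).trans ?_
      have h2 : (1 : ℝ) ≤ J1 := by exact_mod_cast hJ11
      exact (div_le_self (Nat.cast_nonneg _) h2).trans (hQm p hp).2.1
    refine (Finset.sum_le_sum h1).trans ?_
    rw [Finset.sum_const, nsmul_eq_mul]
    have h5 : (Q.card : ℝ) * (4 * y) ≤ 3 * y * (4 * y) :=
      mul_le_mul_of_nonneg_right hQc (by positivity)
    have h6 : (y : ℝ) ^ 2 ≤ ((J : ℝ) ^ 2) ^ 2 := pow_le_pow_left₀ hy0.le hyu 2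
    have h7 : ((J : ℝ) ^ 2) ^ 2 = (J : ℝ) ^ 4 := by ring
    rw [h7] at h6
    have h8 : 3 * (y : ℝ) * (4 * y) = 12 * (y : ℝ) ^ 2 := by ring
    rw [h8] at h5
    have h9 : (0 : ℝ) ≤ (J : ℝ) ^ 4 := by positivity
    linarith
  have hEpos : 1 ≤ C * n ^ (19 / 20 : ℝ) := by
    have h1 : 1 ≤ n ^ (19 / 20 : ℝ) := Real.one_le_rpow hn1 (by norm_num)
    exact one_le_mul_of_one_le_of_one_le hC h1
  have hZ2 : ∀ p ∈ Q, ∀ p' ∈ Q, ((p * p' * P : ℕ) : ℝ) ≤ 16 * (J : ℝ) ^ 5 := by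
    intro p hp p' hp'
    push_cast
    have h1 : (p : ℝ) ≤ 4 * (J : ℝ) ^ 2 := (hQm p hp).2.1.trans (by linarith)
    have h2 : (p' : ℝ) ≤ 4 * (J : ℝ) ^ 2 := (hQm p' hp').2.1.trans (by linarith)
    calc (p : ℝ) * p' * P ≤ (4 * (J : ℝ) ^ 2) * (4 * (J : ℝ) ^ 2) * J :=
          mul_le_mul (mul_le_mul h1 h2 (Nat.cast_nonneg _) (by positivity)) hPleJ
            (Nat.cast_nonneg _) (by positivity)
      _ = 16 * (J : ℝ) ^ 5 := by ring
  have hq1 : ∀ p ∈ Q, ∀ b : ℕ,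
      |(((Ico X (2 * X)).filter (fun m : ℕ => ⌊n ^ 2 / (m : ℝ)⌋₊ ≡ b [MOD (p * P)])).card : ℝ) -
        ((X : ℝ) - 1) / ((p * P : ℕ) : ℝ)| ≤ C * n ^ (19 / 20 : ℝ) := by
    intro p hp b
    have hpp : 1 ≤ p := (hQm p hp).1.one_lt.le
    refine heq (p * P) b (Nat.mul_pos hpp hP1) ?_
    refine le_trans ?_ (hZ2 p hp p hp)
    have h1 : p * P ≤ p * p * P := Nat.mul_le_mul_right P (Nat.le_mul_of_pos_right p hpp)
    exact_mod_cast h1
  have hq2 : ∀ p ∈ Q, ∀ p' ∈ Q, p ≠ p' → ∀ b : ℕ,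
      |(((Ico X (2 * X)).filter (fun m : ℕ => ⌊n ^ 2 / (m : ℝ)⌋₊ ≡ b [MOD (p * p' * P)])).card : ℝ) -
        ((X : ℝ) - 1) / ((p * p' * P : ℕ) : ℝ)| ≤ C * n ^ (19 / 20 : ℝ) := by
    intro p hp p' hp' _ b
    exact heq (p * p' * P) b
      (Nat.mul_pos (Nat.mul_pos (hQm p hp).1.pos (hQm p' hp').1.pos) hP1) (hZ2 p hp p' hp')
  have hq3 : ∀ p ∈ Q, ∀ s : ℕ, (((Ar J1 p).filter (fun b => s ≡ p + b [MOD P])).card : ℝ) ≤
      ((Ar J1 p).card : ℝ) / P + 1 := by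
    intro p _ s
    rw [Ar_eq J1 p hJ11]
    exact cls_card _ _ P p s
  have hmom := mom (Ico X (2 * X)) Q (fun m : ℕ => ⌊n ^ 2 / (m : ℝ)⌋₊) (Ar J1) P (X - 1)
    (C * n ^ (19 / 20 : ℝ)) μ T hP1 (fun p hp => (hQm p hp).1)
    (fun p _ => filter_subset _ _) (zero_le_one.trans hEpos) (sub_nonneg.mpr hXR) hμ hT hq1 hq2 hq3 hQs
  have hsum : ∑ m ∈ Ico X (2 * X), ((((Pr y (4 * y)).filter
      (fun p => AlR n P J1 p m)).card : ℝ) - μ) ^ 2 =
      ∑ m ∈ Ico X (2 * X), (∑ p ∈ Q, ch (fun m : ℕ => ⌊n ^ 2 / (m : ℝ)⌋₊) (Ar J1) P p m -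
        μ) ^ 2 := by
    refine Finset.sum_congr rfl fun m _ => ?_
    rw [← hQ, filter_Al n P J1 m Q fun p hp => (hQm p hp).1.pos]
  rw [hsum]
  refine hmom.trans ?_
  rw [Nat.card_Ico]
  have hcard : ((2 * X - X : ℕ) : ℝ) = X := by
    have : 2 * X - X = X := by omega
    rw [this]
  rw [hcard]
  -- the numerical bound
  obtain ⟨E, hEd⟩ : ∃ E : ℝ, E = C * n ^ (19 / 20 : ℝ) := ⟨_, rfl⟩
  rw [← hEd] at hEpos ⊢
  have hT0 : 0 ≤ T := hμ0.trans hμT
  obtain ⟨T0, hT0d⟩ : ∃ T0 : ℝ, T0 = 16 * (J : ℝ) ^ 4 := ⟨_, rfl⟩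
  rw [← hT0d] at hT16
  have hT01 : 1 ≤ T0 := by
    rw [hT0d]
    have : (1 : ℝ) ≤ (J : ℝ) ^ 4 := one_le_pow₀ (by linarith)
    linarith
  have hbound : μ ^ 2 + E * (T + T ^ 2 + 2 * μ * T) ≤ 5 * E * T0 ^ 2 := by
    have h1 : μ ^ 2 ≤ T0 ^ 2 := pow_le_pow_left₀ hμ0 (hμT.trans hT16) 2
    have h2 : T ≤ T0 ^ 2 := by
      rw [sq]
      exact hT16.trans (le_mul_of_one_le_left (by linarith) hT01)
    have h3 : T ^ 2 ≤ T0 ^ 2 := pow_le_pow_left₀ hT0 hT16 2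
    have h4 : μ * T ≤ T0 ^ 2 := by
      rw [sq]
      exact mul_le_mul (hμT.trans hT16) hT16 hT0 (by linarith)
    have h5 : T0 ^ 2 ≤ E * T0 ^ 2 := le_mul_of_one_le_left (by positivity) hEpos
    have h7 : T + T ^ 2 + 2 * μ * T ≤ 4 * T0 ^ 2 := by
      have h8 : 2 * μ * T = 2 * (μ * T) := by ring
      linarith
    have h6 : E * (T + T ^ 2 + 2 * μ * T) ≤ E * (4 * T0 ^ 2) :=
      mul_le_mul_of_nonneg_left h7 (by linarith)
    have h9 : 5 * E * T0 ^ 2 = E * T0 ^ 2 + E * (4 * T0 ^ 2) := by ring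
    rw [h9]
    linarith
  have hfin : 5 * E * T0 ^ 2 ≤ X := by
    refine le_trans ?_ (hxl.trans hXx)
    have h1 : (J : ℝ) ^ 8 ≤ c * n ^ (1 / 50 : ℝ) := by
      rw [hJu, mul_pow]
      have h2 : u ^ 8 ≤ (n ^ (1 / 400 : ℝ)) ^ 8 := pow_le_pow_left₀ hu0.le hJc 8
      rw [← Real.rpow_natCast (n ^ (1 / 400 : ℝ)), ← Real.rpow_mul hn0.le] at h2
      have h3 : (1 / 400 * ((8 : ℕ) : ℝ) : ℝ) = 1 / 50 := by
        push_cast
        norm_num
      rw [h3] at h2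
      have h4 : c ^ 8 ≤ c := by
        calc c ^ 8 ≤ c ^ 1 := pow_le_pow_of_le_one hc0.le (by linarith) (by norm_num)
          _ = c := pow_one c
      exact mul_le_mul h4 h2 (by positivity) hc0.le
    have h5 : 5 * E * T0 ^ 2 = 1280 * C * n ^ (19 / 20 : ℝ) * (J : ℝ) ^ 8 := by
      rw [hEd, hT0d]
      ring
    rw [h5]
    have h6 : 1280 * C * n ^ (19 / 20 : ℝ) * (J : ℝ) ^ 8 ≤
        1280 * C * n ^ (19 / 20 : ℝ) * (c * n ^ (1 / 50 : ℝ)) :=
      mul_le_mul_of_nonneg_left h1 (by positivity)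
    refine h6.trans ?_
    have h7 : 1280 * C * n ^ (19 / 20 : ℝ) * (c * n ^ (1 / 50 : ℝ)) ≤
        20 * n ^ (1 / 50 : ℝ) * n ^ (19 / 20 : ℝ) * (c * n ^ (1 / 50 : ℝ)) := by
      have h8 : 1280 * C ≤ 20 * n ^ (1 / 50 : ℝ) := by linarith
      have h9 : 0 ≤ n ^ (19 / 20 : ℝ) * (c * n ^ (1 / 50 : ℝ)) := by positivity
      have h10 := mul_le_mul_of_nonneg_right h8 h9
      rw [mul_assoc (1280 * C), mul_assoc (20 * n ^ (1 / 50 : ℝ))]
      exact h10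
    refine h7.trans ?_
    have h10 : n ^ (1 / 50 : ℝ) * n ^ (19 / 20 : ℝ) * n ^ (1 / 50 : ℝ) ≤ n := by
      rw [← Real.rpow_add hn0, ← Real.rpow_add hn0]
      calc n ^ (1 / 50 + 19 / 20 + 1 / 50 : ℝ) ≤ n ^ (1 : ℝ) :=
            Real.rpow_le_rpow_of_exponent_le hn1 (by norm_num)
        _ = n := Real.rpow_one n
    have h11 : 20 * n ^ (1 / 50 : ℝ) * n ^ (19 / 20 : ℝ) * (c * n ^ (1 / 50 : ℝ)) =
        20 * c * (n ^ (1 / 50 : ℝ) * n ^ (19 / 20 : ℝ) * n ^ (1 / 50 : ℝ)) := by ring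
    rw [h11]
    have h12 : 20 * c * (n ^ (1 / 50 : ℝ) * n ^ (19 / 20 : ℝ) * n ^ (1 / 50 : ℝ)) ≤
        20 * c * n := mul_le_mul_of_nonneg_left h10 (by positivity)
    have h13 : 0 < c * n := mul_pos hc0 hn0
    linarith
  have h14 : 4 * ((X : ℝ) - 1) * μ + μ ^ 2 * (X - (X - 1)) +
      E * (T + T ^ 2 + 2 * μ * T) = 4 * (X : ℝ) * μ - 4 * μ +
        (μ ^ 2 + E * (T + T ^ 2 + 2 * μ * T)) := by ring
  have h15 : (X : ℝ) * (4 * μ + 1) = 4 * X * μ + X := by ring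
  rw [h14, h15]
  linarith

end Pool.Agent.Work.MP_a8fbd7_nt.PAR.RP.I_MoR
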