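import Pool.Agent.Work.MP_a8fbd7_nt.PAR.RP.StmtsK

set_option autoImplicit false

/-!
MP_a8fbd7_nt, block RP, item MuR: the mean number of aligned primes.
-/

open Finset

noncomputable section

namespace Pool.Agent.Work.MP_a8fbd7_nt.PAR.RP.I_MuR

open Pool.Agent.Work.MP_a8fbd7_nt.PAR.RP Pool.Agent.Work.MP_a8fbd7_nt.PAR.LC Pool.Agent.Work.MP_a8fbd7_nt.PAR.EF

/-- One prime. -/
theorem np_ge {J p : ℕ} (hJ : 1 ≤ J) (hp : 12 * J ≤ p) : (p : ℝ) / (3 * J) ≤ (np J p : ℝ) := by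
  have hJ1 : (1 : ℝ) ≤ J := by exact_mod_cast hJ
  have hJ0 : (0 : ℝ) < J := by linarith
  have hp0 : (12 : ℝ) * J ≤ p := by exact_mod_cast hp
  have hpp : (0 : ℝ) < p := by linarith
  set a : ℕ := ⌈(p : ℝ) / (2 * J)⌉₊ with ha
  set b : ℕ := ⌊(p : ℝ) / J⌋₊ with hb
  have hbge : (p : ℝ) / J - 1 < b := by
    have := Nat.lt_floor_add_one ((p : ℝ) / J)
    linarith
  have hale : (a : ℝ) < (p : ℝ) / (2 * J) + 1 := Nat.ceil_lt_add_one (by positivity)
  have hq : (12 : ℝ) ≤ (p : ℝ) / J := by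
    rw [le_div_iff₀ hJ0]
    linarith
  have hhalf : (p : ℝ) / (2 * J) = ((p : ℝ) / J) / 2 := by
    rw [div_div, mul_comm]
  have hthird : (p : ℝ) / (3 * J) = ((p : ℝ) / J) / 3 := by
    rw [div_div, mul_comm (J : ℝ) 3]
  have hab : a ≤ b := by
    have : (a : ℝ) < b := by
      rw [hhalf] at hale
      linarith
    exact_mod_cast this.le
  have hsub : Finset.Ico a b ⊆
      (range p).filter (fun b : ℕ => (p : ℝ) / (2 * J) ≤ (b : ℝ) ∧ (b : ℝ) + 1 ≤ (p : ℝ) / J) := by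
    intro c hc
    rw [Finset.mem_Ico] at hc
    have h1 : (p : ℝ) / (2 * J) ≤ c := (Nat.le_ceil _).trans (Nat.cast_le.2 hc.1)
    have h2 : (c : ℝ) + 1 ≤ (p : ℝ) / J := by
      have h3 : ((c + 1 : ℕ) : ℝ) ≤ (b : ℝ) := by exact_mod_cast hc.2
      have h4 : (b : ℝ) ≤ (p : ℝ) / J := Nat.floor_le (by positivity)
      push_cast at h3
      linarith
    have h3 : c < p := by
      have h4 : (p : ℝ) / J ≤ p := div_le_self hpp.le (by linarith)
      have h5 : (c : ℝ) < p := by linarith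
      exact_mod_cast h5
    exact Finset.mem_filter.2 ⟨Finset.mem_range.2 h3, h1, h2⟩
  have hcard := Finset.card_le_card hsub
  rw [Nat.card_Ico] at hcard
  have h1 : ((b - a : ℕ) : ℝ) ≤ (np J p : ℝ) := by
    unfold np
    exact_mod_cast hcard
  rw [Nat.cast_sub hab] at h1
  rw [hhalf] at hale
  rw [hthird]
  linarith

/-- The lower bound for `muR` by the number of the primes. -/
theorem card_le {P J Y : ℕ} (hP : 1 ≤ P) (hJ : 1 ≤ J) (hY : 24 * P * J ≤ Y) :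
    ((Pr Y (4 * Y)).card : ℝ) / (6 * (P : ℝ) ^ 2 * J) ≤ muR P (2 * P * J) Y := by
  have hP0 : (0 : ℝ) < P := by exact_mod_cast (by omega : 0 < P)
  have hJ0 : (0 : ℝ) < J := by exact_mod_cast (by omega : 0 < J)
  unfold muR
  rw [div_eq_mul_inv, ← nsmul_eq_mul]
  refine Finset.card_nsmul_le_sum _ _ _ fun p hp => ?_
  unfold Pr at hp
  rw [Finset.mem_filter, Finset.mem_Ioc] at hp
  have hpp : (0 : ℝ) < p := by exact_mod_cast hp.2.pos
  have h0 : 1 ≤ 2 * P * J := by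
    have : 1 ≤ P * J := Nat.mul_pos hP hJ
    nlinarith
  have h1 := np_ge (J := 2 * P * J) (p := p) h0 (by nlinarith [hp.1.1])
  rw [le_div_iff₀ (by positivity)]
  refine le_trans (le_of_eq ?_) h1
  push_cast
  field_simp
  ring

/-- Chebyshev: many primes in `(Y, 4Y]`. -/
theorem theta_diff (Y : ℕ) :
    Chebyshev.theta ((4 * Y : ℕ) : ℝ) - Chebyshev.theta ((Y : ℕ) : ℝ) =
      ∑ p ∈ Pr Y (4 * Y), Real.log p := by
  unfold Chebyshev.theta Pr
  rw [Nat.floor_natCast, Nat.floor_natCast]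
  have h : (Finset.Ioc 0 (4 * Y)).filter Nat.Prime =
      (Finset.Ioc 0 Y).filter Nat.Prime ∪ (Finset.Ioc Y (4 * Y)).filter Nat.Prime := by
    rw [← Finset.filter_union, Finset.Ioc_union_Ioc_eq_Ioc (Nat.zero_le _) (by omega)]
  rw [h, Finset.sum_union]
  · ring
  · rw [Finset.disjoint_left]
    intro p hp hp'
    rw [Finset.mem_filter, Finset.mem_Ioc] at hp hp'
    omega

theorem card_ge {Y : ℕ} (hY : 10 ^ 16 ≤ Y) :
    (Y : ℝ) ^ (3 / 4 : ℝ) ≤ ((Pr Y (4 * Y)).card : ℝ) := by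
  have hYR : (10 : ℝ) ^ 16 ≤ Y := by exact_mod_cast hY
  have hY0 : (0 : ℝ) < Y := by linarith [show (0 : ℝ) < 10 ^ 16 by norm_num]
  set y : ℝ := (Y : ℝ) ^ (1 / 8 : ℝ) with hy
  have hy0 : 0 < y := Real.rpow_pos_of_pos hY0 _
  have hy8 : y ^ 8 = Y := by
    rw [hy, ← Real.rpow_natCast, ← Real.rpow_mul hY0.le]
    norm_num
  have hy100 : 100 ≤ y := by
    by_contra hlt
    have h1 : y < 100 := not_le.1 hlt
    have h2 : y ^ 8 < 100 ^ 8 := pow_lt_pow_left₀ h1 hy0.le (by norm_num)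
    rw [hy8] at h2
    norm_num at h2 hYR
    linarith
  have hy6 : (Y : ℝ) ^ (3 / 4 : ℝ) = y ^ 6 := by
    rw [hy, ← Real.rpow_natCast, ← Real.rpow_mul hY0.le]
    norm_num
  have hlogY : Real.log Y ≤ 8 * y - 8 := by
    rw [← hy8, Real.log_pow]
    have := Real.log_le_sub_one_of_pos hy0
    push_cast
    linarith
  have hlog4 : Real.log 4 ≤ 3 := by
    have := Real.log_le_sub_one_of_pos (show (0 : ℝ) < 4 by norm_num)
    linarith
  have hlog5 : Real.log 5 ≤ 4 := by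
    have := Real.log_le_sub_one_of_pos (show (0 : ℝ) < 5 by norm_num)
    linarith
  have hL : Real.log (4 * (Y : ℝ)) ≤ 8 * y := by
    rw [Real.log_mul (by norm_num) (by positivity)]
    linarith
  have hL1 : Real.log (4 * (Y : ℝ) + 1) ≤ 8 * y := by
    have h1 : 4 * (Y : ℝ) + 1 ≤ 5 * (Y : ℝ) := by
      linarith [show (1 : ℝ) ≤ 10 ^ 16 by norm_num]
    refine (Real.log_le_log (by positivity) h1).trans ?_
    rw [Real.log_mul (by norm_num) (by positivity)]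
    linarith
  have hL0 : 0 < Real.log (4 * (Y : ℝ)) :=
    Real.log_pos (by linarith [show (1 : ℝ) ≤ 10 ^ 16 by norm_num])
  have h1 := Chebyshev.theta_ge (4 * Y)
  have h2 := Chebyshev.theta_le_log4_mul_x (x := ((Y : ℕ) : ℝ)) (by positivity)
  have h3 := theta_diff Y
  have h4 : ∑ p ∈ Pr Y (4 * Y), Real.log p ≤
      ((Pr Y (4 * Y)).card : ℝ) * Real.log (4 * (Y : ℝ)) := by
    rw [← nsmul_eq_mul]
    refine Finset.sum_le_card_nsmul _ _ _ fun p hp => ?_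
    unfold Pr at hp
    rw [Finset.mem_filter, Finset.mem_Ioc] at hp
    have hpp : (0 : ℝ) < p := by exact_mod_cast hp.2.pos
    refine Real.log_le_log hpp ?_
    have : (p : ℝ) ≤ ((4 * Y : ℕ) : ℝ) := by exact_mod_cast hp.1.2
    push_cast at this
    linarith
  have hsq : Real.sqrt (4 * (Y : ℝ)) = 2 * y ^ 4 := by
    rw [show 4 * (Y : ℝ) = (2 * y ^ 4) ^ 2 by rw [← hy8]; ring]
    exact Real.sqrt_sq (by positivity)
  have hl4 : Real.log 4 = 2 * Real.log 2 := by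
    rw [show (4 : ℝ) = 2 ^ 2 by norm_num, Real.log_pow]
    norm_num
  push_cast at h1 h2
  rw [hsq] at h1
  rw [hl4] at h2
  have hlog2 : 0.69 < Real.log 2 := by linarith [Real.log_two_gt_d9]
  -- the main inequality
  have h5 : 2 * Real.log 2 * (Y : ℝ) - Real.log (4 * (Y : ℝ) + 1) -
      2 * (2 * y ^ 4) * Real.log (4 * (Y : ℝ)) ≤
      ((Pr Y (4 * Y)).card : ℝ) * Real.log (4 * (Y : ℝ)) := by
    push_cast at h3
    linarith
  have h6 : y ^ 6 * Real.log (4 * (Y : ℝ)) ≤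
      2 * Real.log 2 * (Y : ℝ) - Real.log (4 * (Y : ℝ) + 1) -
      2 * (2 * y ^ 4) * Real.log (4 * (Y : ℝ)) := by
    have a1 : y ^ 6 * Real.log (4 * (Y : ℝ)) ≤ 8 * y ^ 7 := by
      calc y ^ 6 * Real.log (4 * (Y : ℝ)) ≤ y ^ 6 * (8 * y) :=
            mul_le_mul_of_nonneg_left hL (by positivity)
        _ = 8 * y ^ 7 := by ring
    have a2 : 2 * (2 * y ^ 4) * Real.log (4 * (Y : ℝ)) ≤ 32 * y ^ 5 := by
      calc 2 * (2 * y ^ 4) * Real.log (4 * (Y : ℝ)) ≤ 2 * (2 * y ^ 4) * (8 * y) :=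
            mul_le_mul_of_nonneg_left hL (by positivity)
        _ = 32 * y ^ 5 := by ring
    have a3 : 32 * y ^ 5 ≤ y ^ 7 := by
      have : 32 * 1 ≤ y ^ 2 := by nlinarith
      have h7 : y ^ 5 * 32 ≤ y ^ 5 * y ^ 2 := mul_le_mul_of_nonneg_left (by linarith) (by positivity)
      calc 32 * y ^ 5 = y ^ 5 * 32 := by ring
        _ ≤ y ^ 5 * y ^ 2 := h7
        _ = y ^ 7 := by ring
    have a4 : 8 * y ≤ y ^ 7 := by
      have h8 : 8 ≤ y ^ 6 := by
        calc (8 : ℝ) ≤ 100 ^ 6 := by norm_num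
          _ ≤ y ^ 6 := pow_le_pow_left₀ (by norm_num) hy100 6
      calc 8 * y ≤ y ^ 6 * y := mul_le_mul_of_nonneg_right h8 hy0.le
        _ = y ^ 7 := by ring
    have a5 : 100 * y ^ 7 ≤ y ^ 8 := by
      calc 100 * y ^ 7 ≤ y * y ^ 7 := mul_le_mul_of_nonneg_right hy100 (by positivity)
        _ = y ^ 8 := by ring
    have a6 : 1 * y ^ 8 ≤ 2 * Real.log 2 * y ^ 8 :=
      mul_le_mul_of_nonneg_right (by linarith) (by positivity)
    have a7 : 2 * Real.log 2 * (Y : ℝ) = 2 * Real.log 2 * y ^ 8 := by rw [hy8]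
    have : 0 < y ^ 7 := by positivity
    linarith
  rw [hy6]
  exact le_of_mul_le_mul_right (h6.trans h5) hL0

theorem prf : StMuR := by
  intro P hP
  refine ⟨(12 * P ^ 2) ^ 16, fun J hJ => ?_⟩
  have hPR : (1 : ℝ) ≤ P := by exact_mod_cast hP
  have hP2 : (P : ℝ) ≤ (P : ℝ) ^ 2 := by nlinarith
  have hJR : (12 * (P : ℝ) ^ 2) ^ 16 ≤ J := by exact_mod_cast hJ
  have hJ0 : (0 : ℝ) < J := lt_of_lt_of_le (by positivity) hJR
  set x : ℝ := (J : ℝ) ^ (1 / 16 : ℝ) with hx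
  have hx0 : 0 < x := Real.rpow_pos_of_pos hJ0 _
  have hx16 : x ^ 16 = J := by
    rw [hx, ← Real.rpow_natCast, ← Real.rpow_mul hJ0.le]
    norm_num
  have hx28 : (J : ℝ) ^ (7 / 4 : ℝ) = x ^ 28 := by
    rw [hx, ← Real.rpow_natCast, ← Real.rpow_mul hJ0.le]
    norm_num
  have hx4 : (J : ℝ) ^ (1 / 4 : ℝ) = x ^ 4 := by
    rw [hx, ← Real.rpow_natCast, ← Real.rpow_mul hJ0.le]
    norm_num
  have hxP : 12 * (P : ℝ) ^ 2 ≤ x := by
    by_contra hlt
    have h1 : x < 12 * (P : ℝ) ^ 2 := not_le.1 hlt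
    have h2 : x ^ 16 < (12 * (P : ℝ) ^ 2) ^ 16 := pow_lt_pow_left₀ h1 hx0.le (by norm_num)
    rw [hx16] at h2
    linarith
  have hx12 : 12 ≤ x := by nlinarith
  have hy1 : x ^ 28 - 1 < (yJ J : ℝ) := by
    unfold yJ
    rw [hx28]
    have := Nat.lt_floor_add_one (x ^ 28)
    linarith
  have hx28b : (12 : ℝ) ^ 28 ≤ x ^ 28 := pow_le_pow_left₀ (by norm_num) hx12 28
  have hy2 : x ^ 28 / 2 ≤ (yJ J : ℝ) := by
    have : (2 : ℝ) ≤ x ^ 28 := le_trans (by norm_num) hx28b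
    linarith
  have hy3 : 10 ^ 16 ≤ yJ J := by
    have h1 : ((10 ^ 16 : ℕ) : ℝ) ≤ (yJ J : ℝ) := by
      refine le_trans ?_ hy2
      have : (2 : ℝ) * 10 ^ 16 ≤ 12 ^ 28 := by norm_num
      push_cast
      linarith
    exact_mod_cast h1
  have hJ1 : 1 ≤ J := by
    have : 0 < J := by exact_mod_cast hJ0
    omega
  have hx27 : 24 * (P : ℝ) * J ≤ yJ J := by
    refine le_trans ?_ hy2
    have h1 : 24 * (P : ℝ) ≤ 2 * x := by linarith
    have h2 : (4 : ℝ) * x ≤ x ^ 12 := by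
      have h3 : (4 : ℝ) ≤ x ^ 11 := by
        refine le_trans ?_ (pow_le_pow_left₀ (by norm_num) hx12 11)
        norm_num
      calc (4 : ℝ) * x ≤ x ^ 11 * x := mul_le_mul_of_nonneg_right h3 hx0.le
        _ = x ^ 12 := by ring
    rw [← hx16]
    have h3 : 0 < x ^ 16 := by positivity
    calc 24 * (P : ℝ) * x ^ 16 ≤ (x ^ 12 / 2) * x ^ 16 :=
          mul_le_mul_of_nonneg_right (by linarith) h3.le
      _ = x ^ 28 / 2 := by ring
  have hc := card_le hP hJ1 (Y := yJ J) (by exact_mod_cast hx27)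
  refine ⟨hc, le_trans ?_ hc⟩
  have hg := card_ge hy3
  have hg2 : x ^ 21 / 2 ≤ ((Pr (yJ J) (4 * yJ J)).card : ℝ) := by
    refine le_trans ?_ hg
    have h1 : (x ^ 28 / 2) ^ (3 / 4 : ℝ) ≤ (yJ J : ℝ) ^ (3 / 4 : ℝ) :=
      Real.rpow_le_rpow (by positivity) hy2 (by norm_num)
    refine le_trans ?_ h1
    rw [Real.div_rpow (by positivity) (by norm_num)]
    have h2 : (x ^ 28) ^ (3 / 4 : ℝ) = x ^ 21 := by
      rw [← Real.rpow_natCast, ← Real.rpow_mul hx0.le, ← Real.rpow_natCast]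
      norm_num
    rw [h2]
    have h3 : (2 : ℝ) ^ (3 / 4 : ℝ) ≤ 2 := by
      calc (2 : ℝ) ^ (3 / 4 : ℝ) ≤ 2 ^ (1 : ℝ) :=
            Real.rpow_le_rpow_of_exponent_le (by norm_num) (by norm_num)
        _ = 2 := by norm_num
    exact div_le_div_of_nonneg_left (by positivity) (by positivity) h3
  rw [hx4, le_div_iff₀ (by positivity)]
  refine le_trans ?_ hg2
  rw [← hx16]
  have h4 : 6 * (P : ℝ) ^ 2 ≤ x / 2 := by linarith
  have h5 : 0 < x ^ 20 := by positivity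
  calc x ^ 4 * (6 * (P : ℝ) ^ 2 * x ^ 16) = (6 * (P : ℝ) ^ 2) * x ^ 20 := by ring
    _ ≤ (x / 2) * x ^ 20 := mul_le_mul_of_nonneg_right h4 h5.le
    _ = x ^ 21 / 2 := by ring

end Pool.Agent.Work.MP_a8fbd7_nt.PAR.RP.I_MuR
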