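import Pool.Agent.Work.MP_a8fbd7_nt.PAR.RP.StmtsK

/-!
MP_a8fbd7_nt, block RP, item Nx (helper24): the next integer prime to `P`
-/

set_option autoImplicit false

open Finset

noncomputable section

namespace Pool.Agent.Work.MP_a8fbd7_nt.PAR.RP.I_Nx

open Pool.Agent.Work.MP_a8fbd7_nt.PAR.RP Pool.Agent.Work.MP_a8fbd7_nt.PAR.LC Pool.Agent.Work.MP_a8fbd7_nt.PAR.EF

theorem odd_of {P m : ℕ} (h2 : 2 ∣ P) (h : m.Coprime P) : ¬ 2 ∣ m := by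
  intro hm
  have h1 := Nat.dvd_gcd hm h2
  rw [h] at h1
  omega

theorem prf : StNx := by
  intro P m h2 hP hm
  have hmem : P ∈ {i : ℕ | 1 ≤ i ∧ (m + i).Coprime P} :=
    ⟨hP, (Nat.coprime_add_self_left).2 hm⟩
  have h1 : nxi P m ∈ {i : ℕ | 1 ≤ i ∧ (m + i).Coprime P} := Nat.sInf_mem ⟨P, hmem⟩
  have h3 : nxi P m ≤ P := Nat.sInf_le hmem
  have h4 := odd_of h2 hm
  have h5 := odd_of h2 h1.2
  refine ⟨h1.1, h3, by omega, h1.2, fun j hj hjn hc => ?_⟩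
  exact Nat.notMem_of_lt_sInf hjn ⟨hj, hc⟩

end Pool.Agent.Work.MP_a8fbd7_nt.PAR.RP.I_Nx
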