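import Pool.Agent.Work.MP_a8fbd7_nt.PAR.RP.StmtsK
import Pool.Agent.Work.MP_a8fbd7_nt.PAR.EF.I_Pa1

set_option autoImplicit false

/-! Item Pa2 of the block `RP`: the conditions on the parameters. -/

namespace Pool.Agent.Work.MP_a8fbd7_nt.PAR.RP.I_Pa2

open Filter Pool.Agent.Work.MP_a8fbd7_nt.PAR.RP Pool.Agent.Work.MP_a8fbd7_nt.PAR.LC
open Pool.Agent.Work.MP_a8fbd7_nt.PAR.EF
open Pool.Agent.Work.MP_a8fbd7_nt.PAR.EF.I_Pa1 (ev_pow ev_log exp_bd)

theorem dvd_primorial {P W : ℕ} (hsq : Squarefree P) (h0 : 1 ≤ P) (hPW : P ≤ W) : P ∣ primorial W := by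
  rw [← Nat.prod_primeFactors_of_squarefree hsq]
  unfold primorial
  refine Finset.prod_dvd_prod_of_subset _ _ _ fun p hp => ?_
  have hp' := Nat.prime_of_mem_primeFactors hp
  have hle := Nat.le_of_dvd (by omega) (Nat.dvd_of_mem_primeFactors hp)
  simp only [Finset.mem_filter, Finset.mem_range]
  exact ⟨by omega, hp'⟩

theorem prf (h1 : StPa1) : StPa2 := by
  intro P h6 hP0 hsq
  obtain ⟨l1, hl1'⟩ := h1
  refine Filter.eventually_atTop.1 ?_
  filter_upwards [eventually_ge_atTop l1, ev_log, eventually_ge_atTop ((10 : ℝ) ^ 100),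
    ev_pow ((18).factorial * (1710000 * P + 1) : ℝ) (1 / 20) (9 / 10) (by norm_num),
    ev_pow 10260004 (43 / 50) (9 / 10) (by norm_num),
    (tendsto_rpow_atTop (show (0 : ℝ) < 17 / 20 by norm_num)).eventually_ge_atTop (P + 4 : ℝ),
    (tendsto_rpow_atTop (show (0 : ℝ) < 1 / 100 by norm_num)).eventually_ge_atTop (24 * P ^ 4 : ℝ),
    eventually_ge_atTop (800 * P : ℝ)] with l hll hlog h10 e5 e6 e7 e8 e9
  have hpa := hl1' l hll
  have hl1 : (1 : ℝ) ≤ l := le_trans (by norm_num) h10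
  have hl0 : 0 < l := by linarith
  have hPr : (1 : ℝ) ≤ P := by exact_mod_cast hP0
  -- the basic quantity
  obtain ⟨p, hp⟩ : ∃ p : ℝ, p = l ^ (1 / 100 : ℝ) := ⟨_, rfl⟩
  have hpp : 0 < p := by rw [hp]; exact Real.rpow_pos_of_pos hl0 _
  have hp10 : 10 ≤ p := by
    rw [hp]
    have h1 : (10 : ℝ) = ((10 : ℝ) ^ (100 : ℕ)) ^ (1 / 100 : ℝ) := by
      rw [← Real.rpow_natCast, ← Real.rpow_mul (by norm_num)]
      norm_num
    calc (10 : ℝ) = ((10 : ℝ) ^ (100 : ℕ)) ^ (1 / 100 : ℝ) := h1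
      _ ≤ l ^ (1 / 100 : ℝ) := Real.rpow_le_rpow (by positivity) h10 (by norm_num)
  have hp1 : 1 ≤ p := by linarith
  have hc : cL l = p⁻¹ := by
    unfold cL
    rw [Real.rpow_neg hl0.le, hp]
  have hppow : ∀ k : ℕ, p ^ k = l ^ ((k : ℝ) / 100) := by
    intro k
    rw [hp, ← Real.rpow_natCast, ← Real.rpow_mul hl0.le]
    congr 1
    ring
  rw [← hp] at hlog e8
  obtain ⟨w, hw⟩ : ∃ w : ℝ, w = l ^ (17 / 20 : ℝ) := ⟨_, rfl⟩
  obtain ⟨v, hv⟩ : ∃ v : ℝ, v = l ^ (43 / 50 : ℝ) := ⟨_, rfl⟩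
  obtain ⟨z, hz⟩ : ∃ z : ℝ, z = l ^ (9 / 10 : ℝ) := ⟨_, rfl⟩
  obtain ⟨x, hx⟩ : ∃ x : ℝ, x = l ^ (1 / 20 : ℝ) := ⟨_, rfl⟩
  rw [← hx, ← hz] at e5
  rw [← hv, ← hz] at e6
  rw [← hw] at e7
  have hw0 : 0 ≤ w := by rw [hw]; exact Real.rpow_nonneg hl0.le _
  have hw1 : 1 ≤ w := by rw [hw]; exact Real.one_le_rpow hl1 (by norm_num)
  have hv1 : 1 ≤ v := by rw [hv]; exact Real.one_le_rpow hl1 (by norm_num)
  have hx1 : 1 ≤ x := by rw [hx]; exact Real.one_le_rpow hl1 (by norm_num)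
  have hpw : p * w = v := by
    rw [hp, hw, hv, ← Real.rpow_add hl0]
    congr 1
    norm_num
  have hwv : w ≤ v := by
    rw [← hpw]
    exact le_mul_of_one_le_left hw0 hp1
  have hx5 : p ^ 5 = x := by
    rw [hppow, hx]
    congr 1
    norm_num
  have hx18 : x ^ 18 = z := by
    rw [hx, hz, ← Real.rpow_natCast, ← Real.rpow_mul hl0.le]
    congr 1
    norm_num
  have hp4v : p ^ 4 ≤ v := by
    rw [hppow, hv]
    exact Real.rpow_le_rpow_of_exponent_le hl1 (by norm_num)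
  have hf : (0 : ℝ) < ((18).factorial : ℝ) := by exact_mod_cast Nat.factorial_pos 18
  have hexpx : z / ((18).factorial : ℝ) ≤ Real.exp x := by
    rw [← hx18]
    exact Real.pow_div_factorial_le_exp x (by linarith) 18
  -- the parameters
  have hJ0 : (8 : ℝ) / (cL l) ^ 2 = 8 * p ^ 2 := by
    rw [hc]
    field_simp
  have hJ1 : 8 * p ^ 2 ≤ (JL l : ℝ) := by
    rw [← hJ0]
    exact Nat.le_ceil _
  have hJ2 : (JL l : ℝ) ≤ 9 * p ^ 2 := by
    have h1 : (JL l : ℝ) < 8 / (cL l) ^ 2 + 1 := by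
      refine Nat.ceil_lt_add_one ?_
      rw [hJ0]
      positivity
    rw [hJ0] at h1
    nlinarith
  have hJc : ∀ a : ℝ, a * (JL l : ℝ) / (cL l) ^ 2 = a * ((JL l : ℝ) * p ^ 2) := by
    intro a
    rw [hc]
    field_simp
  have hJp : (JL l : ℝ) * p ^ 2 ≤ 9 * p ^ 4 := by
    have h1 := mul_le_mul_of_nonneg_right hJ2 (pow_nonneg hpp.le 2)
    calc (JL l : ℝ) * p ^ 2 ≤ 9 * p ^ 2 * p ^ 2 := h1
      _ = 9 * p ^ 4 := by ring
  have hJp0 : 0 ≤ (JL l : ℝ) * p ^ 2 := by positivity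
  have hm0 : (mL l : ℝ) ≤ 11 / 25 * Real.log l := by
    unfold mL
    refine Nat.floor_le ?_
    have := Real.log_nonneg hl1
    positivity
  have hlog0 : Real.log ((10 : ℝ) ^ 100) ≤ Real.log l := Real.log_le_log (by positivity) h10
  have hlog1 : (25 : ℝ) ≤ Real.log l := by
    refine le_trans ?_ hlog0
    rw [Real.log_pow]
    have : (1 : ℝ) ≤ Real.log 10 := by
      rw [Real.le_log_iff_exp_le (by norm_num)]
      have := Real.exp_one_lt_d9
      linarith
    push_cast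
    linarith
  have hmp : (mL l : ℝ) ≤ p := by linarith
  have hm2p : 2 * (mL l : ℝ) ≤ p := by linarith
  have hm1p : (mL l : ℝ) + 1 ≤ p := by linarith
  have hK1 : (K1L l : ℝ) ≤ Real.exp w := by
    unfold K1L
    rw [← hw]
    exact Nat.floor_le (Real.exp_pos _).le
  have hK2 : Real.exp z - 1 ≤ (K2L l : ℝ) := by
    unfold K2L
    rw [← hz]
    exact (Nat.sub_one_lt_floor _).le
  have hK0 : Real.exp x - 1 ≤ (K0L l : ℝ) := by
    unfold K0L
    rw [← hx]
    exact (Nat.sub_one_lt_floor _).le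
  have hK1p : ∀ k : ℕ, (k : ℝ) ≤ p → (K1L l : ℝ) ^ k ≤ Real.exp v := by
    intro k hk
    calc (K1L l : ℝ) ^ k ≤ (Real.exp w) ^ k := pow_le_pow_left₀ (Nat.cast_nonneg _) hK1 k
      _ = Real.exp (k * w) := (Real.exp_nat_mul w k).symm
      _ ≤ Real.exp v := by
          refine Real.exp_le_exp.2 ?_
          rw [← hpw]
          exact mul_le_mul_of_nonneg_right hk hw0
  have hPW : P ≤ WL l ∧ 3 ≤ WL l := by
    unfold WL
    rw [← hw]
    exact ⟨Nat.le_floor (by linarith), Nat.le_floor (by push_cast; linarith)⟩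
  refine ⟨hpa, h6, hP0, hsq, dvd_primorial hsq hP0 hPW.1, hPW.2, ?_, ?_, ?_, ?_, ?_⟩
  · -- Pn
    have h1 : Real.exp (l / 2) ^ (1 / 400 : ℝ) = Real.exp (l / 800) := by
      rw [← Real.exp_mul]
      congr 1
      ring
    rw [h1]
    have := Real.add_one_le_exp (l / 800)
    linarith
  · -- PJ
    have h1 : (24 * (P : ℝ) ^ 4) ≤ (JL l : ℝ) := by nlinarith
    exact_mod_cast h1
  · -- K0m'
    rw [hJc]
    refine le_trans ?_ hK0
    have h1 : (1710000 * P + 1) * x ≤ Real.exp x := by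
      refine le_trans ?_ hexpx
      rw [le_div_iff₀ hf]
      calc (1710000 * (P : ℝ) + 1) * x * ((18).factorial : ℝ) =
          ((18).factorial * (1710000 * P + 1) : ℝ) * x := by ring
        _ ≤ z := e5
    have h2 : 4 * ((mL l : ℝ) + 1) * P * (47500 * ((JL l : ℝ) * p ^ 2)) ≤
        4 * p * P * (47500 * (9 * p ^ 4)) := by
      refine mul_le_mul ?_ (by linarith) (by positivity) (by positivity)
      exact mul_le_mul_of_nonneg_right (by linarith) (by positivity)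
    have h3 : 4 * p * P * (47500 * (9 * p ^ 4)) = 1710000 * P * x := by
      rw [← hx5]
      ring
    linarith
  · -- K12'
    rw [hJc]
    refine le_trans ?_ hK2
    have h1 : (K1L l : ℝ) ^ (2 * mL l) ≤ Real.exp v := by
      refine hK1p _ ?_
      push_cast
      exact hm2p
    have h2 : 6 * (K1L l : ℝ) ^ (2 * mL l) * (95000 * ((JL l : ℝ) * p ^ 2)) ≤
        6 * Real.exp v * (95000 * (9 * p ^ 4)) := by
      refine mul_le_mul (by linarith) (by linarith) (by positivity) (by positivity)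
    have h3 := exp_bd 5130000 (p ^ 4) v (by norm_num) (one_le_pow₀ hp1) (by linarith)
    have h4 : Real.exp (5130000 + p ^ 4 + v) ≤ Real.exp z := by
      refine Real.exp_le_exp.2 ?_
      linarith
    have h5 : 6 * Real.exp v * (95000 * (9 * p ^ 4)) = 5130000 * p ^ 4 * Real.exp v := by ring
    linarith
  · -- PK'
    rw [hJc]
    refine le_trans ?_ hK2
    have hW : (WL l : ℝ) ≤ w := by
      unfold WL
      rw [← hw]
      exact Nat.floor_le hw0
    have h0 : (primorial (WL l) : ℝ) ≤ Real.exp (3 * w) := by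
      have g1 : (primorial (WL l) : ℝ) ≤ (4 : ℝ) ^ (WL l) := by
        exact_mod_cast primorial_le_four_pow (WL l)
      have g2 : (4 : ℝ) ≤ Real.exp 3 := by
        have := Real.add_one_le_exp (3 : ℝ)
        linarith
      calc (primorial (WL l) : ℝ) ≤ (4 : ℝ) ^ (WL l) := g1
        _ ≤ (Real.exp 3) ^ (WL l) := pow_le_pow_left₀ (by norm_num) g2 _
        _ = Real.exp ((WL l : ℝ) * 3) := (Real.exp_nat_mul 3 _).symm
        _ ≤ Real.exp (3 * w) := Real.exp_le_exp.2 (by linarith)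
    have h2 : 12 * (primorial (WL l) : ℝ) * (95000 * ((JL l : ℝ) * p ^ 2)) ≤
        12 * Real.exp (3 * w) * (95000 * (9 * p ^ 4)) := by
      refine mul_le_mul (by linarith) (by linarith) (by positivity) (by positivity)
    have h3 := exp_bd 10260000 (p ^ 4) (3 * w) (by norm_num) (one_le_pow₀ hp1) (by linarith)
    have h4 : Real.exp (10260000 + p ^ 4 + 3 * w) ≤ Real.exp z := by
      refine Real.exp_le_exp.2 ?_
      linarith
    have h5 : 12 * Real.exp (3 * w) * (95000 * (9 * p ^ 4)) =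
        10260000 * p ^ 4 * Real.exp (3 * w) := by ring
    linarith

end Pool.Agent.Work.MP_a8fbd7_nt.PAR.RP.I_Pa2
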