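import Pool.Agent.Work.MP_a8fbd7_nt.PAR.RP.AllS
import Pool.Agent.Work.MP_a8fbd7_nt.PAR.RP.FinM
import Pool.Agent.Work.MP_a8fbd7_nt.PAR.RP.I_In2
import Pool.Agent.Work.MP_a8fbd7_nt.PAR.RP.I_Co2
import Pool.Agent.Work.MP_a8fbd7_nt.PAR.RP.I_Lk2
import Pool.Agent.Work.MP_a8fbd7_nt.PAR.RP.I_At2
import Pool.Agent.Work.MP_a8fbd7_nt.PAR.RP.I_Bd3
import Pool.Agent.Work.MP_a8fbd7_nt.PAR.RP.I_Pa2
import Pool.Agent.Work.MP_a8fbd7_nt.PAR.RP.I_Bd4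
import Pool.Agent.Work.MP_a8fbd7_nt.PAR.RP.I_Nx
import Pool.Agent.Work.MP_a8fbd7_nt.PAR.RP.I_C1R
import Pool.Agent.Work.MP_a8fbd7_nt.PAR.RP.I_MoR
import Pool.Agent.Work.MP_a8fbd7_nt.PAR.RP.I_MuR
import Pool.Agent.Work.MP_a8fbd7_nt.PAR.RP.I_C4R
import Pool.Agent.Work.MP_a8fbd7_nt.PAR.RP.I_EnR

set_option autoImplicit false

/-!
MP_a8fbd7_nt, block RP: part K, assembled from the link (`StLkZ`).
-/

namespace Pool.Agent.Work.MP_a8fbd7_nt.PAR.RP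

open Pool.Agent.Work.MP_a8fbd7_nt.PAR.LC Pool.Agent.Work.MP_a8fbd7_nt.PAR.EF

theorem r_Lk2 : StLk2 := I_Lk2.prf I_Alg.prf I_In2.prf I_Co2.prf I_Tau.prf I_Pos.prf
theorem r_At2 : StAt2 := I_At2.prf I_Atc.prf
theorem r_Pa2 : StPa2 := I_Pa2.prf I_Pa1.prf
theorem r_Bd4 (h : StLkZ) : StBd4 :=
  I_Bd4.prf (I_Bd3.prf h r_At2) r_Um2 e_Om e_No r_Pa2 I_T12.prf I_T3.prf I_AmL.prf I_Mes.prf e_Sr I_Ph.prf
theorem r_C4R : StC4R := I_C4R.prf (I_C1R.prf I_Nx.prf) (I_MoR.prf e_EQE) I_MuR.prf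
theorem r_EnR (h : StLkZ) : StEnR := I_EnR.prf r_C4R (r_Bd4 h) e_Tu2 I_Pa1.prf

/-- THEOREM RP for every squarefree `P` divisible by `6` -/
theorem r_ThmRP (h : StLkZ) (P : ℕ) (h6 : 6 ∣ P) (hP : 1 ≤ P) (hs : Squarefree P) : ThmRP P :=
  r_EnR h P h6 hP hs (m_Chg P h6 hs)

end Pool.Agent.Work.MP_a8fbd7_nt.PAR.RP
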