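import Pool.Agent.Work.MP_a8fbd7_nt.PAR.RP.StmtsS

set_option autoImplicit false

/-! MP_a8fbd7_nt, block RP: item El2 (lower bound for the single sum in classes), helper13, after
`EF/I_ElC.lean` of helper6 and `LC/I_Elo.lean` of helper54. -/

open Finset

noncomputable section

namespace Pool.Agent.Work.MP_a8fbd7_nt.PAR.RP.I_El2

open Pool.Agent.Work.MP_a8fbd7_nt.PAR.RP Pool.Agent.Work.MP_a8fbd7_nt.PAR.LC
  Pool.Agent.Work.MP_a8fbd7_nt.PAR.EF

/-- many `z` for a given class modulo `q` and a given unit class modulo `P`, `PW = P P'` -/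
theorem cardZ (hCap : StCap) {q t c PW P P' ζ : ℕ} {e0 e1 : ℝ} (he0 : 0 < e0) (he01 : e0 < e1)
    (he1 : e1 ≤ 1) (hq : 0 < q) (hPW0 : 0 < PW) (hcop : q.Coprime PW) (hPP : PW = P * P')
    (hPc : P.Coprime P') (hζ : ζ.Coprime P)
    (h6 : 6 * (PW : ℝ) / (e1 - e0) ≤ t) :
    (Nat.totient P' : ℝ) * ((e1 - e0) * t / (2 * (PW : ℝ))) ≤
      (((range (q * t + 1)).filter (fun z : ℕ => e0 * q * t ≤ (z : ℝ) ∧ (z : ℝ) ≤ e1 * q * t ∧
        z ≡ c [MOD q] ∧ z ≡ ζ [MOD P] ∧ z.Coprime PW)).card : ℝ) := by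
  have hP0 : (0 : ℝ) < PW := by exact_mod_cast hPW0
  have hq0 : (0 : ℝ) < q := by exact_mod_cast hq
  have ht0 : (0 : ℝ) ≤ t := Nat.cast_nonneg t
  have hη : 0 < e1 - e0 := by linarith
  set U : Finset ℕ := (range P').filter (fun u => P'.Coprime u) with hU
  have hUc : U.card = Nat.totient P' := by
    rw [Nat.totient_eq_card_coprime]
  set Zu : ℕ → Finset ℕ := fun u => (range (q * t + 1)).filter (fun z : ℕ => e0 * q * t ≤ (z : ℝ) ∧
    (z : ℝ) ≤ e1 * q * t ∧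
    z ≡ (Nat.chineseRemainder hcop c (Nat.chineseRemainder hPc ζ u : ℕ) : ℕ) [MOD (q * PW)]) with hZu
  have h1 : ∀ u, (e1 - e0) * t / (2 * PW) ≤ ((Zu u).card : ℝ) := by
    intro u
    have hx : 0 ≤ e0 * q * t := by positivity
    have hxy : e0 * q * t ≤ e1 * q * t := by
      have : 0 ≤ (q : ℝ) * t := by positivity
      nlinarith
    have hyN : e1 * q * t ≤ ((q * t : ℕ) : ℝ) := by
      push_cast
      have : 0 ≤ (q : ℝ) * t := by positivity
      nlinarith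
    have h2 := (hCap (q * PW)
      (Nat.chineseRemainder hcop c (Nat.chineseRemainder hPc ζ u : ℕ) : ℕ) (e0 * q * t)
      (e1 * q * t) (q * t) (Nat.mul_pos hq hPW0) hx hxy hyN).2
    have e1' : (e1 * q * t - e0 * q * t) / ((q * PW : ℕ) : ℝ) = (e1 - e0) * t / PW := by
      push_cast
      field_simp
    rw [e1'] at h2
    have h3 : 6 ≤ (e1 - e0) * t / PW := by
      rw [div_le_iff₀ hη] at h6
      rw [le_div_iff₀ hP0]
      linarith
    have h4 : (e1 - e0) * t / (2 * PW) = (e1 - e0) * t / PW / 2 := by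
      field_simp
    rw [h4]
    refine le_trans ?_ h2
    linarith
  have key : ∀ u z : ℕ,
      z ≡ (Nat.chineseRemainder hcop c (Nat.chineseRemainder hPc ζ u : ℕ) : ℕ) [MOD (q * PW)] →
      z ≡ c [MOD q] ∧ z ≡ ζ [MOD P] ∧ z ≡ u [MOD P'] := by
    intro u z hz
    have hcr := (Nat.chineseRemainder hcop c (Nat.chineseRemainder hPc ζ u : ℕ)).2
    have hcr2 := (Nat.chineseRemainder hPc ζ u).2
    have m1 : z ≡ c [MOD q] := (Nat.ModEq.of_mul_right PW hz).trans hcr.1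
    have m2 : z ≡ (Nat.chineseRemainder hPc ζ u : ℕ) [MOD PW] :=
      (Nat.ModEq.of_mul_left q hz).trans hcr.2
    rw [hPP] at m2
    exact ⟨m1, (Nat.ModEq.of_mul_right P' m2).trans hcr2.1, (Nat.ModEq.of_mul_left P m2).trans hcr2.2⟩
  have h2 : (U.sigma Zu).card ≤ ((range (q * t + 1)).filter (fun z : ℕ => e0 * q * t ≤ (z : ℝ) ∧
      (z : ℝ) ≤ e1 * q * t ∧ z ≡ c [MOD q] ∧ z ≡ ζ [MOD P] ∧ z.Coprime PW)).card := by
    apply Finset.card_le_card_of_injOn (fun x => x.2)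
    · intro x hx
      have hx' := mem_sigma.1 (mem_coe.1 hx)
      obtain ⟨hu, hz⟩ := hx'
      rw [hZu] at hz
      simp only [mem_filter] at hz
      rw [hU, mem_filter] at hu
      obtain ⟨m1, m2, m3⟩ := key x.1 x.2 hz.2.2.2
      apply mem_coe.2
      simp only [mem_filter]
      refine ⟨hz.1, hz.2.1, hz.2.2.1, m1, m2, ?_⟩
      rw [hPP]
      refine Nat.Coprime.mul_right ?_ ?_
      · exact m2.gcd_eq.trans hζ
      · have h4 : Nat.gcd x.1 P' = 1 := (Nat.coprime_comm.1 hu.2)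
        exact m3.gcd_eq.trans h4
    · intro x hx y hy hxy
      have hx' := mem_sigma.1 (mem_coe.1 hx)
      have hy' := mem_sigma.1 (mem_coe.1 hy)
      obtain ⟨hu, hz⟩ := hx'
      obtain ⟨hu', hz'⟩ := hy'
      rw [hZu] at hz hz'
      simp only [mem_filter] at hz hz'
      rw [hU, mem_filter, mem_range] at hu hu'
      have m2 := (key x.1 x.2 hz.2.2.2).2.2
      have m2' := (key y.1 y.2 hz'.2.2.2).2.2
      have hxy' : x.2 = y.2 := hxy
      have h3 : x.1 ≡ y.1 [MOD P'] := m2.symm.trans (hxy' ▸ m2')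
      have h4 : x.1 = y.1 := Nat.ModEq.eq_of_lt_of_lt h3 hu.1 hu'.1
      obtain ⟨x1, x2⟩ := x
      obtain ⟨y1, y2⟩ := y
      simp only at h4 hxy'
      subst h4
      subst hxy'
      rfl
  rw [card_sigma] at h2
  have h3 : (U.card : ℝ) * ((e1 - e0) * t / (2 * PW)) ≤ ((∑ u ∈ U, (Zu u).card : ℕ) : ℝ) := by
    push_cast
    rw [← nsmul_eq_mul]
    exact card_nsmul_le_sum _ _ _ fun u _ => h1 u
  rw [← hUc]
  exact h3.trans (by exact_mod_cast h2)

/-- the primorial is squarefree -/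
theorem sqf (W : ℕ) : Squarefree (primorial W) := by
  unfold primorial
  refine Finset.squarefree_prod_of_pairwise_isCoprime ?_ ?_
  · intro p hp p' hp' hne
    have h1 := (mem_filter.1 (mem_coe.1 hp)).2
    have h2 := (mem_filter.1 (mem_coe.1 hp')).2
    show IsRelPrime p p'
    rw [← Nat.coprime_iff_isRelPrime]
    exact (Nat.coprime_primes h1 h2).2 hne
  · intro p hp
    exact (mem_filter.1 hp).2.prime.squarefree

theorem prf (hCap : StCap) (hRh : StRh2) : StEl2 := by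
  intro W P w0 ω e0 e1 cl q t K0 m hW hq1 hK0 hm ht hqt hW3 hWK hP1 hPd hcl h6 h6'
  obtain ⟨hw0, hw2, ho0, ho1, he0, he01, he1⟩ := hW
  have hqpos : 0 < q := by omega
  set PW := primorial W with hPW
  have hPWpos : 0 < PW := primorial_pos W
  have hPW0 : (0 : ℝ) < PW := by exact_mod_cast hPWpos
  have hPpos : (0 : ℝ) < P := by exact_mod_cast hP1
  have hq0 : (0 : ℝ) < q := by exact_mod_cast hqpos
  have ht0 : (0 : ℝ) < t := by exact_mod_cast ht.pos
  have hη : 0 < e1 - e0 := by linarith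
  have he1p : 0 < e1 := by linarith
  obtain ⟨P', hPP⟩ := hPd
  have hPc : P.Coprime P' := by
    have h1 := sqf W
    rw [← hPW, hPP] at h1
    exact Nat.coprime_of_squarefree_mul h1
  have hcop : q.Coprime PW := by
    rw [Nat.coprime_iff_gcd_eq_one]
    by_contra hne
    obtain ⟨p, hp, hpd⟩ := Nat.exists_prime_and_dvd hne
    have hpq : p ∣ q := hpd.trans (Nat.gcd_dvd_left _ _)
    have hpP : p ∣ PW := hpd.trans (Nat.gcd_dvd_right _ _)
    have h1 := hK0 p ((Nat.mem_primeFactors).2 ⟨hp, hpq, by omega⟩)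
    rw [hPW, primorial] at hpP
    obtain ⟨p', hp', hdp⟩ := (Prime.dvd_finsetProd_iff (Nat.prime_iff.1 hp) _).1 hpP
    rw [mem_filter, mem_range] at hp'
    have := (Nat.prime_dvd_prime_iff_eq hp hp'.2).1 hdp
    omega
  have hcopP : q.Coprime P := by
    rw [hPP] at hcop
    exact hcop.coprime_mul_right_right
  have hqt' : t.Coprime q := by
    rw [ht.coprime_iff_not_dvd]
    intro hd
    have := Nat.le_of_dvd hqpos hd
    omega
  have hodd : ¬ 2 ∣ q := by
    intro hd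
    have := hK0 2 ((Nat.mem_primeFactors).2 ⟨Nat.prime_two, hd, by omega⟩)
    omega
  obtain ⟨h, hh⟩ : ∃ h, q + 1 = 2 * h := ⟨(q + 1) / 2, by omega⟩
  have hh1 : 2 * h ≡ 1 [MOD q] := by
    rw [← hh]
    exact Nat.add_modEq_left
  have hhc : h.Coprime q := by
    have h1 : (2 * h).Coprime q := by
      have := hh1.gcd_eq
      rw [Nat.gcd_one_left] at this
      exact this
    exact h1.coprime_mul_left
  have hR := hRh w0 ω q K0 m P (cl q t).2 hw0 hw2 ho0 ho1 hq1 hK0 hm hP1 hcopP h6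
  set R : Finset ℕ := (range (3 * q + 1)).filter (fun ρ : ℕ => w0 * q ≤ (ρ : ℝ) ∧
      (ρ : ℝ) ≤ (w0 + ω) * q ∧ ρ.Coprime q ∧ ρ ≡ (cl q t).2 [MOD P]) with hRdef
  set Z : ℕ → Finset ℕ := fun ρ => (range (q * t + 1)).filter (fun z : ℕ => e0 * q * t ≤ (z : ℝ) ∧
    (z : ℝ) ≤ e1 * q * t ∧ z ≡ h * (t * ρ) [MOD q] ∧ z ≡ (cl q t).1 [MOD P] ∧
    z.Coprime PW) with hZ
  have htot : (Nat.totient PW : ℝ) / P ≤ (Nat.totient P' : ℝ) := by
    rw [div_le_iff₀ hPpos, hPP, Nat.totient_mul hPc]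
    push_cast
    have h1 : (Nat.totient P : ℝ) ≤ P := by exact_mod_cast Nat.totient_le P
    have h2 : (0 : ℝ) ≤ (Nat.totient P' : ℝ) := Nat.cast_nonneg _
    nlinarith
  have hZc : ∀ ρ, (Nat.totient PW : ℝ) / P * ((e1 - e0) * t / (2 * (PW : ℝ))) ≤
      ((Z ρ).card : ℝ) := fun ρ =>
    (mul_le_mul_of_nonneg_right htot (by positivity)).trans
      (cardZ hCap he0 he01 he1 hqpos hPWpos hcop hPP hPc hcl h6')
  have h1 : (R.sigma Z).card ≤ (Zc W P w0 ω e0 e1 cl q t).card := by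
    apply Finset.card_le_card_of_injOn (fun x => (x.2, x.1))
    · intro x hx
      obtain ⟨hr, hz⟩ := mem_sigma.1 (mem_coe.1 hx)
      rw [hRdef, mem_filter] at hr
      rw [hZ] at hz
      simp only [mem_filter] at hz
      apply mem_coe.2
      unfold Zc Z2
      simp only [mem_filter, mem_product]
      refine ⟨⟨⟨hz.1, hr.1⟩, hz.2.1, hz.2.2.1, hz.2.2.2.2.2, ?_, hr.2.1, hr.2.2.1, ?_⟩,
        hz.2.2.2.2.1, hr.2.2.2.2⟩
      · have h2 : (h * (t * x.1)).Coprime q :=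
          Nat.Coprime.mul_left hhc (Nat.Coprime.mul_left hqt' hr.2.2.2.1)
        exact (hz.2.2.2.1.gcd_eq).trans h2
      · have h3 : 2 * x.2 ≡ 2 * (h * (t * x.1)) [MOD q] := hz.2.2.2.1.mul_left 2
        have h4 : 2 * (h * (t * x.1)) = (2 * h) * (t * x.1) := by ring
        have h5 : (2 * h) * (t * x.1) ≡ 1 * (t * x.1) [MOD q] := hh1.mul_right _
        rw [h4] at h3
        rw [one_mul] at h5
        exact (h3.trans h5).symm
    · intro x _ y _ hxy
      obtain ⟨x1, x2⟩ := x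
      obtain ⟨y1, y2⟩ := y
      simp only [Prod.mk.injEq] at hxy
      obtain ⟨h2, h3⟩ := hxy
      subst h2
      subst h3
      rfl
  rw [card_sigma] at h1
  have h2 : (ω * q / (2 * P)) *
      ((Nat.totient PW : ℝ) / P * ((e1 - e0) * t / (2 * (PW : ℝ)))) ≤
      ((Zc W P w0 ω e0 e1 cl q t).card : ℝ) := by
    have h3 : (R.card : ℝ) * ((Nat.totient PW : ℝ) / P * ((e1 - e0) * t / (2 * (PW : ℝ)))) ≤
        ((∑ ρ ∈ R, (Z ρ).card : ℕ) : ℝ) := by
      push_cast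
      rw [← nsmul_eq_mul]
      exact card_nsmul_le_sum _ _ _ fun ρ _ => hZc ρ
    have h4 : 0 ≤ (Nat.totient PW : ℝ) / P * ((e1 - e0) * t / (2 * (PW : ℝ))) := by positivity
    calc (ω * q / (2 * P)) * ((Nat.totient PW : ℝ) / P * ((e1 - e0) * t / (2 * (PW : ℝ))))
        ≤ (R.card : ℝ) * ((Nat.totient PW : ℝ) / P * ((e1 - e0) * t / (2 * (PW : ℝ)))) :=
          mul_le_mul_of_nonneg_right hR h4
      _ ≤ _ := h3.trans (by exact_mod_cast h1)
  have h3 : ((Zc W P w0 ω e0 e1 cl q t).card : ℝ) * (1 / (e1 * q * t)) ≤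
      Ez (Zc W P w0 ω e0 e1 cl) q t := by
    unfold Ez
    rw [← nsmul_eq_mul]
    refine card_nsmul_le_sum _ _ _ fun s hs => ?_
    unfold Zc Z2 at hs
    simp only [mem_filter] at hs
    have h4 : 0 < (s.1 : ℝ) := lt_of_lt_of_le (by positivity) hs.1.2.1
    exact one_div_le_one_div_of_le h4 hs.1.2.2.1
  have h4 : 0 ≤ 1 / (e1 * q * t) := by positivity
  calc ω * (e1 - e0) * (Nat.totient PW : ℝ) / (4 * e1 * (PW : ℝ) * (P : ℝ) ^ 2)
      = (ω * q / (2 * P)) * ((Nat.totient PW : ℝ) / P * ((e1 - e0) * t / (2 * (PW : ℝ)))) *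
          (1 / (e1 * q * t)) := by
        field_simp
        ring
    _ ≤ ((Zc W P w0 ω e0 e1 cl q t).card : ℝ) * (1 / (e1 * q * t)) :=
        mul_le_mul_of_nonneg_right h2 h4
    _ ≤ _ := h3

end Pool.Agent.Work.MP_a8fbd7_nt.PAR.RP.I_El2
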