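import Pool.Agent.Work.MP_a8fbd7_nt.PAR.RP.StmtsS

set_option autoImplicit false

/-! Item Fn2 of the block RP: the correlations for `q ≠ q'` (copy of `EF/I_FnG.lean`). -/

open Finset

namespace Pool.Agent.Work.MP_a8fbd7_nt.PAR.RP.I_Fn2

open Pool.Agent.Work.MP_a8fbd7_nt.PAR.RP Pool.Agent.Work.MP_a8fbd7_nt.PAR.LC
  Pool.Agent.Work.MP_a8fbd7_nt.PAR.EF

theorem mem_Z2 {W : ℕ} {w0 ω e0 e1 : ℝ} {q t : ℕ} {s : ℕ × ℕ} (h : s ∈ Z2 W w0 ω e0 e1 q t) :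
    e0 * q * t ≤ s.1 ∧ (s.1 : ℝ) ≤ e1 * q * t ∧ s.1.Coprime (primorial W) ∧ s.1.Coprime q ∧
    w0 * q ≤ s.2 ∧ (s.2 : ℝ) ≤ (w0 + ω) * q ∧ t * s.2 ≡ 2 * s.1 [MOD q] :=
  (mem_filter.1 h).2

/-- The residue is prime to the modulus. -/
theorem cop {W : ℕ} {w0 ω e0 e1 : ℝ} {q t : ℕ} {s : ℕ × ℕ} (hod : Odd q)
    (h : s ∈ Z2 W w0 ω e0 e1 q t) : Nat.Coprime q s.2 := by
  obtain ⟨_, _, _, hc, _, _, hm⟩ := mem_Z2 h
  have h1 : Nat.gcd q s.2 ∣ t * s.2 := Dvd.dvd.mul_left (Nat.gcd_dvd_right _ _) t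
  have h2 : Nat.gcd q s.2 ∣ 2 * s.1 := (Nat.ModEq.dvd_iff hm (Nat.gcd_dvd_left _ _)).1 h1
  have h2c : Nat.Coprime (Nat.gcd q s.2) 2 :=
    Nat.Coprime.coprime_dvd_left (Nat.gcd_dvd_left _ _) (Nat.coprime_two_right.2 hod)
  have h2' : Nat.gcd q s.2 ∣ s.1 := h2c.dvd_of_dvd_mul_left h2
  have h3 : Nat.gcd q s.2 ∣ 1 := by
    rw [← hc]
    exact Nat.dvd_gcd h2' (Nat.gcd_dvd_left _ _)
  exact Nat.dvd_one.1 h3

/-- The difference is not zero. -/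
theorem diff_ne {W : ℕ} {w0 ω e0 e1 : ℝ} {q t q' t' : ℕ} {s s' : ℕ × ℕ} (ho : Odd q)
    (ho' : Odd q')
    (hne : q ≠ q') (h : s ∈ Z2 W w0 ω e0 e1 q t) (h' : s' ∈ Z2 W w0 ω e0 e1 q' t') :
    (q' : ℤ) * s.2 - q * s'.2 ≠ 0 := by
  intro h0
  have h1 : (q' : ℤ) * s.2 = q * s'.2 := sub_eq_zero.1 h0
  have h2 : q' * s.2 = q * s'.2 := by exact_mod_cast h1
  have h3 : q ∣ q' * s.2 := ⟨s'.2, h2⟩
  have h4 : q' ∣ q * s'.2 := ⟨s.2, h2.symm⟩
  exact hne (Nat.dvd_antisymm ((cop ho h).dvd_of_dvd_mul_right h3)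
    ((cop ho' h').dvd_of_dvd_mul_right h4))

theorem diff_le {W : ℕ} {w0 ω e0 e1 : ℝ} {q t q' t' : ℕ} {s s' : ℕ × ℕ} (hw : Wn w0 ω e0 e1)
    (h : s ∈ Z2 W w0 ω e0 e1 q t) (h' : s' ∈ Z2 W w0 ω e0 e1 q' t') :
    |(q' : ℤ) * s.2 - q * s'.2| ≤ ((3 * q * q' : ℕ) : ℤ) := by
  obtain ⟨_, _, _, _, _, hu, _⟩ := mem_Z2 h
  obtain ⟨_, _, _, _, _, hu', _⟩ := mem_Z2 h'
  have h3 : (w0 + ω) ≤ 3 := by
    have := hw.hw2
    have := hw.ho1
    linarith
  have hq0 : (0 : ℝ) ≤ q := Nat.cast_nonneg q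
  have hq0' : (0 : ℝ) ≤ q' := Nat.cast_nonneg q'
  have a1 : (s.2 : ℝ) ≤ 3 * q := hu.trans (mul_le_mul_of_nonneg_right h3 hq0)
  have a2 : (s'.2 : ℝ) ≤ 3 * q' := hu'.trans (mul_le_mul_of_nonneg_right h3 hq0')
  have b1 : (q' : ℝ) * s.2 ≤ 3 * q * q' := by nlinarith
  have b2 : (q : ℝ) * s'.2 ≤ 3 * q * q' := by nlinarith
  have c1 : q' * s.2 ≤ 3 * q * q' := by exact_mod_cast b1
  have c2 : q * s'.2 ≤ 3 * q * q' := by exact_mod_cast b2
  rw [abs_le]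
  constructor
  · have : ((q * s'.2 : ℕ) : ℤ) ≤ ((3 * q * q' : ℕ) : ℤ) := by exact_mod_cast c2
    have h0 : (0 : ℤ) ≤ (q' : ℤ) * s.2 := by positivity
    push_cast at this ⊢
    linarith
  · have : ((q' * s.2 : ℕ) : ℤ) ≤ ((3 * q * q' : ℕ) : ℤ) := by exact_mod_cast c1
    have h0 : (0 : ℤ) ≤ (q : ℤ) * s'.2 := by positivity
    push_cast at this ⊢
    linarith

/-- The condition for the divisor `d`. -/
def Cd (q q' d : ℕ) (s s' : ℕ × ℕ) : Prop :=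
  d ∣ s.1 ∧ d ∣ s'.1 ∧ (d : ℤ) ∣ (q' : ℤ) * s.2 - q * s'.2

open Classical in
theorem cor_le (hR : StRgh) {W : ℕ} {w0 ω e0 e1 : ℝ} {q t q' t' : ℕ} {s s' : ℕ × ℕ}
    (hw : Wn w0 ω e0 e1) (hq : 1 ≤ q) (hq' : 1 ≤ q') (ho : Odd q) (ho' : Odd q')
    (hne : q ≠ q') (ht : 1 ≤ t)
    (ht' : 1 ≤ t') (h : s ∈ Z2 W w0 ω e0 e1 q t) (h' : s' ∈ Z2 W w0 ω e0 e1 q' t') :
    cor q q' s s' ≤ 1 / (s.1 : ℝ) * (1 / (s'.1 : ℝ)) +
      ∑ d ∈ Ioc W (3 * q * q'), if Cd q q' d s s' then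
        (d : ℝ) / ((e0 * q * t) * (e0 * q' * t')) else 0 := by
  obtain ⟨hl, _, hc, _, _, _, _⟩ := mem_Z2 h
  obtain ⟨hl', _, _, _, _, _, _⟩ := mem_Z2 h'
  have p1 : (0 : ℝ) < e0 * q * t :=
    mul_pos (mul_pos hw.he0 (by exact_mod_cast hq)) (by exact_mod_cast ht)
  have p2 : (0 : ℝ) < e0 * q' * t' :=
    mul_pos (mul_pos hw.he0 (by exact_mod_cast hq')) (by exact_mod_cast ht')
  have z1 : (0 : ℝ) < s.1 := p1.trans_le hl
  have z2 : (0 : ℝ) < s'.1 := p2.trans_le hl'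
  have hnn : ∀ d ∈ Ioc W (3 * q * q'), (0 : ℝ) ≤ if Cd q q' d s s' then
        (d : ℝ) / ((e0 * q * t) * (e0 * q' * t')) else 0 := by
    intro d _
    split_ifs
    · positivity
    · exact le_refl 0
  have hnn0 : (0 : ℝ) ≤ 1 / (s.1 : ℝ) * (1 / (s'.1 : ℝ)) := by positivity
  rw [cor]
  split_ifs with hdv
  · rcases Nat.lt_or_ge 1 (Nat.gcd s.1 s'.1) with hg | hg
    · have hgW : W < Nat.gcd s.1 s'.1 := hR W s.1 _ hc (Nat.gcd_dvd_left _ _) hg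
      have hgD : Nat.gcd s.1 s'.1 ≤ 3 * q * q' := by
        have a1 := diff_ne ho ho' hne h h'
        have a2 := diff_le hw h h'
        have a3 := Int.le_of_dvd (abs_pos.2 a1) ((dvd_abs _ _).2 hdv)
        exact_mod_cast a3.trans a2
      have hCd : Cd q q' (Nat.gcd s.1 s'.1) s s' :=
        ⟨Nat.gcd_dvd_left _ _, Nat.gcd_dvd_right _ _, hdv⟩
      have h5 := single_le_sum hnn (mem_Ioc.2 ⟨hgW, hgD⟩)
      rw [if_pos hCd] at h5
      have h6 : (Nat.gcd s.1 s'.1 : ℝ) / ((s.1 : ℝ) * s'.1) ≤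
          (Nat.gcd s.1 s'.1 : ℝ) / ((e0 * q * t) * (e0 * q' * t')) :=
        div_le_div_of_nonneg_left (Nat.cast_nonneg _) (mul_pos p1 p2)
          (mul_le_mul hl hl' p2.le z1.le)
      linarith
    · have hg1 : (Nat.gcd s.1 s'.1 : ℝ) ≤ 1 := by exact_mod_cast hg
      have h6 : (Nat.gcd s.1 s'.1 : ℝ) / ((s.1 : ℝ) * s'.1) ≤ 1 / (s.1 : ℝ) * (1 / (s'.1 : ℝ)) := by
        rw [one_div_mul_one_div]
        exact div_le_div_of_nonneg_right hg1 (by positivity)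
      have h7 := sum_nonneg hnn
      linarith
  · have h7 := sum_nonneg hnn
    linarith

/-- The counting of the pairs. -/
theorem count (hC : StCt2) {W : ℕ} {w0 ω e0 e1 : ℝ} {q t q' t' d : ℕ} (hw : Wn w0 ω e0 e1)
    (hq : 1 ≤ q) (hq' : 1 ≤ q') (ho1 : Odd q) (ho1' : Odd q') (ht : 1 ≤ t) (ht' : 1 ≤ t')
    (hoq : 1 / ω ≤ q)
    (hoq' : 1 / ω ≤ q') (hd : 1 ≤ d) (hdt : (d : ℝ) ≤ (e1 - e0) * t)
    (hdt' : (d : ℝ) ≤ (e1 - e0) * t') :
    (∑ s ∈ Z2 W w0 ω e0 e1 q t, ∑ s' ∈ Z2 W w0 ω e0 e1 q' t', open Classical in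
      (if Cd q q' d s s' then (1 : ℝ) else 0)) ≤
      (4 * ω * (e1 - e0) * q * t / d) * ((ω * q' / d + 1) * (2 * (e1 - e0) * t' / d)) := by
  classical
  have hη : 0 < e1 - e0 := sub_pos.2 hw.he01
  have hd0 : (0 : ℝ) < d := by exact_mod_cast hd
  have hB : (0 : ℝ) ≤ (ω * q' / d + 1) * (2 * (e1 - e0) * t' / d) := by
    have := hw.ho0
    positivity
  have hin : ∀ s ∈ Z2 W w0 ω e0 e1 q t, ∑ s' ∈ Z2 W w0 ω e0 e1 q' t',
      (if Cd q q' d s s' then (1 : ℝ) else 0) ≤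
      if d ∣ s.1 then (ω * q' / d + 1) * (2 * (e1 - e0) * t' / d) else 0 := by
    intro s hs
    by_cases hds : d ∣ s.1
    · rw [if_pos hds]
      obtain ⟨_, _, _, hcq, _, _, _⟩ := mem_Z2 hs
      have hdq : d.Coprime q := Nat.Coprime.coprime_dvd_left hds hcq
      by_cases hex : ∃ s' ∈ Z2 W w0 ω e0 e1 q' t', d ∣ s'.1
      · obtain ⟨s1, hs1, hds1⟩ := hex
        obtain ⟨_, _, _, hcq1, _, _, _⟩ := mem_Z2 hs1
        have hdq' : d.Coprime q' := Nat.Coprime.coprime_dvd_left hds1 hcq1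
        obtain ⟨u, hu⟩ : ∃ u : ℕ, q * u ≡ 1 [MOD d] := by
          rcases Nat.lt_or_ge 1 d with h1 | h1
          · obtain ⟨u, hu⟩ := Nat.exists_mul_mod_eq_one_of_coprime hdq.symm h1
            refine ⟨u, ?_⟩
            rw [Nat.ModEq, hu.2, Nat.mod_eq_of_lt h1]
          · have : d = 1 := le_antisymm h1 hd
            subst this
            exact ⟨0, Nat.modEq_one⟩
        have h2 := (hC W w0 ω e0 e1 q' t' d hw hq' ho1' ht' hoq' hd hdq' hdt').2.1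
          (u * (q' * s.2))
        refine le_trans ?_ h2
        rw [← sum_filter, sum_const, nsmul_eq_mul, mul_one]
        refine Nat.cast_le.2 (card_le_card ?_)
        intro s' hs'
        rw [mem_filter] at hs' ⊢
        obtain ⟨hz', _, hd2, hd3⟩ := hs'
        refine ⟨hz', hd2, ?_⟩
        have h3 : q * s'.2 ≡ q' * s.2 [MOD d] := by
          rw [Nat.modEq_iff_dvd]
          push_cast
          exact hd3
        have h4 : u * (q * s'.2) ≡ u * (q' * s.2) [MOD d] := Nat.ModEq.mul_left u h3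
        have h5 : u * (q * s'.2) ≡ s'.2 [MOD d] := by
          have e1 : u * (q * s'.2) = q * u * s'.2 := by ring
          rw [e1]
          have := Nat.ModEq.mul_right s'.2 hu
          rwa [one_mul] at this
        exact h5.symm.trans h4
      · refine le_trans (le_of_eq (sum_eq_zero fun s' hs' => ?_)) hB
        rw [if_neg]
        intro hcd
        exact hex ⟨s', hs', hcd.2.1⟩
    · rw [if_neg hds]
      refine le_of_eq (sum_eq_zero fun s' _ => ?_)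
      rw [if_neg]
      intro hcd
      exact hds hcd.1
  refine (sum_le_sum hin).trans ?_
  rw [← sum_filter, sum_const, nsmul_eq_mul]
  refine mul_le_mul_of_nonneg_right ?_ hB
  by_cases hex : ∃ s ∈ Z2 W w0 ω e0 e1 q t, d ∣ s.1
  · obtain ⟨s1, hs1, hds1⟩ := hex
    obtain ⟨_, _, _, hcq, _, _, _⟩ := mem_Z2 hs1
    have hdq : d.Coprime q := Nat.Coprime.coprime_dvd_left hds1 hcq
    exact (hC W w0 ω e0 e1 q t d hw hq ho1 ht hoq hd hdq hdt).1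
  · have : (Z2 W w0 ω e0 e1 q t).filter (fun s => d ∣ s.1) = ∅ := by
      rw [filter_eq_empty_iff]
      intro s hs hd
      exact hex ⟨s, hs, hd⟩
    rw [this, card_empty, Nat.cast_zero]
    have := hw.ho0
    positivity

theorem prf (hR : StRgh) (hC : StCt2) (hH : StHar) : StFn2 := by
  classical
  intro W w0 ω e0 e1 Z q q' t hZ hw hq hq' hod hod' hne ht hW hoq hoq' hD
  have hη : 0 < e1 - e0 := sub_pos.2 hw.he01
  have q0 : (0 : ℝ) < q := by exact_mod_cast hq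
  have q0' : (0 : ℝ) < q' := by exact_mod_cast hq'
  have t0 : (0 : ℝ) < t := by exact_mod_cast ht
  have he := hw.he0
  have ho := hw.ho0
  set K : ℝ := (e0 * q * t) * (e0 * q' * t) with hK
  have hK0 : 0 < K := by positivity
  -- pointwise bound
  have h1 : Fz Z q t q' t ≤ Ez Z q t * Ez Z q' t +
      ∑ d ∈ Ioc W (3 * q * q'), (d : ℝ) / K * ∑ s ∈ Z q t,
        ∑ s' ∈ Z q' t, if Cd q q' d s s' then (1 : ℝ) else 0 := by
    rw [Fz]
    refine (sum_le_sum fun s hs => sum_le_sum fun s' hs' =>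
      cor_le hR hw hq hq' hod hod' hne ht ht (hZ q t hs) (hZ q' t hs')).trans (le_of_eq ?_)
    simp only [sum_add_distrib]
    congr 1
    · rw [Ez, Ez, sum_mul_sum]
    · simp only [mul_sum]
      rw [sum_comm' (s := Z q t) (t := fun _ => Z q' t)
        (t' := Z q' t) (s' := fun _ => Z q t) (by tauto)]
      rw [sum_congr rfl fun s' _ => sum_comm]
      rw [sum_comm]
      refine sum_congr rfl fun d _ => ?_
      rw [sum_comm]
      refine sum_congr rfl fun s _ => sum_congr rfl fun s' _ => ?_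
      split_ifs
      · rw [mul_one]
      · rw [mul_zero]
  refine h1.trans (add_le_add_right ?_ _)
  -- enlarge the sums
  have hen : ∀ d : ℕ, (∑ s ∈ Z q t, ∑ s' ∈ Z q' t, (if Cd q q' d s s' then (1 : ℝ) else 0)) ≤
      ∑ s ∈ Z2 W w0 ω e0 e1 q t, ∑ s' ∈ Z2 W w0 ω e0 e1 q' t,
        (if Cd q q' d s s' then (1 : ℝ) else 0) := by
    intro d
    have hnn : ∀ s s', (0 : ℝ) ≤ (if Cd q q' d s s' then (1 : ℝ) else 0) := by
      intro s s'
      split_ifs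
      · exact zero_le_one
      · exact le_refl 0
    refine (sum_le_sum fun s _ => sum_le_sum_of_subset_of_nonneg (hZ q' t)
      fun s' _ _ => hnn s s').trans ?_
    exact sum_le_sum_of_subset_of_nonneg (hZ q t) fun s _ _ => sum_nonneg fun s' _ => hnn s s'
  -- the terms
  have h2 : ∀ d ∈ Ioc W (3 * q * q'), (d : ℝ) / K * ∑ s ∈ Z q t,
        ∑ s' ∈ Z q' t, (if Cd q q' d s s' then (1 : ℝ) else 0) ≤
      (8 * ω * (e1 - e0) ^ 2 / e0 ^ 2) * (ω * ((d : ℝ) ^ 2)⁻¹ + 1 / (d : ℝ) / q') := by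
    intro d hd
    obtain ⟨hd1, hd2⟩ := mem_Ioc.1 hd
    have hd0 : (0 : ℝ) < d := by exact_mod_cast (by omega : 0 < d)
    have hdD : (d : ℝ) ≤ 3 * q * q' := by exact_mod_cast hd2
    have h3 := (hen d).trans (count hC (W := W) hw hq hq' hod hod' ht ht hoq hoq'
      (by omega : 1 ≤ d) (hdD.trans hD) (hdD.trans hD))
    refine (mul_le_mul_of_nonneg_left h3 (by positivity)).trans (le_of_eq ?_)
    rw [hK]
    field_simp
    ring
  refine (sum_le_sum h2).trans ?_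
  rw [← mul_sum]
  refine mul_le_mul_of_nonneg_left ?_ (by positivity)
  rw [sum_add_distrib, ← mul_sum, ← sum_div]
  have h4 : ∑ d ∈ Ioc W (3 * q * q'), ((d : ℝ) ^ 2)⁻¹ ≤ 1 / W := by
    rcases Nat.le_or_ge W (3 * q * q') with h | h
    · refine (sum_Ioc_inv_sq_le_sub (by omega) h).trans ?_
      rw [one_div]
      have : (0 : ℝ) ≤ ((3 * q * q' : ℕ) : ℝ)⁻¹ := by positivity
      linarith
    · rw [Ioc_eq_empty (by omega), sum_empty]
      positivity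
  have h5 : ∑ d ∈ Ioc W (3 * q * q'), 1 / (d : ℝ) ≤ 1 + Real.log (3 * q * q') := by
    have h6 := hH.1 (3 * q * q')
    push_cast at h6
    refine le_trans (sum_le_sum_of_subset_of_nonneg ?_ ?_) h6
    · intro d hd
      obtain ⟨a, b⟩ := mem_Ioc.1 hd
      exact mem_Icc.2 ⟨by omega, b⟩
    · intro d _ _
      positivity
  have h7 := mul_le_mul_of_nonneg_left h4 ho.le
  have h8 := div_le_div_of_nonneg_right h5 q0'.le
  have e9 : ω / W = ω * (1 / W) := by ring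
  rw [e9]
  exact add_le_add h7 h8

end Pool.Agent.Work.MP_a8fbd7_nt.PAR.RP.I_Fn2
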