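import Pool.Agent.Work.MP_a8fbd7_nt.PAR.RP.StmtsS

set_option autoImplicit false

/-!
MP_a8fbd7_nt, block RP, item Fq2: correlations for `q = q'`, `t = t'` (copy of `EF/I_FqG.lean` of helper24, helper87 and
`EF/I_GdC.lean`, by helper88).
-/

open Finset

noncomputable section

namespace Pool.Agent.Work.MP_a8fbd7_nt.PAR.RP.I_Fq2

open Pool.Agent.Work.MP_a8fbd7_nt.PAR.RP Pool.Agent.Work.MP_a8fbd7_nt.PAR.LC Pool.Agent.Work.MP_a8fbd7_nt.PAR.EF

/-- the pointwise bound -/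
lemma ptw (h1 : StRgh) (W : ℕ) (w0 ω e0 e1 : ℝ) (q t t' : ℕ) (hW : Wn w0 ω e0 e1) (hq : 1 ≤ q)
    (ht : 1 ≤ t) (ht' : 1 ≤ t') (s s' : ℕ × ℕ) (hs : s ∈ Z2 W w0 ω e0 e1 q t)
    (hs' : s' ∈ Z2 W w0 ω e0 e1 q t') :
    cor q q s s' ≤ 1 / (s.1 : ℝ) * (1 / (s'.1 : ℝ)) +
      ∑ d ∈ Ioc W ⌊ω * q⌋₊, (if d ∣ s.1 ∧ (d ∣ s'.1 ∧ s'.2 ≡ s.2 [MOD d]) then
        (d : ℝ) / (e0 ^ 2 * q ^ 2 * t * t') else 0) +
      (if s'.2 = s.2 then (Nat.gcd s.1 s'.1 : ℝ) / ((s.1 : ℝ) * s'.1) else 0) := by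
  obtain ⟨z, ρ⟩ := s
  obtain ⟨z', ρ'⟩ := s'
  simp only [Z2, mem_filter, mem_product] at hs hs'
  obtain ⟨-, hz0, -, hzW, hzq, hρ0, hρ1, -⟩ := hs
  obtain ⟨-, hz0', -, -, -, hρ0', hρ1', -⟩ := hs'
  have he0 := hW.he0
  have hqr : (0 : ℝ) < q := by exact_mod_cast hq
  have htr : (0 : ℝ) < t := by exact_mod_cast ht
  have htr' : (0 : ℝ) < t' := by exact_mod_cast ht'
  have hz : (0 : ℝ) < z := lt_of_lt_of_le (by positivity) hz0
  have hz' : (0 : ℝ) < z' := lt_of_lt_of_le (by positivity) hz0'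
  have hzn : 0 < z := by exact_mod_cast hz
  have hden : (0 : ℝ) < e0 ^ 2 * q ^ 2 * t * t' := by positivity
  have hA : 0 ≤ 1 / (z : ℝ) * (1 / (z' : ℝ)) := by positivity
  have hB : 0 ≤ ∑ d ∈ Ioc W ⌊ω * q⌋₊, (if d ∣ z ∧ (d ∣ z' ∧ ρ' ≡ ρ [MOD d]) then
        (d : ℝ) / (e0 ^ 2 * q ^ 2 * t * t') else 0) := by
    apply Finset.sum_nonneg
    intro d _
    split_ifs
    · positivity
    · exact le_rfl
  have hC : (0 : ℝ) ≤ (if ρ' = ρ then (Nat.gcd z z' : ℝ) / ((z : ℝ) * z') else 0) := by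
    split_ifs
    · positivity
    · exact le_rfl
  show cor q q (z, ρ) (z', ρ') ≤ 1 / (z : ℝ) * (1 / (z' : ℝ)) +
      ∑ d ∈ Ioc W ⌊ω * q⌋₊, (if d ∣ z ∧ (d ∣ z' ∧ ρ' ≡ ρ [MOD d]) then
        (d : ℝ) / (e0 ^ 2 * q ^ 2 * t * t') else 0) +
      (if ρ' = ρ then (Nat.gcd z z' : ℝ) / ((z : ℝ) * z') else 0)
  unfold cor
  simp only
  split_ifs with hc hr hr
  · linarith
  · -- condition holds, ρ' ≠ ρ
    set d := Nat.gcd z z' with hd
    have hdpos : 0 < d := Nat.gcd_pos_of_pos_left _ hzn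
    rcases Nat.lt_or_ge 1 d with h2 | h2
    · have hdW : W < d := h1 W z d hzW (Nat.gcd_dvd_left z z') h2
      have hdq : d.Coprime q := Nat.Coprime.coprime_dvd_left (Nat.gcd_dvd_left z z') hzq
      have hdvd : (d : ℤ) ∣ (ρ : ℤ) - ρ' := by
        have h3 : (d : ℤ) ∣ (q : ℤ) * ((ρ : ℤ) - ρ') := by
          have : (q : ℤ) * ((ρ : ℤ) - ρ') = q * ρ - q * ρ' := by ring
          rw [this]
          exact hc
        exact (Nat.isCoprime_iff_coprime.mpr hdq).dvd_of_dvd_mul_left h3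
      have hmod : ρ' ≡ ρ [MOD d] := by
        rw [Nat.modEq_iff_dvd]
        exact hdvd
      have hle : d ≤ ⌊ω * q⌋₊ := by
        apply Nat.le_floor
        have h4 : (d : ℤ) ≤ |(ρ : ℤ) - ρ'| := by
          apply Int.le_of_dvd
          · rw [abs_pos]
            intro h
            exact hr (by omega)
          · exact (dvd_abs _ _).mpr hdvd
        have h5 : (d : ℝ) ≤ |(ρ : ℝ) - ρ'| := by exact_mod_cast h4
        have h6 : |(ρ : ℝ) - ρ'| ≤ ω * q := by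
          rw [abs_le]
          constructor <;> nlinarith
        exact h5.trans h6
      have h7 : (d : ℝ) / ((z : ℝ) * z') ≤ ∑ d ∈ Ioc W ⌊ω * q⌋₊,
          (if d ∣ z ∧ (d ∣ z' ∧ ρ' ≡ ρ [MOD d]) then
            (d : ℝ) / (e0 ^ 2 * q ^ 2 * t * t') else 0) := by
        have h8 : (d : ℝ) / ((z : ℝ) * z') ≤ (if d ∣ z ∧ (d ∣ z' ∧ ρ' ≡ ρ [MOD d]) then
            (d : ℝ) / (e0 ^ 2 * q ^ 2 * t * t') else 0) := by
          rw [if_pos ⟨Nat.gcd_dvd_left z z', Nat.gcd_dvd_right z z', hmod⟩]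
          apply div_le_div_of_nonneg_left (by positivity) hden
          have h9 : (e0 * q * t) * (e0 * q * t') ≤ (z : ℝ) * z' :=
            mul_le_mul hz0 hz0' (by positivity) hz.le
          nlinarith
        refine h8.trans ?_
        exact Finset.single_le_sum (f := fun d : ℕ => if d ∣ z ∧ (d ∣ z' ∧ ρ' ≡ ρ [MOD d]) then
            (d : ℝ) / (e0 ^ 2 * q ^ 2 * t * t') else 0) (fun i _ => by
              split_ifs
              · positivity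
              · exact le_rfl) (Finset.mem_Ioc.mpr ⟨hdW, hle⟩)
      linarith
    · have h3 : d = 1 := by omega
      have h4 : ((d : ℕ) : ℝ) / ((z : ℝ) * z') = 1 / (z : ℝ) * (1 / (z' : ℝ)) := by
        rw [h3]
        push_cast
        field_simp
      rw [h4]
      linarith
  · rw [if_pos hr] at hC
    linarith
  · linarith

/-- one value of `d` -/
lemma one (h2 : StCt2) (W : ℕ) (w0 ω e0 e1 : ℝ) (q t t' d : ℕ) (hW : Wn w0 ω e0 e1)
    (hq : 1 ≤ q) (hodd : Odd q) (ht : 1 ≤ t) (ht' : 1 ≤ t') (hω : 1 / ω ≤ q)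
    (hqt : (q : ℝ) ≤ (e1 - e0) * t) (hqt' : (q : ℝ) ≤ (e1 - e0) * t')
    (hd1 : 1 ≤ d) (hd : (d : ℝ) ≤ ω * q) :
    ∑ s ∈ Z2 W w0 ω e0 e1 q t, ∑ s' ∈ Z2 W w0 ω e0 e1 q t',
      (if d ∣ s.1 ∧ (d ∣ s'.1 ∧ s'.2 ≡ s.2 [MOD d]) then
        (d : ℝ) / (e0 ^ 2 * q ^ 2 * t * t') else 0) ≤
      16 * ω ^ 2 * (e1 - e0) ^ 2 / e0 ^ 2 * ((d : ℝ) ^ 2)⁻¹ := by
  have he0 := hW.he0
  have hη : 0 < e1 - e0 := sub_pos.mpr hW.he01
  have hω0 := hW.ho0
  have hqr : (0 : ℝ) < q := by exact_mod_cast hq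
  have htr : (0 : ℝ) < t := by exact_mod_cast ht
  have htr' : (0 : ℝ) < t' := by exact_mod_cast ht'
  have hdr : (0 : ℝ) < d := by exact_mod_cast hd1
  have hdq' : (d : ℝ) < q := by
    have := hW.ho1
    nlinarith
  by_cases hdq : d.Coprime q
  swap
  · -- no `z` is divisible by `d`
    have h0 : ∑ s ∈ Z2 W w0 ω e0 e1 q t, ∑ s' ∈ Z2 W w0 ω e0 e1 q t',
        (if d ∣ s.1 ∧ (d ∣ s'.1 ∧ s'.2 ≡ s.2 [MOD d]) then
          (d : ℝ) / (e0 ^ 2 * q ^ 2 * t * t') else 0) = 0 := by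
      apply Finset.sum_eq_zero
      intro s hs
      apply Finset.sum_eq_zero
      intro s' _
      rw [if_neg]
      rintro ⟨h3, -⟩
      apply hdq
      simp only [Z2, mem_filter, mem_product] at hs
      obtain ⟨-, -, -, -, hzq, -⟩ := hs
      exact Nat.Coprime.coprime_dvd_left h3 hzq
    rw [h0]
    positivity
  obtain ⟨ha, -, -⟩ := h2 W w0 ω e0 e1 q t d hW hq hodd ht hω hd1 hdq (by linarith)
  obtain ⟨-, hb, -⟩ := h2 W w0 ω e0 e1 q t' d hW hq hodd ht' hω hd1 hdq (by linarith)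
  set K : ℝ := (d : ℝ) / (e0 ^ 2 * q ^ 2 * t * t') with hK
  have hK0 : 0 ≤ K := by positivity
  set Bd : ℝ := (ω * q / d + 1) * (2 * (e1 - e0) * t' / d) with hBd
  have hBd0 : 0 ≤ Bd := by positivity
  have h3 : ∀ s ∈ Z2 W w0 ω e0 e1 q t, ∑ s' ∈ Z2 W w0 ω e0 e1 q t',
      (if d ∣ s.1 ∧ (d ∣ s'.1 ∧ s'.2 ≡ s.2 [MOD d]) then K else 0) ≤
      if d ∣ s.1 then Bd * K else 0 := by
    intro s _
    by_cases hs : d ∣ s.1
    · rw [if_pos hs]
      have h4 : ∀ s' ∈ Z2 W w0 ω e0 e1 q t',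
          (if d ∣ s.1 ∧ (d ∣ s'.1 ∧ s'.2 ≡ s.2 [MOD d]) then K else 0) =
          if d ∣ s'.1 ∧ s'.2 ≡ s.2 [MOD d] then K else 0 := by
        intro s' _
        simp [hs]
      rw [Finset.sum_congr rfl h4, ← Finset.sum_filter, Finset.sum_const, nsmul_eq_mul]
      exact mul_le_mul_of_nonneg_right (hb s.2) hK0
    · rw [if_neg hs]
      apply le_of_eq
      apply Finset.sum_eq_zero
      intro s' _
      rw [if_neg (fun h => hs h.1)]
  refine (Finset.sum_le_sum h3).trans ?_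
  rw [← Finset.sum_filter, Finset.sum_const, nsmul_eq_mul]
  have h5 : (((Z2 W w0 ω e0 e1 q t).filter (fun s => d ∣ s.1)).card : ℝ) * (Bd * K) ≤
      4 * ω * (e1 - e0) * q * t / d * (Bd * K) :=
    mul_le_mul_of_nonneg_right ha (by positivity)
  refine h5.trans ?_
  have h6 : Bd ≤ (2 * (ω * q / d)) * (2 * (e1 - e0) * t' / d) := by
    apply mul_le_mul_of_nonneg_right _ (by positivity)
    have : 1 ≤ ω * q / d := by
      rw [le_div_iff₀ hdr]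
      linarith
    linarith
  have h7 : 4 * ω * (e1 - e0) * q * t / d * (Bd * K) ≤
      4 * ω * (e1 - e0) * q * t / d * ((2 * (ω * q / d)) * (2 * (e1 - e0) * t' / d) * K) := by
    apply mul_le_mul_of_nonneg_left _ (by positivity)
    exact mul_le_mul_of_nonneg_right h6 hK0
  refine h7.trans (le_of_eq ?_)
  rw [hK]
  field_simp
  ring

theorem sq_sum (N : ℕ) (hN : 1 ≤ N) : ∑ a ∈ Icc 1 N, 1 / ((a : ℝ) * a) ≤ 2 - 1 / (N : ℝ) := by
  induction N, hN using Nat.le_induction with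
  | base => norm_num
  | succ N hN ih =>
    rw [Finset.sum_Icc_succ_top (by omega)]
    have hN' : (0 : ℝ) < N := by exact_mod_cast hN
    have h1 : 1 / (((N + 1 : ℕ) : ℝ) * ((N + 1 : ℕ) : ℝ)) ≤ 1 / (N : ℝ) - 1 / ((N + 1 : ℕ) : ℝ) := by
      push_cast
      rw [div_sub_div _ _ (by positivity) (by positivity), div_le_div_iff₀ (by positivity)
        (by positivity)]
      nlinarith
    linarith

open Classical in
theorem inner (hHar : StHar) (q t a : ℕ) (hq : 1 ≤ q) :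
    ∑ a' ∈ (Icc 1 (q * t)).filter (fun a' => a < a' ∧ a ≡ a' [MOD q]), 1 / (a' : ℝ) ≤
      (1 + Real.log t) / q := by
  have hq0 : (0 : ℝ) < q := by exact_mod_cast hq
  set F := (Icc 1 (q * t)).filter (fun a' => a < a' ∧ a ≡ a' [MOD q]) with hF
  have hk : ∀ a' ∈ F, ∃ k, a' = a + q * k ∧ 1 ≤ k ∧ k ≤ t := by
    intro a' ha'
    obtain ⟨h1, h2, h3⟩ := mem_filter.1 ha'
    obtain ⟨h4, h5⟩ := mem_Icc.1 h1
    obtain ⟨k, hk⟩ := (Nat.modEq_iff_dvd' h2.le).1 h3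
    have h6 : a' = a + q * k := by omega
    refine ⟨k, h6, ?_, ?_⟩
    · by_contra h0
      have : k = 0 := by omega
      subst this
      omega
    · have : q * k ≤ q * t := by omega
      exact Nat.le_of_mul_le_mul_left this hq
  have hg : ∀ a' ∈ F, (a' - a) / q ∈ Icc 1 t ∧ a' = a + q * ((a' - a) / q) := by
    intro a' ha'
    obtain ⟨k, h1, h2, h3⟩ := hk a' ha'
    have : (a' - a) / q = k := by
      rw [h1, Nat.add_sub_cancel_left, Nat.mul_div_cancel_left k hq]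
    rw [this]
    exact ⟨mem_Icc.2 ⟨h2, h3⟩, h1⟩
  have hinj : Set.InjOn (fun a' => (a' - a) / q) (F : Set ℕ) := by
    intro x hx y hy hxy
    have h1 := (hg x hx).2
    have h2 := (hg y hy).2
    have h3 : (x - a) / q = (y - a) / q := hxy
    rw [h3] at h1
    omega
  calc ∑ a' ∈ F, 1 / (a' : ℝ) ≤ ∑ a' ∈ F, 1 / ((q : ℝ) * (((a' - a) / q : ℕ) : ℝ)) := by
        refine sum_le_sum fun a' ha' => ?_
        obtain ⟨h1, h2⟩ := hg a' ha'
        have h3 : (0 : ℝ) < (((a' - a) / q : ℕ) : ℝ) := by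
          exact_mod_cast (mem_Icc.1 h1).1
        apply one_div_le_one_div_of_le (by positivity)
        have h4 : q * ((a' - a) / q) ≤ a' := by omega
        exact_mod_cast h4
    _ = ∑ k ∈ F.image (fun a' => (a' - a) / q), 1 / ((q : ℝ) * (k : ℝ)) := by
        rw [sum_image hinj]
    _ ≤ ∑ k ∈ Icc 1 t, 1 / ((q : ℝ) * (k : ℝ)) := by
        refine sum_le_sum_of_subset_of_nonneg ?_ fun i _ _ => by positivity
        intro k hk
        obtain ⟨a', ha', rfl⟩ := mem_image.1 hk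
        exact (hg a' ha').1
    _ = (∑ k ∈ Icc 1 t, 1 / (k : ℝ)) / q := by
        rw [sum_div]
        refine sum_congr rfl fun k _ => ?_
        rw [one_div, mul_inv, one_div, div_eq_mul_inv, mul_comm]
    _ ≤ (1 + Real.log t) / q := div_le_div_of_nonneg_right (hHar.1 t) hq0.le

open Classical in
/-- the diagonal part -/
theorem gdb (hGp : StGp2) (hHar : StHar) (W : ℕ) (w0 ω e0 e1 : ℝ) (Z : ℕ → ℕ → Finset (ℕ × ℕ)) (q t : ℕ)
    (hS : Sb W w0 ω e0 e1 Z) (hW : Wn w0 ω e0 e1) (hq : 1 ≤ q) (hodd : Odd q) (ht : 1 ≤ t) (hqt : q.Coprime t) :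
    Gz Z q t t ≤ 2 * (e1 / e0) + 2 * (e1 / e0) * (1 + Real.log (q * t)) ^ 2 / q := by
  have h0 := hW.he0
  have h01 := hW.he01
  have he1 : 0 < e1 := by linarith
  have hq0 : (0 : ℝ) < q := by exact_mod_cast hq
  have ht0 : (0 : ℝ) < t := by exact_mod_cast ht
  have hl0 : 0 ≤ e1 / e0 := by positivity
  have hN : 1 ≤ q * t := Nat.mul_pos hq ht
  have h1 := hGp W w0 ω e0 e1 Z q t t (q * t) hS hW hq hodd ht ht hqt hqt le_rfl le_rfl
  have htq : Nat.Coprime q t := hqt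
  have h2 : ∑ a ∈ (Icc 1 (q * t)).filter (fun a => a.Coprime q),
      ∑ a' ∈ (Icc 1 (q * t)).filter (fun a' => a * t ≡ a' * t [MOD q] ∧
        (a' : ℝ) * t * e0 ≤ a * t * e1 ∧ (a : ℝ) * t * e0 ≤ a' * t * e1), 1 / ((a : ℝ) * a') ≤
      ∑ a ∈ Icc 1 (q * t), ∑ a' ∈ Icc 1 (q * t), (if a ≡ a' [MOD q] then 1 / ((a : ℝ) * a') else 0) := by
    refine le_trans (sum_le_sum_of_subset_of_nonneg (filter_subset _ _) fun i _ _ =>
      sum_nonneg fun j _ => by positivity) ?_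
    refine sum_le_sum fun a _ => ?_
    rw [← sum_filter]
    refine sum_le_sum_of_subset_of_nonneg ?_ fun i _ _ => by positivity
    intro a' ha'
    obtain ⟨m1, m2⟩ := mem_filter.1 ha'
    refine mem_filter.2 ⟨m1, ?_⟩
    exact Nat.ModEq.cancel_right_of_coprime htq m2.1
  have hHN := hHar.1 (q * t)
  have hL : Real.log ((q * t : ℕ) : ℝ) = Real.log (q * t) := by push_cast; rfl
  have hlogt : Real.log t ≤ Real.log (q * t) := by
    apply Real.log_le_log ht0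
    have : (1 : ℝ) ≤ q := by exact_mod_cast hq
    nlinarith
  have hlog0 : 0 ≤ Real.log (q * t) := by
    rw [← hL]
    exact Real.log_nonneg (by exact_mod_cast hN)
  have hlt : ∑ a ∈ Icc 1 (q * t), ∑ a' ∈ Icc 1 (q * t),
      (if a < a' ∧ a ≡ a' [MOD q] then 1 / ((a : ℝ) * a') else 0) ≤
      (1 + Real.log (q * t)) ^ 2 / q := by
    have e1 : ∑ a ∈ Icc 1 (q * t), ∑ a' ∈ Icc 1 (q * t),
      (if a < a' ∧ a ≡ a' [MOD q] then 1 / ((a : ℝ) * a') else 0) ≤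
        ∑ a ∈ Icc 1 (q * t), (1 / (a : ℝ)) * ((1 + Real.log (q * t)) / q) := by
      refine sum_le_sum fun a _ => ?_
      rw [← sum_filter]
      have e2 : ∑ a' ∈ (Icc 1 (q * t)).filter (fun a' => a < a' ∧ a ≡ a' [MOD q]),
          1 / ((a : ℝ) * a') = (1 / (a : ℝ)) *
          ∑ a' ∈ (Icc 1 (q * t)).filter (fun a' => a < a' ∧ a ≡ a' [MOD q]), 1 / (a' : ℝ) := by
        rw [mul_sum]
        refine sum_congr rfl fun a' _ => ?_
        rw [one_div_mul_one_div]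
      rw [e2]
      refine mul_le_mul_of_nonneg_left (le_trans (inner hHar q t a hq) ?_) (by positivity)
      exact div_le_div_of_nonneg_right (by linarith) hq0.le
    refine le_trans e1 ?_
    rw [← sum_mul, pow_two, mul_div_assoc]
    refine mul_le_mul_of_nonneg_right ?_ (by positivity)
    rw [← hL]
    exact hHN
  have hgt : ∑ a ∈ Icc 1 (q * t), ∑ a' ∈ Icc 1 (q * t),
      (if a' < a ∧ a ≡ a' [MOD q] then 1 / ((a : ℝ) * a') else 0) ≤
      (1 + Real.log (q * t)) ^ 2 / q := by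
    rw [sum_comm]
    refine le_trans (le_of_eq ?_) hlt
    refine sum_congr rfl fun a _ => sum_congr rfl fun a' _ => ?_
    have : (a < a' ∧ a' ≡ a [MOD q]) ↔ (a < a' ∧ a ≡ a' [MOD q]) :=
      ⟨fun o => ⟨o.1, o.2.symm⟩, fun o => ⟨o.1, o.2.symm⟩⟩
    by_cases hc : a < a' ∧ a ≡ a' [MOD q]
    · rw [if_pos hc, if_pos (this.2 hc), mul_comm]
    · rw [if_neg hc, if_neg (fun o => hc (this.1 o))]
  have hdg : ∑ a ∈ Icc 1 (q * t), ∑ a' ∈ Icc 1 (q * t),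
      (if a' = a then 1 / ((a : ℝ) * a') else 0) ≤ 2 := by
    have e1 : ∑ a ∈ Icc 1 (q * t), ∑ a' ∈ Icc 1 (q * t),
      (if a' = a then 1 / ((a : ℝ) * a') else 0) = ∑ a ∈ Icc 1 (q * t), 1 / ((a : ℝ) * a) := by
      refine sum_congr rfl fun a ha => ?_
      rw [sum_ite_eq' (Icc 1 (q * t)) a (fun a' => 1 / ((a : ℝ) * a')), if_pos ha]
    rw [e1]
    have := sq_sum (q * t) hN
    have h3 : (0 : ℝ) ≤ 1 / ((q * t : ℕ) : ℝ) := by positivity
    linarith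
  have h3 : ∑ a ∈ Icc 1 (q * t), ∑ a' ∈ Icc 1 (q * t),
      (if a ≡ a' [MOD q] then 1 / ((a : ℝ) * a') else 0) ≤
      2 + 2 * ((1 + Real.log (q * t)) ^ 2 / q) := by
    have e1 : ∑ a ∈ Icc 1 (q * t), ∑ a' ∈ Icc 1 (q * t),
      (if a ≡ a' [MOD q] then 1 / ((a : ℝ) * a') else 0) =
      ∑ a ∈ Icc 1 (q * t), ∑ a' ∈ Icc 1 (q * t),
        (if a' = a then 1 / ((a : ℝ) * a') else 0) +
      (∑ a ∈ Icc 1 (q * t), ∑ a' ∈ Icc 1 (q * t),
        (if a < a' ∧ a ≡ a' [MOD q] then 1 / ((a : ℝ) * a') else 0) +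
      ∑ a ∈ Icc 1 (q * t), ∑ a' ∈ Icc 1 (q * t),
        (if a' < a ∧ a ≡ a' [MOD q] then 1 / ((a : ℝ) * a') else 0)) := by
      rw [← sum_add_distrib, ← sum_add_distrib]
      refine sum_congr rfl fun a _ => ?_
      rw [← sum_add_distrib, ← sum_add_distrib]
      refine sum_congr rfl fun a' _ => ?_
      rcases lt_trichotomy a a' with hlt' | heq | hgt'
      · by_cases hm : a ≡ a' [MOD q]
        · rw [if_pos hm, if_neg (by omega), if_pos ⟨hlt', hm⟩, if_neg (by omega)]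
          ring
        · rw [if_neg hm, if_neg (by omega), if_neg (fun o => hm o.2), if_neg (by omega)]
          ring
      · subst heq
        rw [if_pos (Nat.ModEq.refl a), if_pos rfl, if_neg (by omega)]
        ring
      · by_cases hm : a ≡ a' [MOD q]
        · rw [if_pos hm, if_neg (by omega), if_neg (by omega), if_pos ⟨hgt', hm⟩]
          ring
        · rw [if_neg hm, if_neg (by omega), if_neg (by omega), if_neg (fun o => hm o.2)]
          ring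
    rw [e1]
    linarith
  calc Gz Z q t t ≤ (e1 / e0) * (2 + 2 * ((1 + Real.log (q * t)) ^ 2 / q)) :=
        le_trans h1 (mul_le_mul_of_nonneg_left (h2.trans h3) hl0)
    _ = _ := by ring

theorem prf (h1 : StRgh) (h2 : StCt2) (hHar : StHar) (hGp : StGp2) : StFq2 := by
  intro W w0 ω e0 e1 Z q t hS hW hq hodd ht hcop hW1 hω hqt
  have he0 := hW.he0
  have hη : 0 < e1 - e0 := sub_pos.mpr hW.he01
  have hω0 := hW.ho0
  have hqr : (0 : ℝ) < q := by exact_mod_cast hq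
  have hG := gdb hGp hHar W w0 ω e0 e1 Z q t hS hW hq hodd ht hcop
  refine le_trans ?_ (add_le_add_right hG _)
  unfold Fz
  have h3 : ∑ s ∈ Z q t, ∑ s' ∈ Z q t, cor q q s s' ≤
      ∑ s ∈ Z q t, ∑ s' ∈ Z q t,
        (1 / (s.1 : ℝ) * (1 / (s'.1 : ℝ)) +
        ∑ d ∈ Ioc W ⌊ω * q⌋₊, (if d ∣ s.1 ∧ (d ∣ s'.1 ∧ s'.2 ≡ s.2 [MOD d]) then
          (d : ℝ) / (e0 ^ 2 * q ^ 2 * t * t) else 0) +
        (if s'.2 = s.2 then (Nat.gcd s.1 s'.1 : ℝ) / ((s.1 : ℝ) * s'.1) else 0)) :=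
    Finset.sum_le_sum fun s hs => Finset.sum_le_sum fun s' hs' =>
      ptw h1 W w0 ω e0 e1 q t t hW hq ht ht s s' (hS q t hs) (hS q t hs')
  refine h3.trans ?_
  simp only [Finset.sum_add_distrib]
  have h4 : ∑ s ∈ Z q t, ∑ s' ∈ Z q t,
      1 / (s.1 : ℝ) * (1 / (s'.1 : ℝ)) = Ez Z q t ^ 2 := by
    unfold Ez
    rw [pow_two, Finset.sum_mul_sum]
  have h5 : ∑ s ∈ Z q t, ∑ s' ∈ Z q t,
      (if s'.2 = s.2 then (Nat.gcd s.1 s'.1 : ℝ) / ((s.1 : ℝ) * s'.1) else 0) =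
      Gz Z q t t := by
    unfold Gz
    apply Finset.sum_congr rfl
    intro s _
    rw [Finset.sum_filter]
  have h6 : ∑ s ∈ Z q t, ∑ s' ∈ Z q t,
      ∑ d ∈ Ioc W ⌊ω * q⌋₊, (if d ∣ s.1 ∧ (d ∣ s'.1 ∧ s'.2 ≡ s.2 [MOD d]) then
          (d : ℝ) / (e0 ^ 2 * q ^ 2 * t * t) else 0) =
      ∑ d ∈ Ioc W ⌊ω * q⌋₊, ∑ s ∈ Z q t, ∑ s' ∈ Z q t,
        (if d ∣ s.1 ∧ (d ∣ s'.1 ∧ s'.2 ≡ s.2 [MOD d]) then
          (d : ℝ) / (e0 ^ 2 * q ^ 2 * t * t) else 0) := by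
    exact (Finset.sum_congr rfl fun s _ => Finset.sum_comm).trans Finset.sum_comm
  have h7 : ∑ d ∈ Ioc W ⌊ω * q⌋₊, ∑ s ∈ Z q t, ∑ s' ∈ Z q t,
        (if d ∣ s.1 ∧ (d ∣ s'.1 ∧ s'.2 ≡ s.2 [MOD d]) then
          (d : ℝ) / (e0 ^ 2 * q ^ 2 * t * t) else 0) ≤
      16 * ω ^ 2 * (e1 - e0) ^ 2 / e0 ^ 2 / W := by
    have h8 : ∀ d ∈ Ioc W ⌊ω * q⌋₊, ∑ s ∈ Z q t, ∑ s' ∈ Z q t,
        (if d ∣ s.1 ∧ (d ∣ s'.1 ∧ s'.2 ≡ s.2 [MOD d]) then
          (d : ℝ) / (e0 ^ 2 * q ^ 2 * t * t) else 0) ≤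
        16 * ω ^ 2 * (e1 - e0) ^ 2 / e0 ^ 2 * ((d : ℝ) ^ 2)⁻¹ := by
      intro d hd
      rw [Finset.mem_Ioc] at hd
      have h9 : (d : ℝ) ≤ ω * q :=
        (Nat.le_floor_iff (by positivity)).mp hd.2
      have hnn : ∀ s s' : ℕ × ℕ, (0 : ℝ) ≤ (if d ∣ s.1 ∧ (d ∣ s'.1 ∧ s'.2 ≡ s.2 [MOD d]) then
          (d : ℝ) / (e0 ^ 2 * q ^ 2 * t * t) else 0) := by
        intro s s'
        split_ifs
        · positivity
        · exact le_rfl
      refine le_trans ?_ (one h2 W w0 ω e0 e1 q t t d hW hq hodd ht ht hω hqt hqt (by omega) h9)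
      refine (Finset.sum_le_sum fun s _ =>
        Finset.sum_le_sum_of_subset_of_nonneg (hS q t) fun s' _ _ => hnn s s').trans ?_
      exact Finset.sum_le_sum_of_subset_of_nonneg (hS q t) fun s _ _ =>
        Finset.sum_nonneg fun s' _ => hnn s s'
    refine (Finset.sum_le_sum h8).trans ?_
    rw [← Finset.mul_sum, div_eq_mul_inv (16 * ω ^ 2 * (e1 - e0) ^ 2 / e0 ^ 2) (W : ℝ)]
    apply mul_le_mul_of_nonneg_left _ (by positivity)
    rcases le_or_gt W ⌊ω * q⌋₊ with hle | hgt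
    · have h10 := sum_Ioc_inv_sq_le_sub (α := ℝ) (k := W) (n := ⌊ω * q⌋₊) (by omega) hle
      have h11 : (0 : ℝ) ≤ ((⌊ω * q⌋₊ : ℕ) : ℝ)⁻¹ := by positivity
      linarith
    · rw [Finset.Ioc_eq_empty (by omega), Finset.sum_empty]
      positivity
  rw [h4, h5]
  linarith [h6.le.trans h7]

end Pool.Agent.Work.MP_a8fbd7_nt.PAR.RP.I_Fq2
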