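import Pool.Agent.Work.MP_a8fbd7_nt.PAR.RP.StmtsS

/-!
MP_a8fbd7_nt, block RP, item Ls (helper24): local solvability
-/

set_option autoImplicit false

open Finset

noncomputable section

namespace Pool.Agent.Work.MP_a8fbd7_nt.PAR.RP.I_Ls

open Pool.Agent.Work.MP_a8fbd7_nt.PAR.RP Pool.Agent.Work.MP_a8fbd7_nt.PAR.LC Pool.Agent.Work.MP_a8fbd7_nt.PAR.EF

theorem loc2 : ∀ G I Q T : ZMod 2, G ≠ 0 → G + 2 * I ≠ 0 → Q ≠ 0 → T ≠ 0 →
    ∃ Z R : ZMod 2, Z ≠ 0 ∧ Q + R ≠ 0 ∧ T * (Q + R) - 2 * Z ≠ 0 ∧ Z * (G + 2 * I) - T * I * R ≠ 0 := by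
  decide

theorem loc3 : ∀ G I Q T : ZMod 3, G ≠ 0 → G + 2 * I ≠ 0 → Q ≠ 0 → T ≠ 0 →
    ∃ Z R : ZMod 3, Z ≠ 0 ∧ Q + R ≠ 0 ∧ T * (Q + R) - 2 * Z ≠ 0 ∧ Z * (G + 2 * I) - T * I * R ≠ 0 := by
  decide

theorem loc (p : ℕ) (hp : p.Prime) (G I Q T : ZMod p) (hG : G ≠ 0) (hGI : G + 2 * I ≠ 0)
    (hQ : Q ≠ 0) (hT : T ≠ 0) :
    ∃ Z R : ZMod p, Z ≠ 0 ∧ Q + R ≠ 0 ∧ T * (Q + R) - 2 * Z ≠ 0 ∧ Z * (G + 2 * I) - T * I * R ≠ 0 := by
  classical
  by_cases h2 : p = 2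
  · subst h2
    exact loc2 G I Q T hG hGI hQ hT
  by_cases h3 : p = 3
  · subst h3
    exact loc3 G I Q T hG hGI hQ hT
  have h4 : p ≠ 4 := by
    rintro rfl
    exact absurd hp (by decide)
  have h5 : 5 ≤ p := by
    have := hp.two_le
    omega
  have : Fact p.Prime := ⟨hp⟩
  have h20 : (2 : ZMod p) ≠ 0 := by
    have h6 : ((2 : ℕ) : ZMod p) ≠ 0 := by
      rw [Ne, ZMod.natCast_eq_zero_iff]
      intro h
      have := Nat.le_of_dvd (by norm_num) h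
      omega
    exact_mod_cast h6
  obtain ⟨Z, hZ⟩ : ∃ Z : ZMod p, Z ∉ ({0, T / 2, T * I * (1 - Q) / (G + 2 * I)} : Finset (ZMod p)) := by
    by_contra hc
    push Not at hc
    have h7 : (Finset.univ : Finset (ZMod p)) ⊆ {0, T / 2, T * I * (1 - Q) / (G + 2 * I)} :=
      fun Z _ => hc Z
    have h8 := Finset.card_le_card h7
    rw [Finset.card_univ, ZMod.card] at h8
    have h9 := h8.trans (Finset.card_le_three)
    omega
  simp only [Finset.mem_insert, Finset.mem_singleton, not_or] at hZ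
  obtain ⟨hZ0, hZ1, hZ2⟩ := hZ
  have hA : Q + (1 - Q) = 1 := by ring
  refine ⟨Z, 1 - Q, hZ0, ?_, ?_, ?_⟩
  · rw [hA]
    exact one_ne_zero
  · rw [hA, mul_one]
    intro h
    apply hZ1
    rw [eq_div_iff h20]
    linear_combination -h
  · intro h
    apply hZ2
    rw [eq_div_iff hGI]
    linear_combination h

/-- coprimality from the primes -/
theorem cop (a P : ℕ) (h : ∀ p : ℕ, p.Prime → p ∣ P → ¬ p ∣ a) : a.Coprime P := by
  by_contra hc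
  obtain ⟨p, hp, h1, h2⟩ := Nat.Prime.not_coprime_iff_dvd.1 hc
  exact h p hp h2 h1

theorem icop (a : ℤ) (P : ℕ) (h : ∀ p : ℕ, p.Prime → p ∣ P → ¬ (p : ℤ) ∣ a) : IsCoprime a (P : ℤ) := by
  rw [Int.isCoprime_iff_gcd_eq_one]
  have h1 : a.natAbs.Coprime P := cop _ _ fun p hp hd hc => h p hp hd (Int.natCast_dvd.2 hc)
  exact h1

theorem nz {p a P : ℕ} (hp : p.Prime) (hd : p ∣ P) (h : a.Coprime P) : (a : ZMod p) ≠ 0 := by
  rw [Ne, ZMod.natCast_eq_zero_iff]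
  intro hc
  have := Nat.dvd_gcd hc hd
  rw [h] at this
  exact hp.one_lt.ne' (Nat.dvd_one.1 this)

theorem prf : StLs := by
  intro P g0 i q t hP hg hgi hq ht
  have hloc : ∀ p : ℕ, ∃ s : ℕ × ℕ, p.Prime → p ∣ P → (s.1 : ZMod p) ≠ 0 ∧ (q : ZMod p) + s.2 ≠ 0 ∧
      (t : ZMod p) * (q + s.2) - 2 * s.1 ≠ 0 ∧ (s.1 : ZMod p) * (g0 + 2 * i) - t * i * s.2 ≠ 0 := by
    intro p
    by_cases hp : p.Prime ∧ p ∣ P
    · obtain ⟨hp, hd⟩ := hp
      have : NeZero p := ⟨hp.ne_zero⟩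
      have hgi' : (g0 : ZMod p) + 2 * i ≠ 0 := by
        have := nz hp hd hgi
        push_cast at this
        exact this
      obtain ⟨Z, R, h1, h2, h3, h4⟩ := loc p hp g0 i q t (nz hp hd hg) hgi' (nz hp hd hq) (nz hp hd ht)
      refine ⟨(Z.val, R.val), fun _ _ => ?_⟩
      simp only [ZMod.natCast_zmod_val]
      exact ⟨h1, h2, h3, h4⟩
    · exact ⟨(0, 0), fun h1 h2 => absurd ⟨h1, h2⟩ hp⟩
  choose f hf using hloc
  have hmem : ∀ p : ℕ, p.Prime → p ∣ P → p ∈ P.primeFactors := fun p hp hd =>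
    Nat.mem_primeFactors.2 ⟨hp, hd, by omega⟩
  have hs : ∀ p ∈ P.primeFactors, (fun p : ℕ => p) p ≠ 0 := fun p hp =>
    (Nat.prime_of_mem_primeFactors hp).ne_zero
  have hpp : Set.Pairwise (↑P.primeFactors) (Function.onFun Nat.Coprime fun p : ℕ => p) :=
    fun p hp p' hp' hne => (Nat.coprime_primes (Nat.prime_of_mem_primeFactors hp)
      (Nat.prime_of_mem_primeFactors hp')).2 hne
  obtain ⟨z, hz⟩ := Nat.chineseRemainderOfFinset (fun p => (f p).1) (fun p => p) P.primeFactors hs hpp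
  obtain ⟨ρ, hρ⟩ := Nat.chineseRemainderOfFinset (fun p => (f p).2) (fun p => p) P.primeFactors hs hpp
  have hz' : ∀ p : ℕ, p.Prime → p ∣ P → (z : ZMod p) = (f p).1 := fun p hp hd =>
    (ZMod.natCast_eq_natCast_iff _ _ _).2 (hz p (hmem p hp hd))
  have hρ' : ∀ p : ℕ, p.Prime → p ∣ P → (ρ : ZMod p) = (f p).2 := fun p hp hd =>
    (ZMod.natCast_eq_natCast_iff _ _ _).2 (hρ p (hmem p hp hd))
  refine ⟨z, ρ, ?_, ?_, ?_, ?_⟩
  · refine cop _ _ fun p hp hd hc => ?_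
    have h1 := (hf p hp hd).1
    rw [← hz' p hp hd] at h1
    exact h1 ((ZMod.natCast_eq_zero_iff _ _).2 hc)
  · refine cop _ _ fun p hp hd hc => ?_
    have h1 := (hf p hp hd).2.1
    rw [← hρ' p hp hd] at h1
    apply h1
    have h2 := (ZMod.natCast_eq_zero_iff _ _).2 hc
    push_cast at h2
    rw [mul_one] at h2
    exact h2
  · refine icop _ _ fun p hp hd hc => ?_
    have h1 := (hf p hp hd).2.2.1
    rw [← hρ' p hp hd, ← hz' p hp hd] at h1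
    apply h1
    have h2 := (ZMod.intCast_zmod_eq_zero_iff_dvd _ p).2 hc
    push_cast at h2
    rw [mul_one] at h2
    exact h2
  · refine icop _ _ fun p hp hd hc => ?_
    have h1 := (hf p hp hd).2.2.2
    rw [← hρ' p hp hd, ← hz' p hp hd] at h1
    apply h1
    have h2 := (ZMod.intCast_zmod_eq_zero_iff_dvd _ p).2 hc
    push_cast at h2
    exact h2

end Pool.Agent.Work.MP_a8fbd7_nt.PAR.RP.I_Ls
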