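import Pool.Agent.Work.MP_a8fbd7_nt.PAR.RP.StmtsS

set_option autoImplicit false

/-! Item Rh2 of the block RP: the integers of a residue class prime to `q` in a window. -/

open Finset

namespace Pool.Agent.Work.MP_a8fbd7_nt.PAR.RP.I_Rh2

open Pool.Agent.Work.MP_a8fbd7_nt.PAR.RP
open Pool.Agent.Work.MP_a8fbd7_nt.PAR.LC
open Pool.Agent.Work.MP_a8fbd7_nt.PAR.EF

theorem prf (hCap : StCap) : StRh2 := by
  classical
  intro w0 ω q K0 m P ρ0 hw0 hw2 hω hω2 hq hK hm hP hqP hKm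
  have q0 : (0 : ℝ) < q := by exact_mod_cast (by omega : 0 < q)
  have P0 : (0 : ℝ) < P := by exact_mod_cast (by omega : 0 < P)
  have P1 : (1 : ℝ) ≤ P := by exact_mod_cast hP
  have m0 : (0 : ℝ) ≤ m := Nat.cast_nonneg m
  have hωK : 4 * ((m : ℝ) + 1) * P ≤ K0 * ω := by
    rw [div_le_iff₀ hω] at hKm
    exact hKm
  have K0pos : (0 : ℝ) < K0 := by
    by_contra hneg
    push Not at hneg
    have h1 : 0 < 4 * ((m : ℝ) + 1) * P := by positivity
    nlinarith
  obtain ⟨p0, hp0, hp0q⟩ := Nat.exists_prime_and_dvd (show q ≠ 1 by omega)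
  have hp0mem : p0 ∈ q.primeFactors := Nat.mem_primeFactors.2 ⟨hp0, hp0q, by omega⟩
  have hK0q : (K0 : ℝ) ≤ q := by
    have h1 : K0 < p0 := hK p0 hp0mem
    have h2 : p0 ≤ q := Nat.le_of_dvd (by omega) hp0q
    exact_mod_cast (by omega : K0 ≤ q)
  have hx0 : 0 ≤ w0 * q := by positivity
  have hxy : w0 * q ≤ (w0 + ω) * q := mul_le_mul_of_nonneg_right (by linarith) q0.le
  have hyN : (w0 + ω) * q ≤ ((3 * q : ℕ) : ℝ) := by
    push_cast
    nlinarith
  have hsub : ∀ c : ℝ, ((w0 + ω) * q - w0 * q) / c = ω * q / c := by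
    intro c
    congr 1
    ring
  have hall := (hCap P ρ0 (w0 * q) ((w0 + ω) * q) (3 * q) hP hx0 hxy hyN).2
  rw [hsub] at hall
  set G := (range (3 * q + 1)).filter
    (fun r : ℕ => w0 * q ≤ (r : ℝ) ∧ (r : ℝ) ≤ (w0 + ω) * q ∧ r.Coprime q ∧ r ≡ ρ0 [MOD P]) with hG
  set Bd := fun p : ℕ => (range (3 * q + 1)).filter
    (fun n : ℕ => w0 * q ≤ (n : ℝ) ∧ (n : ℝ) ≤ (w0 + ω) * q ∧ n ≡ 0 [MOD p] ∧ n ≡ ρ0 [MOD P]) with hBd
  have hcov : (range (3 * q + 1)).filter
      (fun n : ℕ => w0 * q ≤ (n : ℝ) ∧ (n : ℝ) ≤ (w0 + ω) * q ∧ n ≡ ρ0 [MOD P]) ⊆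
      G ∪ q.primeFactors.biUnion Bd := by
    intro n hn
    obtain ⟨h1, h2, h3, h4⟩ := mem_filter.1 hn
    rw [mem_union]
    by_cases hc : n.Coprime q
    · left
      exact mem_filter.2 ⟨h1, h2, h3, hc, h4⟩
    · right
      obtain ⟨p, hp, hpn, hpq⟩ := Nat.Prime.not_coprime_iff_dvd.1 hc
      rw [mem_biUnion]
      exact ⟨p, Nat.mem_primeFactors.2 ⟨hp, hpq, by omega⟩,
        mem_filter.2 ⟨h1, h2, h3, (Nat.modEq_zero_iff_dvd).2 hpn, h4⟩⟩
  have hcard := (card_le_card hcov).trans (card_union_le _ _)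
  have hbad : ((q.primeFactors.biUnion Bd).card : ℝ) ≤ m * (ω * q / (K0 * P) + 1) := by
    calc ((q.primeFactors.biUnion Bd).card : ℝ) ≤ ((∑ p ∈ q.primeFactors, (Bd p).card : ℕ) : ℝ) := by
          exact_mod_cast card_biUnion_le
      _ = ∑ p ∈ q.primeFactors, ((Bd p).card : ℝ) := by push_cast; rfl
      _ ≤ ∑ p ∈ q.primeFactors, (ω * q / (K0 * P) + 1) := by
          refine sum_le_sum fun p hp => ?_
          have hpp := (Nat.mem_primeFactors.1 hp).1
          have hpq := (Nat.mem_primeFactors.1 hp).2.1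
          have hco : p.Coprime P := Nat.Coprime.coprime_dvd_left hpq hqP
          obtain ⟨a, ha1, ha2⟩ := Nat.chineseRemainder hco 0 ρ0
          have hsubset : Bd p ⊆ (range (3 * q + 1)).filter
              (fun n : ℕ => w0 * q ≤ (n : ℝ) ∧ (n : ℝ) ≤ (w0 + ω) * q ∧ n ≡ a [MOD (p * P)]) := by
            intro n hn
            obtain ⟨h1, h2, h3, h4, h5⟩ := mem_filter.1 hn
            exact mem_filter.2 ⟨h1, h2, h3,
              (Nat.modEq_and_modEq_iff_modEq_mul hco).1 ⟨h4.trans ha1.symm, h5.trans ha2.symm⟩⟩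
          have h0 : ((Bd p).card : ℝ) ≤ (((range (3 * q + 1)).filter
              (fun n : ℕ => w0 * q ≤ (n : ℝ) ∧ (n : ℝ) ≤ (w0 + ω) * q ∧
                n ≡ a [MOD (p * P)])).card : ℝ) := by
            exact_mod_cast card_le_card hsubset
          have h1 := (hCap (p * P) a (w0 * q) ((w0 + ω) * q) (3 * q)
            (Nat.mul_pos hpp.pos hP) hx0 hxy hyN).1
          rw [hsub] at h1
          refine (h0.trans h1).trans ?_
          have h2 : (K0 : ℝ) ≤ p := by exact_mod_cast (hK p hp).le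
          have h3 : ω * q / ((p * P : ℕ) : ℝ) ≤ ω * q / (K0 * P) := by
            push_cast
            exact div_le_div_of_nonneg_left (by positivity) (by positivity)
              (mul_le_mul_of_nonneg_right h2 P0.le)
          linarith
      _ = q.primeFactors.card * (ω * q / (K0 * P) + 1) := by rw [sum_const, nsmul_eq_mul]
      _ ≤ m * (ω * q / (K0 * P) + 1) := by
          refine mul_le_mul_of_nonneg_right (by exact_mod_cast hm) ?_
          positivity
  have hcard' : (((range (3 * q + 1)).filter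
      (fun n : ℕ => w0 * q ≤ (n : ℝ) ∧ (n : ℝ) ≤ (w0 + ω) * q ∧ n ≡ ρ0 [MOD P])).card : ℝ) ≤
      (G.card : ℝ) + ((q.primeFactors.biUnion Bd).card : ℝ) := by exact_mod_cast hcard
  have hX : 0 ≤ ω * q / P := by positivity
  have h1 : (m : ℝ) * (ω * q / (K0 * P)) ≤ ω * q / P / 8 := by
    have h2 : (m : ℝ) / K0 ≤ 1 / 8 := by
      rw [div_le_iff₀ K0pos]
      nlinarith [mul_le_mul_of_nonneg_left P1 (by positivity : (0 : ℝ) ≤ 4 * ((m : ℝ) + 1))]
    calc (m : ℝ) * (ω * q / (K0 * P)) = (m / K0) * (ω * q / P) := by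
          field_simp
      _ ≤ 1 / 8 * (ω * q / P) := mul_le_mul_of_nonneg_right h2 hX
      _ = ω * q / P / 8 := by ring
  have h2 : (m : ℝ) + 1 ≤ ω * q / P / 4 := by
    have h3 : (K0 : ℝ) * ω ≤ q * ω := mul_le_mul_of_nonneg_right hK0q hω.le
    rw [div_div, le_div_iff₀ (by positivity)]
    linarith
  have h3 : (m : ℝ) * (ω * q / (K0 * P) + 1) = m * (ω * q / (K0 * P)) + m := by ring
  have h5 : ω * q / (2 * P) = ω * q / P / 2 := by
    rw [div_div, mul_comm 2 (P : ℝ)]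
  rw [h5]
  linarith

end Pool.Agent.Work.MP_a8fbd7_nt.PAR.RP.I_Rh2
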