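import Pool.Agent.Work.MP_a8fbd7_nt.PAR.RP.StmtsS
import Pool.Agent.Work.MP_a8fbd7_nt.PAR.EF.I_UmX

set_option autoImplicit false

/-!
MP_a8fbd7_nt, block RP, item Um2: the unlinked integers of a cell, numbers.
-/

open Finset

noncomputable section

namespace Pool.Agent.Work.MP_a8fbd7_nt.PAR.RP.I_Um2

open Pool.Agent.Work.MP_a8fbd7_nt.PAR.LC Pool.Agent.Work.MP_a8fbd7_nt.PAR.EF
open Pool.Agent.Work.MP_a8fbd7_nt.PAR.RP
open Pool.Agent.Work.MP_a8fbd7_nt.PAR.EF.I_UmX (nums exps sumt)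

/-- the windows -/
theorem wn2 {c r : ℝ} {B k : ℕ} (hc0 : 0 < c) (hc1 : c ≤ 1 / 10) (hr : 200 ≤ r) (hk : k < B) :
    Wn (((k : ℝ) + 1) / B + 17 / 20 * c / r) (c / (25 * r)) (c / (5 * r)) (21 * c / (100 * r)) := by
  have hr0 : 0 < r := by linarith
  have hB0 : (0 : ℝ) < B := by
    have : 0 < B := by omega
    exact_mod_cast this
  have hkB : (k : ℝ) + 1 ≤ B := by exact_mod_cast hk
  have hcr : 0 < c / r := by positivity
  have hcr1 : c / r ≤ 1 / 2 := by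
    rw [div_le_iff₀ hr0]
    linarith
  have e1 : 17 / 20 * c / r = 17 / 20 * (c / r) := by ring
  have e2 : c / (25 * r) = 1 / 25 * (c / r) := by field_simp
  have e3 : c / (5 * r) = 1 / 5 * (c / r) := by field_simp
  have e4 : 21 * c / (100 * r) = 21 / 100 * (c / r) := by field_simp
  have h1 : ((k : ℝ) + 1) / B ≤ 1 := by
    rw [div_le_one hB0]
    exact hkB
  have h2 : 0 ≤ ((k : ℝ) + 1) / B := by positivity
  rw [e1, e2, e3, e4]
  constructor <;> linarith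

/-- a choice of the classes -/
theorem excl (hLs : StLs) {P g0 i : ℕ} (hP : 1 ≤ P) (h1 : g0.Coprime P)
    (h2 : (g0 + 2 * i).Coprime P) : ∃ cl : ℕ → ℕ → ℕ × ℕ, ClOK P g0 i cl := by
  classical
  have h : ∀ q t : ℕ, ∃ s : ℕ × ℕ, q.Coprime P → t.Coprime P → Un P g0 1 i q t s.1 s.2 := by
    intro q t
    by_cases hq : q.Coprime P
    · by_cases ht : t.Coprime P
      · obtain ⟨z, ρ, hz⟩ := hLs P g0 i q t hP h1 h2 hq ht
        exact ⟨(z, ρ), fun _ _ => hz⟩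
      · exact ⟨(0, 0), fun _ h => absurd h ht⟩
    · exact ⟨(0, 0), fun h _ => absurd h hq⟩
  choose cl hcl using h
  exact ⟨cl, fun q t hq ht => hcl q t hq ht⟩

theorem prf (hVa : StVa2) (hBn : StBn2) (hUn : StUn2) (hLs : StLs) : StUm2 := by
  obtain ⟨C, hC1, hVa⟩ := hVa
  refine ⟨C, hC1, ?_⟩
  intro n c r P J B W K0 K1 K2 K3 m k g0 i hR hr1 hr2 hk hg0 hg1
  have hP := hR.pa
  have hP1 := hR.P0
  have hJ1 : 1 ≤ J := by
    have h := hP.J1
    have h1 : 0 < 8 / c ^ 2 := by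
      have := hP.c0
      positivity
    have h2 : (0 : ℝ) < J := by linarith
    exact_mod_cast h2
  have hk' : k ≤ B / J := by
    refine hk.trans (Nat.div_le_div_left ?_ (by omega))
    nlinarith
  obtain ⟨cl, hcl⟩ := excl hLs hP1 hg0 hg1
  obtain ⟨hJ, hr, hrn, hB1, hBn', hkB, hK1, hK12⟩ := nums hP hr1 hr2 hk'
  have hc0 := hP.c0
  have hc1 := hP.c1
  have hn := hP.hn
  have hn0 : 0 < n := by linarith
  have hr0 : 0 < r := by linarith
  have hB0 : (0 : ℝ) < B := by exact_mod_cast hB1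
  have hK0 : 1 ≤ K0 := hP.W1.trans hP.WK
  have hrn20 : 20 ≤ r * n := by nlinarith
  have hu1 : r * n ≤ (⌈r * n⌉₊ : ℝ) := Nat.le_ceil _
  have hu2 : (⌈r * n⌉₊ : ℝ) < r * n + 1 := Nat.ceil_lt_add_one (by positivity)
  have hv1 : (⌊21 / 20 * r * n⌋₊ : ℝ) ≤ 21 / 20 * r * n := Nat.floor_le (by positivity)
  have huv : ⌈r * n⌉₊ ≤ ⌊21 / 20 * r * n⌋₊ := by
    apply Nat.le_floor
    nlinarith
  have huvR : (⌈r * n⌉₊ : ℝ) ≤ (⌊21 / 20 * r * n⌋₊ : ℝ) := by exact_mod_cast huv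
  have hneg : n ^ (-(1 / 50) : ℝ) ≤ r := by
    have h1 : n ^ (-(1 / 50) : ℝ) ≤ n ^ (0 : ℝ) :=
      Real.rpow_le_rpow_of_exponent_le hn (by norm_num)
    rw [Real.rpow_zero] at h1
    linarith
  have hPR : (1 : ℝ) ≤ P := by exact_mod_cast hP1
  have hP2 : (1 : ℝ) ≤ (P : ℝ) ^ 2 := one_le_pow₀ hPR
  refine (hUn n c r cl P J B W K0 K1 K2 K3 m k g0 i ⌈r * n⌉₊ ⌊21 / 20 * r * n⌋₊ hR hr1 hr2 hk
    hcl).trans ?_
  set D : ℝ := Vm c r W K0 K1 K3 m with hD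
  have hK1R : (1 : ℝ) ≤ K1 := by exact_mod_cast hK1
  have hD0 : 0 ≤ D := by
    rw [hD]
    unfold Vm
    have h1 : 0 ≤ Real.log (3 * (K1 : ℝ) ^ (2 * m)) := by
      apply Real.log_nonneg
      have : (1 : ℝ) ≤ (K1 : ℝ) ^ (2 * m) := one_le_pow₀ hK1R
      linarith
    positivity
  have hlen : (⌊21 / 20 * r * n⌋₊ : ℝ) - (⌈r * n⌉₊ : ℝ) ≤ 95 * J * n / c := by
    have h1 : (⌊21 / 20 * r * n⌋₊ : ℝ) - (⌈r * n⌉₊ : ℝ) ≤ 1 / 20 * (r * n) := by
      nlinarith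
    have h2 : r * n ≤ 1900 * J / c * n := mul_le_mul_of_nonneg_right hr2 hn0.le
    have e : 95 * (J : ℝ) * n / c = 1 / 20 * (1900 * J / c * n) := by ring
    rw [e]
    linarith
  have hK3 : (K3 : ℝ) ≤ n ^ (1 / 200 : ℝ) := by
    have h1 : (1 : ℝ) ≤ (K1 : ℝ) ^ m := one_le_pow₀ hK1R
    have h2 : (0 : ℝ) ≤ K3 := Nat.cast_nonneg _
    have h3 := hP.s1
    nlinarith
  have hE0 : 0 ≤ C * n ^ (99 / 100 : ℝ) := by positivity
  have hSb : Sb W (((k : ℝ) + 1) / B + 17 / 20 * c / r) (c / (25 * r)) (c / (5 * r))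
      (21 * c / (100 * r))
      (Zc W P (((k : ℝ) + 1) / B + 17 / 20 * c / r) (c / (25 * r)) (c / (5 * r))
        (21 * c / (100 * r)) cl) := by
    intro q t
    exact Finset.filter_subset _ _
  have key := sumt (K2 := K2) (K3 := K3) (95 * J * n / c * D) B (C * n ^ (99 / 100 : ℝ))
    (n ^ (1 / 200 : ℝ))
    (fun t => ∑ g ∈ (c3 n ⌈r * n⌉₊ ⌊21 / 20 * r * n⌋₊ B k P g0).filter (fun g => t ∣ g + 2 * i),
      (Ntz (Zc W P (((k : ℝ) + 1) / B + 17 / 20 * c / r) (c / (25 * r)) (c / (5 * r))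
          (21 * c / (100 * r)) cl) K0 K1 m t g ⌊n ^ 2 / (g : ℝ)⌋₊ -
        Atz (Zc W P (((k : ℝ) + 1) / B + 17 / 20 * c / r) (c / (25 * r)) (c / (5 * r))
          (21 * c / (100 * r)) cl) K0 K1 m t g) ^ 2)
    hE0 hK3 (by
      intro t ht
      have ht' := ht
      rw [Pr, Finset.mem_filter, Finset.mem_Ioc] at ht'
      obtain ⟨⟨ht1, ht2⟩, ht3⟩ := ht'
      have ht0 : (0 : ℝ) < t := by exact_mod_cast ht3.pos
      have h1 := hVa n r (((k : ℝ) + 1) / B + 17 / 20 * c / r) (c / (25 * r)) (c / (5 * r))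
        (21 * c / (100 * r)) (Zc W P (((k : ℝ) + 1) / B + 17 / 20 * c / r) (c / (25 * r))
          (c / (5 * r)) (21 * c / (100 * r)) cl)
        ⌈r * n⌉₊ ⌊21 / 20 * r * n⌋₊ B k P g0 i K0 K1 m W t hn hneg hrn hu1 huv
        (by nlinarith) hB1 hBn' hkB hP1 hR.Pn hR.PW hSb (wn2 hc0 hc1 hr hkB) hK0 hP.WK hP.K01 ht3
        (lt_of_le_of_lt hK12 ht1)
        (by
          have h2 : (t : ℝ) ≤ K3 := by exact_mod_cast ht2
          exact (mul_le_mul_of_nonneg_left h2 (by positivity)).trans hP.s1)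
      have h2 := hBn n c r (Zc W P (((k : ℝ) + 1) / B + 17 / 20 * c / r) (c / (25 * r))
          (c / (5 * r)) (21 * c / (100 * r)) cl) P J B W K0 K1 K2 K3 m k t hR hr1 hr2 hk ht hSb
      refine h1.trans ?_
      have h30 : (((⌊21 / 20 * r * n⌋₊ : ℝ)) - (⌈r * n⌉₊ : ℝ)) / (t * B * (P : ℝ) ^ 2) ≤
          (((⌊21 / 20 * r * n⌋₊ : ℝ)) - (⌈r * n⌉₊ : ℝ)) / (t * B) := by
        apply div_le_div_of_nonneg_left (by linarith) (by positivity)
        have : 0 < (t : ℝ) * B := by positivity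
        nlinarith
      have h3 : (((⌊21 / 20 * r * n⌋₊ : ℝ)) - (⌈r * n⌉₊ : ℝ)) / (t * B * (P : ℝ) ^ 2) ≤
          (95 * J * n / c) / (t * B) :=
        h30.trans (div_le_div_of_nonneg_right hlen (by positivity))
      have h4 : 0 ≤ (((⌊21 / 20 * r * n⌋₊ : ℝ)) - (⌈r * n⌉₊ : ℝ)) / (t * B * (P : ℝ) ^ 2) :=
        div_nonneg (by linarith) (by positivity)
      have h5 := mul_le_mul_of_nonneg_left h2 h4
      have h6 := mul_le_mul_of_nonneg_right h3 hD0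
      have e : 95 * (J : ℝ) * n / c * D / (t * B) = (95 * J * n / c) / (t * B) * D := by ring
      rw [e]
      linarith)
  refine key.trans (le_of_eq ?_)
  have e1 := exps hn
  have e2 : n ^ (1 / 200 : ℝ) * (C * n ^ (99 / 100 : ℝ)) = C * n ^ (199 / 200 : ℝ) := by
    rw [← e1]
    ring
  rw [e2]
  ring

end Pool.Agent.Work.MP_a8fbd7_nt.PAR.RP.I_Um2
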