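import Pool.Agent.Work.MP_a8fbd7_nt.PAR.RP.StmtsS

set_option autoImplicit false

/-!
MP_a8fbd7_nt, block RP, item Un2: unlinked `g` of a cell (copy of EF/I_UnX with classes modulo `P`).
-/

open Finset

noncomputable section

namespace Pool.Agent.Work.MP_a8fbd7_nt.PAR.RP.I_Un2

open Pool.Agent.Work.MP_a8fbd7_nt.PAR.RP
open Pool.Agent.Work.MP_a8fbd7_nt.PAR.LC
open Pool.Agent.Work.MP_a8fbd7_nt.PAR.EF

/-- facts about the parameters -/
theorem basics {n c r : ℝ} {J B W K0 K1 K2 K3 m : ℕ} (P : Pa n c J B W K0 K1 K2 K3 m) (hr : 200 * J / c ≤ r) :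
    0 < c ∧ c ≤ 1 / 10 ∧ (800 : ℝ) ≤ J ∧ (1000 : ℝ) ≤ B ∧ (1000 : ℝ) ≤ r := by
  have c0 := P.c0
  have c1 := P.c1
  have hJ : (800 : ℝ) ≤ J := by
    refine le_trans ?_ P.J1
    rw [le_div_iff₀ (by positivity)]
    nlinarith
  have hr' : (1000 : ℝ) ≤ r := by
    refine le_trans ?_ hr
    rw [le_div_iff₀ c0]
    nlinarith
  have hB : (1000 : ℝ) ≤ B := by
    refine le_trans ?_ P.B1
    rw [le_div_iff₀ (by positivity)]
    nlinarith
  exact ⟨c0, c1, hJ, hB, hr'⟩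

theorem wn {n c r : ℝ} {J B W K0 K1 K2 K3 m k : ℕ} (P : Pa n c J B W K0 K1 K2 K3 m) (hr : 200 * J / c ≤ r)
    (hk : k ≤ B) :
    Wn (((k : ℝ) + 1) / B + 17 / 20 * c / r) (c / (25 * r)) (c / (5 * r)) (21 * c / (100 * r)) := by
  obtain ⟨c0, c1, hJ, hB, hr'⟩ := basics P hr
  have hr0 : 0 < r := by linarith
  have hB0 : (0 : ℝ) < B := by linarith
  have hkB : (k : ℝ) ≤ B := by
    exact_mod_cast hk
  refine ⟨by positivity, ?_, by positivity, ?_, by positivity, ?_, ?_⟩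
  · have h1 : ((k : ℝ) + 1) / B ≤ 3 / 2 := by
      rw [div_le_iff₀ hB0]
      linarith
    have h2 : 17 / 20 * c / r ≤ 1 / 2 := by
      rw [div_le_iff₀ hr0]
      linarith
    linarith
  · rw [div_le_iff₀ (by positivity)]
    linarith
  · rw [div_lt_div_iff₀ (by positivity) (by positivity)]
    nlinarith [mul_pos c0 hr0]
  · rw [div_le_iff₀ (by positivity)]
    linarith

theorem isCoprime_congr {a b P : ℤ} (h : P ∣ b - a) (ha : IsCoprime a P) : IsCoprime b P := by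
  obtain ⟨k, hk⟩ := h
  have : b = a + P * k := by linarith
  rw [this]
  exact ha.add_mul_left_left k

/-- the local conditions depend only on the classes modulo `P` -/
theorem un_congr {P g g' M M' i q t z z' ρ ρ' : ℕ} (hg : g ≡ g' [MOD P]) (hM : M ≡ M' [MOD P]) (hz : z ≡ z' [MOD P])
    (hρ : ρ ≡ ρ' [MOD P]) (h : Un P g' M' i q t z' ρ') : Un P g M i q t z ρ := by
  obtain ⟨h1, h2, h3, h4⟩ := h
  have dg : (P : ℤ) ∣ (g : ℤ) - g' := (Int.natCast_modEq_iff.mpr hg.symm).dvd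
  have dM : (P : ℤ) ∣ (M : ℤ) - M' := (Int.natCast_modEq_iff.mpr hM.symm).dvd
  have dz : (P : ℤ) ∣ (z : ℤ) - z' := (Int.natCast_modEq_iff.mpr hz.symm).dvd
  have dρ : (P : ℤ) ∣ (ρ : ℤ) - ρ' := (Int.natCast_modEq_iff.mpr hρ.symm).dvd
  refine ⟨?_, ?_, ?_, ?_⟩
  · unfold Nat.Coprime at h1 ⊢
    rw [hz.gcd_eq, h1]
  · unfold Nat.Coprime at h2 ⊢
    rw [((hM.mul_left q).add hρ).gcd_eq, h2]
  · apply isCoprime_congr _ h3
    have e : (t : ℤ) * ((q : ℤ) * M + ρ) - 2 * z - ((t : ℤ) * ((q : ℤ) * M' + ρ') - 2 * z') =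
        (t : ℤ) * q * (M - M') + t * (ρ - ρ') - 2 * (z - z') := by ring
    rw [e]
    exact dvd_sub (dvd_add (Dvd.dvd.mul_left dM _) (Dvd.dvd.mul_left dρ _)) (Dvd.dvd.mul_left dz _)
  · apply isCoprime_congr _ h4
    have e : (z : ℤ) * ((g : ℤ) + 2 * i) - (t : ℤ) * i * ρ - ((z' : ℤ) * ((g' : ℤ) + 2 * i) - (t : ℤ) * i * ρ') =
        ((g : ℤ) + 2 * i) * (z - z') + z' * (g - g') - t * i * (ρ - ρ') := by ring
    rw [e]
    exact dvd_sub (dvd_add (Dvd.dvd.mul_left dz _) (Dvd.dvd.mul_left dg _)) (Dvd.dvd.mul_left dρ _)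

theorem coprime_of_large {P W q : ℕ} (hP : P ∣ primorial W) (hq : ∀ p ∈ q.primeFactors, W < p) (hq0 : q ≠ 0) :
    q.Coprime P := by
  apply Nat.Coprime.coprime_dvd_right hP
  rw [Nat.coprime_iff_gcd_eq_one]
  by_contra hne
  obtain ⟨p, hp, hpd⟩ := Nat.exists_prime_and_dvd hne
  have h1 : p ∣ q := dvd_trans hpd (Nat.gcd_dvd_left _ _)
  have h2 : p ∣ primorial W := dvd_trans hpd (Nat.gcd_dvd_right _ _)
  have h3 : W < p := hq p (Nat.mem_primeFactors.mpr ⟨hp, h1, hq0⟩)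
  unfold primorial at h2
  rw [Prime.dvd_finsetProd_iff hp.prime] at h2
  obtain ⟨a, ha, hd⟩ := h2
  rw [Finset.mem_filter, Finset.mem_range] at ha
  have h4 := Nat.le_of_dvd ha.2.pos hd
  omega

/-- the main estimate for one `t` -/
theorem key (h1 : StEl2) (h2 : StSz) {n c r : ℝ} {cl : ℕ → ℕ → ℕ × ℕ} {P J B W K0 K1 K2 K3 m k g0 i g t : ℕ}
    (hP : PaR P n c J B W K0 K1 K2 K3 m)
    (hr : 200 * J / c ≤ r) (hr2 : r ≤ 1900 * J / c) (hk : k ≤ B) (hcl : ClOK P g0 i cl)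
    (hg : g ≡ g0 [MOD P]) (hM : ⌊n ^ 2 / (g : ℝ)⌋₊ ≡ 1 [MOD P]) (hm : m ≤ om K0 K1 g) (ht : t ∈ Pr K2 K3)
    (htg : t ∣ g + 2 * i) (hL : ¬ LkR n c r (K1 ^ m * K3) B k P i g) :
    (Am c r W m / (P : ℝ) ^ 2) ^ 2 ≤
    (Ntz (Zc W P (((k : ℝ) + 1) / B + 17 / 20 * c / r) (c / (25 * r)) (c / (5 * r)) (21 * c / (100 * r)) cl) K0 K1 m t g
        ⌊n ^ 2 / (g : ℝ)⌋₊ -
      Atz (Zc W P (((k : ℝ) + 1) / B + 17 / 20 * c / r) (c / (25 * r)) (c / (5 * r)) (21 * c / (100 * r)) cl) K0 K1 m t g) ^ 2 := by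
  have Pp := hP.pa
  obtain ⟨c0, c1, hJ, hB, hr'⟩ := basics Pp hr
  have hr0 : 0 < r := by linarith
  have hJ0 : (0 : ℝ) < J := by linarith
  have hwn := wn Pp hr hk
  have hP0 : (0 : ℝ) < (P : ℝ) := by exact_mod_cast hP.P0
  set w0 : ℝ := ((k : ℝ) + 1) / B + 17 / 20 * c / r with hw0
  have hK0 : 1 ≤ K0 := le_trans Pp.W1 Pp.WK
  obtain ⟨hc1, hc2, hc3⟩ := h2 K0 K1 m hK0 Pp.K01
  rw [Pr, mem_filter, mem_Ioc] at ht
  obtain ⟨⟨htK2, htK3⟩, htp⟩ := ht
  have hK1 : (1 : ℝ) ≤ K1 := by exact_mod_cast le_trans hK0 Pp.K01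
  have hx1 : (1 : ℝ) ≤ 95000 * J / c ^ 2 := by
    rw [le_div_iff₀ (by positivity)]
    nlinarith
  have hKm : K1 ^ m < t := by
    have h3 : (K1 : ℝ) ^ m ≤ (K1 : ℝ) ^ (2 * m) := pow_le_pow_right₀ hK1 (by omega)
    have h4 : (K1 : ℝ) ^ (2 * m) ≤ 6 * (K1 : ℝ) ^ (2 * m) * (95000 * J / c ^ 2) := by
      have : (0 : ℝ) ≤ (K1 : ℝ) ^ (2 * m) := by positivity
      nlinarith [mul_le_mul_of_nonneg_left hx1 this]
    have h5 : (K1 : ℝ) ^ m ≤ K2 := le_trans h3 (le_trans h4 hP.K12')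
    have h6 : K1 ^ m ≤ K2 := by exact_mod_cast h5
    omega
  have hWt : W < t := by
    have h3 : K1 ≤ K1 ^ m := Nat.le_self_pow (by have := Pp.m1; omega) K1
    have h4 := Pp.WK
    have h5 := Pp.K01
    omega
  have htP : t.Coprime P := by
    apply coprime_of_large hP.PW _ htp.pos.ne'
    intro p hp
    rw [htp.primeFactors, Finset.mem_singleton] at hp
    rw [hp]
    exact hWt
  have hq : ∀ S ∈ SS K0 K1 m, 1 < qS S ∧ qS S < t ∧ (∀ p ∈ (qS S).primeFactors, K0 < p) ∧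
      (qS S).primeFactors.card ≤ m := by
    intro S hS
    obtain ⟨ha, hb, hcc⟩ := hc2 S hS
    rw [SS, mem_filter, mem_powerset] at hS
    refine ⟨by omega, by omega, ?_, ?_⟩
    · intro p hp
      rw [hcc] at hp
      have := hS.1 hp
      rw [Pr, mem_filter, mem_Ioc] at this
      exact this.1.1
    · rw [hcc]
      exact hS.2.2
  have hqP : ∀ S ∈ SS K0 K1 m, (qS S).Coprime P := by
    intro S hS
    obtain ⟨hq1, hq2, hq3, hq4⟩ := hq S hS
    apply coprime_of_large hP.PW _ (by omega)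
    intro p hp
    have := hq3 p hp
    have := Pp.WK
    omega
  -- the sum over the links is zero
  have hN : Ntz (Zc W P w0 (c / (25 * r)) (c / (5 * r)) (21 * c / (100 * r)) cl) K0 K1 m t g ⌊n ^ 2 / (g : ℝ)⌋₊ = 0 := by
    unfold Ntz
    apply Finset.sum_eq_zero
    intro S hS
    rw [mem_filter] at hS
    obtain ⟨hS1, hSg⟩ := hS
    obtain ⟨hq1, hq2, hq3, hq4⟩ := hq S hS1
    have : nz (Zc W P w0 (c / (25 * r)) (c / (5 * r)) (21 * c / (100 * r)) cl) (qS S) t ⌊n ^ 2 / (g : ℝ)⌋₊ = 0 := by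
      unfold nz
      rw [Nat.cast_eq_zero, Finset.card_eq_zero, Finset.filter_eq_empty_iff]
      intro s hs hdv
      apply hL
      rw [Zc, mem_filter, Z2, mem_filter] at hs
      obtain ⟨⟨-, z1, z2, z3, z4, z5, z6, z7⟩, y1, y2⟩ := hs
      refine ⟨qS S, t, s.1, s.2, Nat.mul_le_mul (hc2 S hS1).2.1 htK3,
        ⟨by omega, htp.two_le, ?_, ?_, z4, z1, z2, z5, z6, z7⟩, hSg, htg, hdv, ?_⟩
      · have hpos : 0 < c / (5 * r) * (qS S : ℝ) * (t : ℝ) := by
          have h7 : (0 : ℝ) < (qS S : ℝ) := by exact_mod_cast (by omega : 0 < qS S)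
          have h8 : (0 : ℝ) < (t : ℝ) := by exact_mod_cast htp.pos
          positivity
        have : (0 : ℝ) < (s.1 : ℝ) := lt_of_lt_of_le hpos z1
        have : 0 < s.1 := by exact_mod_cast this
        omega
      · apply Nat.Coprime.symm
        rw [htp.coprime_iff_not_dvd]
        intro hd
        have := Nat.le_of_dvd (by omega) hd
        omega
      · exact un_congr hg hM y1 y2 (hcl (qS S) t (hqP S hS1) htP)
    rw [this, mul_zero]
  -- the expectation is large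
  have hPp : (0 : ℝ) < (primorial W : ℝ) := by exact_mod_cast primorial_pos W
  have hA : Am c r W m / (P : ℝ) ^ 2 ≤
      Atz (Zc W P w0 (c / (25 * r)) (c / (5 * r)) (21 * c / (100 * r)) cl) K0 K1 m t g := by
    have hem : 0 ≤ (c / (25 * r)) * (Nat.totient (primorial W) : ℝ) / (84 * (primorial W : ℝ)) / (P : ℝ) ^ 2 := by positivity
    have hsz := hc3 g hm
    unfold Atz
    have hE : ∀ S ∈ (SS K0 K1 m).filter (fun S => qS S ∣ g),
        vS S * ((c / (25 * r)) * (Nat.totient (primorial W) : ℝ) / (84 * (primorial W : ℝ)) / (P : ℝ) ^ 2) ≤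
        vS S * Ez (Zc W P w0 (c / (25 * r)) (c / (5 * r)) (21 * c / (100 * r)) cl) (qS S) t := by
      intro S hS
      rw [mem_filter] at hS
      obtain ⟨hS1, hSg⟩ := hS
      obtain ⟨hq1, hq2, hq3, hq4⟩ := hq S hS1
      have hv : 0 ≤ vS S := by
        unfold vS
        positivity
      apply mul_le_mul_of_nonneg_left _ hv
      have hA1 : 4 * ((m : ℝ) + 1) * P / (c / (25 * r)) ≤ K0 := by
        refine le_trans ?_ hP.K0m'
        rw [div_div_eq_mul_div, div_le_iff₀ c0]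
        have h9 : 4 * ((m : ℝ) + 1) * P * (47500 * J / c ^ 2) * c = 4 * ((m : ℝ) + 1) * P * (25 * (1900 * J / c)) := by
          field_simp
          ring
        rw [h9]
        have : (0 : ℝ) ≤ 4 * ((m : ℝ) + 1) * P := by positivity
        apply mul_le_mul_of_nonneg_left _ this
        linarith
      have hA2 : 6 * (primorial W : ℝ) / (21 * c / (100 * r) - c / (5 * r)) ≤ t := by
        have h10 : 21 * c / (100 * r) - c / (5 * r) = c / (100 * r) := by
          field_simp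
          ring
        rw [h10]
        have h11 : 6 * (primorial W : ℝ) / (c / (100 * r)) ≤ K2 := by
          refine le_trans ?_ hP.PK'
          rw [div_div_eq_mul_div, div_le_iff₀ c0]
          have h9 : 12 * (primorial W : ℝ) * (95000 * J / c ^ 2) * c = 6 * (primorial W : ℝ) * (100 * (1900 * J / c)) := by
            field_simp
            ring
          rw [h9]
          apply mul_le_mul_of_nonneg_left _ (by positivity)
          linarith
        refine le_trans h11 ?_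
        exact_mod_cast htK2.le
      have h12 := h1 W P w0 (c / (25 * r)) (c / (5 * r)) (21 * c / (100 * r)) cl (qS S) t K0 m hwn hq1 hq3 hq4 htp hq2
        hP.W2 Pp.WK hP.P0 hP.PW (hcl (qS S) t (hqP S hS1) htP).1 hA1 hA2
      refine le_trans (le_of_eq ?_) h12
      field_simp
      ring
    refine le_trans ?_ (Finset.sum_le_sum hE)
    rw [← Finset.sum_mul, mul_comm]
    refine le_trans (le_of_eq ?_) (mul_le_mul_of_nonneg_left hsz hem)
    unfold Am
    field_simp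
  rw [hN, zero_sub, neg_sq]
  have h32 : (1 : ℝ) ≤ (3 / 2 : ℝ) ^ m := one_le_pow₀ (by norm_num)
  have hx0 : 0 ≤ Am c r W m / (P : ℝ) ^ 2 := by
    unfold Am
    apply div_nonneg _ (by positivity)
    apply mul_nonneg
    · positivity
    · linarith
  exact pow_le_pow_left₀ hx0 hA 2

/-- ITEM Un2. -/
theorem prf (h1 : StEl2) (h2 : StSz) : StUn2 := by
  intro n c r cl P J B W K0 K1 K2 K3 m k g0 i u v hP hr hr2 hk hcl
  classical
  have hk' : k ≤ B := le_trans hk (Nat.div_le_self _ _)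
  set X : ℝ := (Am c r W m / (P : ℝ) ^ 2) ^ 2 with hX
  rw [Finset.sum_comm' (s' := fun g => (Pr K2 K3).filter (fun t => t ∣ g + 2 * i)) (t' := c3 n u v B k P g0)
    (h := by
      intro t g
      simp only [mem_filter]
      tauto)]
  rw [mul_comm, ← nsmul_eq_mul, ← Finset.sum_const]
  refine le_trans (Finset.sum_le_sum ?_) (Finset.sum_le_sum_of_subset_of_nonneg (Finset.filter_subset _ _) ?_)
  · intro g hg
    rw [mem_filter] at hg
    obtain ⟨hg1, hm, ⟨t, ht, htg⟩, hL⟩ := hg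
    rw [c3, cel2, mem_filter] at hg1
    obtain ⟨-, hgg, hM, -, -⟩ := hg1
    have hk1 := key h1 h2 hP hr hr2 hk' hcl hgg hM hm ht htg hL
    refine le_trans hk1 ?_
    exact Finset.single_le_sum (f := fun t => (Ntz (Zc W P (((k : ℝ) + 1) / B + 17 / 20 * c / r) (c / (25 * r))
        (c / (5 * r)) (21 * c / (100 * r)) cl) K0 K1 m t g ⌊n ^ 2 / (g : ℝ)⌋₊ -
      Atz (Zc W P (((k : ℝ) + 1) / B + 17 / 20 * c / r) (c / (25 * r)) (c / (5 * r)) (21 * c / (100 * r)) cl) K0 K1 m t g) ^ 2)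
      (fun i _ => sq_nonneg _) (mem_filter.mpr ⟨ht, htg⟩)
  · intro g _ _
    exact Finset.sum_nonneg (fun t _ => sq_nonneg _)

end Pool.Agent.Work.MP_a8fbd7_nt.PAR.RP.I_Un2
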