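import Pool.Agent.Work.MP_a8fbd7_nt.PAR.RP.StmtsS

set_option autoImplicit false

/-!
MP_a8fbd7_nt, block RP, item Va2: the variance of the weighted number of links for one `t`.
-/

open Finset

noncomputable section

namespace Pool.Agent.Work.MP_a8fbd7_nt.PAR.RP.I_Va2

open Pool.Agent.Work.MP_a8fbd7_nt.PAR.LC
open Pool.Agent.Work.MP_a8fbd7_nt.PAR.EF
open Pool.Agent.Work.MP_a8fbd7_nt.PAR.RP

/-- indicator of the link condition minus its mean -/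
def dv (q M : ℕ) (s : ℕ × ℕ) : ℝ := (if s.1 ∣ q * M + s.2 then 1 else 0) - 1 / (s.1 : ℝ)

/-- the contribution of one pair (set of primes, pair of the family) -/
def hh (g M : ℕ) (i : (_ : Finset ℕ) × (ℕ × ℕ)) : ℝ :=
  if qS i.1 ∣ g then vS i.1 * dv (qS i.1) M i.2 else 0

theorem dev_eq (Z : ℕ → ℕ → Finset (ℕ × ℕ)) (a b m : ℕ) (t g M : ℕ) :
    Ntz Z a b m t g M - Atz Z a b m t g =
      ∑ i ∈ (SS a b m).sigma (fun S => Z (qS S) t), hh g M i := by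
  rw [Finset.sum_sigma]
  unfold Ntz Atz
  rw [← Finset.sum_sub_distrib, Finset.sum_filter]
  refine Finset.sum_congr rfl fun S _ => ?_
  unfold hh
  dsimp only
  split_ifs with h
  · rw [← Finset.mul_sum]
    unfold nz Ez dv
    rw [Finset.natCast_card_filter, ← mul_sub, ← Finset.sum_sub_distrib]
  · simp

theorem count_eq (F : Finset ℕ) (P P' : ℕ → Prop) [DecidablePred P] [DecidablePred P'] (x x' : ℝ) :
    ∑ g ∈ F, ((if P g then (1 : ℝ) else 0) - x) * ((if P' g then (1 : ℝ) else 0) - x') =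
      ((F.filter (fun g => P g ∧ P' g)).card : ℝ) - x' * ((F.filter P).card : ℝ) -
        x * ((F.filter P').card : ℝ) + x * x' * (F.card : ℝ) := by
  rw [Finset.natCast_card_filter, Finset.natCast_card_filter, Finset.natCast_card_filter,
    Finset.mul_sum, Finset.mul_sum, ← Finset.sum_sub_distrib, ← Finset.sum_sub_distrib]
  have h : x * x' * (F.card : ℝ) = ∑ _g ∈ F, x * x' := by
    rw [Finset.sum_const, nsmul_eq_mul, mul_comm]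
  rw [h, ← Finset.sum_add_distrib]
  refine Finset.sum_congr rfl fun g _ => ?_
  by_cases h1 : P g <;> by_cases h2 : P' g <;> simp [h1, h2] <;> ring

theorem comb {X E c x x' C2 C1 C1' C0 : ℝ} (hE : 0 ≤ E) (hx : 0 ≤ x) (hx1 : x ≤ 1)
    (hx' : 0 ≤ x') (hx1' : x' ≤ 1) (h2 : C2 ≤ X * c + E) (h1 : X * x - E ≤ C1)
    (h1' : X * x' - E ≤ C1') (h0 : C0 ≤ X + E) :
    C2 - x' * C1 - x * C1' + x * x' * C0 ≤ X * (c - x * x') + 4 * E := by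
  have a1 : x' * (X * x - E) ≤ x' * C1 := mul_le_mul_of_nonneg_left h1 hx'
  have a2 : x * (X * x' - E) ≤ x * C1' := mul_le_mul_of_nonneg_left h1' hx
  have a3 : x * x' * C0 ≤ x * x' * (X + E) := mul_le_mul_of_nonneg_left h0 (mul_nonneg hx hx')
  have a4 : x' * E ≤ 1 * E := mul_le_mul_of_nonneg_right hx1' hE
  have a5 : x * E ≤ 1 * E := mul_le_mul_of_nonneg_right hx1 hE
  have a6 : x * x' * E ≤ 1 * E := mul_le_mul_of_nonneg_right (mul_le_one₀ hx1 hx' hx1') hE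
  nlinarith [a1, a2, a3, a4, a5, a6]

theorem vS_nonneg (S : Finset ℕ) : 0 ≤ vS S := by unfold vS; positivity

theorem vS_le (S : Finset ℕ) : vS S ≤ 1 := by
  unfold vS
  exact pow_le_one₀ (by norm_num) (by norm_num)

/-- the size of `Z2` -/
theorem card_Zs (W : ℕ) (w0 ω e0 e1 : ℝ) (q t : ℕ) (hq : 1 ≤ q) (ht : 1 ≤ t) :
    (Z2 W w0 ω e0 e1 q t).card ≤ 8 * q ^ 2 * t := by
  unfold Z2
  refine le_trans (Finset.card_filter_le _ _) ?_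
  rw [Finset.card_product, Finset.card_range, Finset.card_range]
  have h1 : q * t + 1 ≤ 2 * (q * t) := by
    have : 1 ≤ q * t := Nat.mul_pos hq ht
    omega
  have h2 : 3 * q + 1 ≤ 4 * q := by omega
  calc (q * t + 1) * (3 * q + 1) ≤ (2 * (q * t)) * (4 * q) := Nat.mul_le_mul h1 h2
    _ = 8 * q ^ 2 * t := by ring

/-- the size of the index set -/
theorem card_I (hSz : StSz) (Z : ℕ → ℕ → Finset (ℕ × ℕ)) (a b m W : ℕ) (w0 ω e0 e1 : ℝ)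
    (hZ : Sb W w0 ω e0 e1 Z) (t : ℕ) (ha : 1 ≤ a) (hab : a ≤ b)
    (ht : 1 ≤ t) :
    (((SS a b m).sigma (fun S => Z (qS S) t)).card : ℝ) ≤ 8 * ((b : ℝ) ^ m * t) ^ 4 := by
  obtain ⟨h1, h2, _⟩ := hSz a b m ha hab
  have hb1 : (1 : ℝ) ≤ b := by exact_mod_cast le_trans ha hab
  have hbm : (1 : ℝ) ≤ (b : ℝ) ^ m := one_le_pow₀ hb1
  have ht1 : (1 : ℝ) ≤ t := by exact_mod_cast ht
  rw [Finset.card_sigma, Nat.cast_sum]
  have h3 : ∀ S ∈ SS a b m, ((Z (qS S) t).card : ℝ) ≤ 8 * ((b : ℝ) ^ m) ^ 2 * t := by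
    intro S hS
    obtain ⟨hq1, hq2, _⟩ := h2 S hS
    have hq : 1 ≤ qS S := by omega
    have h4 := le_trans (Finset.card_le_card (hZ (qS S) t)) (card_Zs W w0 ω e0 e1 (qS S) t hq ht)
    have h5 : ((Z (qS S) t).card : ℝ) ≤ 8 * (qS S : ℝ) ^ 2 * t := by exact_mod_cast h4
    have h6 : (qS S : ℝ) ≤ (b : ℝ) ^ m := by exact_mod_cast hq2
    have h7 : (qS S : ℝ) ^ 2 ≤ ((b : ℝ) ^ m) ^ 2 := pow_le_pow_left₀ (Nat.cast_nonneg _) h6 2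
    refine le_trans h5 ?_
    exact mul_le_mul_of_nonneg_right (mul_le_mul_of_nonneg_left h7 (by norm_num)) (by linarith)
  refine le_trans (Finset.sum_le_sum h3) ?_
  rw [Finset.sum_const, nsmul_eq_mul]
  have h8 : ((SS a b m).card : ℝ) ≤ ((b : ℝ) ^ m) ^ 2 := by
    rcases Nat.lt_or_ge b 2 with hb | hb
    · have h9 : SS a b m = ∅ := by
        have h10 : Pr a b = ∅ := by
          unfold Pr
          rw [Finset.filter_eq_empty_iff]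
          intro p hp hpp
          rw [Finset.mem_Ioc] at hp
          have := hpp.two_le
          omega
        unfold SS
        rw [h10, Finset.powerset_empty, Finset.filter_eq_empty_iff]
        intro S hS hS2
        rw [Finset.mem_singleton] at hS
        rw [hS] at hS2
        exact Finset.not_nonempty_empty hS2.1
      rw [h9, Finset.card_empty, Nat.cast_zero]
      positivity
    · refine le_trans h1 ?_
      have hb2 : (2 : ℝ) ≤ b := by exact_mod_cast hb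
      rw [← pow_mul, mul_comm m 2, pow_mul]
      refine pow_le_pow_left₀ (by positivity) ?_ m
      nlinarith
  have h9 : (0 : ℝ) ≤ (b : ℝ) ^ m := by positivity
  have h10 : (0 : ℝ) ≤ t := by linarith
  have h11 : (t : ℝ) ≤ (t : ℝ) ^ 4 := by
    calc (t : ℝ) = (t : ℝ) ^ 1 := (pow_one _).symm
      _ ≤ (t : ℝ) ^ 4 := pow_le_pow_right₀ ht1 (by norm_num)
  calc ((SS a b m).card : ℝ) * (8 * ((b : ℝ) ^ m) ^ 2 * t)
      ≤ ((b : ℝ) ^ m) ^ 2 * (8 * ((b : ℝ) ^ m) ^ 2 * t) :=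
        mul_le_mul_of_nonneg_right h8 (by positivity)
    _ = 8 * ((b : ℝ) ^ m) ^ 4 * t := by ring
    _ ≤ 8 * ((b : ℝ) ^ m) ^ 4 * (t : ℝ) ^ 4 := mul_le_mul_of_nonneg_left h11 (by positivity)
    _ = 8 * ((b : ℝ) ^ m * t) ^ 4 := by ring

/-- a prime above `W` is prime to the divisors of the primorial of `W` -/
theorem prime_cop {P W p : ℕ} (hPW : P ∣ primorial W) (hp : p.Prime) (hW : W < p) : p.Coprime P := by
  rw [hp.coprime_iff_not_dvd]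
  intro hd
  have h1 : p ∣ primorial W := dvd_trans hd hPW
  unfold primorial at h1
  rw [hp.prime.dvd_finsetProd_iff] at h1
  obtain ⟨r, hr, hpr⟩ := h1
  rw [Finset.mem_filter, Finset.mem_range] at hr
  have h2 := (Nat.prime_dvd_prime_iff_eq hp hr.2).mp hpr
  omega

/-- the sum over `g` for one pair of indices -/
theorem pair_bound {C0 : ℝ} (hC0 : 1 ≤ C0)
    (n w0 ω e0 e1 : ℝ) (Z : ℕ → ℕ → Finset (ℕ × ℕ)) (u v B k P g0 st a b m W t : ℕ) (hSz : StSz)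
    (hcn : ∀ (q q' z z' ρ ρ' : ℕ),
      1 ≤ q → 1 ≤ q' → 1 ≤ z → 1 ≤ z' → q.Coprime t → q'.Coprime t → z.Coprime q → z'.Coprime q' →
      q.Coprime P → q'.Coprime P → z.Coprime P → z'.Coprime P →
      (q : ℝ) ≤ n ^ (1 / 200 : ℝ) → (q' : ℝ) ≤ n ^ (1 / 200 : ℝ) → (z : ℝ) ≤ n ^ (1 / 200 : ℝ) →
      (z' : ℝ) ≤ n ^ (1 / 200 : ℝ) →
      (((c3 n u v B k P g0).filter (fun g => q ∣ g ∧ q' ∣ g ∧ t ∣ g + 2 * st)).card : ℝ) ≤
        ((v : ℝ) - u) / ((Nat.lcm q q' : ℝ) * t * B * (P : ℝ) ^ 2) + C0 * n ^ (19 / 20 : ℝ) ∧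
      ((v : ℝ) - u) / ((Nat.lcm q q' : ℝ) * t * B * (P : ℝ) ^ 2) / z - C0 * n ^ (19 / 20 : ℝ) ≤
        (((c3 n u v B k P g0).filter (fun g => q ∣ g ∧ q' ∣ g ∧ t ∣ g + 2 * st ∧
          z ∣ q * ⌊n ^ 2 / (g : ℝ)⌋₊ + ρ)).card : ℝ) ∧
      (((c3 n u v B k P g0).filter (fun g => q ∣ g ∧ q' ∣ g ∧ t ∣ g + 2 * st ∧
          z ∣ q * ⌊n ^ 2 / (g : ℝ)⌋₊ + ρ ∧ z' ∣ q' * ⌊n ^ 2 / (g : ℝ)⌋₊ + ρ')).card : ℝ) ≤
        ((v : ℝ) - u) / ((Nat.lcm q q' : ℝ) * t * B * (P : ℝ) ^ 2) * cor q q' (z, ρ) (z', ρ') +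
          C0 * n ^ (19 / 20 : ℝ))
    (hn : 1 ≤ n) (hPW : P ∣ primorial W) (hZ : Sb W w0 ω e0 e1 Z) (hW : Wn w0 ω e0 e1)
    (ha : 1 ≤ a) (hWa : W ≤ a) (hab : a ≤ b) (ht : t.Prime) (hbt : b < t)
    (hbig : (b : ℝ) ^ m * t ≤ n ^ (1 / 200 : ℝ))
    (i j : (_ : Finset ℕ) × (ℕ × ℕ))
    (hi : i ∈ (SS a b m).sigma (fun S => Z (qS S) t))
    (hj : j ∈ (SS a b m).sigma (fun S => Z (qS S) t)) :
    ∑ g ∈ (c3 n u v B k P g0).filter (fun g => t ∣ g + 2 * st),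
      hh g ⌊n ^ 2 / (g : ℝ)⌋₊ i * hh g ⌊n ^ 2 / (g : ℝ)⌋₊ j ≤
    ((v : ℝ) - u) / (t * B * (P : ℝ) ^ 2) * (vS i.1 * vS j.1 / (Nat.lcm (qS i.1) (qS j.1) : ℝ) *
      (cor (qS i.1) (qS j.1) i.2 j.2 - 1 / (i.2.1 : ℝ) * (1 / (j.2.1 : ℝ)))) +
      4 * (C0 * n ^ (19 / 20 : ℝ)) := by
  obtain ⟨S, z, ρ⟩ := i
  obtain ⟨S', z', ρ'⟩ := j
  dsimp only
  rw [Finset.mem_sigma] at hi hj
  obtain ⟨hS, hs⟩ := hi
  obtain ⟨hS', hs'⟩ := hj
  dsimp only at hS hs hS' hs'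
  obtain ⟨_, h2, _⟩ := hSz a b m ha hab
  have ht1 : (1 : ℝ) ≤ t := by exact_mod_cast ht.one_le
  have ht0 : (0 : ℝ) < t := by linarith
  have hb1 : (1 : ℝ) ≤ b := by exact_mod_cast le_trans ha hab
  have hbm : (1 : ℝ) ≤ (b : ℝ) ^ m := one_le_pow₀ hb1
  -- facts on one index
  have key : ∀ S ∈ SS a b m, ∀ z ρ : ℕ, (z, ρ) ∈ Z (qS S) t →
      1 ≤ qS S ∧ (qS S).Coprime t ∧ (qS S).Coprime P ∧ (qS S : ℝ) ≤ n ^ (1 / 200 : ℝ) ∧ 1 ≤ z ∧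
        z.Coprime (qS S) ∧ z.Coprime P ∧ (z : ℝ) ≤ n ^ (1 / 200 : ℝ) := by
    intro S hS z ρ hs
    obtain ⟨hq1, hq2, hq3⟩ := h2 S hS
    have hq : 1 ≤ qS S := by omega
    have hqR : (1 : ℝ) ≤ qS S := by exact_mod_cast hq
    have hq2R : (qS S : ℝ) ≤ (b : ℝ) ^ m := by exact_mod_cast hq2
    have hs := hZ (qS S) t hs
    unfold Z2 at hs
    rw [Finset.mem_filter] at hs
    obtain ⟨_, hz1, hz2, hz3, hz4, _, _, _⟩ := hs
    dsimp only at hz1 hz2 hz3 hz4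
    have hz0 : (0 : ℝ) < z := by
      have : 0 < e0 * qS S * t := by
        have := hW.he0
        positivity
      linarith
    have hSP : ∀ p ∈ S, p.Prime ∧ a < p ∧ p ≤ b := by
      intro p hp
      unfold SS at hS
      rw [Finset.mem_filter, Finset.mem_powerset] at hS
      have h4 := hS.1 hp
      unfold Pr at h4
      rw [Finset.mem_filter, Finset.mem_Ioc] at h4
      exact ⟨h4.2, h4.1.1, h4.1.2⟩
    refine ⟨hq, ?_, ?_, ?_, ?_, hz4, ?_, ?_⟩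
    · rw [Nat.coprime_comm, ht.coprime_iff_not_dvd]
      intro hd
      have h3 : t ∈ (qS S).primeFactors := Nat.mem_primeFactors.mpr ⟨ht, hd, by omega⟩
      rw [hq3] at h3
      have h4 := hSP t h3
      omega
    · unfold qS
      refine Nat.Coprime.prod_left fun p hp => ?_
      obtain ⟨p1, p2, _⟩ := hSP p hp
      exact prime_cop hPW p1 (by omega)
    · refine le_trans ?_ hbig
      nlinarith
    · have : 0 < z := by exact_mod_cast hz0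
      omega
    · exact Nat.Coprime.coprime_dvd_right hPW hz3
    · refine le_trans hz2 (le_trans ?_ hbig)
      have h5 : e1 * qS S ≤ (b : ℝ) ^ m := by
        have := hW.he1
        nlinarith
      exact mul_le_mul_of_nonneg_right h5 ht0.le
  obtain ⟨k1, k2, kP, k3, k4, k5, kQ, k6⟩ := key S hS z ρ hs
  obtain ⟨l1, l2, lP, l3, l4, l5, lQ, l6⟩ := key S' hS' z' ρ' hs'
  obtain ⟨c0, c1, c2⟩ := hcn (qS S) (qS S') z z' ρ ρ' k1 l1 k4 l4 k2 l2 k5 l5 kP lP kQ lQ k3 l3 k6 l6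
  obtain ⟨_, c1', _⟩ := hcn (qS S') (qS S) z' z ρ' ρ l1 k1 l4 k4 l2 k2 l5 k5 lP kP lQ kQ l3 k3 l6 k6
  set E : ℝ := C0 * n ^ (19 / 20 : ℝ) with hEdef
  have hE0 : 0 ≤ E := by
    have : 0 ≤ n ^ (19 / 20 : ℝ) := Real.rpow_nonneg (by linarith) _
    rw [hEdef]; positivity
  set X : ℝ := ((v : ℝ) - u) / ((Nat.lcm (qS S) (qS S') : ℝ) * t * B * (P : ℝ) ^ 2) with hX
  set F : Finset ℕ := (c3 n u v B k P g0).filter (fun g => qS S ∣ g ∧ qS S' ∣ g ∧ t ∣ g + 2 * st)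
    with hF
  -- the sum over `g`
  have ee1 : ∑ g ∈ (c3 n u v B k P g0).filter (fun g => t ∣ g + 2 * st),
      hh g ⌊n ^ 2 / (g : ℝ)⌋₊ ⟨S, z, ρ⟩ * hh g ⌊n ^ 2 / (g : ℝ)⌋₊ ⟨S', z', ρ'⟩ =
      (vS S * vS S') * ∑ g ∈ F, ((if z ∣ qS S * ⌊n ^ 2 / (g : ℝ)⌋₊ + ρ then (1 : ℝ) else 0) -
        1 / (z : ℝ)) * ((if z' ∣ qS S' * ⌊n ^ 2 / (g : ℝ)⌋₊ + ρ' then (1 : ℝ) else 0) -
        1 / (z' : ℝ)) := by
    rw [hF, Finset.sum_filter, Finset.sum_filter, Finset.mul_sum]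
    refine Finset.sum_congr rfl fun g _ => ?_
    unfold hh dv
    dsimp only
    by_cases g1 : qS S ∣ g <;> by_cases g2 : qS S' ∣ g <;> by_cases g3 : t ∣ g + 2 * st <;>
      simp only [g1, g2, g3, if_true, if_false, and_true, true_and, and_false, false_and, and_self,
        mul_zero, zero_mul, if_pos, if_neg, not_false_eq_true]
    ring
  have ee2 := count_eq F (fun g : ℕ => z ∣ qS S * ⌊n ^ 2 / (g : ℝ)⌋₊ + ρ)
    (fun g : ℕ => z' ∣ qS S' * ⌊n ^ 2 / (g : ℝ)⌋₊ + ρ') (1 / (z : ℝ)) (1 / (z' : ℝ))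
  have f2 : F.filter (fun g : ℕ => z ∣ qS S * ⌊n ^ 2 / (g : ℝ)⌋₊ + ρ ∧
      z' ∣ qS S' * ⌊n ^ 2 / (g : ℝ)⌋₊ + ρ') =
      (c3 n u v B k P g0).filter (fun g => qS S ∣ g ∧ qS S' ∣ g ∧ t ∣ g + 2 * st ∧
          z ∣ qS S * ⌊n ^ 2 / (g : ℝ)⌋₊ + ρ ∧ z' ∣ qS S' * ⌊n ^ 2 / (g : ℝ)⌋₊ + ρ') := by
    rw [hF, Finset.filter_filter]
    refine Finset.filter_congr fun g _ => ?_
    tauto
  have f1 : F.filter (fun g : ℕ => z ∣ qS S * ⌊n ^ 2 / (g : ℝ)⌋₊ + ρ) =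
      (c3 n u v B k P g0).filter (fun g => qS S ∣ g ∧ qS S' ∣ g ∧ t ∣ g + 2 * st ∧
          z ∣ qS S * ⌊n ^ 2 / (g : ℝ)⌋₊ + ρ) := by
    rw [hF, Finset.filter_filter]
    refine Finset.filter_congr fun g _ => ?_
    tauto
  have f1' : F.filter (fun g : ℕ => z' ∣ qS S' * ⌊n ^ 2 / (g : ℝ)⌋₊ + ρ') =
      (c3 n u v B k P g0).filter (fun g => qS S' ∣ g ∧ qS S ∣ g ∧ t ∣ g + 2 * st ∧
          z' ∣ qS S' * ⌊n ^ 2 / (g : ℝ)⌋₊ + ρ') := by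
    rw [hF, Finset.filter_filter]
    refine Finset.filter_congr fun g _ => ?_
    tauto
  rw [f2, f1, f1'] at ee2
  have hz0 : (1 : ℝ) ≤ z := by exact_mod_cast k4
  have hz0' : (1 : ℝ) ≤ z' := by exact_mod_cast l4
  have x0 : (0 : ℝ) ≤ 1 / (z : ℝ) := by positivity
  have x1 : 1 / (z : ℝ) ≤ 1 := by
    rw [div_le_one (by linarith)]; exact hz0
  have x0' : (0 : ℝ) ≤ 1 / (z' : ℝ) := by positivity
  have x1' : 1 / (z' : ℝ) ≤ 1 := by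
    rw [div_le_one (by linarith)]; exact hz0'
  rw [Nat.lcm_comm (qS S') (qS S)] at c1'
  have hc1 : X * (1 / (z : ℝ)) - E ≤ (((c3 n u v B k P g0).filter (fun g => qS S ∣ g ∧ qS S' ∣ g ∧
      t ∣ g + 2 * st ∧ z ∣ qS S * ⌊n ^ 2 / (g : ℝ)⌋₊ + ρ)).card : ℝ) := by
    rw [mul_one_div]; exact c1
  have hc1' : X * (1 / (z' : ℝ)) - E ≤ (((c3 n u v B k P g0).filter (fun g => qS S' ∣ g ∧ qS S ∣ g ∧
      t ∣ g + 2 * st ∧ z' ∣ qS S' * ⌊n ^ 2 / (g : ℝ)⌋₊ + ρ')).card : ℝ) := by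
    rw [mul_one_div]; exact c1'
  have ee3 := comb hE0 x0 x1 x0' x1' c2 hc1 hc1' c0
  rw [ee1, ee2]
  have hv0 : 0 ≤ vS S * vS S' := mul_nonneg (vS_nonneg S) (vS_nonneg S')
  have hv1 : vS S * vS S' ≤ 1 := mul_le_one₀ (vS_le S) (vS_nonneg S') (vS_le S')
  have ee4 := mul_le_mul_of_nonneg_left ee3 hv0
  refine le_trans ee4 ?_
  have ee5 : vS S * vS S' * (X * (cor (qS S) (qS S') (z, ρ) (z', ρ') - 1 / (z : ℝ) * (1 / (z' : ℝ))) +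
      4 * E) = vS S * vS S' * X * (cor (qS S) (qS S') (z, ρ) (z', ρ') -
        1 / (z : ℝ) * (1 / (z' : ℝ))) + vS S * vS S' * (4 * E) := by ring
  rw [ee5]
  have ee6 : vS S * vS S' * (4 * E) ≤ 4 * E := by nlinarith
  have ee7 : vS S * vS S' * X = ((v : ℝ) - u) / (t * B * (P : ℝ) ^ 2) *
      (vS S * vS S' / (Nat.lcm (qS S) (qS S') : ℝ)) := by
    rw [hX, div_mul_div_comm, mul_div_assoc']
    congr 1 <;> ring
  rw [ee7]
  have ee8 : ((v : ℝ) - u) / (t * B * (P : ℝ) ^ 2) * (vS S * vS S' / (Nat.lcm (qS S) (qS S') : ℝ)) *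
      (cor (qS S) (qS S') (z, ρ) (z', ρ') - 1 / (z : ℝ) * (1 / (z' : ℝ))) =
      ((v : ℝ) - u) / (t * B * (P : ℝ) ^ 2) * (vS S * vS S' / (Nat.lcm (qS S) (qS S') : ℝ) *
      (cor (qS S) (qS S') (z, ρ) (z', ρ') - 1 / (z : ℝ) * (1 / (z' : ℝ)))) := by ring
  rw [ee8]
  linarith

/-- the main terms -/
theorem main_eq (Z : ℕ → ℕ → Finset (ℕ × ℕ)) (a b m : ℕ) (t : ℕ) :
    ∑ i ∈ (SS a b m).sigma (fun S => Z (qS S) t),
      ∑ j ∈ (SS a b m).sigma (fun S => Z (qS S) t),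
        vS i.1 * vS j.1 / (Nat.lcm (qS i.1) (qS j.1) : ℝ) *
          (cor (qS i.1) (qS j.1) i.2 j.2 - 1 / (i.2.1 : ℝ) * (1 / (j.2.1 : ℝ))) =
    ∑ S ∈ SS a b m, ∑ S' ∈ SS a b m, vS S * vS S' / (Nat.lcm (qS S) (qS S') : ℝ) *
      (Fz Z (qS S) t (qS S') t - Ez Z (qS S) t * Ez Z (qS S') t) := by
  rw [Finset.sum_sigma]
  refine Finset.sum_congr rfl fun S _ => ?_
  dsimp only
  have h1 : ∀ s ∈ Z (qS S) t,
      ∑ j ∈ (SS a b m).sigma (fun S => Z (qS S) t),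
        vS S * vS j.1 / (Nat.lcm (qS S) (qS j.1) : ℝ) *
          (cor (qS S) (qS j.1) s j.2 - 1 / (s.1 : ℝ) * (1 / (j.2.1 : ℝ))) =
      ∑ S' ∈ SS a b m, ∑ s' ∈ Z (qS S') t,
        vS S * vS S' / (Nat.lcm (qS S) (qS S') : ℝ) *
          (cor (qS S) (qS S') s s' - 1 / (s.1 : ℝ) * (1 / (s'.1 : ℝ))) := by
    intro s _
    rw [Finset.sum_sigma]
  rw [Finset.sum_congr rfl h1, Finset.sum_comm]
  refine Finset.sum_congr rfl fun S' _ => ?_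
  unfold Fz Ez
  rw [Finset.sum_mul_sum, ← Finset.sum_sub_distrib, Finset.mul_sum]
  refine Finset.sum_congr rfl fun s _ => ?_
  rw [← Finset.sum_sub_distrib, Finset.mul_sum]

theorem prf (hCn : StCn2) (hSz : StSz) : StVa2 := by
  obtain ⟨C0, hC0, hcn⟩ := hCn
  refine ⟨256 * C0, by linarith, ?_⟩
  intro n r w0 ω e0 e1 Z u v B k P g0 st a b m W t hn hr1 hr2 hu huv hv hB1 hB2 hk hP1 hPn hPW hZ hW
    ha hWa hab ht hbt hbig
  have ht1 : (1 : ℝ) ≤ t := by exact_mod_cast ht.one_le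
  have ht0 : (0 : ℝ) ≤ t := by linarith
  have hb1 : (1 : ℝ) ≤ b := by exact_mod_cast le_trans ha hab
  have hbm : (1 : ℝ) ≤ (b : ℝ) ^ m := one_le_pow₀ hb1
  have htn : (t : ℝ) ≤ n ^ (1 / 200 : ℝ) := by
    refine le_trans ?_ hbig
    nlinarith
  have htP : t.Coprime P := prime_cop hPW ht (by omega)
  set I := (SS a b m).sigma (fun S => Z (qS S) t) with hI
  have hn0 : (0 : ℝ) ≤ n := by linarith
  set E : ℝ := C0 * n ^ (19 / 20 : ℝ) with hEdef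
  have hE0 : 0 ≤ E := by
    have : 0 ≤ n ^ (19 / 20 : ℝ) := Real.rpow_nonneg hn0 _
    rw [hEdef]; positivity
  have hpair : ∀ i ∈ I, ∀ j ∈ I, ∑ g ∈ (c3 n u v B k P g0).filter (fun g => t ∣ g + 2 * st),
      hh g ⌊n ^ 2 / (g : ℝ)⌋₊ i * hh g ⌊n ^ 2 / (g : ℝ)⌋₊ j ≤
    ((v : ℝ) - u) / (t * B * (P : ℝ) ^ 2) * (vS i.1 * vS j.1 / (Nat.lcm (qS i.1) (qS j.1) : ℝ) *
      (cor (qS i.1) (qS j.1) i.2 j.2 - 1 / (i.2.1 : ℝ) * (1 / (j.2.1 : ℝ)))) + 4 * E := by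
    intro i hi j hj
    refine pair_bound hC0 n w0 ω e0 e1 Z u v B k P g0 st a b m W t hSz ?_ hn hPW hZ hW ha hWa hab ht
      hbt hbig i j hi hj
    intro q q' z z' ρ ρ' h1 h2 h3 h4 h5 h6 h7 h8 p1 p2 p3 p4 h9 h10 h11 h12
    exact hcn n r u v B k P g0 st q q' t z z' ρ ρ' hn hr1 hr2 hu huv hv hB1 hB2 hk hP1 hPn h1 h2
      ht.one_le h3 h4 h5 h6 h7 h8 p1 p2 htP p3 p4 h9 h10 htn h11 h12
  have ee1 : ∑ g ∈ (c3 n u v B k P g0).filter (fun g => t ∣ g + 2 * st),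
      (Ntz Z a b m t g ⌊n ^ 2 / (g : ℝ)⌋₊ - Atz Z a b m t g) ^ 2 =
      ∑ i ∈ I, ∑ j ∈ I, ∑ g ∈ (c3 n u v B k P g0).filter (fun g => t ∣ g + 2 * st),
        hh g ⌊n ^ 2 / (g : ℝ)⌋₊ i * hh g ⌊n ^ 2 / (g : ℝ)⌋₊ j := by
    have h1 : ∀ g ∈ (c3 n u v B k P g0).filter (fun g => t ∣ g + 2 * st),
        (Ntz Z a b m t g ⌊n ^ 2 / (g : ℝ)⌋₊ - Atz Z a b m t g) ^ 2 =
        ∑ i ∈ I, ∑ j ∈ I, hh g ⌊n ^ 2 / (g : ℝ)⌋₊ i * hh g ⌊n ^ 2 / (g : ℝ)⌋₊ j := by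
      intro g _
      rw [dev_eq, pow_two, Finset.sum_mul_sum]
    rw [Finset.sum_congr rfl h1, Finset.sum_comm]
    refine Finset.sum_congr rfl fun i _ => ?_
    rw [Finset.sum_comm]
  rw [ee1]
  refine le_trans (Finset.sum_le_sum fun i hi => Finset.sum_le_sum fun j hj => hpair i hi j hj) ?_
  have ee2 : ∑ i ∈ I, ∑ j ∈ I, (((v : ℝ) - u) / (t * B * (P : ℝ) ^ 2) * (vS i.1 * vS j.1 /
      (Nat.lcm (qS i.1) (qS j.1) : ℝ) *
      (cor (qS i.1) (qS j.1) i.2 j.2 - 1 / (i.2.1 : ℝ) * (1 / (j.2.1 : ℝ)))) + 4 * E) =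
      ((v : ℝ) - u) / (t * B * (P : ℝ) ^ 2) * (∑ i ∈ I, ∑ j ∈ I, vS i.1 * vS j.1 /
      (Nat.lcm (qS i.1) (qS j.1) : ℝ) *
      (cor (qS i.1) (qS j.1) i.2 j.2 - 1 / (i.2.1 : ℝ) * (1 / (j.2.1 : ℝ)))) +
      (I.card : ℝ) ^ 2 * (4 * E) := by
    simp only [Finset.sum_add_distrib, Finset.sum_const, nsmul_eq_mul, Finset.mul_sum]
    ring
  rw [ee2, hI, main_eq]
  have ee3 : (I.card : ℝ) ≤ 8 * ((b : ℝ) ^ m * t) ^ 4 :=
    card_I hSz Z a b m W w0 ω e0 e1 hZ t ha hab ht.one_le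
  have ee4 : ((b : ℝ) ^ m * t) ^ 4 ≤ n ^ (1 / 50 : ℝ) := by
    have h1 : ((b : ℝ) ^ m * t) ^ 4 ≤ (n ^ (1 / 200 : ℝ)) ^ 4 :=
      pow_le_pow_left₀ (by positivity) hbig 4
    refine le_trans h1 (le_of_eq ?_)
    rw [← Real.rpow_natCast, ← Real.rpow_mul hn0]
    norm_num
  have ee5 : (I.card : ℝ) ≤ 8 * n ^ (1 / 50 : ℝ) := by linarith
  have ee6 : (I.card : ℝ) ^ 2 ≤ (8 * n ^ (1 / 50 : ℝ)) ^ 2 := pow_le_pow_left₀ (Nat.cast_nonneg _) ee5 2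
  have ee7 : (8 * n ^ (1 / 50 : ℝ)) ^ 2 * (4 * E) = 256 * C0 * n ^ (99 / 100 : ℝ) := by
    have h1 : n ^ (99 / 100 : ℝ) = (n ^ (1 / 50 : ℝ)) ^ 2 * n ^ (19 / 20 : ℝ) := by
      rw [← Real.rpow_natCast, ← Real.rpow_mul hn0, ← Real.rpow_add (by linarith)]
      norm_num
    rw [hEdef, h1]
    ring
  have ee8 : (I.card : ℝ) ^ 2 * (4 * E) ≤ 256 * C0 * n ^ (99 / 100 : ℝ) := by
    rw [← ee7]
    exact mul_le_mul_of_nonneg_right ee6 (by positivity)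
  rw [← hI]
  linarith

end Pool.Agent.Work.MP_a8fbd7_nt.PAR.RP.I_Va2
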