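import Pool.Agent.Work.MP_a8fbd7_nt.PAR.EF.Fin
import Pool.Agent.Work.MP_a8fbd7_nt.PAR.RP.I_Rh2
import Pool.Agent.Work.MP_a8fbd7_nt.PAR.RP.I_El2
import Pool.Agent.Work.MP_a8fbd7_nt.PAR.RP.I_Ct2
import Pool.Agent.Work.MP_a8fbd7_nt.PAR.RP.I_Fn2
import Pool.Agent.Work.MP_a8fbd7_nt.PAR.RP.I_Gp2
import Pool.Agent.Work.MP_a8fbd7_nt.PAR.RP.I_Fq2
import Pool.Agent.Work.MP_a8fbd7_nt.PAR.RP.I_Cn2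
import Pool.Agent.Work.MP_a8fbd7_nt.PAR.RP.I_Va2
import Pool.Agent.Work.MP_a8fbd7_nt.PAR.RP.I_Bn2
import Pool.Agent.Work.MP_a8fbd7_nt.PAR.RP.I_Un2
import Pool.Agent.Work.MP_a8fbd7_nt.PAR.RP.I_Ls
import Pool.Agent.Work.MP_a8fbd7_nt.PAR.RP.I_Um2

set_option autoImplicit false

/-!
MP_a8fbd7_nt, block RP: part S, without hypotheses.
-/

namespace Pool.Agent.Work.MP_a8fbd7_nt.PAR.RP

open Pool.Agent.Work.MP_a8fbd7_nt.PAR.LC Pool.Agent.Work.MP_a8fbd7_nt.PAR.EF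

theorem r_Ct2 : StCt2 := I_Ct2.prf I_Cap.prf
theorem r_Rh2 : StRh2 := I_Rh2.prf I_Cap.prf
theorem r_El2 : StEl2 := I_El2.prf I_Cap.prf r_Rh2
theorem r_Fn2 : StFn2 := I_Fn2.prf I_Rgh.prf r_Ct2 a_Har
theorem r_Gp2 : StGp2 := I_Gp2.prf a_Har
theorem r_Fq2 : StFq2 := I_Fq2.prf I_Rgh.prf r_Ct2 a_Har r_Gp2
theorem r_Cn2 : StCn2 := I_Cn2.prf e_EQE
theorem r_Va2 : StVa2 := I_Va2.prf r_Cn2 e_Sz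
theorem r_Bn2 : StBn2 := I_Bn2.prf r_Fn2 r_Fq2 e_SS e_Sz
theorem r_Un2 : StUn2 := I_Un2.prf r_El2 e_Sz
theorem r_Um2 : StUm2 := I_Um2.prf r_Va2 r_Bn2 r_Un2 I_Ls.prf

end Pool.Agent.Work.MP_a8fbd7_nt.PAR.RP
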