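import Pool.Agent.Work.MP_a8fbd7_nt.PAR.EF.StmtsX
import Pool.Agent.Work.MP_a8fbd7_nt.PAR.MR.StmtsB

set_option autoImplicit false

/-!
MP_a8fbd7_nt, block RP (rough parity below the root), captain helper95: definitions.

THEOREM RP: for every `w` and all `x ≥ x0(w)` the interval `[x, x + √x/(log x)^(1/100)]` contains at least `√x exp(-(log x)^(99/100))`
integers without prime factor `≤ w` of each sign of the Liouville function.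

`P` is always a squarefree number divisible by `6` (the primorial of `w`).  The link of the blocks LC, EF is used with `t U = q V + 2` in place of
`t U = q V + 1`, between `g` and `g + 2 i`, and with all eight factors `a1, a2, z, U, V, W, q, t` prime to `P`.  The cells are those with
`⌊n²/g⌋ ≡ 1 mod P` and fractional part `< 1/(2PJ)`; then `k0 = 0` and the local conditions are solvable for every step `i`.
-/

open Finset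

noncomputable section

namespace Pool.Agent.Work.MP_a8fbd7_nt.PAR.RP

open Pool.Agent.Work.MP_a8fbd7_nt.PAR.LC Pool.Agent.Work.MP_a8fbd7_nt.PAR.EF

/-! ### Pairs and sums -/

/-- The pairs `s = (z, ρ)` attached to `q, t`: as `Zs` of block LC, with `t ρ ≡ 2 z mod q`. -/
def Z2 (W : ℕ) (w0 ω e0 e1 : ℝ) (q t : ℕ) : Finset (ℕ × ℕ) :=
  ((range (q * t + 1)) ×ˢ (range (3 * q + 1))).filter (fun s =>
    e0 * q * t ≤ s.1 ∧ (s.1 : ℝ) ≤ e1 * q * t ∧ s.1.Coprime (primorial W) ∧ s.1.Coprime q ∧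
    w0 * q ≤ s.2 ∧ (s.2 : ℝ) ≤ (w0 + ω) * q ∧ t * s.2 ≡ 2 * s.1 [MOD q])

/-- `Z` is a family of subsets of `Z2` -/
def Sb (W : ℕ) (w0 ω e0 e1 : ℝ) (Z : ℕ → ℕ → Finset (ℕ × ℕ)) : Prop := ∀ q t : ℕ, Z q t ⊆ Z2 W w0 ω e0 e1 q t

/-- the members of `Z2` in the classes `cl q t` modulo `P` -/
def Zc (W P : ℕ) (w0 ω e0 e1 : ℝ) (cl : ℕ → ℕ → ℕ × ℕ) (q t : ℕ) : Finset (ℕ × ℕ) :=
  (Z2 W w0 ω e0 e1 q t).filter (fun s => s.1 ≡ (cl q t).1 [MOD P] ∧ s.2 ≡ (cl q t).2 [MOD P])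

/-- `∑ 1/z` -/
def Ez (Z : ℕ → ℕ → Finset (ℕ × ℕ)) (q t : ℕ) : ℝ := ∑ s ∈ Z q t, 1 / (s.1 : ℝ)

/-- the sum of the correlations (`cor`: block LC) -/
def Fz (Z : ℕ → ℕ → Finset (ℕ × ℕ)) (q t q' t' : ℕ) : ℝ := ∑ s ∈ Z q t, ∑ s' ∈ Z q' t', cor q q' s s'

/-- the part `ρ = ρ'` for `q = q'` -/
def Gz (Z : ℕ → ℕ → Finset (ℕ × ℕ)) (q t t' : ℕ) : ℝ :=
  ∑ s ∈ Z q t, ∑ s' ∈ (Z q t').filter (fun s' => s'.2 = s.2), (Nat.gcd s.1 s'.1 : ℝ) / ((s.1 : ℝ) * s'.1)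

/-- the number of pairs of `Z q t` with `z ∣ q M + ρ` -/
def nz (Z : ℕ → ℕ → Finset (ℕ × ℕ)) (q t M : ℕ) : ℝ := (((Z q t).filter (fun s => s.1 ∣ q * M + s.2)).card : ℝ)

/-- the weighted number of links at `g` with the given `t`; `q` runs over the products of at most `m` primes of `(a, b]` -/
def Ntz (Z : ℕ → ℕ → Finset (ℕ × ℕ)) (a b m t g M : ℕ) : ℝ :=
  ∑ S ∈ (SS a b m).filter (fun S => qS S ∣ g), vS S * nz Z (qS S) t M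

/-- its expectation -/
def Atz (Z : ℕ → ℕ → Finset (ℕ × ℕ)) (a b m t g : ℕ) : ℝ :=
  ∑ S ∈ (SS a b m).filter (fun S => qS S ∣ g), vS S * Ez Z (qS S) t

/-- the `g ≡ g0 mod P` of `[u, v]` in the cell `k` with `⌊n²/g⌋ ≡ 1 mod P` -/
def c3 (n : ℝ) (u v B k P g0 : ℕ) : Finset ℕ := cel2 (n ^ 2) u v P g0 P 1 B k

/-! ### Links -/

/-- A link datum `(q, t, z, ρ)`. -/
def Ln2 (w0 ω e0 e1 : ℝ) (q t z ρ : ℕ) : Prop :=
  1 ≤ q ∧ 2 ≤ t ∧ 1 ≤ z ∧ q.Coprime t ∧ z.Coprime q ∧ e0 * q * t ≤ z ∧ (z : ℝ) ≤ e1 * q * t ∧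
  w0 * q ≤ ρ ∧ (ρ : ℝ) ≤ (w0 + ω) * q ∧ t * ρ ≡ 2 * z [MOD q]

/-- Local conditions: `z`, `U`, `V`, `W` are prime to `P` (see `StCo2`).  `M` is `⌊n²/g⌋`; `g`, `M`, `z`, `ρ` matter only modulo `P`. -/
def Un (P g M i q t z ρ : ℕ) : Prop :=
  z.Coprime P ∧ (q * M + ρ).Coprime P ∧ IsCoprime ((t : ℤ) * ((q : ℤ) * M + ρ) - 2 * z) (P : ℤ) ∧
  IsCoprime ((z : ℤ) * ((g : ℤ) + 2 * i) - (t : ℤ) * i * ρ) (P : ℤ)

/-- `cl q t` is a solution of the local conditions for `g ≡ g0`, `M ≡ 1 mod P` -/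
def ClOK (P g0 i : ℕ) (cl : ℕ → ℕ → ℕ × ℕ) : Prop := ∀ q t : ℕ, q.Coprime P → t.Coprime P → Un P g0 1 i q t (cl q t).1 (cl q t).2

/-- `g` has a link of the block `r`, cell `k`, with `q t ≤ N`, to `g + 2 i` -/
def LkR (n c r : ℝ) (N B k P i g : ℕ) : Prop := ∃ q t z ρ : ℕ, q * t ≤ N ∧
  Ln2 (((k : ℝ) + 1) / B + 17 / 20 * c / r) (c / (25 * r)) (c / (5 * r)) (21 * c / (100 * r)) q t z ρ ∧
  q ∣ g ∧ t ∣ g + 2 * i ∧ z ∣ q * ⌊n ^ 2 / (g : ℝ)⌋₊ + ρ ∧ Un P g ⌊n ^ 2 / (g : ℝ)⌋₊ i q t z ρ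

/-- The conditions on the parameters (`Pa`: block EF). -/
structure PaR (P : ℕ) (n c : ℝ) (J B W K0 K1 K2 K3 m : ℕ) : Prop where
  pa : Pa n c J B W K0 K1 K2 K3 m
  P6 : 6 ∣ P
  P0 : 1 ≤ P
  Psq : Squarefree P
  PW : P ∣ primorial W
  W2 : 3 ≤ W
  Pn : (P : ℝ) ≤ n ^ (1 / 400 : ℝ)
  PJ : 24 * P ^ 4 ≤ J
  K0m' : 4 * ((m : ℝ) + 1) * P * (47500 * J / c ^ 2) ≤ K0
  K12' : 6 * (K1 : ℝ) ^ (2 * m) * (95000 * J / c ^ 2) ≤ K2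
  PK' : 12 * (primorial W : ℝ) * (95000 * J / c ^ 2) ≤ K2

/-! ### Exceptions -/

/-- the exceptions prime to `P` -/
def ExR (P : ℕ) (f : ℕ → ℤ) (F : ℤ) (n c : ℝ) : Finset ℕ := (Ex f F n c).filter (fun m => m.Coprime P)

/-- the divisor weight of the exceptions -/
def DvR (P : ℕ) (f : ℕ → ℤ) (F : ℤ) (n c : ℝ) : ℝ := ∑ m ∈ ExR P f F n c, (m.divisors.card : ℝ)

/-- `g` is attached to some element of `E` by data bounded by `N` (links to `g + 2 i`) -/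
def AtR (N : ℕ) (E : Finset ℕ) (i g : ℕ) : Prop := ∃ q t z m : ℕ, 1 ≤ q ∧ q ≤ N ∧ 1 ≤ t ∧ t ≤ N ∧ 1 ≤ z ∧ z ≤ N ∧ q * t ≤ N ∧ m ∈ E ∧
  Att q t z (2 * i) g m

/-- the least `i ≥ 1` with `m + i` prime to `P` -/
def nxi (P m : ℕ) : ℕ := sInf {i : ℕ | 1 ≤ i ∧ (m + i).Coprime P}

/-- the next integer prime to `P` -/
def nx (P m : ℕ) : ℕ := m + nxi P m

open Classical in
/-- The bad `g`: `g` is prime to `P`, `⌊n²/g⌋ ≡ 1 mod P`, the fractional part of `n²/g` is `< 1/(2PJ)`, and `f g ≠ f (g + 2 i)` for some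
`1 ≤ i`, `2 i ≤ P` with `g + 2 i` prime to `P`. -/
def BdR (P : ℕ) (f : ℕ → ℤ) (n R : ℝ) (J : ℕ) : Finset ℕ :=
  (Icc ⌈R * n⌉₊ ⌊9 * R * n⌋₊).filter (fun g => g.Coprime P ∧ ⌊n ^ 2 / (g : ℝ)⌋₊ ≡ 1 [MOD P] ∧
    n ^ 2 / (g : ℝ) - ⌊n ^ 2 / (g : ℝ)⌋₊ < 1 / (2 * (P : ℝ) * J) ∧
    ∃ i : ℕ, 1 ≤ i ∧ 2 * i ≤ P ∧ (g + 2 * i).Coprime P ∧ f g ≠ f (g + 2 * i))

/-- The prime `p` is aligned to `m`: `M = ⌊n²/m⌋` has `M % p` in `[p/(2 J1), p/J1 - 1]` and `M / p ≡ 1 mod P`; here `J1 = 2 P J`. -/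
def AlR (n : ℝ) (P J1 p m : ℕ) : Prop := (p : ℝ) / (2 * J1) ≤ ((⌊n ^ 2 / (m : ℝ)⌋₊ % p : ℕ) : ℝ) ∧
  ((⌊n ^ 2 / (m : ℝ)⌋₊ % p : ℕ) : ℝ) + 1 ≤ (p : ℝ) / J1 ∧ ⌊n ^ 2 / (m : ℝ)⌋₊ / p ≡ 1 [MOD P]

/-- the size of the multipliers -/
def yJ (J : ℕ) : ℕ := ⌊(J : ℝ) ^ (7 / 4 : ℝ)⌋₊

/-- the mean number of aligned primes of `(y, 4y]` (`np`: block EF) -/
def muR (P J1 y : ℕ) : ℝ := ∑ p ∈ Pr y (4 * y), (np J1 p : ℝ) / ((p : ℝ) * P)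

/-! ### Conclusions -/

/-- At most half of the `x` in `[X, 2X)` have `lam` constant on the integers prime to `P` of `[x, x + h0)`. -/
def MRr (P : ℕ) : Prop := ∃ h0 X0 : ℕ, 1 ≤ h0 ∧ ∀ X : ℕ, X0 ≤ X →
  2 * ((Ico X (2 * X)).filter (fun x => ∀ a < h0, ∀ b < h0, (x + a).Coprime P → (x + b).Coprime P →
    LC.lam (x + a) = LC.lam (x + b))).card ≤ X

/-- A positive proportion of changes of sign between neighbouring integers prime to `P`. -/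
def ChgR (P : ℕ) : Prop := ∃ (c : ℝ) (X0 : ℕ), 0 < c ∧ ∀ X : ℕ, X0 ≤ X →
  c * X ≤ (((Ico X (2 * X)).filter (fun x => x.Coprime P ∧ LC.lam x ≠ LC.lam (nx P x))).card : ℝ)

/-- THEOREM RP for `P`: for all large `x` the interval `[x, x + √x/(log x)^(1/100)]` contains at least `√x exp(-(log x)^(99/100))` integers prime
to `P` of each sign of the Liouville function. -/
def ThmRP (P : ℕ) : Prop := ∃ x0 : ℝ, ∀ x : ℝ, x0 ≤ x → ∀ s : ℤ, s = 1 ∨ s = -1 →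
  Real.sqrt x * Real.exp (-(Real.log x ^ (99 / 100 : ℝ))) ≤
    (((Icc ⌈x⌉₊ ⌊x + Real.sqrt x / Real.log x ^ (1 / 100 : ℝ)⌋₊).filter
      (fun m => ArithmeticFunction.liouville m = s ∧ m.Coprime P)).card : ℝ)

end Pool.Agent.Work.MP_a8fbd7_nt.PAR.RP
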