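import Pool.Agent.Work.MP_a8fbd7_nt.PAR.RP.StmtsS
import Pool.Agent.Work.MP_a8fbd7_nt.PAR.LC.I_PmC

set_option autoImplicit false

/-!
MP_a8fbd7_nt, block RP, item Cn2: joint counts with classes modulo `P`.
-/

open Finset

noncomputable section

namespace Pool.Agent.Work.MP_a8fbd7_nt.PAR.RP.I_Cn2

open Pool.Agent.Work.MP_a8fbd7_nt.PAR.RP Pool.Agent.Work.MP_a8fbd7_nt.PAR.LC
open Pool.Agent.Work.MP_a8fbd7_nt.PAR.EF

/-- the conditions on `g` are one class -/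
theorem cls (q q' t i P g0 : ℕ) (ht : 1 ≤ t) (h1 : q.Coprime t)
    (h2 : q'.Coprime t) (h3 : q.Coprime P) (h4 : q'.Coprime P) (h5 : t.Coprime P) :
    ∃ x0 : ℕ, ∀ g : ℕ, (g ≡ g0 [MOD P] ∧ q ∣ g ∧ q' ∣ g ∧ t ∣ g + 2 * i) ↔
      g ≡ x0 [MOD Nat.lcm q q' * t * P] := by
  have hcop : Nat.Coprime (Nat.lcm q q') t :=
    Nat.Coprime.coprime_dvd_left (Nat.lcm_dvd_mul q q') (Nat.Coprime.mul_left h1 h2)
  have hcop2 : Nat.Coprime (Nat.lcm q q' * t) P :=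
    Nat.Coprime.mul_left
      (Nat.Coprime.coprime_dvd_left (Nat.lcm_dvd_mul q q') (Nat.Coprime.mul_left h3 h4)) h5
  obtain ⟨c, hc1, hc2⟩ := Nat.chineseRemainder hcop 0 (t * (2 * i) - 2 * i)
  obtain ⟨x0, hx1, hx2⟩ := Nat.chineseRemainder hcop2 c g0
  refine ⟨x0, fun g => ?_⟩
  have hle : 2 * i ≤ t * (2 * i) := Nat.le_mul_of_pos_left _ ht
  have hc3 : t ∣ c + 2 * i := by
    have h5 : c + 2 * i ≡ t * (2 * i) - 2 * i + 2 * i [MOD t] := Nat.ModEq.add_right _ hc2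
    rw [Nat.sub_add_cancel hle] at h5
    exact Nat.modEq_zero_iff_dvd.1 (h5.trans (Nat.modEq_zero_iff_dvd.2 (dvd_mul_right t _)))
  have hc4 : Nat.lcm q q' ∣ c := Nat.modEq_zero_iff_dvd.1 hc1
  have key : (q ∣ g ∧ q' ∣ g ∧ t ∣ g + 2 * i) ↔ g ≡ c [MOD Nat.lcm q q' * t] := by
    rw [← Nat.modEq_and_modEq_iff_modEq_mul hcop]
    constructor
    · rintro ⟨g1, g2, g3⟩
      refine ⟨?_, ?_⟩
      · exact (Nat.modEq_zero_iff_dvd.2 (Nat.lcm_dvd g1 g2)).trans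
          (Nat.modEq_zero_iff_dvd.2 hc4).symm
      · have h7 : g + 2 * i ≡ c + 2 * i [MOD t] :=
          (Nat.modEq_zero_iff_dvd.2 g3).trans (Nat.modEq_zero_iff_dvd.2 hc3).symm
        exact Nat.ModEq.add_right_cancel' _ h7
    · rintro ⟨g1, g2⟩
      have h8 : Nat.lcm q q' ∣ g :=
        Nat.modEq_zero_iff_dvd.1 (g1.trans (Nat.modEq_zero_iff_dvd.2 hc4))
      have h9 : t ∣ g + 2 * i := Nat.modEq_zero_iff_dvd.1
        ((Nat.ModEq.add_right _ g2).trans (Nat.modEq_zero_iff_dvd.2 hc3))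
      exact ⟨(Nat.dvd_lcm_left q q').trans h8, (Nat.dvd_lcm_right q q').trans h8, h9⟩
  rw [key, ← Nat.modEq_and_modEq_iff_modEq_mul hcop2]
  constructor
  · rintro ⟨g1, g2⟩
    exact ⟨g2.trans hx1.symm, g1.trans hx2.symm⟩
  · rintro ⟨g1, g2⟩
    exact ⟨g2.trans hx2, g1.trans hx1⟩

theorem mem_cl (n : ℝ) (u v D x0 Z M0 B k g : ℕ) : g ∈ cel2 (n ^ 2) u v D x0 Z M0 B k ↔
    g ∈ Icc u v ∧ g ≡ x0 [MOD D] ∧ ⌊n ^ 2 / (g : ℝ)⌋₊ ≡ M0 [MOD Z] ∧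
      (k : ℝ) / B ≤ n ^ 2 / g - ⌊n ^ 2 / (g : ℝ)⌋₊ ∧
      n ^ 2 / g - ⌊n ^ 2 / (g : ℝ)⌋₊ < ((k : ℝ) + 1) / B := by
  unfold cel2
  rw [mem_filter]

theorem mem_c3 (n : ℝ) (u v B k P g0 g : ℕ) : g ∈ c3 n u v B k P g0 ↔
    g ∈ Icc u v ∧ g ≡ g0 [MOD P] ∧ ⌊n ^ 2 / (g : ℝ)⌋₊ ≡ 1 [MOD P] ∧
      (k : ℝ) / B ≤ n ^ 2 / g - ⌊n ^ 2 / (g : ℝ)⌋₊ ∧
      n ^ 2 / g - ⌊n ^ 2 / (g : ℝ)⌋₊ < ((k : ℝ) + 1) / B := by
  unfold c3
  rw [mem_cl]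

theorem lcm_inv (z z' : ℕ) (hz : 1 ≤ z) (hz' : 1 ≤ z') :
    (Nat.gcd z z' : ℝ) / ((z : ℝ) * z') = 1 / (Nat.lcm z z' : ℝ) := by
  have e1 : (Nat.gcd z z' : ℝ) * (Nat.lcm z z' : ℝ) = (z : ℝ) * z' := by
    exact_mod_cast Nat.gcd_mul_lcm z z'
  have e3 : (z : ℝ) ≠ 0 := by exact_mod_cast (by omega : z ≠ 0)
  have e4 : (z' : ℝ) ≠ 0 := by exact_mod_cast (by omega : z' ≠ 0)
  have e2 : (Nat.lcm z z' : ℝ) ≠ 0 := by
    intro h
    rw [h, mul_zero] at e1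
    exact mul_ne_zero e3 e4 e1.symm
  have e5 : (Nat.gcd z z' : ℝ) ≠ 0 := by
    intro h
    rw [h, zero_mul] at e1
    exact mul_ne_zero e3 e4 e1.symm
  rw [← e1]
  field_simp

theorem cor_nonneg (q q' : ℕ) (s s' : ℕ × ℕ) : 0 ≤ cor q q' s s' := by
  unfold cor
  split_ifs
  · positivity
  · exact le_rfl

theorem prf (hEQ : StEQE) : StCn2 := by
  obtain ⟨C, hC, hE⟩ := hEQ
  refine ⟨C, hC, ?_⟩
  intro n r u v B k P g0 i q q' t z z' ρ ρ' hn hr1 hr2 hu huv hv hB hB2 hk hP hPn hq hq' ht hz hz'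
    h1 h2 h3 h4 hqP hqP' htP hzP hzP' bq bq' bt bz bz'
  obtain ⟨x0, hx0⟩ := cls q q' t i P g0 ht h1 h2 hqP hqP' htP
  have hn0 : (0 : ℝ) ≤ n := by linarith
  have hn0' : (0 : ℝ) < n := by linarith
  have hL : 1 ≤ Nat.lcm q q' := Nat.lcm_pos hq hq'
  have hD : 1 ≤ Nat.lcm q q' * t * P := Nat.mul_pos (Nat.mul_pos hL ht) hP
  have hLle : (Nat.lcm q q' : ℝ) ≤ q * q' := by
    exact_mod_cast Nat.le_of_dvd (Nat.mul_pos hq hq') (Nat.lcm_dvd_mul q q')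
  have hP0 : (0 : ℝ) ≤ n ^ (1 / 200 : ℝ) := Real.rpow_nonneg hn0 _
  have hP1 : (0 : ℝ) ≤ n ^ (1 / 400 : ℝ) := Real.rpow_nonneg hn0 _
  have hpow3 : n ^ (1 / 200 : ℝ) * n ^ (1 / 200 : ℝ) * n ^ (1 / 200 : ℝ) * n ^ (1 / 400 : ℝ) ≤
      n ^ (1 / 50 : ℝ) := by
    rw [← Real.rpow_add hn0', ← Real.rpow_add hn0', ← Real.rpow_add hn0']
    exact Real.rpow_le_rpow_of_exponent_le hn (by norm_num)
  have hpow2 : n ^ (1 / 200 : ℝ) * n ^ (1 / 200 : ℝ) * n ^ (1 / 400 : ℝ) ≤ n ^ (1 / 50 : ℝ) := by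
    rw [← Real.rpow_add hn0', ← Real.rpow_add hn0']
    exact Real.rpow_le_rpow_of_exponent_le hn (by norm_num)
  have hpow1 : n ^ (1 / 200 : ℝ) * n ^ (1 / 400 : ℝ) ≤ n ^ (1 / 50 : ℝ) := by
    rw [← Real.rpow_add hn0']
    exact Real.rpow_le_rpow_of_exponent_le hn (by norm_num)
  have hpow0 : n ^ (1 / 400 : ℝ) ≤ n ^ (1 / 50 : ℝ) :=
    Real.rpow_le_rpow_of_exponent_le hn (by norm_num)
  have hDle : ((Nat.lcm q q' * t * P : ℕ) : ℝ) ≤ n ^ (1 / 50 : ℝ) := by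
    push_cast
    refine le_trans ?_ hpow3
    exact mul_le_mul (mul_le_mul (hLle.trans (mul_le_mul bq bq' (by positivity) hP0)) bt
      (by positivity) (by positivity)) hPn (by positivity) (by positivity)
  have hDcast : ((Nat.lcm q q' * t * P : ℕ) : ℝ) = (Nat.lcm q q' : ℝ) * t * P := by push_cast; rfl
  have hX : (0 : ℝ) ≤ (v : ℝ) - u := by
    have : (u : ℝ) ≤ v := by exact_mod_cast huv
    linarith
  have hLr : (0 : ℝ) < (Nat.lcm q q' : ℝ) := by exact_mod_cast hL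
  have htr : (0 : ℝ) < (t : ℝ) := by exact_mod_cast ht
  have hBr : (0 : ℝ) < (B : ℝ) := by exact_mod_cast hB
  have hPr : (0 : ℝ) < (P : ℝ) := by exact_mod_cast hP
  refine ⟨?_, ?_, ?_⟩
  · have h := hE n r u v (Nat.lcm q q' * t * P) x0 P 1 B k hn hr1 hr2 hu huv hv hD hDle hP
      (hPn.trans hpow0) hB hB2 hk
    have hset : (c3 n u v B k P g0).filter (fun g => q ∣ g ∧ q' ∣ g ∧ t ∣ g + 2 * i) =
        cel2 (n ^ 2) u v (Nat.lcm q q' * t * P) x0 P 1 B k := by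
      ext g
      rw [mem_filter, mem_c3, mem_cl, ← hx0]
      tauto
    rw [hset]
    have h5 := (abs_le.1 h).2
    have e : ((v : ℝ) - u) / ((Nat.lcm q q' : ℝ) * t * B * (P : ℝ) ^ 2) =
        ((v : ℝ) - u) / (((Nat.lcm q q' * t * P : ℕ) : ℝ) * P * B) := by
      rw [hDcast]
      congr 1
      ring
    rw [e]
    linarith
  · obtain ⟨M1, hM1⟩ := LC.I_PmC.sol q z ρ hz h3
    obtain ⟨M0, hM0a, hM0b⟩ := Nat.chineseRemainder hzP M1 1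
    have hM0 : ∀ M, (M ≡ 1 [MOD P] ∧ z ∣ q * M + ρ) ↔ M ≡ M0 [MOD z * P] := by
      intro M
      rw [← Nat.modEq_and_modEq_iff_modEq_mul hzP, hM1]
      constructor
      · rintro ⟨a, b⟩
        exact ⟨b.trans hM0a.symm, a.trans hM0b.symm⟩
      · rintro ⟨a, b⟩
        exact ⟨b.trans hM0b, a.trans hM0a⟩
    have hzPle : ((z * P : ℕ) : ℝ) ≤ n ^ (1 / 50 : ℝ) := by
      push_cast
      exact (mul_le_mul bz hPn (by positivity) hP0).trans hpow1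
    have h := hE n r u v (Nat.lcm q q' * t * P) x0 (z * P) M0 B k hn hr1 hr2 hu huv hv hD hDle
      (Nat.mul_pos hz hP) hzPle hB hB2 hk
    have hset : (c3 n u v B k P g0).filter (fun g => q ∣ g ∧ q' ∣ g ∧ t ∣ g + 2 * i ∧
        z ∣ q * ⌊n ^ 2 / (g : ℝ)⌋₊ + ρ) =
        cel2 (n ^ 2) u v (Nat.lcm q q' * t * P) x0 (z * P) M0 B k := by
      ext g
      rw [mem_filter, mem_c3, mem_cl, ← hx0, ← hM0]
      tauto
    rw [hset]
    have h5 := (abs_le.1 h).1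
    have hzr : (0 : ℝ) < (z : ℝ) := by exact_mod_cast hz
    have e : ((v : ℝ) - u) / ((Nat.lcm q q' : ℝ) * t * B * (P : ℝ) ^ 2) / z =
        ((v : ℝ) - u) / (((Nat.lcm q q' * t * P : ℕ) : ℝ) * ((z * P : ℕ) : ℝ) * B) := by
      rw [hDcast, div_div]
      congr 1
      push_cast
      ring
    rw [e]
    linarith
  · rcases ((c3 n u v B k P g0).filter (fun g => q ∣ g ∧ q' ∣ g ∧ t ∣ g + 2 * i ∧
        z ∣ q * ⌊n ^ 2 / (g : ℝ)⌋₊ + ρ ∧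
        z' ∣ q' * ⌊n ^ 2 / (g : ℝ)⌋₊ + ρ')).eq_empty_or_nonempty with h0 | ⟨g0', hg0⟩
    · rw [h0]
      simp only [card_empty, Nat.cast_zero]
      have := cor_nonneg q q' (z, ρ) (z', ρ')
      have hCn : 0 ≤ C * n ^ (19 / 20 : ℝ) :=
        mul_nonneg (by linarith) (Real.rpow_nonneg hn0 _)
      positivity
    · obtain ⟨m0, -, -, -, m1, m2⟩ := mem_filter.1 hg0
      obtain ⟨-, -, m3, -, -⟩ := (mem_c3 _ _ _ _ _ _ _ _).1 m0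
      obtain ⟨M0, hM0def⟩ : ∃ M0 : ℕ, M0 = ⌊n ^ 2 / (g0' : ℝ)⌋₊ := ⟨_, rfl⟩
      rw [← hM0def] at m1 m2 m3
      obtain ⟨s, hs⟩ := LC.I_PmC.sol q z ρ hz h3
      obtain ⟨s', hs'⟩ := LC.I_PmC.sol q' z' ρ' hz' h4
      have hlc : 1 ≤ Nat.lcm z z' := Nat.lcm_pos hz hz'
      have hlcP : Nat.Coprime (Nat.lcm z z') P :=
        Nat.Coprime.coprime_dvd_left (Nat.lcm_dvd_mul z z') (Nat.Coprime.mul_left hzP hzP')
      have hlcle : ((Nat.lcm z z' * P : ℕ) : ℝ) ≤ n ^ (1 / 50 : ℝ) := by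
        have a1 : (Nat.lcm z z' : ℝ) ≤ z * z' := by
          exact_mod_cast Nat.le_of_dvd (Nat.mul_pos hz hz') (Nat.lcm_dvd_mul z z')
        push_cast
        exact (mul_le_mul (a1.trans (mul_le_mul bz bz' (by positivity) hP0)) hPn (by positivity)
          (by positivity)).trans hpow2
      have h := hE n r u v (Nat.lcm q q' * t * P) x0 (Nat.lcm z z' * P) M0 B k hn hr1 hr2 hu huv hv
        hD hDle (Nat.mul_pos hlc hP) hlcle hB hB2 hk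
      have hsub : (c3 n u v B k P g0).filter (fun g => q ∣ g ∧ q' ∣ g ∧ t ∣ g + 2 * i ∧
          z ∣ q * ⌊n ^ 2 / (g : ℝ)⌋₊ + ρ ∧ z' ∣ q' * ⌊n ^ 2 / (g : ℝ)⌋₊ + ρ') ⊆
          cel2 (n ^ 2) u v (Nat.lcm q q' * t * P) x0 (Nat.lcm z z' * P) M0 B k := by
        intro g hg
        obtain ⟨b0, b1, b2, b3, b4, b5⟩ := mem_filter.1 hg
        obtain ⟨d0, d1, d2, d3, d4⟩ := (mem_c3 _ _ _ _ _ _ _ _).1 b0
        rw [mem_cl, ← hx0]
        refine ⟨d0, ⟨d1, b1, b2, b3⟩, ?_, d3, d4⟩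
        rw [← Nat.modEq_and_modEq_iff_modEq_mul hlcP]
        refine ⟨?_, d2.trans m3.symm⟩
        have a1 : ⌊n ^ 2 / (g : ℝ)⌋₊ ≡ M0 [MOD z] := ((hs _).1 b4).trans ((hs M0).1 m1).symm
        have a2 : ⌊n ^ 2 / (g : ℝ)⌋₊ ≡ M0 [MOD z'] := ((hs' _).1 b5).trans ((hs' M0).1 m2).symm
        rw [Nat.modEq_iff_dvd] at a1 a2 ⊢
        rw [Int.natCast_dvd] at a1 a2 ⊢
        exact Nat.lcm_dvd a1 a2
      have hg : ((Nat.gcd z z' : ℕ) : ℤ) ∣ (q' : ℤ) * ρ - q * ρ' := by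
        have g1 : ((Nat.gcd z z' : ℕ) : ℤ) ∣ (q : ℤ) * M0 + ρ := by
          have := (Nat.gcd_dvd_left z z').trans m1
          exact_mod_cast this
        have g2 : ((Nat.gcd z z' : ℕ) : ℤ) ∣ (q' : ℤ) * M0 + ρ' := by
          have := (Nat.gcd_dvd_right z z').trans m2
          exact_mod_cast this
        have e : (q' : ℤ) * ρ - q * ρ' =
            q' * ((q : ℤ) * M0 + ρ) - q * ((q' : ℤ) * M0 + ρ') := by ring
        rw [e]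
        exact dvd_sub (g1.mul_left _) (g2.mul_left _)
      have hcor : cor q q' (z, ρ) (z', ρ') = 1 / (Nat.lcm z z' : ℝ) := by
        unfold cor
        rw [if_pos hg]
        exact lcm_inv z z' hz hz'
      have h5 := (abs_le.1 h).2
      have h6 : (((c3 n u v B k P g0).filter (fun g => q ∣ g ∧ q' ∣ g ∧ t ∣ g + 2 * i ∧
          z ∣ q * ⌊n ^ 2 / (g : ℝ)⌋₊ + ρ ∧ z' ∣ q' * ⌊n ^ 2 / (g : ℝ)⌋₊ + ρ')).card : ℝ) ≤
          ((cel2 (n ^ 2) u v (Nat.lcm q q' * t * P) x0 (Nat.lcm z z' * P) M0 B k).card : ℝ) := by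
        exact_mod_cast card_le_card hsub
      have e : ((v : ℝ) - u) / ((Nat.lcm q q' : ℝ) * t * B * (P : ℝ) ^ 2) *
          (1 / (Nat.lcm z z' : ℝ)) =
          ((v : ℝ) - u) / (((Nat.lcm q q' * t * P : ℕ) : ℝ) * ((Nat.lcm z z' * P : ℕ) : ℝ) * B) := by
        rw [hDcast, mul_one_div, div_div]
        congr 1
        push_cast
        ring
      rw [hcor, e]
      linarith

end Pool.Agent.Work.MP_a8fbd7_nt.PAR.RP.I_Cn2
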