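import Pool.Agent.Work.MP_a8fbd7_nt.PAR.RP.StmtsS

set_option autoImplicit false

/-!
MP_a8fbd7_nt, block RP, part K (link, exceptions, parameters, chain, end), captain helper95.  The docstring of each statement is its complete
proof.  An item is `theorem prf (h1 : StA) ... : StNAME` in `PAR/RP/I_NAME.lean` (namespace `...PAR.RP.I_NAME`, import this file).
-/

open Finset

noncomputable section

namespace Pool.Agent.Work.MP_a8fbd7_nt.PAR.RP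

open Pool.Agent.Work.MP_a8fbd7_nt.PAR Pool.Agent.Work.MP_a8fbd7_nt.PAR.LC Pool.Agent.Work.MP_a8fbd7_nt.PAR.EF

/-! ## The link -/

/-- ITEM In2 (EASY-MEDIUM; integrality; copy of `LC/I_Int.lean`).  `A = qM + ρ = zU`, `U ≥ 1`, `tU ≥ 2`.  `tA ≡ tρ ≡ 2z mod q`, so `z(tU - 2) ≡ 0 mod q` and `gcd(z,q) = 1`: `tU = qV + 2`.
`q(a1 - iV) = g - i(tU - 2) = (g + 2i) - itU ≡ 0 mod t`, `gcd(q,t) = 1`, so `a1 - iV = t b` with an integer `b`; `W = zb + iM`. -/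
def StIn2 : Prop := ∀ g i q t z ρ M : ℕ, 1 ≤ q → 2 ≤ t → 1 ≤ z → q.Coprime t → z.Coprime q → t * ρ ≡ 2 * z [MOD q] →
  q ∣ g → t ∣ g + 2 * i → z ∣ q * M + ρ → 1 ≤ q * M + ρ →
  ∃ (U V a1 a2 : ℕ) (W : ℤ), g = q * a1 ∧ g + 2 * i = t * a2 ∧ q * M + ρ = z * U ∧ t * U = q * V + 2 ∧
    (t : ℤ) * W = z * ((a1 : ℤ) - i * V) + t * (i * M)

/-- ITEM Co2 (EASY; all factors are prime to `P`).  `a1, q ∣ g`, `a2, t ∣ g + 2i`, `U ∣ qM + ρ`.  `q z V = z(tU - 2) = t(qM + ρ) - 2z`, and `q t W = q z(a1 - iV) + q t i M = z(g - i(tU - 2)) + qtiM = z(g + 2i) - it(zU) + qtiM = z(g + 2i) - t i ρ`.  A divisor of an integer prime to `P` is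
prime to `P`. -/
def StCo2 : Prop := ∀ (P g i q t z ρ M U V a1 a2 : ℕ) (W : ℤ), 1 ≤ q → 1 ≤ t → 1 ≤ z → g = q * a1 → g + 2 * i = t * a2 →
  q * M + ρ = z * U → t * U = q * V + 2 → (t : ℤ) * W = z * ((a1 : ℤ) - i * V) + t * (i * M) →
  g.Coprime P → (g + 2 * i).Coprime P → Un P g M i q t z ρ →
  q.Coprime P ∧ t.Coprime P ∧ z.Coprime P ∧ a1.Coprime P ∧ a2.Coprime P ∧ U.Coprime P ∧ V.Coprime P ∧ IsCoprime W (P : ℤ)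

/-- ITEM Lk2 (MEDIUM; the link with exceptions; copy of `LC/I_LkD.lean`; hypotheses: StAlg, StIn2, StCo2, StTau, StPos).  `y = n²/g`, `M = ⌊y⌋`, `θ = y - M`, `u = ρ/q - θ`, `e = 2z/(qt)`, `A = qM + ρ`, so `A/q = y + u`.  `ρ/q ∈ [w0, w0 + c/(25r)]` with
`w0 = (k+1)/B + 17c/(20r)` and `θ ∈ [k/B, (k+1)/B)` give `a0 c/r ≤ u ≤ (a0 + 9/200) c/r`, `a0 = 17/20`; `2c/(5r) ≤ e ≤ 21c/(50r)`.  StIn2 gives `U, V, a1, a2, W`.  `v := zV/t = z(tU - 2)/(qt) = A/q - e = y + u - e`;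
`τ := iM - iv = -iθ - iu + ie`, and `W = z a1/t - i zV/t + iM = z g/(qt) + τ = ge/2 + τ`.  StTau with `j := 2i`, `k0 := 0`: `2τ` is its expression; `|0 - 2i k/B| ≤ 1/J`; so `-27c²/200 ≤ 2τ ≤ c²/100` (as `0 - 2i k/B ≤ 0`).
`a1 z U = gA/q = g(y+u)`; `tUW = (tA/z) W = (y+u)(2W)/e = (y+u)(ge + 2τ)/e`; `qVW = (qt/z) v W = v(ge + 2τ)/e`; `a2 z V = (g+2i) zV/t = (g+2i)v`.  StPos with `j := 2i`, `τ := 2τ`, `a0 = 17/20`: all four lie in `[n², n² + cn]` and are positive, so `W ≥ 1`, `V ≥ 1`.  By StCo2 all four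
products are prime to `P`.  If all four have `f = F` then StAlg (with `j := 2i`).  Otherwise one of them, `m`, is in `ExR`, and it is divisible by `a1`, `a2` or `W` (`g = q a1`, `g + 2i = t a2`, `|g z/(qt) - W| = |τ| ≤ 1`): `Att`. -/
def StLk2 : Prop := ∀ (f : ℕ → ℤ) (F : ℤ) (c r n : ℝ) (J B P k g i q t z ρ : ℕ), Sgn f →
  0 < c → c ≤ 1 → 8 / c ^ 2 ≤ J → 200 * J / c ≤ r → 200 * r / c ≤ B → 1000 * J * r / c ^ 2 ≤ n → 1 ≤ i → 2 * i ≤ J →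
  r * n ≤ g → (g : ℝ) ≤ 21 / 20 * r * n → 2 * (i : ℝ) * (k / B) ≤ 1 / J →
  (k : ℝ) / B ≤ n ^ 2 / g - ⌊n ^ 2 / (g : ℝ)⌋₊ → n ^ 2 / g - ⌊n ^ 2 / (g : ℝ)⌋₊ < ((k : ℝ) + 1) / B →
  Ln2 (((k : ℝ) + 1) / B + 17 / 20 * c / r) (c / (25 * r)) (c / (5 * r)) (21 * c / (100 * r)) q t z ρ →
  q ∣ g → t ∣ g + 2 * i → z ∣ q * ⌊n ^ 2 / (g : ℝ)⌋₊ + ρ → g.Coprime P → (g + 2 * i).Coprime P →
  Un P g ⌊n ^ 2 / (g : ℝ)⌋₊ i q t z ρ → f g = f (g + 2 * i) ∨ ∃ m ∈ ExR P f F n c, Att q t z (2 * i) g m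

open Classical in
/-- ITEM LkZ (EASY-MEDIUM; copy of `EF/I_LkY.lean`; hypotheses: StLk2).  `200 r/c ≤ 380000 J/c² ≤ B`, `1000 J r/c² ≤ 1.9·10⁶ J²/c³ ≤ n` by `s2`, `2i ≤ P ≤ J` by `PJ`, `2i k/B ≤ P (B/(2PJ))/B = 1/(2J)`; the link gives `1 ≤ q, t, z`, `q t ≤ N` (so `q, t ≤ N`) and `z ≤ e1 q t ≤ q t ≤ N`. -/
def StLkZ : Prop := ∀ (f : ℕ → ℤ) (F : ℤ) (n c r : ℝ) (P J B W K0 K1 K2 K3 m k g g0 i N : ℕ), PaR P n c J B W K0 K1 K2 K3 m → Sgn f →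
  200 * J / c ≤ r → r ≤ 1900 * J / c → k ≤ B / (2 * P * J) → 1 ≤ i → 2 * i ≤ P → g ∈ c3 n ⌈r * n⌉₊ ⌊21 / 20 * r * n⌋₊ B k P g0 →
  g.Coprime P → (g + 2 * i).Coprime P → LkR n c r N B k P i g → f g = f (g + 2 * i) ∨ AtR N (ExR P f F n c) i g

open Classical in
/-- ITEM At2 (EASY; copy of `EF/I_AtX.lean`; hypotheses: StAtc). -/
def StAt2 : Prop := ∀ (N G i : ℕ) (E : Finset ℕ), (∀ m ∈ E, 1 ≤ m) →
  (((range G).filter (fun g => AtR N E i g)).card : ℝ) ≤ 5 * (N : ℝ) ^ 4 * ∑ m ∈ E, (m.divisors.card : ℝ)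

/-! ## The bad `g` -/

open Classical in
/-- ITEM Bd3 (MEDIUM; copy of `EF/I_Bd2.lean`; hypotheses: StLkZ, StAt2).  `R = 200J/c`, `r_e = R (21/20)^e`.  Let `g ∈ BdR` with `i` (`1 ≤ i ≤ P`), `g0 = g % P`, `k = ⌊B · frac⌋`: `frac < 1/(2PJ)` gives `k ≤ B/(2PJ)`; `g` lies in some `[⌈r_e n⌉, ⌊(21/20) r_e n⌋]`, `e < 46`, so
`g ∈ c3 n ⌈r_e n⌉ ⌊(21/20) r_e n⌋ B k P g0`, and `g0`, `g0 + 2i` are prime to `P`.  Either `om K0 K1 g < m`, or no prime of `Pr K2 K3` divides `g + 2i`, or `g` has no link (third term), or it is attached (StLkZ): at most `5 N⁴ DvR` (StAt2, `N = K1^m K3`; the elements of `ExR` are `≥ n² ≥ 1`). -/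
def StBd3 : Prop := ∀ (f : ℕ → ℤ) (F : ℤ) (n c : ℝ) (P J B W K0 K1 K2 K3 m : ℕ), PaR P n c J B W K0 K1 K2 K3 m → Sgn f →
  ((BdR P f n (200 * J / c) J).card : ℝ) ≤
    (((Icc 1 ⌊1800 * J / c * n⌋₊).filter (fun g => om K0 K1 g < m)).card : ℝ) +
    ∑ i ∈ Icc 1 P, ((((Icc 1 ⌊1800 * J / c * n⌋₊).filter (fun g => ∀ p ∈ Pr K2 K3, ¬ p ∣ g + 2 * i)).card : ℝ) +
      ∑ g0 ∈ (range P).filter (fun g0 => g0.Coprime P ∧ (g0 + 2 * i).Coprime P),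
        ∑ e ∈ range 46, ∑ k ∈ range (B / (2 * P * J) + 1),
        (((c3 n ⌈200 * J / c * (21 / 20 : ℝ) ^ e * n⌉₊ ⌊21 / 20 * (200 * J / c * (21 / 20 : ℝ) ^ e) * n⌋₊ B k P g0).filter
          (fun g => m ≤ om K0 K1 g ∧ (∃ t ∈ Pr K2 K3, t ∣ g + 2 * i) ∧
            ¬ LkR n c (200 * J / c * (21 / 20 : ℝ) ^ e) (K1 ^ m * K3) B k P i g)).card : ℝ) +
      5 * ((K1 : ℝ) ^ m * K3) ^ 4 * DvR P f F n c)

/-- ITEM Pa2 (MEDIUM; the conditions hold; copy of `EF/I_Pa1.lean`; hypotheses: StPa1).  `P` is fixed.  `PW`: the primes dividing `P` are `≤ P ≤ W` for large `l` and `P` is squarefree.  `W2`, `Pn` (`P ≤ exp(l/800)`), `PJ` (`J ≥ 8/c² → ∞`): clear.  `K0m'`: `P C log l · l^(1/25) ≤ exp(l^(1/20)) - 1`.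
`K12'`, `PK'`: as `K12`, `PK` in StPa1 with twice the constant. -/
def StPa2 : Prop := ∀ P : ℕ, 6 ∣ P → 1 ≤ P → Squarefree P → ∃ l0 : ℝ, ∀ l : ℝ, l0 ≤ l →
  PaR P (Real.exp (l / 2)) (cL l) (JL l) (BL l) (WL l) (K0L l) (K1L l) (K2L l) (K3L l) (mL l)

/-- ITEM Bd4 (MEDIUM-HARD; few bad `g`; copy of `EF/I_BdX.lean`; hypotheses: StBd3, StUm2, StOm, StNo, StPa1, StPa2, StT12, StT3, StAmL, StMes, StSr, StPh).  As StBdX, with at most `P²` pairs `(i, g0)`.  The term with `¬ p ∣ g + 2i`: the map `g ↦ g + 2i - 1` shows that it is at most the number of the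
`g' ≤ X + 2P` with no `p ∣ g' + 1` (StNo).  StUm2 has `Am/P²`: StT3 with `κ'/P⁴`.  The number of cells is `B/(2PJ) + 1 ≤ 2B/J`.  The last term: `DvR`, at most `P · 5 exp(8 l^(49/50)) n exp(-10 l^(49/50))`. -/
def StBd4 : Prop := ∀ P : ℕ, 6 ∣ P → 1 ≤ P → Squarefree P → ∀ κ : ℝ, 0 < κ → ∃ l0 : ℝ, ∀ l : ℝ, l0 ≤ l → ∀ (f : ℕ → ℤ) (F : ℤ), Sgn f →
  DvR P f F (Real.exp (l / 2)) (cL l) ≤ Real.exp (l / 2) * Real.exp (-(10 * l ^ (49 / 50 : ℝ))) →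
  ((BdR P f (Real.exp (l / 2)) (200 * (JL l : ℝ) / cL l) (JL l)).card : ℝ) ≤ κ * (200 * Real.exp (l / 2) / (cL l * (JL l : ℝ) ^ 2))

/-! ## The chain -/

/-- ITEM Nx (EASY; the next integer prime to `P`).  `m + P` is prime to `P`, so the set is nonempty and its least element is `≤ P`.  `m` and `nx P m` are odd. -/
def StNx : Prop := ∀ P m : ℕ, 2 ∣ P → 1 ≤ P → m.Coprime P → 1 ≤ nxi P m ∧ nxi P m ≤ P ∧ 2 ∣ nxi P m ∧ (nx P m).Coprime P ∧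
  ∀ j : ℕ, 1 ≤ j → j < nxi P m → ¬ (m + j).Coprime P

open Classical in
/-- ITEM C1R (MEDIUM; one prime; copy of `EF/I_Ch1.lean`; hypotheses: StNx).  `R = 200J/c`, `y = yJ J`, `X = ⌈Rn/y⌉`, `J1 = 2PJ`, `M = ⌊n²/m⌋`, `b = M % p`, `Q = M / p ≡ 1 mod P`, `n²/(pm) = Q + (b + θ)/p`, `θ = n²/m - M ∈ [0,1)`, so `n²/(pm) ∈ [Q + 1/(2J1), Q + 1/J1)` by `AlR`.  Let `m' = nx P m ≤ m + P`.
For `pm ≤ g ≤ pm'`: `n²/(pm) ≥ n²/g ≥ n²/(p(m + P)) ≥ n²/(pm) - n²P/(p m²) ≥ n²/(pm) - P y/R²` (`p > y`, `m ≥ Rn/y`), and `P y/R² = P y c²/(40000 J²) ≤ 1/(4PJ) = 1/(2J1)`: `4P²y c² ≤ 36 P² y/J ≤ 40000 J` as `J ≤ 9/c²`, `y ≤ J^(7/4)`, `P² ≤ J^(1/4)`.  So `⌊n²/g⌋ = Q` and `n²/g - Q < 1/J1`.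
`p > y ≥ J ≥ P` is prime to `P`, so `pm`, `pm'` are prime to `P`.  If `f m ≠ f m'` then `f(pm) = f(p)f(m) ≠ f(p)f(m') = f(pm')`; going through the members of `[pm, pm']` prime to `P` (each is followed by the next one, `nx P g`, at an even distance `2i ≤ P`) one finds `g ∈ [pm, pm')` prime to `P` with `nx P g ≤ pm'` and
`f g ≠ f(nx P g)`; `g ≥ pm ≥ Rn`, `g ≤ 4y(2X + P) ≤ 8Rn + 12 P y ≤ 9Rn`: `g ∈ BdR`.  Different `m` give different `g` (the intervals `[pm, pm')` are disjoint). -/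
def StC1R : Prop := ∀ (f : ℕ → ℤ) (n c : ℝ) (P J p : ℕ), Sgn f → 6 ∣ P → 1 ≤ P → 0 < c → c ≤ 1 / 10 → 8 / c ^ 2 ≤ J → (J : ℝ) ≤ 9 / c ^ 2 →
  24 * P ^ 8 ≤ J → 12 * (P : ℝ) * yJ J ≤ 200 * J / c * n → 1 ≤ n → p ∈ Pr (yJ J) (4 * yJ J) →
  (((Ico ⌈200 * J / c * n / yJ J⌉₊ (2 * ⌈200 * J / c * n / yJ J⌉₊)).filter
    (fun m => m.Coprime P ∧ AlR n P (2 * P * J) p m ∧ f m ≠ f (nx P m))).card : ℝ) ≤ ((BdR P f n (200 * J / c) J).card : ℝ)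

open Classical in
/-- ITEM MoR (MEDIUM-HARD; moments; copy of `EF/I_Mo.lean`; hypotheses: StEQE).  `y = yJ J`, `J1 = 2PJ`, `X = ⌈200Jn/(cy)⌉`, `N(m) = #{p ∈ Pr y 4y : AlR}`, `μ = muR P J1 y`, `M = ⌊n²/m⌋`, `I_p` = the interval of the `np J1 p` integers `b` with `p/(2J1) ≤ b`, `b + 1 ≤ p/J1`.  `AlR` for `p` means `M ≡ p + b mod pP` for
some `b ∈ I_p` (`M = pQ + b`, `Q ≡ 1 mod P`, `b < p`).  StEQE with `r = X/n`, `a = X`, `b = 2X - 1`, `D = 1`, `B = 1`, `k = 0`, `x0 = 0`, `Z = pP` or `pp'P`: `|#{m ∈ [X,2X) : M ≡ M0 mod Z} - (X-1)/Z| ≤ E`, `E = C n^(19/20)` (`Z ≤ 16 y² P ≤ n^(1/50)`).  `∑ N ≥ (X-1) μ - E ∑ np`.  `∑ N² = ∑_{p,p'}`: the terms `p = p'` give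
`∑ N ≤ (X-1) μ + E ∑ np`.  `p ≠ p'`, `b ∈ I_p`, `b' ∈ I_p'`: the two congruences are compatible only if `p + b ≡ p' + b' mod P`, then they are one class modulo `pp'P`; for given `b` at most `np(p')/P + 1` values `b'` (an interval of integers, one class modulo `P`).  So these terms are at most
`(X-1) ∑_{p,p'} np(p)(np(p')/P + 1)/(pp'P) + E (∑ np)² ≤ (X-1)(μ² + 3μ) + E (∑ np)²` (`∑_{y < p ≤ 4y} 1/p ≤ 3y/y`).  So `∑ (N-μ)² = ∑ N² - 2μ ∑ N + μ² X ≤ 4(X-1)μ + μ² + E'`, `E' ≤ E((∑np)² + ∑np + 2μ∑np)`, `∑ np ≤ 16y²`, `μ ≤ 3y`, and `μ² + E' ≤ X` for `n ≥ n1` (`y⁴ ≤ J⁷ ≤ n^(7/400)`,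
`X ≥ 200 J n/(c y) ≥ n J^(-3/4) ≥ n^(1 - 1/400)`). -/
def StMoR : Prop := ∀ P : ℕ, 1 ≤ P → ∃ n1 : ℝ, ∀ (n c : ℝ) (J : ℕ), n1 ≤ n → 0 < c → c ≤ 1 / 10 → 8 / c ^ 2 ≤ J → (J : ℝ) ≤ 9 / c ^ 2 →
  (J : ℝ) / c ≤ n ^ (1 / 400 : ℝ) → 24 * P ^ 8 ≤ J →
  ∑ m ∈ Ico ⌈200 * J / c * n / yJ J⌉₊ (2 * ⌈200 * J / c * n / yJ J⌉₊),
    ((((Pr (yJ J) (4 * yJ J)).filter (fun p => AlR n P (2 * P * J) p m)).card : ℝ) - muR P (2 * P * J) (yJ J)) ^ 2 ≤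
    (⌈200 * J / c * n / yJ J⌉₊ : ℝ) * (4 * muR P (2 * P * J) (yJ J) + 1)

/-- ITEM MuR (EASY-MEDIUM; mean; copy of `EF/I_Mu.lean`).  `y = yJ J ≥ J^(7/4) - 1`, `J1 = 2PJ`.  `J` large: `p > y ≥ 12 J1`, so `np J1 p ≥ p/(2J1) - 2 ≥ p/(3J1)`.  So `muR ≥ |Pr|/(3 J1 P)`, and `|Pr y 4y| ≥ y/log(4y) ≥ y^(9/10)` for large `y` (`θ(4y) - θ(y) ≥ y`, see the model), so
`muR ≥ y^(9/10)/(6P²J) ≥ J^(1/4)` for large `J`. -/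
def StMuR : Prop := ∀ P : ℕ, 1 ≤ P → ∃ J0 : ℕ, ∀ J : ℕ, J0 ≤ J →
  ((Pr (yJ J) (4 * yJ J)).card : ℝ) / (6 * (P : ℝ) ^ 2 * J) ≤ muR P (2 * P * J) (yJ J) ∧
  (J : ℝ) ^ (1 / 4 : ℝ) ≤ muR P (2 * P * J) (yJ J)

open Classical in
/-- ITEM C4R (EASY-MEDIUM; few changes; copy of `EF/I_Ch4.lean`; hypotheses: StC1R, StMoR, StMuR).  `χ(m) = 1` if `m` is prime to `P` and `f m ≠ f (nx P m)`, else `0`; sums over `m ∈ [X, 2X)`.  `∑ χ N ≤ |Pr| |BdR|` by StC1R for each `p` (`12 P y ≤ 12 J³ ≤ 200 J n/c` for `n` large).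
`μ ∑ χ = ∑ χ N + ∑ χ (μ - N) ≤ |Pr||BdR| + (∑ χ)^(1/2) (∑ (N-μ)²)^(1/2) ≤ |Pr||BdR| + X √(4μ+1)`.  Divide by `μ ≥ 1`: `|Pr|/μ ≤ 6P²J`, `√(4μ+1)/μ ≤ √5/√μ ≤ 3 J^(-1/8)`. -/
def StC4R : Prop := ∀ P : ℕ, 6 ∣ P → 1 ≤ P → ∃ (n1 : ℝ) (J0 : ℕ), ∀ (f : ℕ → ℤ) (n c : ℝ) (J : ℕ), n1 ≤ n → J0 ≤ J → Sgn f → 0 < c → c ≤ 1 / 10 →
  8 / c ^ 2 ≤ J → (J : ℝ) ≤ 9 / c ^ 2 → (J : ℝ) / c ≤ n ^ (1 / 400 : ℝ) →
  (((Ico ⌈200 * J / c * n / yJ J⌉₊ (2 * ⌈200 * J / c * n / yJ J⌉₊)).filter (fun m => m.Coprime P ∧ f m ≠ f (nx P m))).card : ℝ) ≤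
    6 * (P : ℝ) ^ 2 * J * ((BdR P f n (200 * J / c) J).card : ℝ) + 3 * (J : ℝ) ^ (-(1 / 8) : ℝ) * (⌈200 * J / c * n / yJ J⌉₊ : ℝ)

/-! ## The end -/

/-- ITEM EnR (MEDIUM; conclusion; copy of `EF/I_EnX.lean`; hypotheses: StC4R, StBd4, StTu2, StPa1).  Suppose `x` is large and the set `E` of ThmRP has fewer than `n exp(-l^(99/100))` elements, `l = log x`, `n = √x = exp(l/2)`, `c = cL l`.  `E = ExR P lam (-s) n c`, so by Cauchy-Schwarz and StTu2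
`DvR P lam (-s) n c = ∑_{m ∈ E} τ(m) ≤ n exp(-10 l^(49/50))` for large `l`.  StC4R (with `X = ⌈200 J n/(c y)⌉`) and StBd4 with `κ = c₁/(24 P²)`: the number of changes in `[X, 2X)` is at most `6P²J κ · 200n/(cJ²) + 3J^(-1/8) X ≤ (6P²κ + 3 J^(-1/8)) X < c₁ X` for large `l`
(`200 n/(cJ) = (200 J n/(c y)) (y/J²) ≤ X`, as `y ≤ J²`), against ChgR. -/
def StEnR : Prop := ∀ P : ℕ, 6 ∣ P → 1 ≤ P → Squarefree P → ChgR P → ThmRP P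

open Classical in
/-- The theorem in the intervals of Oppermann. -/
def OppRP : Prop := ∀ w : ℕ, ∃ n0 : ℕ, ∀ n a b : ℕ, n0 ≤ n → n ^ 2 - n ≤ a → b ≤ n ^ 2 + n →
  (a : ℝ) + n / Real.log n ^ (1 / 100 : ℝ) ≤ b →
  (n : ℝ) * Real.exp (-(2 * Real.log n ^ (99 / 100 : ℝ))) ≤
    (((Icc a b).filter fun m => (∀ p : ℕ, p.Prime → p ∣ m → w < p) ∧ Even (ArithmeticFunction.cardFactors m)).card : ℝ) ∧
  (n : ℝ) * Real.exp (-(2 * Real.log n ^ (99 / 100 : ℝ))) ≤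
    (((Icc a b).filter fun m => (∀ p : ℕ, p.Prime → p ∣ m → w < p) ∧ Odd (ArithmeticFunction.cardFactors m)).card : ℝ)

/-- ITEM OpP (EASY-MEDIUM; copy of `EF/Opp.lean`).  For `w` take `P = primorial (max w 3)`: squarefree, divisible by `6`, and `m ≥ 1` is prime to `P` only if all its prime factors are `> w`.  Then as in `EF/Opp.lean`. -/
def StOpP : Prop := (∀ P : ℕ, 6 ∣ P → 1 ≤ P → Squarefree P → ThmRP P) → OppRP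

end Pool.Agent.Work.MP_a8fbd7_nt.PAR.RP
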