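import Pool.Agent.Work.MP_a8fbd7_nt.PAR.RP.Defs

set_option autoImplicit false

/-!
MP_a8fbd7_nt, block RP (rough parity), module M (author helper30): the theorem of Matomäki and Radziwiłł for the Liouville function on the integers
prime to `P`.  An item is `theorem prf (h1 : StA) ... : StNAME` in the namespace `...PAR.RP.I_NAME`, file `PAR/RP/I_NAME.lean` (import this file);
it may use the statements named in its docstring as hypotheses.

`MR.Kf T Y a u = ∑_{1 ≤ n ≤ Y} a n exp(-T² (log n - u)²/2)` (`PAR/MR/Defs.lean`), `MR.lam` is the real valued Liouville function, `LC.lam` the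
integer valued one (both are `ArithmeticFunction.liouville`).
-/

open MeasureTheory Finset

noncomputable section

namespace Pool.Agent.Work.MP_a8fbd7_nt.PAR.RP

open Pool.Agent.Work.MP_a8fbd7_nt.PAR

/-- `lam` on the integers `> X` prime to `P`, `0` elsewhere -/
def lmr (P X n : ℕ) : ℝ := if X < n ∧ n.Coprime P then MR.lam n else 0

/-- ITEM Ir (EASY-MEDIUM; inclusion-exclusion).  For `1 ≤ n` the sum of `μ(d)` over the common divisors `d` of `n` and `P` is `1` if `n` is prime to `P` and `0`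
otherwise.  So the left side is `∑_{d ∣ P} μ(d) ∑_{n ≤ 2X, d ∣ n, X < n} lam n exp(-T² (log n - u)²/2)`; with `n = d m`: `lam n = lam d · lam m`,
`log n = log d + log m`, `n ≤ 2 X ↔ m ≤ 2 (X/d)` and `X < n ↔ X/d < m` (`d ∣ X`), and `μ(d) lam(d) = 1` for squarefree `d`
(Mathlib `ArithmeticFunction.moebius_apply_of_squarefree`, `ArithmeticFunction.liouville_apply`). -/
def StIr : Prop := ∀ (P X : ℕ) (T u : ℝ), Squarefree P → P ∣ X → 1 ≤ X →
  MR.Kf T (2 * X) (lmr P X) u =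
    ∑ d ∈ P.divisors, MR.Kf T (2 * (X / d)) (fun n => if X / d < n then MR.lam n else 0) (u - Real.log d)

/-- ITEM Ma (MEDIUM; mean square of the short sums of `lam` over the integers prime to `P`).  Uses MR.StL2, MR.StWI, StIr.  Let `τ` be the number of divisors of `P`,
`ε' = ε/τ²`, `h'`, `X0'` from StL2 for `ε'`, `h1 = P h'`.  Let `h ≥ h1`, `P ∣ X`, `X ≥ P X0'`, `X ≥ 1`, `T = X/h`.  For `d ∣ P` put `Xd = X/d` (a natural number,
`≥ X0'`); `T ≤ Xd/h'`, so `exp(-(t/T)²) ≤ exp(-(t/(Xd/h'))²)`, and by StWI (`Y = 2 Xd`, `a n = lam n` for `n > Xd`, else `0`; `Dp Y a t = Aa Xd t` as in the landed `PAR/MR/I_Fin.lean`)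
`T² ∫ Kf(..)² = ∫ exp(-(t/T)²) ‖Aa Xd t‖² ≤ ε' Xd² ≤ ε' X²`, that is `∫ Kf T (2 Xd) (..) u ^ 2 ≤ ε' X²/T² = ε' h²`.  StIr and Cauchy-Schwarz:
`Kf T (2X) (lmr P X) u ^ 2 ≤ τ ∑_{d ∣ P} Kf(..)(u - log d)²`; integrate (translation invariance; integrability: first part of StWI): `≤ τ · τ ε' h² = ε h²`. -/
def StMa : Prop := ∀ (P : ℕ) (ε : ℝ), Squarefree P → 0 < ε → ∃ h1 : ℝ, 1 ≤ h1 ∧ ∀ h : ℝ, h1 ≤ h → ∃ X0 : ℕ, ∀ X : ℕ, X0 ≤ X → P ∣ X →
  ∫ u : ℝ, MR.Kf (X / h) (2 * X) (lmr P X) u ^ 2 ≤ ε * h ^ 2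

/-- `s` is `±1` on the integers prime to `P` and `0` elsewhere -/
def Sr (P : ℕ) (s : ℕ → ℝ) : Prop := (∀ n, n.Coprime P → s n = 1 ∨ s n = -1) ∧ ∀ n, ¬ n.Coprime P → s n = 0

/-- ITEM Wp (MEDIUM; one window; copy of the landed `PAR/MR/I_WLp.lean`).  Put `K_n = exp(-(X/h)² (log n - log y)²/2)`.  (i) `|n - y| ≤ h`: then `X < n ≤ 2X`,
`|log n - log y| ≤ h/(1.1 X)` (both are `≥ 1.1 X`, as `h ≤ X/110`), so `K_n ≥ e^{-0.42} ≥ 0.65`; among these `n` there are at least `2h/P - 1 ≥ h/P` with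
`n ≡ 1 mod P` (`LC.StCap`, theorem `LC.I_Cap.prf`), they are prime to `P`.  (ii) `|n - y| > 10 P h`, `n ≤ 2X`: `|log n - log y| ≥ |n-y|/(2X)`,
`K_n ≤ exp(-(n-y)²/(8h²)) ≤ exp(-(10 P/8) |n-y|/h)`, and the sum over these `n` is `≤ 2 exp(-12.5 P²)(1 + h)` (geometric series) `≤ 4 h exp(-12.5 P²) ≤ 0.15 h/P`
(`e^x ≥ x²/2`).  (iii) The other `n` prime to `P` with `|n - y| ≤ 10 P h` have `s n = σ`, the same sign.  So `|∑| ≥ 0.65 h/P - 0.15 h/P = h/(2P)`. -/
def StWp : Prop := ∀ (P : ℕ) (h y : ℝ) (X : ℕ) (s : ℕ → ℝ), 1 ≤ P → (P : ℝ) ≤ h → 110 * P * h ≤ X → 12 / 10 * X ≤ y → y ≤ 18 / 10 * X →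
  Sr P s → (∃ σ : ℝ, ∀ n : ℕ, |(n : ℝ) - y| ≤ 10 * P * h → n.Coprime P → s n = σ) →
  (h / (2 * P)) ^ 2 ≤ MR.Kf (X / h) (2 * X) (fun n => if X < n then s n else 0) (Real.log y) ^ 2

/-- ITEM Wr (EASY-MEDIUM; copy of the landed `PAR/MR/I_WL.lean`, with `10 P h` for `10 h`).  Uses StWp, and MR.StWI for the integrability.
`h0 = ⌈20 P h⌉ + 3`, `X0` large (`≥ 2000 P h0`).  `G` = the set of the counted `x`, `#G > (49/100) X`.  At most `0.2 X + 1 + 0.2 X + 10 P h + 2` of the `x` in `[X, 2X)` lie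
outside of `[1.2 X, 1.8 X - 10 P h - 1]`, so at least `0.08 X` elements of `G` lie in it.  For such an `x` and `y ∈ [x + 10 P h, x + 10 P h + 1)` all integers `n`
with `|n - y| ≤ 10 P h` lie in `[x, x + h0)`; all those prime to `P` have the same value of `s`, StWp applies (`σ` = that value; there is an integer prime to `P` in the
window, or take any `σ`).  The intervals `[log(x + 10 P h), log(x + 10 P h + 1))` are disjoint for different `x` and have length `≥ 1/(2X)`.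
So `∫ ≥ 0.08 X · (1/(2X)) · h²/(4 P²) = h²/(100 P²)`. -/
def StWr : Prop := ∀ (P : ℕ) (h : ℝ), 1 ≤ P → (P : ℝ) ≤ h → ∃ h0 X0 : ℕ, 1 ≤ h0 ∧ ∀ X : ℕ, X0 ≤ X → ∀ s : ℕ → ℝ, Sr P s →
  49 / 100 * (X : ℝ) < ((Ico X (2 * X)).filter (fun x => ∀ a < h0, ∀ b < h0, (x + a).Coprime P → (x + b).Coprime P →
    s (x + a) = s (x + b))).card →
  h ^ 2 / (100 * (P : ℝ) ^ 2) ≤ ∫ u : ℝ, MR.Kf (X / h) (2 * X) (fun n => if X < n then s n else 0) u ^ 2

/-- ITEM Fr (EASY-MEDIUM).  Uses StMa, StWr.  `ε = 1/(200 P²)`, `h1` from StMa, `h = max h1 P`, `X1` from StMa, `h0`, `X2` from StWr; `P ≥ 2`.  Let `X` be large (`X ≥ 400 P + X1 + X2`) and suppose that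
more than `X/2` of the `x` in `[X, 2X)` have `lam` constant on the integers of `[x, x + h0)` prime to `P`.  Put `X' = P ⌊X/P⌋`, so `X - P < X' ≤ X`, `P ∣ X'`; more than
`X/2 - 2P ≥ (49/100) X'` of the `x` in `[X', 2X')` have this property (`[2X', 2X)` contains at most `2P` integers).  StWr for `X'` and `s n = lam n` for `n` prime to `P`, `0` otherwise
(`P ≥ 2`: `0` is not prime to `P`; `lam n = ±1` for `n ≥ 1`), and `(fun n => if X' < n then s n else 0) = lmr P X'`: `h²/(100 P²) ≤ ∫ ≤ ε h² = h²/(200 P²)` by StMa, a contradiction (`h > 0`). -/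
def StFr : Prop := ∀ P : ℕ, 6 ∣ P → Squarefree P → MRr P

/-- ITEM Cr (EASY-MEDIUM; compare the landed `PAR/MR/I_Chg.lean`).  `h0`, `X0` from MRr, `c = 1/(4 h0)`, `X ≥ max X0 (4 h0)`.  If `a < b` are prime to `P` then `nx P a ≤ b` (`nxi P a ≤ b - a`), and
`nx P a > a` is prime to `P` (the set in `nxi` is not empty: it contains a number `i` with `a + i ≡ 1 mod P`, `P ≥ 1`); so if `lam m = lam (nx P m)` for all `m` of `[a, b)` prime to `P`
then `lam a = lam b` (induction on `b - a`).  Hence every `x` of `[X, 2X - h0)` for which `lam` is not constant on the integers of `[x, x + h0)` prime to `P` has some `m` of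
`[x, x + h0)` with `m` prime to `P`, `lam m ≠ lam (nx P m)`, and `X ≤ m < 2X`; each `m` serves at most `h0` of the `x`; there are at least `X/2 - h0 ≥ X/4` such `x`. -/
def StCr : Prop := ∀ P : ℕ, 1 ≤ P → MRr P → ChgR P

end Pool.Agent.Work.MP_a8fbd7_nt.PAR.RP
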