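import Pool.Agent.Work.MP_a8fbd7_nt.PAR.RP.Defs

set_option autoImplicit false

/-!
MP_a8fbd7_nt, block RP, part S (sums over pairs, second moment), captain helper95.  The docstring of each statement is its complete
proof.  An item is `theorem prf (h1 : StA) ... : StNAME` in `PAR/RP/I_NAME.lean` (namespace `...PAR.RP.I_NAME`, import this file).
Almost every item is a COPY of a landed file of the block EF or LC (named in the docstring) in which `t ρ ≡ z mod q` is replaced by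
`t ρ ≡ 2 z mod q` (`q` is odd, so `z` and `2 z` play the same part) and `Zs` by a family `Z` of subsets of `Z2`.
-/

open Finset

noncomputable section

namespace Pool.Agent.Work.MP_a8fbd7_nt.PAR.RP

open Pool.Agent.Work.MP_a8fbd7_nt.PAR.LC Pool.Agent.Work.MP_a8fbd7_nt.PAR.EF

/-! ## Sums over pairs -/

/-- ITEM Rh2 (EASY-MEDIUM; the `ρ ≡ ρ0 mod P` prime to `q`; copy of `EF/I_RhC.lean`; hypotheses: StCap).  `gcd(q, P) = 1`.  By StCap (modulus `P`) the interval `[w0 q, (w0+ω) q]` contains at least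
`ωq/P - 1` integers `ρ ≡ ρ0 mod P`; for each prime `p ∣ q` (`gcd(p, P) = 1`) at most `ωq/(pP) + 1 ≤ ωq/(K0 P) + 1` of them are divisible by `p` (Chinese remainder theorem, StCap with modulus `pP`); a `ρ` not prime to `q` is divisible by some
prime factor of `q`.  So at least `ωq/P - 1 - m(ωq/(K0 P) + 1)` remain.  `q > K0`, `1 + m ≤ ωK0/(4P) ≤ ωq/(4P)` and `m/K0 ≤ ω/(4P) ≤ 1/8`. -/
def StRh2 : Prop := ∀ (w0 ω : ℝ) (q K0 m P ρ0 : ℕ), 0 ≤ w0 → w0 ≤ 2 → 0 < ω → ω ≤ 1 / 2 → 1 < q → (∀ p ∈ q.primeFactors, K0 < p) →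
  q.primeFactors.card ≤ m → 1 ≤ P → q.Coprime P → 4 * ((m : ℝ) + 1) * P / ω ≤ K0 →
  ω * q / (2 * P) ≤ (((range (3 * q + 1)).filter (fun r : ℕ => w0 * q ≤ (r : ℝ) ∧ (r : ℝ) ≤ (w0 + ω) * q ∧ r.Coprime q ∧
    r ≡ ρ0 [MOD P])).card : ℝ)

/-- ITEM El2 (MEDIUM; lower bound for the single sum in classes; copy of `EF/I_ElC.lean`; hypotheses: StCap, StRh2).  `PW = primorial W = P P'`, `P'` prime to `P` (squarefree), `η = e1 - e0`, all prime factors of `q` are `> K0 ≥ W`, so `gcd(q, PW) = 1`, `q` odd.  For each `ρ` of StRh2 (class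
`ρ0 = (cl q t).2`; at least `ωq/(2P)`) the `z ∈ [e0 q t, e1 q t]` with `2 z ≡ tρ mod q`, `z ≡ ζ mod P` (`ζ = (cl q t).1`, prime to `P`) and `z` prime to `P'`: for each of the `φ(P')` unit classes modulo `P'` one class modulo `q P P' = q PW` (Chinese remainder theorem), at least
`ηqt/(q PW) - 1 ≥ ηt/(2PW)` elements by StCap.  Such a `z` is prime to `PW`, and to `q` since `gcd(tρ, q) = 1` (`t` is a prime `> q`).  `φ(P') ≥ φ(PW)/P` (`φ(PW) = φ(P)φ(P')`, `φ(P) ≤ P`).  So at least `(ωq/(2P)) (φ(PW)/P) ηt/(2PW)` pairs, each with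
`1/z ≥ 1/(e1 q t)`. -/
def StEl2 : Prop := ∀ (W P : ℕ) (w0 ω e0 e1 : ℝ) (cl : ℕ → ℕ → ℕ × ℕ) (q t K0 m : ℕ), Wn w0 ω e0 e1 → 1 < q →
  (∀ p ∈ q.primeFactors, K0 < p) → q.primeFactors.card ≤ m → t.Prime → q < t → 3 ≤ W → W ≤ K0 → 1 ≤ P → P ∣ primorial W →
  (cl q t).1.Coprime P → 4 * ((m : ℝ) + 1) * P / ω ≤ K0 → 6 * (primorial W : ℝ) / (e1 - e0) ≤ t →
  ω * (e1 - e0) * (Nat.totient (primorial W) : ℝ) / (4 * e1 * (primorial W : ℝ) * (P : ℝ) ^ 2) ≤ Ez (Zc W P w0 ω e0 e1 cl) q t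

/-- ITEM Ct2 (EASY-MEDIUM; pairs with `d ∣ z`; copy of `EF/I_Ct1C.lean`; hypotheses: StCap).  `q` odd: for fixed `ρ` the `z` with `2z ≡ tρ mod q`, `z ≡ 0 mod d` form one class modulo `dq` (`gcd(d,q) = 1`, `2` invertible modulo `q`), at most
`ηqt/(dq) + 1 ≤ 2ηt/d` in an interval of length `ηqt`; count the `ρ` by StCap (modulus `1`: `ωq + 1 ≤ 2ωq`, modulus `d`). -/
def StCt2 : Prop := ∀ (W : ℕ) (w0 ω e0 e1 : ℝ) (q t d : ℕ), Wn w0 ω e0 e1 → 1 ≤ q → Odd q → 1 ≤ t → 1 / ω ≤ q → 1 ≤ d →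
  d.Coprime q → (d : ℝ) ≤ (e1 - e0) * t →
  ((((Z2 W w0 ω e0 e1 q t).filter (fun s => d ∣ s.1)).card : ℝ) ≤ 4 * ω * (e1 - e0) * q * t / d) ∧
  (∀ v : ℕ, (((Z2 W w0 ω e0 e1 q t).filter (fun s => d ∣ s.1 ∧ s.2 ≡ v [MOD d])).card : ℝ) ≤
    (ω * q / d + 1) * (2 * (e1 - e0) * t / d)) ∧
  (∀ ρ0 : ℕ, (((Z2 W w0 ω e0 e1 q t).filter (fun s => d ∣ s.1 ∧ s.2 = ρ0)).card : ℝ) ≤ 2 * (e1 - e0) * t / d)

/-- ITEM Fn2 (EASY-MEDIUM; correlations for `q ≠ q'`; copy of `EF/I_FnG.lean`; hypotheses: StRgh, StCt2, StHar).  `q`, `q'` odd.  The proof of StFnG with sums over `Z q t ⊆ Z2`: the part `gcd(z,z') = 1` is `≤ Ez Ez'`; in the part `d = gcd(z,z') > 1` all terms are `≥ 0`, enlarge the sums to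
`Z2` and count by StCt2.  `gcd(ρ,q) = 1`: a common divisor of `ρ` and `q` divides `tρ` and `q`, hence `2z`, hence `z` (`q` odd), but `gcd(z,q) = 1`. -/
def StFn2 : Prop := ∀ (W : ℕ) (w0 ω e0 e1 : ℝ) (Z : ℕ → ℕ → Finset (ℕ × ℕ)) (q q' t : ℕ), Sb W w0 ω e0 e1 Z → Wn w0 ω e0 e1 →
  1 ≤ q → 1 ≤ q' → Odd q → Odd q' → q ≠ q' → 1 ≤ t → 1 ≤ W → 1 / ω ≤ q → 1 / ω ≤ q' → (3 * q * q' : ℝ) ≤ (e1 - e0) * t →
  Fz Z q t q' t ≤ Ez Z q t * Ez Z q' t + (8 * ω * (e1 - e0) ^ 2 / e0 ^ 2) * (ω / W + (1 + Real.log (3 * q * q')) / q')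

/-- ITEM Gp2 (EASY-MEDIUM; the sum over `a, a', g`; copy of `EF/I_GpC.lean`; hypotheses: StHar).  `Gz Z ≤ Gz Z2` (terms `≥ 0`).  `q` odd, `gcd(q,t) = gcd(q,t') = 1`: `z = ga`, `z' = ga'`, `ρ` is the only integer in `[w0 q, (w0+ω)q]` with `tρ ≡ 2z mod q`; `tρ ≡ 2ga`, `t'ρ ≡ 2ga'` give
`2g(a t' - a' t) ≡ 0`, so `a t' ≡ a' t mod q`. -/
def StGp2 : Prop := ∀ (W : ℕ) (w0 ω e0 e1 : ℝ) (Z : ℕ → ℕ → Finset (ℕ × ℕ)) (q t t' N : ℕ), Sb W w0 ω e0 e1 Z → Wn w0 ω e0 e1 → 1 ≤ q → Odd q →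
  1 ≤ t → 1 ≤ t' → q.Coprime t → q.Coprime t' → q * t ≤ N → q * t' ≤ N →
  Gz Z q t t' ≤ (e1 / e0) * ∑ a ∈ (Icc 1 N).filter (fun a => a.Coprime q),
    ∑ a' ∈ (Icc 1 N).filter (fun a' => a * t' ≡ a' * t [MOD q] ∧ a' * t * e0 ≤ a * t' * e1 ∧ a * t' * e0 ≤ a' * t * e1),
      1 / ((a : ℝ) * a')

/-- ITEM Fq2 (MEDIUM; correlations for `q = q'`, `t = t'`; copy of `EF/I_FqG.lean` and `EF/I_GdC.lean`, `EF/QAsm.lean`; hypotheses: StRgh, StCt2, StHar, StGp2).  `gcd(q,t) = 1`, `q` odd.  Split by `ρ = ρ'` (this part is `Gz Z q t t`) or not, as in StFqG; then `Gz` by StGp2 with `t' = t`, `N = q t`: the condition is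
`a ≡ a' mod q`, and as in StGdC the sum is `≤ 2 + 2(1 + log(qt))²/q`. -/
def StFq2 : Prop := ∀ (W : ℕ) (w0 ω e0 e1 : ℝ) (Z : ℕ → ℕ → Finset (ℕ × ℕ)) (q t : ℕ), Sb W w0 ω e0 e1 Z → Wn w0 ω e0 e1 → 1 ≤ q → Odd q →
  1 ≤ t → q.Coprime t → 1 ≤ W → 1 / ω ≤ q → (q : ℝ) ≤ (e1 - e0) * t →
  Fz Z q t q t ≤ Ez Z q t ^ 2 + 16 * ω ^ 2 * (e1 - e0) ^ 2 / e0 ^ 2 / W +
    (2 * (e1 / e0) + 2 * (e1 / e0) * (1 + Real.log (q * t)) ^ 2 / q)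

/-! ## Second moment -/

/-- ITEM Cn2 (MEDIUM; joint counts; copy of `EF/I_Cn.lean`; hypotheses: StEQE).  As StCn with the additional conditions `g ≡ g0 mod P` and `M = ⌊n²/g⌋ ≡ 1 mod P`: the modulus of `g` is `P lcm(q,q') t ≤ n^(1/400 + 3/200) ≤ n^(1/50)`, that of `M` is `P z`, resp. `P lcm(z,z') ≤ n^(1/50)` (all of
`q, q', t, z, z'` are prime to `P`; if `P ∣ ...` is not needed).  If `z`, `z'` have no common solution the last count is `0`. -/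
def StCn2 : Prop := ∃ C : ℝ, 1 ≤ C ∧ ∀ (n r : ℝ) (u v B k P g0 i q q' t z z' ρ ρ' : ℕ), 1 ≤ n → n ^ (-(1 / 50) : ℝ) ≤ r → r ≤ n ^ (1 / 50 : ℝ) →
  r * n ≤ u → u ≤ v → (v : ℝ) ≤ 2 * r * n → 1 ≤ B → (B : ℝ) ≤ n ^ (1 / 50 : ℝ) → k < B → 1 ≤ P → (P : ℝ) ≤ n ^ (1 / 400 : ℝ) →
  1 ≤ q → 1 ≤ q' → 1 ≤ t → 1 ≤ z → 1 ≤ z' → q.Coprime t → q'.Coprime t → z.Coprime q → z'.Coprime q' →
  q.Coprime P → q'.Coprime P → t.Coprime P → z.Coprime P → z'.Coprime P →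
  (q : ℝ) ≤ n ^ (1 / 200 : ℝ) → (q' : ℝ) ≤ n ^ (1 / 200 : ℝ) → (t : ℝ) ≤ n ^ (1 / 200 : ℝ) → (z : ℝ) ≤ n ^ (1 / 200 : ℝ) →
  (z' : ℝ) ≤ n ^ (1 / 200 : ℝ) →
  (((c3 n u v B k P g0).filter (fun g => q ∣ g ∧ q' ∣ g ∧ t ∣ g + 2 * i)).card : ℝ) ≤
    ((v : ℝ) - u) / ((Nat.lcm q q' : ℝ) * t * B * (P : ℝ) ^ 2) + C * n ^ (19 / 20 : ℝ) ∧
  ((v : ℝ) - u) / ((Nat.lcm q q' : ℝ) * t * B * (P : ℝ) ^ 2) / z - C * n ^ (19 / 20 : ℝ) ≤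
    (((c3 n u v B k P g0).filter (fun g => q ∣ g ∧ q' ∣ g ∧ t ∣ g + 2 * i ∧ z ∣ q * ⌊n ^ 2 / (g : ℝ)⌋₊ + ρ)).card : ℝ) ∧
  (((c3 n u v B k P g0).filter (fun g => q ∣ g ∧ q' ∣ g ∧ t ∣ g + 2 * i ∧ z ∣ q * ⌊n ^ 2 / (g : ℝ)⌋₊ + ρ ∧
      z' ∣ q' * ⌊n ^ 2 / (g : ℝ)⌋₊ + ρ')).card : ℝ) ≤
    ((v : ℝ) - u) / ((Nat.lcm q q' : ℝ) * t * B * (P : ℝ) ^ 2) * cor q q' (z, ρ) (z', ρ') + C * n ^ (19 / 20 : ℝ)

/-- ITEM Va2 (MEDIUM; variance for one `t`; copy of `EF/I_Va.lean`; hypotheses: StCn2, StSz).  The same computation with `D = lcm(q,q') t P²`: `∑ (Ntz - Atz)² ≤ (X/(P² t B)) ∑ vS vS'/lcm · ∑_{s,s'} (cor - 1/(zz')) + error`, `∑_{s,s'} cor = Fz`, `∑ 1/(zz') = Ez Ez'`; `|Z q t| ≤ |Z2| ≤ (qt+1)(3q+1) ≤ 8 q² t`.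
(The elements `z` of `Z q t` are prime to `primorial W`, so to `P`; the primes of `q = qS S` and `t` are `> a ≥ W`, so they do not divide `P ∣ primorial W`.) -/
def StVa2 : Prop := ∃ C : ℝ, 1 ≤ C ∧ ∀ (n r w0 ω e0 e1 : ℝ) (Z : ℕ → ℕ → Finset (ℕ × ℕ)) (u v B k P g0 i a b m W t : ℕ), 1 ≤ n →
  n ^ (-(1 / 50) : ℝ) ≤ r → r ≤ n ^ (1 / 50 : ℝ) → r * n ≤ u → u ≤ v → (v : ℝ) ≤ 2 * r * n → 1 ≤ B → (B : ℝ) ≤ n ^ (1 / 50 : ℝ) → k < B →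
  1 ≤ P → (P : ℝ) ≤ n ^ (1 / 400 : ℝ) → P ∣ primorial W → Sb W w0 ω e0 e1 Z → Wn w0 ω e0 e1 →
  1 ≤ a → W ≤ a → a ≤ b → t.Prime → b < t → (b : ℝ) ^ m * t ≤ n ^ (1 / 200 : ℝ) →
  ∑ g ∈ (c3 n u v B k P g0).filter (fun g => t ∣ g + 2 * i),
      (Ntz Z a b m t g ⌊n ^ 2 / (g : ℝ)⌋₊ - Atz Z a b m t g) ^ 2 ≤
    ((v : ℝ) - u) / (t * B * (P : ℝ) ^ 2) * ∑ S ∈ SS a b m, ∑ S' ∈ SS a b m, vS S * vS S' / (Nat.lcm (qS S) (qS S') : ℝ) *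
      (Fz Z (qS S) t (qS S') t - Ez Z (qS S) t * Ez Z (qS S') t) + C * n ^ (99 / 100 : ℝ)

/-- ITEM Bn2 (EASY-MEDIUM; bound for the main term of StVa2; copy of `EF/I_Bn.lean`; hypotheses: StFn2, StFq2, StSS, StSz).  Windows `ω = c/(25 r)`, `e0 = c/(5r)`, `e1 = 21c/(100r)`, `η = e1 - e0 = c/(100 r)`: again `η/e0 = 1/20`, `e1/e0 = 21/20`, now `1/η ≤ 190000 J/c²`, so `3 q q' ≤ 3 K1^(2m) ≤ η K2 ≤ η t`
by `K12'`.  The bounds of StFn2, StFq2 are those of StFneC, StFeqC, so the result is the same.  `q = qS S` is a product of primes `> K0 ≥ W ≥ 3`, so odd. -/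
def StBn2 : Prop := ∀ (n c r : ℝ) (Z : ℕ → ℕ → Finset (ℕ × ℕ)) (P J B W K0 K1 K2 K3 m k t : ℕ), PaR P n c J B W K0 K1 K2 K3 m → 200 * J / c ≤ r →
  r ≤ 1900 * J / c → k ≤ B / (2 * P * J) → t ∈ Pr K2 K3 →
  Sb W (((k : ℝ) + 1) / B + 17 / 20 * c / r) (c / (25 * r)) (c / (5 * r)) (21 * c / (100 * r)) Z →
  ∑ S ∈ SS K0 K1 m, ∑ S' ∈ SS K0 K1 m, vS S * vS S' / (Nat.lcm (qS S) (qS S') : ℝ) *
      (Fz Z (qS S) t (qS S') t - Ez Z (qS S) t * Ez Z (qS S') t) ≤ Vm c r W K0 K1 K3 m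

open Classical in
/-- ITEM Un2 (MEDIUM; unlinked `g` of a cell; copy of `EF/I_UnX.lean`; hypotheses: StEl2, StSz).  `cl` with ClOK, `Z = Zc`.  For a `g` of the left set choose `t ∈ Pr K2 K3` with `t ∣ g + 2 i`.  `Ntz(t, g, M) = 0`: a pair `s ∈ Z (qS S) t`, `qS S ∣ g`, with `z ∣ qM + ρ` would give a link LkR: `q t ≤ K1^m K3`; `Ln2` from the
membership in `Z2` (`z ≥ e0 q t > 0`; `q` and `t` are coprime because `t` is a prime `> K2 ≥ K1^m ≥ q`); `Un P g M i q t z ρ` from ClOK (`q`, `t` are prime to `P`: their primes are `> K0 ≥ W`, `P ∣ primorial W`) because `z ≡ (cl q t).1`, `ρ ≡ (cl q t).2`, `g ≡ g0`, `M ≡ 1 mod P` and all four conditions of `Un`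
depend only on the classes modulo `P`.  `Atz(t, g) ≥ Em ∑_{S : qS S ∣ g} vS S ≥ Em ((3/2)^m - 1)` by StEl2 (`(cl q t).1` is prime to `P` by ClOK; `K0m'`, `PK'`) and StSz, `Em = (c/(25r)) φ(PW)/(84 PW P²)` (`η/e1 = 1/21`), so `Em ((3/2)^m - 1) = Am c r W m/P²`. -/
def StUn2 : Prop := ∀ (n c r : ℝ) (cl : ℕ → ℕ → ℕ × ℕ) (P J B W K0 K1 K2 K3 m k g0 i u v : ℕ), PaR P n c J B W K0 K1 K2 K3 m → 200 * J / c ≤ r →
  r ≤ 1900 * J / c → k ≤ B / (2 * P * J) → ClOK P g0 i cl →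
  (Am c r W m / (P : ℝ) ^ 2) ^ 2 *
    (((c3 n u v B k P g0).filter (fun g => m ≤ om K0 K1 g ∧ (∃ t ∈ Pr K2 K3, t ∣ g + 2 * i) ∧
      ¬ LkR n c r (K1 ^ m * K3) B k P i g)).card : ℝ) ≤
  ∑ t ∈ Pr K2 K3, ∑ g ∈ (c3 n u v B k P g0).filter (fun g => t ∣ g + 2 * i),
    (Ntz (Zc W P (((k : ℝ) + 1) / B + 17 / 20 * c / r) (c / (25 * r)) (c / (5 * r)) (21 * c / (100 * r)) cl) K0 K1 m t g
        ⌊n ^ 2 / (g : ℝ)⌋₊ -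
      Atz (Zc W P (((k : ℝ) + 1) / B + 17 / 20 * c / r) (c / (25 * r)) (c / (5 * r)) (21 * c / (100 * r)) cl) K0 K1 m t g) ^ 2

open Classical in
/-- ITEM Um2 (EASY-MEDIUM; numbers; copy of `EF/I_UmX.lean`; hypotheses: StVa2, StBn2, StUn2, StLs).  By StLs there is `cl` with ClOK (`g0`, `g0 + 2 i` prime to `P`).  `u = ⌈r n⌉`, `v = ⌊(21/20) r n⌋`, `v - u ≤ r n/20 ≤ 95 J n/c`; `1/P² ≤ 1` in the main term.  The rest as in StUmX (`Zc` is a family of subsets of `Z2`). -/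
def StUm2 : Prop := ∃ C : ℝ, 1 ≤ C ∧ ∀ (n c r : ℝ) (P J B W K0 K1 K2 K3 m k g0 i : ℕ), PaR P n c J B W K0 K1 K2 K3 m → 200 * J / c ≤ r →
  r ≤ 1900 * J / c → k ≤ B / (2 * P * J) → g0.Coprime P → (g0 + 2 * i).Coprime P →
  (Am c r W m / (P : ℝ) ^ 2) ^ 2 *
    (((c3 n ⌈r * n⌉₊ ⌊21 / 20 * r * n⌋₊ B k P g0).filter
      (fun g => m ≤ om K0 K1 g ∧ (∃ t ∈ Pr K2 K3, t ∣ g + 2 * i) ∧ ¬ LkR n c r (K1 ^ m * K3) B k P i g)).card : ℝ) ≤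
  (95 * J * n / c) / B * Sr K2 K3 * Vm c r W K0 K1 K3 m + C * n ^ (199 / 200 : ℝ)

/-- ITEM Ls (MEDIUM; local solvability).  By the Chinese remainder theorem (`Nat.chineseRemainderOfFinset` over the primes `p ∣ P`; being prime to `P` is a condition for each `p ∣ P`) it is enough to find for each prime `p ∣ P` classes `z`, `ρ` mod `p` with `z`, `A = q + ρ`, `t A - 2 z`, `z(g0 + 2i) - t i ρ` not divisible by `p`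
(`q, t, g0, g0 + 2i` are prime to `p`).  `p = 2`: `z = 1`, `ρ = 0`.  `p = 3`: `ρ = 1 - q` (`A = 1`), `z = t`: `tA - 2z = -t`, and `z(g0+2i) - tiρ = t(g0 + 2i - i + iq) = t(g0 + i + iq)`: if `3 ∣ i` it is `t g0`; otherwise `g0` and `g0 + 2i ≡ g0 - i` are units, so `g0 ≡ -i` and it is `t i q`.
`p ≥ 5`: `ρ = 1 - q`, `A = 1`; `z` not in `{0, t/2, t i ρ/(g0 + 2i)}`, at most three classes (a nonzero polynomial of degree `1` in `z` has one root). -/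
def StLs : Prop := ∀ P g0 i q t : ℕ, 1 ≤ P → g0.Coprime P → (g0 + 2 * i).Coprime P → q.Coprime P → t.Coprime P →
  ∃ z ρ : ℕ, Un P g0 1 i q t z ρ

end Pool.Agent.Work.MP_a8fbd7_nt.PAR.RP
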